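import Pool.Agent.Q45.GM.CoreH
import Pool.Agent.Q45.GM.J.FROB

/-!
# Assembly of the theorem on the eigenvalues
-/

set_option autoImplicit false
set_option linter.all false

open Polynomial IsDedekindDomain WithZero
open scoped Classical TensorProduct

namespace Pool.Agent.Q45.GM

open Pool.Agent.Q45.TT (IsQuad FS IsTower exists_field sep_ff)
open Pool.Agent.Q45.TW (cst ff ff_monic ff_natDegree ff_map IsGeom eval₂_ff)
open Pool.Agent.Y160.SQ
open Pool.Agent.TH115.GD (incl rs ak Sep Comp)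

section sep

variable {k : Type} [Field k] {b g : k[X]}

theorem bsep_of (hg0 : 0 < g.natDegree) (h : (b.comp (-g)).Separable) : b.Separable := by
  rw [Separable] at h ⊢
  by_contra hcon
  have hb0 : b ≠ 0 := by
    rintro rfl
    rw [zero_comp, derivative_zero] at h
    obtain ⟨u, v, huv⟩ := h
    rw [mul_zero, mul_zero, add_zero] at huv
    exact zero_ne_one huv
  have h1 : ¬ IsUnit (EuclideanDomain.gcd b (derivative b)) := fun hu =>
    hcon (EuclideanDomain.gcd_isUnit_iff.1 hu)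
  have h2 : EuclideanDomain.gcd b (derivative b) ≠ 0 := by
    intro h0
    exact hb0 (EuclideanDomain.gcd_eq_zero_iff.1 h0).1
  obtain ⟨π, hπ, hdvd⟩ := WfDvdMonoid.exists_irreducible_factor h1 h2
  have h3 : π ∣ b := hdvd.trans (EuclideanDomain.gcd_dvd_left _ _)
  have h4 : π ∣ derivative b := hdvd.trans (EuclideanDomain.gcd_dvd_right _ _)
  obtain ⟨c, hc⟩ := h3
  obtain ⟨c', hc'⟩ := h4
  have h5 : π.comp (-g) ∣ b.comp (-g) := ⟨c.comp (-g), by rw [← mul_comp, ← hc]⟩
  have h6 : π.comp (-g) ∣ derivative (b.comp (-g)) := by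
    rw [derivative_comp]
    exact Dvd.dvd.mul_left ⟨c'.comp (-g), by rw [← mul_comp, ← hc']⟩ _
  have h7 : IsUnit (π.comp (-g)) := h.isUnit_of_dvd' h5 h6
  have h8 := natDegree_eq_zero_of_isUnit h7
  rw [natDegree_comp, natDegree_neg] at h8
  rcases Nat.mul_eq_zero.1 h8 with h9 | h9
  · exact absurd h9 hπ.natDegree_pos.ne'
  · omega

theorem der_of (hg0 : 0 < g.natDegree) (hb0 : 0 < b.natDegree) (h : (b.comp (-g)).Separable) :
    derivative g ≠ 0 := by
  intro h0
  have h1 : derivative (b.comp (-g)) = 0 := by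
    rw [derivative_comp, derivative_neg, h0, neg_zero, zero_mul]
  rw [Separable, h1] at h
  have h2 : IsUnit (b.comp (-g)) := by
    obtain ⟨u, v, huv⟩ := h
    rw [mul_zero, add_zero] at huv
    exact IsUnit.of_mul_eq_one u (by rw [mul_comm]; exact huv)
  have h3 := natDegree_eq_zero_of_isUnit h2
  rw [natDegree_comp, natDegree_neg] at h3
  have := Nat.mul_pos hb0 hg0
  omega

end sep

section stp

variable {k k' K F : Type} [Field k] [Field k'] [Algebra k k'] [Field K] [Algebra k[X] K] [Field F]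
  [Algebra k'[X] F] [Algebra K F] {b g : k[X]} {s : K}

/-- The data over the constant extension. -/
theorem stp_of (h2 : (2 : k) ≠ 0) (hg : g.Monic) (hodd : Odd g.natDegree) (hb0 : 0 < b.natDegree)
    (hsep : (b.comp (-g)).Separable) (hK : IsHE k K b s) (hF : IsGeom k k' K F) :
    Stp (b.map (algebraMap k k')) (g.map (algebraMap k k')) (algebraMap K F s) (ff g K) := by
  have hd := der_of hodd.pos hb0 hsep
  have hirr : Irreducible (ff g K) := hK.tower.irr h2 hg hodd
  have hdeg : (g.map (algebraMap k k')).natDegree = g.natDegree := hg.natDegree_map _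
  refine ⟨?_, hg.map _, by rwa [hdeg], ?_, ?_, ?_, ?_, hK.geom hF, ?_, ?_⟩
  · intro h0
    apply h2
    apply (algebraMap k k').injective
    rw [map_ofNat, map_zero]
    exact h0
  · rw [derivative_map]
    exact (Polynomial.map_ne_zero_iff (algebraMap k k').injective).2 hd
  · rwa [natDegree_map_eq_of_injective (algebraMap k k').injective]
  · exact (bsep_of hodd.pos hsep).map
  · rw [← Polynomial.map_neg, ← map_comp]
    exact hsep.map
  · exact Pool.Agent.Q45.TW.good h2 hg hodd hK.inj (sep_ff hirr hd)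
  · exact (Pool.Agent.Q45.TT.ff_geom hF).symm

end stp

section dist

/-- The conclusions on the endomorphism `φ`. -/
structure HasDist (M : Type) [AddCommGroup M] [Module ℤ_[2] M] [Module.Finite ℤ_[2] M]
    [Module.Free ℤ_[2] M] (φ : M →ₗ[ℤ_[2]] M) (n d : ℕ) : Prop where
  rank : Module.finrank ℤ_[2] M ≤ d * (n - 1)
  modTwo : φ.charpoly.map (PadicInt.toZMod (p := 2)) * (X ^ d - 1) ∣ X ^ (n * d) - 1
  sep : (φ.baseChange ℚ_[2]).charpoly.Separable
  ss : Module.End.IsSemisimple (φ.baseChange ℚ_[2])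
  comm : ∀ ψ : (ℚ_[2] ⊗[ℤ_[2]] M) →ₗ[ℚ_[2]] (ℚ_[2] ⊗[ℤ_[2]] M),
    (∀ m, ψ (φ.baseChange ℚ_[2] m) = φ.baseChange ℚ_[2] (ψ m)) →
      ∃ P : ℚ_[2][X], ψ = aeval (φ.baseChange ℚ_[2]) P
  sepZ : φ.charpoly.Separable
  commZ : ∀ ψ : M →ₗ[ℤ_[2]] M, (∀ m, ψ (φ m) = φ (ψ m)) → ∃ P : ℤ_[2][X], ψ = aeval φ P

theorem hasDist_of (M : Type) [AddCommGroup M] [Module ℤ_[2] M] [Module.Finite ℤ_[2] M]
    [Module.Free ℤ_[2] M] (φ : M →ₗ[ℤ_[2]] M) (n d : ℕ) (hn : Odd n) (hd : Odd d)
    (h : φ.charpoly.map (PadicInt.toZMod (p := 2)) ∣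
      ∑ j ∈ Finset.range n, (X : (ZMod 2)[X]) ^ (j * d)) : HasDist M φ n d := by
  have hgeom : (∑ j ∈ Finset.range n, (X : (ZMod 2)[X]) ^ (j * d)) * (X ^ d - 1) =
      X ^ (n * d) - 1 := by
    have h1 := geom_sum_mul ((X : (ZMod 2)[X]) ^ d) n
    rw [← pow_mul, mul_comm d n] at h1
    rw [← h1]
    congr 1
    refine Finset.sum_congr rfl fun j _ => ?_
    rw [← pow_mul, mul_comm]
  have hN : ((n * d : ℕ) : ZMod 2) ≠ 0 := by
    rw [Ne, ZMod.natCast_eq_zero_iff, ← even_iff_two_dvd, Nat.not_even_iff_odd]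
    exact hn.mul hd
  have hsep : ((X : (ZMod 2)[X]) ^ (n * d) - 1).Separable :=
    X_pow_sub_one_separable_iff.2 hN
  have hdvd : φ.charpoly.map (PadicInt.toZMod (p := 2)) * (X ^ d - 1) ∣ X ^ (n * d) - 1 := by
    rw [← hgeom]
    exact mul_dvd_mul_right h _
  have hs : (φ.charpoly.map (PadicInt.toZMod (p := 2))).Separable :=
    Separable.of_dvd hsep ((dvd_mul_right _ _).trans hdvd)
  obtain ⟨h1, h2, h3, h4, h5⟩ := JLIN2.main 2 M φ hs
  refine ⟨?_, hdvd, h3, h4, h5, h1, h2⟩
  have hne : (X : (ZMod 2)[X]) ^ (n * d) - 1 ≠ 0 := by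
    intro h0
    rw [h0] at hsep
    exact not_separable_zero hsep
  have hd1 : (φ.charpoly.map (PadicInt.toZMod (p := 2)) * ((X : (ZMod 2)[X]) ^ d - 1)).natDegree ≤
      n * d := by
    refine (natDegree_le_of_dvd hdvd hne).trans ?_
    have := natDegree_X_pow_sub_C (n := n * d) (r := (1 : ZMod 2))
    rw [C_1] at this
    exact this.le
  have hm1 : (φ.charpoly.map (PadicInt.toZMod (p := 2))).Monic := (LinearMap.charpoly_monic φ).map _
  have hm2 : ((X : (ZMod 2)[X]) ^ d - 1).Monic := by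
    have := monic_X_pow_sub_C (1 : ZMod 2) hd.pos.ne'
    rwa [C_1] at this
  have hd2 : ((X : (ZMod 2)[X]) ^ d - 1).natDegree = d := by
    have := natDegree_X_pow_sub_C (n := d) (r := (1 : ZMod 2))
    rwa [C_1] at this
  rw [hm1.natDegree_mul hm2, hd2, (LinearMap.charpoly_monic φ).natDegree_map,
    LinearMap.charpoly_natDegree] at hd1
  rw [Nat.mul_sub, mul_one, mul_comm d n]
  omega

end dist

section conj

variable {k k' K F : Type} [Field k] [Field k'] [Algebra k k'] [Field K] [Algebra k[X] K] [Field F]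
  [Algebra k'[X] F] [Algebra K F] {B : Type} [CommRing B] [IsDedekindDomain B] [Algebra k'[X] B]
  [Algebra B F] [IsScalarTower k'[X] B F] [IsFractionRing B F] [IsIntegralClosure B k'[X] F]

/-- The automorphism of `F` preserves `B`. -/
theorem exists_e (hF : IsGeom k k' K F) (τ : k' ≃+* k') (s : F ≃+* F)
    (hs : ∀ x : k', s (algebraMap k'[X] F (C x)) = algebraMap k'[X] F (C (τ x)))
    (hX : s (algebraMap k'[X] F X) = algebraMap k'[X] F X) :
    ∃ e : B ≃+* B, ∀ b, algebraMap B F (e b) = s (algebraMap B F b) := by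
  have hp : ∀ (τ : k' ≃+* k') (s : F ≃+* F),
      (∀ x : k', s (algebraMap k'[X] F (C x)) = algebraMap k'[X] F (C (τ x))) →
      (s (algebraMap k'[X] F X) = algebraMap k'[X] F X) →
      ∀ p : k'[X], s (algebraMap k'[X] F p) = algebraMap k'[X] F (p.map (τ : k' →+* k')) := by
    intro τ s h1 h2 p
    have h3 : (s : F →+* F).comp (algebraMap k'[X] F) =
        (algebraMap k'[X] F).comp (mapRingHom (τ : k' →+* k')) := by
      refine Polynomial.ringHom_ext (fun x => ?_) ?_
      · show s (algebraMap k'[X] F (C x)) = algebraMap k'[X] F ((C x).map (τ : k' →+* k'))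
        rw [h1, map_C]
        rfl
      · show s (algebraMap k'[X] F X) = algebraMap k'[X] F ((X : k'[X]).map (τ : k' →+* k'))
        rw [h2, map_X]
    exact RingHom.congr_fun h3 p
  have hint : ∀ (τ : k' ≃+* k') (s : F ≃+* F),
      (∀ x : k', s (algebraMap k'[X] F (C x)) = algebraMap k'[X] F (C (τ x))) →
      (s (algebraMap k'[X] F X) = algebraMap k'[X] F X) →
      ∀ x : F, IsIntegral k'[X] x → IsIntegral k'[X] (s x) := by
    intro τ s h1 h2 x hx
    obtain ⟨P, hP, hP0⟩ := hx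
    refine ⟨P.map (mapRingHom (τ : k' →+* k')), hP.map _, ?_⟩
    rw [eval₂_map]
    have h3 : (algebraMap k'[X] F).comp (mapRingHom (τ : k' →+* k')) =
        (s : F →+* F).comp (algebraMap k'[X] F) := RingHom.ext fun p => (hp τ s h1 h2 p).symm
    rw [h3]
    have h4 := hom_eval₂ P (algebraMap k'[X] F) (s : F →+* F) x
    rw [hP0, map_zero] at h4
    exact h4.symm
  have hinj : Function.Injective (algebraMap B F) := IsIntegralClosure.algebraMap_injective B k'[X] F
  have hmem : ∀ x : F, IsIntegral k'[X] x ↔ ∃ b : B, algebraMap B F b = x := fun x =>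
    IsIntegralClosure.isIntegral_iff (A := B)
  have hf1 : ∀ b : B, ∃ c : B, algebraMap B F c = s (algebraMap B F b) := fun b =>
    (hmem _).1 (hint τ s hs hX _ ((hmem _).2 ⟨b, rfl⟩))
  have hf2 : ∀ b : B, ∃ c : B, algebraMap B F c = s.symm (algebraMap B F b) := fun b =>
    (hmem _).1 (hint τ.symm s.symm (fun x => by
      rw [RingEquiv.symm_apply_eq, hs, RingEquiv.apply_symm_apply]) (by
      rw [RingEquiv.symm_apply_eq, hX]) _ ((hmem _).2 ⟨b, rfl⟩))
  choose e he using hf1
  choose e' he' using hf2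
  refine ⟨{ toFun := e, invFun := e', left_inv := fun b => hinj ?_, right_inv := fun b => hinj ?_,
            map_mul' := fun a b => hinj ?_, map_add' := fun a b => hinj ?_ }, fun b => he b⟩
  · rw [he', he, RingEquiv.symm_apply_apply]
  · rw [he, he', RingEquiv.apply_symm_apply]
  · rw [he, map_mul, map_mul, map_mul, he, he]
  · rw [he, map_add, map_add, map_add, he, he]

theorem fix_X (hF : IsGeom k k' K F) (s : F ≃ₐ[K] F) :
    s (algebraMap k'[X] F X) = algebraMap k'[X] F X := by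
  have h1 := hF.comp X
  rw [map_X] at h1
  rw [← h1, s.commutes]

end conj

section main

variable {k k' K F : Type} [Field k] [Field k'] [Algebra k k'] [Field K] [Algebra k[X] K] [Field F]
  [Algebra k'[X] F] [Algebra K F] (B : Type) [CommRing B] [IsDedekindDomain B] [Algebra k'[X] B]
  [Algebra B F] [IsScalarTower k'[X] B F] [IsFractionRing B F] [IsIntegralClosure B k'[X] F]
  {b g : k[X]} {s : K}

theorem fin_of [IsSepClosed k'] (h2 : (2 : k) ≠ 0) (hg : g.Monic) (hodd : Odd g.natDegree)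
    (hb0 : 0 < b.natDegree) (hsep : (b.comp (-g)).Separable) (hK : IsHE k K b s)
    (hF : IsGeom k k' K F) :
    Module.Finite ℤ_[2] (SelT (F := F) 2 B (ff g K) 2) ∧
      Module.Free ℤ_[2] (SelT (F := F) 2 B (ff g K) 2) := by
  have hS := stp_of h2 hg hodd hb0 hsep hK hF
  obtain ⟨a, ha⟩ := exists_rt (Ω := Sep F) hS.good
  exact hS.fin ha

theorem tw_of (hF : IsGeom k k' K F) (f : K[X]) (τ : k' ≃+* k') (L : Lift K F (Sep F))
    (hL : ∀ x : k', L.s (algebraMap k'[X] F (C x)) = algebraMap k'[X] F (C (τ x))) :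
    IsTw (actJ 2 (F := F) f) (IsSelmer 2 B f) L.conj (jm 2 f (ak L.T)) := by
  obtain ⟨e, he⟩ := exists_e (B := B) hF τ L.s.toRingEquiv hL (fix_X hF L.s)
  exact lift_isTw f L e he

theorem dist_of [IsSepClosed k'] (h2 : (2 : k) ≠ 0) (hg : g.Monic) (hodd : Odd g.natDegree)
    (hb : Odd b.natDegree) (hsep : (b.comp (-g)).Separable) (hK : IsHE k K b s)
    (hF : IsGeom k k' K F) (τ : k' ≃ₐ[k] k') (r₀ : k') (hr₀ : aeval r₀ (b.comp (-g)) = 0)
    (hcyc : ∀ r : k', aeval r (b.comp (-g)) = 0 → ∃ i : ℕ, r = τ^[i] r₀)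
    (L : Lift K F (Sep F))
    (hL : ∀ x : k', L.s (algebraMap k'[X] F (C x)) = algebraMap k'[X] F (C (τ x)))
    (hT : IsTw (actJ 2 (F := F) (ff g K)) (IsSelmer 2 B (ff g K)) L.conj (jm 2 (ff g K) (ak L.T)))
    [Module.Finite ℤ_[2] (SelT (F := F) 2 B (ff g K) 2)]
    [Module.Free ℤ_[2] (SelT (F := F) 2 B (ff g K) 2)] :
    HasDist (SelT (F := F) 2 B (ff g K) 2) (tw (p := 2) (sel_isLocal 2 B (ff g K)) hT)
      g.natDegree b.natDegree := by
  have hS := stp_of h2 hg hodd hb.pos hsep hK hF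
  obtain ⟨a, ha⟩ := exists_rt (Ω := Sep F) hS.good
  have hmap : ∀ p : k[X], (p.map (algebraMap k k')).map ((τ : k' ≃+* k') : k' →+* k') =
      p.map (algebraMap k k') := by
    intro p
    rw [Polynomial.map_map]
    congr 1
    exact RingHom.ext fun x => τ.commutes x
  have hcomp : (b.map (algebraMap k k')).comp (-(g.map (algebraMap k k'))) =
      (b.comp (-g)).map (algebraMap k k') := by
    rw [map_comp, Polynomial.map_neg]
  have hroot : ∀ r : k', r ∈ RT (b.map (algebraMap k k')) (g.map (algebraMap k k')) ↔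
      aeval r (b.comp (-g)) = 0 := by
    intro r
    unfold RT
    rw [hcomp, Multiset.mem_toFinset, mem_roots (hsep.map).ne_zero, IsRoot.def, eval_map_algebraMap]
  have key := hS.charpoly ha L hT (τ : k' ≃+* k') hL (hmap g) (hmap b) (r₀ := r₀)
    ((hroot _).2 hr₀) (fun r hr => hcyc r ((hroot r).1 hr))
  rw [natDegree_map_eq_of_injective (algebraMap k k').injective,
    natDegree_map_eq_of_injective (algebraMap k k').injective] at key
  exact hasDist_of _ _ _ _ hodd hb key

end main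

end Pool.Agent.Q45.GM
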