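import Mathlib

/-!
# Endomorphisms whose characteristic polynomial modulo `2` is an irreducible cyclotomic polynomial
-/

set_option autoImplicit false
set_option linter.all false

open Polynomial
open scoped Classical

namespace Pool.Agent.Q45.GM

/-- The trace of an endomorphism is the opposite of the second coefficient of the characteristic
polynomial. -/
theorem trace_eq_coeff {M : Type} [AddCommGroup M] [Module ℤ_[2] M] [Module.Finite ℤ_[2] M]
    [Module.Free ℤ_[2] M] (φ : M →ₗ[ℤ_[2]] M) :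
    LinearMap.trace ℤ_[2] M φ = -φ.charpoly.nextCoeff := by
  let b := Module.Free.chooseBasis ℤ_[2] M
  rw [LinearMap.trace_eq_matrix_trace ℤ_[2] b, Matrix.trace_eq_neg_charpoly_nextCoeff,
    LinearMap.charpoly_toMatrix]

/-- The geometric sum. -/
noncomputable def gs (R : Type) [CommRing R] (n d : ℕ) : R[X] :=
  ∑ j ∈ Finset.range n, (X : R[X]) ^ (j * d)

section gs

variable {R : Type} [CommRing R]

theorem gs_mul (n d : ℕ) : gs R n d * (X ^ d - 1) = X ^ (n * d) - 1 := by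
  have h1 := geom_sum_mul ((X : R[X]) ^ d) n
  rw [← pow_mul, mul_comm d n] at h1
  rw [← h1, gs]
  congr 1
  refine Finset.sum_congr rfl fun j _ => ?_
  rw [← pow_mul, mul_comm]

theorem gs_map {S : Type} [CommRing S] (f : R →+* S) (n d : ℕ) : (gs R n d).map f = gs S n d := by
  rw [gs, Polynomial.map_sum, gs]
  refine Finset.sum_congr rfl fun j _ => ?_
  rw [Polynomial.map_pow, map_X]

theorem gs_cyc {n a : ℕ} (hn : n.Prime) : gs R n (n ^ a) = cyclotomic (n ^ (a + 1)) R := by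
  rw [cyclotomic_prime_pow_eq_geom_sum hn, gs]
  refine Finset.sum_congr rfl fun j _ => ?_
  rw [← pow_mul, mul_comm]

theorem gs_coeff (n d i : ℕ) (hi : ¬ d ∣ i) : (gs R n d).coeff i = 0 := by
  rw [gs, finset_sum_coeff]
  refine Finset.sum_eq_zero fun j _ => ?_
  rw [coeff_X_pow, if_neg]
  rintro rfl
  exact hi (dvd_mul_left _ _)

end gs

section core

variable {M : Type} [AddCommGroup M] [Module ℤ_[2] M] [Module.Finite ℤ_[2] M]
  [Module.Free ℤ_[2] M] {φ : M →ₗ[ℤ_[2]] M} {n a : ℕ}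

/-- Coprime polynomials over `ℚ_2`, in terms of `ℤ_2`. -/
theorem of_coprime {P Q : ℤ_[2][X]} (h : IsCoprime (P.map (algebraMap ℤ_[2] ℚ_[2]))
    (Q.map (algebraMap ℤ_[2] ℚ_[2]))) : ∃ (A B : ℤ_[2][X]) (c : ℤ_[2]), c ≠ 0 ∧
      A * P + B * Q = C c := by
  obtain ⟨A, B, hAB⟩ := h
  obtain ⟨c, hc⟩ := IsLocalization.exist_integer_multiples_of_finset (nonZeroDivisors ℤ_[2])
    ((A.support.image A.coeff) ∪ (B.support.image B.coeff))
  have key : ∀ D : ℚ_[2][X], (∀ i ∈ D.support, D.coeff i ∈ (A.support.image A.coeff) ∪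
      (B.support.image B.coeff)) → ∃ D' : ℤ_[2][X], D'.map (algebraMap ℤ_[2] ℚ_[2]) =
        C (algebraMap ℤ_[2] ℚ_[2] c) * D := by
    intro D hD
    have h1 : C (algebraMap ℤ_[2] ℚ_[2] c) * D ∈ (mapRingHom (algebraMap ℤ_[2] ℚ_[2])).range := by
      rw [Polynomial.mem_map_range]
      intro i
      rw [coeff_C_mul]
      by_cases hi : i ∈ D.support
      · obtain ⟨y, hy⟩ := hc _ (hD i hi)
        refine ⟨y, ?_⟩
        rw [hy, Algebra.smul_def]
      · rw [notMem_support_iff.1 hi, mul_zero]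
        exact ⟨0, map_zero _⟩
    obtain ⟨D', hD'⟩ := h1
    exact ⟨D', hD'⟩
  obtain ⟨A', hA'⟩ := key A fun i hi => Finset.mem_union_left _ (Finset.mem_image_of_mem _ hi)
  obtain ⟨B', hB'⟩ := key B fun i hi => Finset.mem_union_right _ (Finset.mem_image_of_mem _ hi)
  refine ⟨A', B', c, nonZeroDivisors.ne_zero c.2, ?_⟩
  apply Polynomial.map_injective _ (IsFractionRing.injective ℤ_[2] ℚ_[2])
  rw [Polynomial.map_add, Polynomial.map_mul, Polynomial.map_mul, hA', hB', map_C, mul_assoc,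
    mul_assoc, ← mul_add, hAB, mul_one]

theorem sub_one_apply (φ : M →ₗ[ℤ_[2]] M) (j : ℕ) (m : M) :
    aeval φ ((X : ℤ_[2][X]) ^ j - 1) m = (φ ^ j) m - m := by
  rw [map_sub, map_pow, aeval_X, map_one, LinearMap.sub_apply]
  rfl

/-- A vector fixed by a power. -/
theorem dvd_of_fixed (hP : Irreducible φ.charpoly) {j : ℕ} {m : M}
    (hm : m ≠ 0) (hj : (φ ^ j) m = m) : φ.charpoly.map (algebraMap ℤ_[2] ℚ_[2]) ∣
      (X ^ j - 1 : ℤ_[2][X]).map (algebraMap ℤ_[2] ℚ_[2]) := by
  have hP' : Irreducible (φ.charpoly.map (algebraMap ℤ_[2] ℚ_[2])) :=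
    (Monic.irreducible_iff_irreducible_map_fraction_map (LinearMap.charpoly_monic φ)).1 hP
  by_contra hnd
  have h1 := hP'.coprime_iff_not_dvd.2 hnd
  · exfalso
    obtain ⟨A, B, c, hc, hAB⟩ := of_coprime h1
    have h2 := congrArg (fun P : ℤ_[2][X] => aeval φ P m) hAB
    simp only [map_add, map_mul, LinearMap.aeval_self_charpoly, mul_zero, zero_add, aeval_C] at h2
    have h3 : aeval φ ((X : ℤ_[2][X]) ^ j - 1) m = 0 := by rw [sub_one_apply, hj, sub_self]
    have h4 : (aeval φ B * aeval φ ((X : ℤ_[2][X]) ^ j - 1)) m = 0 := by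
      show aeval φ B (aeval φ ((X : ℤ_[2][X]) ^ j - 1) m) = 0
      rw [h3, map_zero]
    rw [h4] at h2
    have h5 : c • m = 0 := h2.symm
    exact hm ((smul_eq_zero.1 h5).resolve_left hc)

theorem core (hn : n.Prime) (hn2 : n ≠ 2) (ha : 1 ≤ a)
    (hord : orderOf (2 : ZMod (n ^ (a + 1))) = n ^ a * (n - 1))
    (h : φ.charpoly.map (PadicInt.toZMod (p := 2)) ∣ gs (ZMod 2) n (n ^ a))
    (hsq : ∀ (m : M) (j : ℕ), 0 < j → (φ ^ j) m = m → (φ ^ (2 * n ^ (a + 1))) m = m) :
    (Module.finrank ℤ_[2] M = 0 ∨ Module.finrank ℤ_[2] M = n ^ a * (n - 1)) ∧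
    ((∀ (m : M) (j : ℕ), 0 < j → (φ ^ j) m = m → m = 0) ∨ φ.charpoly = gs ℤ_[2] n (n ^ a) ∨
      φ.charpoly = (gs ℤ_[2] n (n ^ a)).comp (-X)) := by
  have hno : Odd n := hn.odd_of_ne_two hn2
  have hN0 : n ^ (a + 1) ≠ 0 := pow_ne_zero _ hn.ne_zero
  have h2N : ¬ 2 ∣ n ^ (a + 1) := by
    intro h1
    have h3 : 2 ∣ n := Nat.prime_two.dvd_of_dvd_pow h1
    exact (Nat.not_even_iff_odd.2 hno) (even_iff_two_dvd.2 h3)
  have htot : Nat.totient (n ^ (a + 1)) = n ^ a * (n - 1) := Nat.totient_prime_pow_succ hn a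
  have hirr : Irreducible (gs (ZMod 2) n (n ^ a)) := by
    rw [gs_cyc hn]
    refine ZMod.irreducible_of_dvd_cyclotomic_of_natDegree (p := 2) h2N dvd_rfl ?_
    rw [natDegree_cyclotomic, htot, ← hord, ← orderOf_units, ZMod.coe_unitOfCoprime]
    rfl
  have hmon : φ.charpoly.Monic := LinearMap.charpoly_monic φ
  have hgm : (gs (ZMod 2) n (n ^ a)).Monic := by
    rw [gs_cyc hn]; exact cyclotomic.monic _ _
  have hgmZ : (gs ℤ_[2] n (n ^ a)).Monic := by
    rw [gs_cyc hn]; exact cyclotomic.monic _ _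
  have hgdZ : (gs ℤ_[2] n (n ^ a)).natDegree = n ^ a * (n - 1) := by
    rw [gs_cyc hn, natDegree_cyclotomic, htot]
  have hgd : (gs (ZMod 2) n (n ^ a)).natDegree = n ^ a * (n - 1) := by
    rw [gs_cyc hn, natDegree_cyclotomic, htot]
  -- two cases
  rcases (hirr.dvd_iff).1 h with h1 | h1
  · have h2 : φ.charpoly.map (PadicInt.toZMod (p := 2)) = 1 := (hmon.map _).eq_one_of_isUnit h1
    have h3 : Module.finrank ℤ_[2] M = 0 := by
      rw [← LinearMap.charpoly_natDegree φ, ← hmon.natDegree_map (PadicInt.toZMod (p := 2)), h2,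
        natDegree_one]
    haveI : Subsingleton M := Module.finrank_zero_iff.1 h3
    exact ⟨Or.inl h3, Or.inl fun m _ _ _ => Subsingleton.elim _ _⟩
  · have h2 : φ.charpoly.map (PadicInt.toZMod (p := 2)) = gs (ZMod 2) n (n ^ a) :=
      eq_of_monic_of_associated (hmon.map _) hgm h1.symm
    have hr : φ.charpoly.natDegree = n ^ a * (n - 1) := by
      rw [← hmon.natDegree_map (PadicInt.toZMod (p := 2)), h2, hgd]
    have hPirr : Irreducible φ.charpoly :=
      hmon.irreducible_of_irreducible_map (PadicInt.toZMod (p := 2)) _ (h2 ▸ hirr)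
    refine ⟨Or.inr (by rw [← LinearMap.charpoly_natDegree φ, hr]), ?_⟩
    by_cases hall : ∀ (m : M) (j : ℕ), 0 < j → (φ ^ j) m = m → m = 0
    · exact Or.inl hall
    right
    obtain ⟨m, h3⟩ := not_forall.1 hall
    obtain ⟨j, h4⟩ := not_forall.1 h3
    obtain ⟨hj, h5⟩ := Classical.not_imp.1 h4
    obtain ⟨hjm, hm⟩ := Classical.not_imp.1 h5
    clear h3 h4 h5
    have hd := dvd_of_fixed hPirr hm (hsq m j hj hjm)
    have hP' : Prime (φ.charpoly.map (algebraMap ℤ_[2] ℚ_[2])) :=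
      ((Monic.irreducible_iff_irreducible_map_fraction_map hmon).1 hPirr).prime
    have hsepN : ((X : (ZMod 2)[X]) ^ (n ^ (a + 1)) - 1).Separable := by
      rw [X_pow_sub_one_separable_iff]
      rwa [Ne, ZMod.natCast_eq_zero_iff]
    have hnn : n * n ^ a = n ^ (a + 1) := (pow_succ' n a).symm
    -- the division of `X ^ N - 1`
    have hdiv : ∀ P : ℤ_[2][X], P.Monic → P.natDegree = n ^ a * (n - 1) →
        P.map (PadicInt.toZMod (p := 2)) = gs (ZMod 2) n (n ^ a) →
        Prime (P.map (algebraMap ℤ_[2] ℚ_[2])) →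
        P.map (algebraMap ℤ_[2] ℚ_[2]) ∣ (X ^ (n ^ (a + 1)) - 1 : ℤ_[2][X]).map
          (algebraMap ℤ_[2] ℚ_[2]) → P = gs ℤ_[2] n (n ^ a) := by
      intro P hPm hPd hP2 hPp hPdvd
      rw [← hnn, ← gs_mul, Polynomial.map_mul] at hPdvd
      rcases hPp.dvd_or_dvd hPdvd with h3 | h3
      · have h4 := (Monic.dvd_iff_fraction_map_dvd_fraction_map hgmZ hPm).1 h3
        exact (eq_of_monic_of_dvd_of_natDegree_le hPm hgmZ h4 (by rw [hPd, hgdZ])).symm
      · exfalso
        have hm1 : ((X : ℤ_[2][X]) ^ (n ^ a) - 1).Monic := by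
          have := monic_X_pow_sub_C (1 : ℤ_[2]) (pow_ne_zero a hn.ne_zero)
          rwa [C_1] at this
        have h4 := (Monic.dvd_iff_fraction_map_dvd_fraction_map hm1 hPm).1 h3
        have h5 := Polynomial.map_dvd (PadicInt.toZMod (p := 2)) h4
        rw [hP2, Polynomial.map_sub, Polynomial.map_pow, map_X, Polynomial.map_one] at h5
        have h6 : gs (ZMod 2) n (n ^ a) * gs (ZMod 2) n (n ^ a) ∣
            (X : (ZMod 2)[X]) ^ (n ^ (a + 1)) - 1 := by
          rw [← hnn, ← gs_mul]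
          exact mul_dvd_mul_left _ h5
        exact hirr.not_isUnit (hsepN.squarefree _ h6)
    have hfac : (X ^ (2 * n ^ (a + 1)) - 1 : ℤ_[2][X]) =
        (X ^ (n ^ (a + 1)) - 1) * (X ^ (n ^ (a + 1)) + 1) := by
      rw [mul_comm 2, pow_mul]
      ring
    rw [hfac, Polynomial.map_mul] at hd
    rcases hP'.dvd_or_dvd hd with h3 | h3
    · exact Or.inl (hdiv _ hmon hr h2 hP' h3)
    · right
      -- the polynomial `P(-X)`
      have hev : Even φ.charpoly.natDegree := by
        rw [hr]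
        exact (Nat.Odd.sub_odd hno odd_one).mul_left _
      have hQm : (φ.charpoly.comp (-X)).Monic := by
        have h4 := hmon.neg_one_pow_natDegree_mul_comp_neg_X
        rwa [hev.neg_one_pow, one_mul] at h4
      have hmc : ∀ {S : Type} [CommRing S] (f : ℤ_[2] →+* S) (P : ℤ_[2][X]),
          (P.comp (-X)).map f = (P.map f).comp (-X) := by
        intro S _ f P
        rw [Polynomial.map_comp, Polynomial.map_neg, map_X]
      have hQp : Prime ((φ.charpoly.comp (-X)).map (algebraMap ℤ_[2] ℚ_[2])) := by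
        rw [hmc]
        let e : ℚ_[2][X] ≃ₐ[ℚ_[2]] ℚ_[2][X] := algEquivAevalNegX
        have h4 : ∀ P : ℚ_[2][X], P.comp (-X) = e P := fun P => rfl
        rw [h4]
        exact (MulEquiv.prime_iff e.toMulEquiv).2 hP'
      have hQ : φ.charpoly.comp (-X) = gs ℤ_[2] n (n ^ a) := by
        refine hdiv _ hQm ?_ ?_ hQp ?_
        · rw [natDegree_comp, natDegree_neg, natDegree_X, mul_one, hr]
        · rw [hmc, h2]
          have h5 : (-X : (ZMod 2)[X]) = X := by
            rw [neg_eq_iff_add_eq_zero]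
            exact CharTwo.add_self_eq_zero X
          rw [h5, comp_X]
        · rw [hmc]
          have h5 := Polynomial.map_dvd (Polynomial.compRingHom (-X : ℚ_[2][X])) (show
            (X : ℚ_[2][X][X]) ∣ X from dvd_rfl)
          clear h5
          obtain ⟨R, hR⟩ := h3
          have h6 := congrArg (fun P : ℚ_[2][X] => P.comp (-X)) hR
          simp only [mul_comp] at h6
          refine (Dvd.intro _ h6.symm).trans ?_
          rw [Polynomial.map_add, Polynomial.map_pow, map_X, Polynomial.map_one, add_comp, pow_comp,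
            X_comp, one_comp, (hno.pow).neg_pow, Polynomial.map_sub, Polynomial.map_pow, map_X,
            Polynomial.map_one]
          exact ⟨-1, by ring⟩
      rw [← hQ, comp_neg_X_comp_neg_X]

/-- The trace of the two polynomials is zero. -/
theorem trace_ne (hn : n.Prime) (hn2 : n ≠ 2) (ha : 1 ≤ a)
    (h : φ.charpoly = gs ℤ_[2] n (n ^ a) ∨ φ.charpoly = (gs ℤ_[2] n (n ^ a)).comp (-X)) :
    LinearMap.trace ℤ_[2] M φ = 0 := by
  have hgdZ : (gs ℤ_[2] n (n ^ a)).natDegree = n ^ a * (n - 1) := by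
    rw [gs_cyc hn, natDegree_cyclotomic, Nat.totient_prime_pow_succ hn a]
  have hd : φ.charpoly.natDegree = n ^ a * (n - 1) := by
    rcases h with h | h
    · rw [h, hgdZ]
    · rw [h, natDegree_comp, natDegree_neg, natDegree_X, mul_one, hgdZ]
  have hn1 : 1 < n := hn.one_lt
  have hna : 1 < n ^ a := Nat.one_lt_pow (by omega) hn1
  have hpos : 0 < n ^ a * (n - 1) := Nat.mul_pos (by omega) (by omega)
  have hnd : ¬ n ^ a ∣ n ^ a * (n - 1) - 1 := by
    intro h1
    have h3 := (Nat.dvd_sub (dvd_mul_right (n ^ a) (n - 1)) h1)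
    rw [Nat.sub_sub_self (by omega)] at h3
    exact absurd (Nat.le_of_dvd one_pos h3) (by omega)
  rw [trace_eq_coeff, nextCoeff_of_natDegree_pos (by omega), hd]
  rcases h with h | h
  · rw [h, gs_coeff _ _ _ hnd, neg_zero]
  · have h1 : (-X : ℤ_[2][X]) = C (-1) * X := by rw [C_neg, C_1, neg_one_mul]
    rw [h, h1, comp_C_mul_X_coeff, gs_coeff _ _ _ hnd, zero_mul, neg_zero]

end core

end Pool.Agent.Q45.GM
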