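import Pool.Agent.Q45.GM.Dich2

/-!
# Irreducible endomorphisms modulo `2`: the final form of the dichotomy
-/

set_option autoImplicit false
set_option linter.all false

open Polynomial
open scoped Classical

namespace Pool.Agent.Q45.GM

section dich

variable {M : Type} [AddCommGroup M] [Module ℤ_[2] M] [Module.Finite ℤ_[2] M]
  [Module.Free ℤ_[2] M] (φ : M →ₗ[ℤ_[2]] M) {V : Type} [AddCommGroup V] [Module (ZMod 2) V]
  [Module.Finite (ZMod 2) V] (E : V →ₗ[ZMod 2] V) (κ : M →+ V)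

theorem dich_poly (hk : ∀ m, κ m = 0 ↔ ∃ m', m = (2 : ℤ_[2]) • m')
    (hE : ∀ m, κ (φ m) = E (κ m)) (hirr : Irreducible E.charpoly) (N : ℕ)
    (hN : E.charpoly ∣ X ^ N - 1) :
    (∀ m, m ≠ 0 → ∀ j : ℕ, 0 < j → (φ ^ j) m ≠ m) ∨ φ.charpoly ∣ X ^ N - 1 ∨
      φ.charpoly ∣ X ^ N + 1 := by
  rcases dich φ E κ hk hE hirr N hN with h | h | h
  · exact Or.inl h
  · refine Or.inr (Or.inl (dvd_of_kill φ E κ hk hE hirr _ fun m => ?_))
    rw [map_sub, map_pow, aeval_X, map_one]
    show (φ ^ N) m - m = 0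
    rw [h, sub_self]
  · refine Or.inr (Or.inr (dvd_of_kill φ E κ hk hE hirr _ fun m => ?_))
    rw [map_add, map_pow, aeval_X, map_one]
    show (φ ^ N) m + m = 0
    rw [h, neg_add_cancel]

theorem dich_int (hk : ∀ m, κ m = 0 ↔ ∃ m', m = (2 : ℤ_[2]) • m')
    (hE : ∀ m, κ (φ m) = E (κ m)) (hirr : Irreducible E.charpoly) (N : ℕ) (hN0 : 0 < N)
    (hN : E.charpoly ∣ X ^ N - 1) (P : ℤ[X]) (hP : P.map (Int.castRingHom ℤ_[2]) = φ.charpoly) :
    (∀ m, m ≠ 0 → ∀ j : ℕ, 0 < j → (φ ^ j) m ≠ m) ∨ ∃ d, d ∣ 2 * N ∧ P = cyclotomic d ℤ := by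
  have h2c : ((2 : ℕ) : ℤ_[2]) = 2 := Nat.cast_ofNat
  rcases dich_rank φ E κ hk hE hirr with h0 | h0
  · left
    haveI : Subsingleton M := Module.finrank_zero_iff.1 h0
    intro m hm
    exact absurd (Subsingleton.elim m 0) hm
  rcases dich_poly φ E κ hk hE hirr N hN with h | h
  · exact Or.inl h
  right
  have hd : φ.charpoly ∣ X ^ (2 * N) - 1 := by
    have h1 : (X ^ (2 * N) - 1 : ℤ_[2][X]) = (X ^ N - 1) * (X ^ N + 1) := by ring
    rw [h1]
    rcases h with h | h
    · exact h.mul_right _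
    · exact h.mul_left _
  have hinj : Function.Injective (Int.castRingHom ℤ_[2]) := Int.cast_injective
  have hPm : P.Monic := by
    refine monic_of_injective hinj ?_
    rw [hP]
    exact LinearMap.charpoly_monic φ
  have hPd : P ∣ X ^ (2 * N) - 1 := by
    rw [← map_dvd_map _ hinj hPm, hP, Polynomial.map_sub, Polynomial.map_pow, map_X,
      Polynomial.map_one]
    exact hd
  have hmod : φ.charpoly.map (PadicInt.toZMod (p := 2)) = E.charpoly := by
    have hdv := Pool.Agent.Q151.GM.lin8 2 M φ V E κ (fun m => by rw [hk, h2c]) hE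
    refine (eq_of_monic_of_dvd_of_natDegree_le ((LinearMap.charpoly_monic φ).map _)
      (LinearMap.charpoly_monic E) hdv ?_).symm
    rw [(LinearMap.charpoly_monic φ).natDegree_map, LinearMap.charpoly_natDegree,
      LinearMap.charpoly_natDegree, h0]
  have hPirr : Irreducible P := by
    refine hPm.irreducible_of_irreducible_map ((PadicInt.toZMod (p := 2)).comp
      (Int.castRingHom ℤ_[2])) P ?_
    rw [← Polynomial.map_map, hP, hmod]
    exact hirr
  have h2N : 0 < 2 * N := by omega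
  rw [← prod_cyclotomic_eq_X_pow_sub_one h2N, hPirr.prime.dvd_finset_prod_iff] at hPd
  obtain ⟨d, hd1, hd2⟩ := hPd
  have hd3 : d ∣ 2 * N := Nat.dvd_of_mem_divisors hd1
  refine ⟨d, hd3, ?_⟩
  have hdpos : 0 < d := Nat.pos_of_dvd_of_pos hd3 h2N
  have h5 : Associated P (cyclotomic d ℤ) := hPirr.associated_of_dvd (cyclotomic.irreducible hdpos) hd2
  exact eq_of_monic_of_associated hPm (cyclotomic.monic d ℤ) h5

end dich

end Pool.Agent.Q45.GM
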