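import Pool.Agent.Q45.GM.Dich
import Pool.Agent.Q45.GM.J.LIN6

/-!
# Irreducible endomorphisms modulo `2`: the characteristic polynomial
-/

set_option autoImplicit false
set_option linter.all false

open Polynomial
open scoped Classical

namespace Pool.Agent.Q45.GM

section dich

variable {M : Type} [AddCommGroup M] [Module ℤ_[2] M] [Module.Finite ℤ_[2] M]
  [Module.Free ℤ_[2] M] (φ : M →ₗ[ℤ_[2]] M) {V : Type} [AddCommGroup V] [Module (ZMod 2) V]
  [Module.Finite (ZMod 2) V] (E : V →ₗ[ZMod 2] V) (κ : M →+ V)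

theorem kap_smul (hk : ∀ m, κ m = 0 ↔ ∃ m', m = (2 : ℤ_[2]) • m') (a : ℤ_[2]) (m : M) :
    κ (a • m) = (PadicInt.toZMod (p := 2) a) • κ m := by
  have h1 : ∃ b : ℤ_[2], a = ((PadicInt.toZMod (p := 2) a).val : ℤ_[2]) + 2 * b := by
    have h2 : a - ((PadicInt.toZMod (p := 2) a).val : ℤ_[2]) ∈
        RingHom.ker (PadicInt.toZMod (p := 2)) := by
      rw [RingHom.mem_ker, map_sub, map_natCast, ZMod.natCast_zmod_val, sub_self]
    rw [PadicInt.ker_toZMod, PadicInt.maximalIdeal_eq_span_p, Ideal.mem_span_singleton] at h2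
    obtain ⟨b, hb⟩ := h2
    exact ⟨b, by
      have h3 : ((2 : ℕ) : ℤ_[2]) = 2 := Nat.cast_ofNat
      rw [h3] at hb
      linear_combination hb⟩
  obtain ⟨b, hb⟩ := h1
  set n : ℕ := (PadicInt.toZMod (p := 2) a).val with hn
  have h4 : a • m = (n : ℤ_[2]) • m + (2 : ℤ_[2]) • (b • m) := by
    conv_lhs => rw [hb]
    rw [add_smul, mul_smul]
  have h5 : κ ((2 : ℤ_[2]) • (b • m)) = 0 := (hk _).2 ⟨_, rfl⟩
  have h6 : PadicInt.toZMod (p := 2) a = ((n : ℕ) : ZMod 2) := (ZMod.natCast_zmod_val _).symm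
  rw [h4, map_add, h5, add_zero, h6, Nat.cast_smul_eq_nsmul, Nat.cast_smul_eq_nsmul, map_nsmul]

theorem kap_aeval (hk : ∀ m, κ m = 0 ↔ ∃ m', m = (2 : ℤ_[2]) • m')
    (hE : ∀ m, κ (φ m) = E (κ m)) (D : ℤ_[2][X]) (m : M) :
    κ ((aeval φ D) m) = (aeval E (D.map (PadicInt.toZMod (p := 2)))) (κ m) := by
  have hp : ∀ (i : ℕ) (m : M), κ ((φ ^ i) m) = (E ^ i) (κ m) := by
    intro i
    induction i with
    | zero => intro m; rfl
    | succ i ih =>
      intro m
      rw [pow_succ' φ, pow_succ' E]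
      show κ (φ ((φ ^ i) m)) = E ((E ^ i) (κ m))
      rw [hE, ih]
  induction D using Polynomial.induction_on' with
  | add D D' h h' =>
    rw [map_add, Polynomial.map_add, map_add]
    show κ ((aeval φ D) m + (aeval φ D') m) = _ + _
    rw [map_add, h, h']
  | monomial n a =>
    rw [Polynomial.map_monomial, aeval_monomial, aeval_monomial]
    show κ (a • ((φ ^ n) m)) = (PadicInt.toZMod (p := 2) a) • ((E ^ n) (κ m))
    rw [kap_smul κ hk, hp]

/-- The polynomials which kill `φ`. -/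
theorem dvd_of_kill (hk : ∀ m, κ m = 0 ↔ ∃ m', m = (2 : ℤ_[2]) • m')
    (hE : ∀ m, κ (φ m) = E (κ m)) (hirr : Irreducible E.charpoly) (D : ℤ_[2][X])
    (hD : ∀ m, (aeval φ D) m = 0) : φ.charpoly ∣ D := by
  rcases dich_rank φ E κ hk hE hirr with h0 | h0
  · have h1 : φ.charpoly.natDegree = 0 := by rw [LinearMap.charpoly_natDegree, h0]
    have h2 : φ.charpoly = 1 := (LinearMap.charpoly_monic φ).natDegree_eq_zero.1 h1
    rw [h2]
    exact one_dvd _
  have hmon := LinearMap.charpoly_monic φ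
  rw [← modByMonic_eq_zero_iff_dvd hmon]
  by_contra hr
  set r := D %ₘ φ.charpoly with hrd
  have hr1 : ∀ m, (aeval φ r) m = 0 := by
    intro m
    have h1 := modByMonic_add_div D φ.charpoly
    have h2 : aeval φ D = aeval φ r + aeval φ φ.charpoly * aeval φ (D /ₘ φ.charpoly) := by
      rw [← map_mul, ← map_add, h1]
    rw [LinearMap.aeval_self_charpoly, zero_mul, add_zero] at h2
    rw [← h2]
    exact hD m
  have hnu : ¬ IsUnit (C (2 : ℤ_[2]) : ℤ_[2][X]) := by
    rw [isUnit_C]
    intro hu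
    have h1 : ((2 : ℕ) : ℤ_[2]) = 2 := Nat.cast_ofNat
    rw [← h1] at hu
    exact (PadicInt.prime_p (p := 2)).not_unit hu
  obtain ⟨r', hr', hrr⟩ :=
    (FiniteMultiplicity.of_not_isUnit hnu hr).exists_eq_pow_mul_and_not_dvd
  set s := multiplicity (C (2 : ℤ_[2]) : ℤ_[2][X]) r with hs
  -- `r'` kills `φ`
  have hr'1 : ∀ m, (aeval φ r') m = 0 := by
    intro m
    have h1 : (aeval φ r) m = (2 : ℤ_[2]) ^ s • (aeval φ r') m := by
      conv_lhs => rw [hr']
      rw [← C_pow, ← smul_eq_C_mul, map_smul]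
      rfl
    rw [hr1] at h1
    rcases smul_eq_zero.1 h1.symm with h3 | h3
    · exact absurd h3 (pow_ne_zero _ two_ne_zero)
    · exact h3
  have hr'2 : r'.map (PadicInt.toZMod (p := 2)) ≠ 0 := by
    intro h1
    apply hrr
    rw [C_dvd_iff_dvd_coeff]
    intro i
    have h2 : PadicInt.toZMod (p := 2) (r'.coeff i) = 0 := by
      rw [← coeff_map, h1, coeff_zero]
    have h3 : r'.coeff i ∈ RingHom.ker (PadicInt.toZMod (p := 2)) := h2
    rw [PadicInt.ker_toZMod, PadicInt.maximalIdeal_eq_span_p, Ideal.mem_span_singleton] at h3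
    have h4 : ((2 : ℕ) : ℤ_[2]) = 2 := Nat.cast_ofNat
    rwa [h4] at h3
  have hr'3 : r'.natDegree < φ.charpoly.natDegree := by
    have h1 : r.natDegree < φ.charpoly.natDegree := by
      refine natDegree_modByMonic_lt D hmon ?_
      intro h2
      have h3 : φ.charpoly.natDegree = 0 := by rw [h2, natDegree_one]
      rw [LinearMap.charpoly_natDegree, h0, ← LinearMap.charpoly_natDegree E] at h3
      exact hirr.natDegree_pos.ne' h3
    have h2 : r.natDegree = r'.natDegree := by
      conv_lhs => rw [hr']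
      rw [← C_pow, natDegree_C_mul (pow_ne_zero _ two_ne_zero)]
    rw [← h2]
    exact h1
  set R' := r'.map (PadicInt.toZMod (p := 2)) with hR'
  have h5 : ∀ m, (aeval E R') (κ m) = 0 := by
    intro m
    rw [← kap_aeval φ E κ hk hE, hr'1, map_zero]
  have h2c : ((2 : ℕ) : ℤ_[2]) = 2 := Nat.cast_ofNat
  obtain ⟨m₀, hm₀⟩ : ∃ m, κ m ≠ 0 := by
    by_contra hne
    have h6 : ∀ m, κ m = 0 := fun m => by
      by_contra h7
      exact hne ⟨m, h7⟩
    have h7 := JLIN6.main 2 M V κ 0 (fun m => by rw [hk, h2c]) (by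
      have h8 : κ.range = ⊥ := by
        rw [eq_bot_iff]
        rintro _ ⟨m, rfl⟩
        rw [h6]
        exact zero_mem _
      rw [h8, pow_zero]
      exact AddSubgroup.card_bot)
    rw [h7] at h0
    rw [← LinearMap.charpoly_natDegree E] at h0
    exact hirr.natDegree_pos.ne h0
  have hcE : ∀ v, (aeval E R') (E v) = E ((aeval E R') v) := by
    intro v
    have h6 : aeval E R' * E = E * aeval E R' := by
      have h7 : aeval E (R' * X) = aeval E (X * R') := by rw [mul_comm]
      rwa [map_mul, map_mul, aeval_X] at h7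
    exact LinearMap.congr_fun h6 v
  have hst : ∀ v ∈ LinearMap.ker (aeval E R'), E v ∈ LinearMap.ker (aeval E R') := by
    intro v hv
    rw [LinearMap.mem_ker] at hv ⊢
    rw [hcE, hv, map_zero]
  have hdv := Pool.Agent.Q151.GM.lin9 (ZMod 2) V E (LinearMap.ker (aeval E R')) hst
  have hker : LinearMap.ker (aeval E R') = ⊤ := by
    rcases hirr.isUnit_or_isUnit hdv.choose_spec with h6 | h6
    · exfalso
      have h7 : (E.restrict hst).charpoly.natDegree = 0 := natDegree_eq_zero_of_isUnit h6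
      rw [LinearMap.charpoly_natDegree] at h7
      haveI : Subsingleton (LinearMap.ker (aeval E R')) := Module.finrank_zero_iff.1 h7
      have h8 : (⟨κ m₀, LinearMap.mem_ker.2 (h5 m₀)⟩ : LinearMap.ker (aeval E R')) = 0 :=
        Subsingleton.elim _ _
      exact hm₀ (congrArg Subtype.val h8)
    · have h7 : (E.restrict hst).charpoly.natDegree = E.charpoly.natDegree := by
        conv_rhs => rw [hdv.choose_spec]
        rw [natDegree_mul (LinearMap.charpoly_monic _).ne_zero h6.ne_zero,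
          natDegree_eq_zero_of_isUnit h6, add_zero]
      rw [LinearMap.charpoly_natDegree, LinearMap.charpoly_natDegree] at h7
      exact Submodule.eq_top_of_finrank_eq h7
  have hz : aeval E R' = 0 := LinearMap.ker_eq_top.1 hker
  have h8 : minpoly (ZMod 2) E ∣ R' := minpoly.dvd _ _ hz
  have h9 : minpoly (ZMod 2) E ∣ E.charpoly := LinearMap.minpoly_dvd_charpoly E
  have h10 : E.charpoly ∣ minpoly (ZMod 2) E := by
    obtain ⟨Q, hQ⟩ := h9
    rcases hirr.isUnit_or_isUnit hQ with h11 | h11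
    · exfalso
      have h12 : minpoly (ZMod 2) E = 1 :=
        (minpoly.monic (Algebra.IsIntegral.isIntegral E)).eq_one_of_isUnit h11
      have h13 := minpoly.aeval (ZMod 2) E
      rw [h12, map_one] at h13
      have h14 : κ m₀ = 0 := by
        have h15 : (1 : V →ₗ[ZMod 2] V) (κ m₀) = 0 := by rw [h13]; rfl
        exact h15
      exact hm₀ h14
    · rw [hQ]
      obtain ⟨u, hu⟩ := h11
      rw [← hu]
      exact (Units.mul_right_dvd).2 (dvd_refl _)
  have h11 := natDegree_le_of_dvd (h10.trans h8) hr'2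
  have h12 : R'.natDegree ≤ r'.natDegree := natDegree_map_le
  rw [LinearMap.charpoly_natDegree] at h11 hr'3
  omega

end dich

end Pool.Agent.Q45.GM
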