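import Pool.Agent.Q45.GM.Mod
import Pool.Agent.Q45.GM.J.LIFTS
import Pool.Agent.Q45.GM.J.LIFTT

/-!
# The action of the automorphisms of the separable closure of `F` over `K`
-/

set_option autoImplicit false
set_option linter.all false

open Polynomial IsDedekindDomain WithZero
open scoped Classical TensorProduct

namespace Pool.Agent.Q45.GM

open Pool.Agent.Q45.TW (IsGeom)
open Pool.Agent.Y160.SQ
open Pool.Agent.TH115.GD (incl rs ak Sep Comp)

section tau

variable {k k' K F : Type} [Field k] [Field k'] [Algebra k k'] [Field K] [Algebra k[X] K] [Field F]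
  [Algebra k'[X] F] [Algebra K F]

/-- The constants in `Sep F`. -/
noncomputable def cs (k' F : Type) [Field k'] [Field F] [Algebra k'[X] F] : k' →+* Sep F :=
  (algebraMap F (Sep F)).comp ((algebraMap k'[X] F).comp C)

theorem cs_apply (x : k') : cs k' F x = algebraMap F (Sep F) (algebraMap k'[X] F (C x)) := rfl

/-- The constants of `K`. -/
theorem cs_base (hF : IsGeom k k' K F) (a : k) :
    cs k' F (algebraMap k k' a) = algebraMap K (Sep F) (algebraMap k[X] K (C a)) := by
  have h := hF.comp (C a)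
  rw [map_C] at h
  rw [cs_apply, ← h, ← IsScalarTower.algebraMap_apply K F (Sep F)]

theorem exists_img [IsSepClosed k'] [Algebra.IsSeparable k k'] (hF : IsGeom k k' K F)
    (T : Sep F ≃ₐ[K] Sep F) (x : k') : ∃ y : k', T (cs k' F x) = cs k' F y := by
  have hs : (minpoly k x).Separable := Algebra.IsSeparable.isSeparable k x
  have hspl : ((minpoly k x).map (algebraMap k k')).Splits := IsSepClosed.splits_of_separable _ hs.map
  have hm : ((minpoly k x).map (algebraMap k k')).Monic :=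
    (minpoly.monic (Algebra.IsIntegral.isIntegral x)).map _
  have h0 : eval₂ ((cs k' F).comp (algebraMap k k')) (T (cs k' F x)) (minpoly k x) = 0 := by
    have h1 : eval₂ ((cs k' F).comp (algebraMap k k')) (cs k' F x) (minpoly k x) = 0 := by
      have h2 := hom_eval₂ (minpoly k x) (algebraMap k k') (cs k' F) x
      rw [← h2]
      have h3 : eval₂ (algebraMap k k') x (minpoly k x) = 0 := minpoly.aeval k x
      rw [h3, map_zero]
    have h2 := hom_eval₂ (minpoly k x) ((cs k' F).comp (algebraMap k k')) (T : Sep F →+* Sep F)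
      (cs k' F x)
    rw [h1, map_zero] at h2
    have h3 : (T : Sep F →+* Sep F).comp ((cs k' F).comp (algebraMap k k')) =
        (cs k' F).comp (algebraMap k k') := by
      refine RingHom.ext fun a => ?_
      show T (cs k' F (algebraMap k k' a)) = cs k' F (algebraMap k k' a)
      rw [cs_base hF, T.commutes]
    rw [h3] at h2
    exact h2.symm
  have h1 : (((minpoly k x).map (algebraMap k k')).map (cs k' F)).eval (T (cs k' F x)) = 0 := by
    rw [Polynomial.map_map, eval_map]
    exact h0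
  rw [hspl.eq_prod_roots_of_monic hm, Polynomial.map_multiset_prod, Multiset.map_map,
    eval_multiset_prod, Multiset.map_map, Multiset.prod_eq_zero_iff, Multiset.mem_map] at h1
  obtain ⟨y, -, hy⟩ := h1
  refine ⟨y, ?_⟩
  have h2 : ((X - C y : k'[X]).map (cs k' F)).eval (T (cs k' F x)) = 0 := hy
  rw [Polynomial.map_sub, map_X, map_C, eval_sub, eval_X, eval_C, sub_eq_zero] at h2
  exact h2

/-- Each automorphism of `Sep F` over `K` induces an automorphism of `k'`. -/
theorem exists_tau [IsSepClosed k'] [Algebra.IsSeparable k k'] (hF : IsGeom k k' K F)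
    (T : Sep F ≃ₐ[K] Sep F) : ∃ τ : k' ≃ₐ[k] k', ∀ x, T (cs k' F x) = cs k' F (τ x) := by
  choose t ht using exists_img (k' := k') hF T
  choose t' ht' using exists_img (k' := k') hF T.symm
  have hinj : Function.Injective (cs k' F) := (cs k' F).injective
  refine ⟨{ toFun := t
            invFun := t'
            left_inv := fun x => hinj (by rw [← ht', ← ht, AlgEquiv.symm_apply_apply])
            right_inv := fun x => hinj (by rw [← ht, ← ht', AlgEquiv.apply_symm_apply])
            map_mul' := fun x y => hinj (by rw [← ht, map_mul, map_mul, map_mul, ht, ht])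
            map_add' := fun x y => hinj (by rw [← ht, map_add, map_add, map_add, ht, ht])
            commutes' := fun a => hinj (by rw [← ht, cs_base hF, T.commutes]) }, ht⟩

/-- Each automorphism of `k'` over `k` is induced by an automorphism of `Sep F` over `K`. -/
theorem exists_T {b : k[X]} {s : K} (h2 : (2 : k) ≠ 0) (hb : b.Separable) (hb0 : 0 < b.natDegree)
    (hK : IsHE k K b s) (hF : IsGeom k k' K F) (τ : k' ≃ₐ[k] k') :
    ∃ T : Sep F ≃ₐ[K] Sep F, ∀ x, T (cs k' F x) = cs k' F (τ x) := by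
  obtain ⟨e, he⟩ := JLIFTS.main k k' K F b s h2 hb hb0 hK.inj hK.sq hK.gen hF.inj hF.comp hF.gen τ
  obtain ⟨T, hT⟩ := JLIFTT.main K F e
  exact ⟨T, fun x => (hT _).trans (congrArg (algebraMap F (SeparableClosure F)) (he x))⟩

end tau

section rho

variable {k k' K F : Type} [Field k] [Field k'] [Algebra k k'] [IsSepClosed k']
  [Algebra.IsSeparable k k'] [Field K] [Algebra k[X] K] [Field F] [Algebra k'[X] F] [Algebra K F]
  (B : Type) [CommRing B] [IsDedekindDomain B] [Algebra k'[X] B]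
  [Algebra B F] [IsScalarTower k'[X] B F] [IsFractionRing B F] [IsIntegralClosure B k'[X] F]
  (hF : IsGeom k k' K F) (f : K[X])

include hF in
theorem exists_data (T : Sep F ≃ₐ[K] Sep F) : ∃ L : Lift K F (Sep F), L.T = T ∧
    IsTw (actJ 2 (F := F) f) (IsSelmer 2 B f) L.conj (jm 2 f (ak L.T)) := by
  obtain ⟨τ, hτ⟩ := exists_tau hF T
  obtain ⟨L, hL, hs⟩ := exists_lift hF (τ : k' ≃+* k') T hτ
  exact ⟨L, hL, tw_of B hF f (τ : k' ≃+* k') L hs⟩

/-- The lift. -/
noncomputable def lf (T : Sep F ≃ₐ[K] Sep F) : Lift K F (Sep F) := (exists_data B hF f T).choose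

theorem lf_T (T : Sep F ≃ₐ[K] Sep F) : (lf B hF f T).T = T := (exists_data B hF f T).choose_spec.1

theorem lf_tw (T : Sep F ≃ₐ[K] Sep F) : IsTw (actJ 2 (F := F) f) (IsSelmer 2 B f)
    (lf B hF f T).conj (jm 2 f (ak (lf B hF f T).T)) := (exists_data B hF f T).choose_spec.2

/-- The action. -/
noncomputable def rho (T : Sep F ≃ₐ[K] Sep F) :
    SelT (F := F) 2 B f 2 →ₗ[ℤ_[2]] SelT (F := F) 2 B f 2 :=
  tw (p := 2) (sel_isLocal 2 B f) (lf_tw B hF f T)

theorem rho_cls (T : Sep F ≃ₐ[K] Sep F)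
    {c : ℕ → (Sep F ≃ₐ[F] Sep F) → Jac 2 f (Sep F)} (hc : IsTC 2 2 f c)
    (hcs : ∀ n, IsSelmer 2 B f (c n)) {d : ℕ → (Sep F ≃ₐ[F] Sep F) → Jac 2 f (Sep F)}
    (hd : ∀ n (σ σ' : Sep F ≃ₐ[F] Sep F), (∀ x, T (σ' x) = σ (T x)) →
      d n σ = jm 2 f (ak T) (c n σ')) :
    (IsTC 2 2 f d ∧ ∀ n, IsSelmer 2 B f (d n)) ∧ clsOf B f d = rho B hF f T (clsOf B f c) := by
  refine clsOf_tw B f (lf B hF f T) (lf_tw B hF f T) hc hcs ?_
  rw [lf_T]
  exact hd

theorem rho_mul (T T' : Sep F ≃ₐ[K] Sep F) (m : SelT (F := F) 2 B f 2) :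
    rho B hF f (T * T') m = rho B hF f T (rho B hF f T' m) := by
  obtain ⟨c, ⟨hc, hcs⟩, rfl⟩ := clsOf_surj B f m
  set L := lf B hF f T
  set L' := lf B hF f T'
  have hLT : L.T = T := lf_T B hF f T
  have hLT' : L'.T = T' := lf_T B hF f T'
  set d : ℕ → (Sep F ≃ₐ[F] Sep F) → Jac 2 f (Sep F) :=
    fun n σ => jm 2 f (ak T') (c n (L'.conj σ)) with hd
  set e : ℕ → (Sep F ≃ₐ[F] Sep F) → Jac 2 f (Sep F) :=
    fun n σ => jm 2 f (ak T) (d n (L.conj σ)) with he
  have hcj : ∀ (L : Lift K F (Sep F)) (σ σ' : Sep F ≃ₐ[F] Sep F), (∀ x, L.T (σ' x) = σ (L.T x)) →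
      σ' = L.conj σ := by
    intro L σ σ' h
    refine AlgEquiv.ext fun x => L.T.injective ?_
    rw [h, L.T_conj]
  obtain ⟨⟨h1, h2⟩, h3⟩ := rho_cls B hF f T' hc hcs (d := d) (fun n σ σ' h => by
    rw [← hLT'] at h
    rw [hcj L' σ σ' h])
  obtain ⟨⟨h4, h5⟩, h6⟩ := rho_cls B hF f T h1 h2 (d := e) (fun n σ σ' h => by
    rw [← hLT] at h
    rw [hcj L σ σ' h])
  obtain ⟨-, h9⟩ := rho_cls B hF f (T * T') hc hcs (d := e) (fun n σ σ' h => by
    have h7 : L'.conj (L.conj σ) = σ' := by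
      refine AlgEquiv.ext fun x => (T * T').injective ?_
      rw [h, AlgEquiv.mul_apply, AlgEquiv.mul_apply, ← hLT, ← hLT', L'.T_conj, L.T_conj]
    have h8 : ak (T * T') = (ak T).comp (ak T') := AlgHom.ext fun x => rfl
    show jm 2 f (ak T) (jm 2 f (ak T') (c n (L'.conj (L.conj σ)))) = _
    rw [h7, h8, jm_jm])
  rw [← h9, h6, h3]

end rho

end Pool.Agent.Q45.GM
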