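import Pool.Agent.Q45.TL.Base

/-!
# The elements whose fractional ideal is a square
-/

set_option autoImplicit false
set_option linter.all false

open Polynomial IsDedekindDomain WithZero
open scoped nonZeroDivisors Classical

namespace Pool.Agent.Q45.GM

open Pool.Agent.Y160.SE (IsPw)

/-- The elements of `Lˣ` whose fractional ideal is a square. -/
def evS (S L : Type) [CommRing S] [Field L] [Algebra S L] [IsFractionRing S L]
    [IsDedekindDomain S] : Subgroup Lˣ where
  carrier := {z | ∃ I : FractionalIdeal S⁰ L, FractionalIdeal.spanSingleton S⁰ (z : L) = I ^ 2}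
  mul_mem' := by
    rintro z w ⟨I, hI⟩ ⟨J, hJ⟩
    refine ⟨I * J, ?_⟩
    rw [Units.val_mul, ← FractionalIdeal.spanSingleton_mul_spanSingleton, hI, hJ, mul_pow]
  one_mem' := ⟨1, by rw [Units.val_one, FractionalIdeal.spanSingleton_one, one_pow]⟩
  inv_mem' := by
    rintro z ⟨I, hI⟩
    refine ⟨I⁻¹, ?_⟩
    rw [Units.val_inv_eq_inv_val, ← FractionalIdeal.spanSingleton_inv, hI, inv_pow]

theorem mem_evS {S L : Type} [CommRing S] [Field L] [Algebra S L] [IsFractionRing S L]
    [IsDedekindDomain S] {z : Lˣ} : z ∈ evS S L ↔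
      ∃ I : FractionalIdeal S⁰ L, FractionalIdeal.spanSingleton S⁰ (z : L) = I ^ 2 := Iff.rfl

theorem mem_evS_of {S L : Type} [CommRing S] [Field L] [Algebra S L] [IsFractionRing S L]
    [IsDedekindDomain S] {z : Lˣ} (hev : ∀ v : HeightOneSpectrum S, IsPw 2 (v.valuation L (z : L))) :
    z ∈ evS S L := by
  obtain ⟨a, b, hb, hab⟩ := IsFractionRing.div_surjective (A := S) (z : L)
  have hb0 : b ≠ 0 := nonZeroDivisors.ne_zero hb
  have ha0 : a ≠ 0 := by
    rintro rfl
    rw [map_zero, zero_div] at hab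
    exact z.ne_zero hab.symm
  have hbL : algebraMap S L b ≠ 0 := fun h =>
    hb0 (IsFractionRing.injective S L (by rw [h, map_zero]))
  have he : algebraMap S L (a * b) = (z : L) * algebraMap S L b ^ 2 := by
    rw [← hab, map_mul]
    field_simp
  obtain ⟨J, hJ⟩ := Pool.Agent.Q45.TL.ideal_pw (p := 2) two_ne_zero (mul_ne_zero ha0 hb0) fun v => by
    have h1 : v.valuation L (algebraMap S L (a * b)) = v.intValuation (a * b) :=
      v.valuation_of_algebraMap _
    rw [← h1, he, map_mul, map_pow]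
    exact (hev v).mul (IsPw.self _)
  refine ⟨(J : FractionalIdeal S⁰ L) * FractionalIdeal.spanSingleton S⁰ (algebraMap S L b)⁻¹, ?_⟩
  have h3 : (z : L) = algebraMap S L (a * b) * ((algebraMap S L b)⁻¹) ^ 2 := by
    rw [he]
    field_simp
  rw [mul_pow, ← FractionalIdeal.coeIdeal_pow, ← hJ, FractionalIdeal.coeIdeal_span_singleton,
    FractionalIdeal.spanSingleton_pow, FractionalIdeal.spanSingleton_mul_spanSingleton, ← h3]

/-- The squares. -/
def sqS (L : Type) [Field L] : Subgroup Lˣ := (powMonoidHom 2 : Lˣ →* Lˣ).range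

theorem mem_sqS {L : Type} [Field L] {z : Lˣ} : z ∈ sqS L ↔ ∃ y : Lˣ, y ^ 2 = z := Iff.rfl

theorem sq_le {S L : Type} [CommRing S] [Field L] [Algebra S L] [IsFractionRing S L]
    [IsDedekindDomain S] : sqS L ≤ evS S L := by
  rintro z ⟨y, rfl⟩
  refine ⟨FractionalIdeal.spanSingleton S⁰ (y : L), ?_⟩
  rw [FractionalIdeal.spanSingleton_pow]
  rfl

end Pool.Agent.Q45.GM
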