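import Pool.Agent.Q45.GM.StmL
import Pool.Agent.Q45.GM.J.LIN5
import Pool.Agent.Q45.GM.J.LIN6

/-!
# Invariants modulo `2` with values in a module
-/

set_option autoImplicit false
set_option linter.all false

open scoped Classical

namespace Pool.Agent.Q45.GM

section abs

variable {X : Type} [AddCommGroup X] {W : AddSubgroup X} {Γ : Set (X →+ X)} {M : Type}
  [AddCommGroup M] [Module ℤ_[2] M] [Module.Finite ℤ_[2] M] [Module.Free ℤ_[2] M]

/-- `κ` is an invariant of the elements of `M` modulo `2` with values in `W`, compatible with the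
actions of the set `Γ` of operators on `X` and of the set `Φ` of endomorphisms of `M`. -/
structure Inv (W : AddSubgroup X) (Γ : Set (X →+ X)) (κ : M →+ X)
    (Φ : Set (M →ₗ[ℤ_[2]] M)) : Prop where
  zero : ∀ m, κ m = 0 ↔ ∃ m', m = (2 : ℤ_[2]) • m'
  mem : ∀ m, κ m ∈ W
  act : ∀ γ ∈ Γ, ∃ φ ∈ Φ, ∀ m, κ (φ m) = γ (κ m)

/-- The only stable subgroups of `W` are `0` and `W`. -/
def WIr (W : AddSubgroup X) (Γ : Set (X →+ X)) : Prop :=
  ∀ U : AddSubgroup X, U ≤ W → (∀ γ ∈ Γ, ∀ x ∈ U, γ x ∈ U) → U = ⊥ ∨ U = W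

theorem Inv.cast {κ : M →+ X} {Φ : Set (M →ₗ[ℤ_[2]] M)} (h : Inv W Γ κ Φ)
    (m : M) : κ m = 0 ↔ ∃ m', m = ((2 : ℕ) : ℤ_[2]) • m' := by
  have h2 : ((2 : ℕ) : ℤ_[2]) = 2 := Nat.cast_ofNat
  rw [h.zero, h2]

theorem Inv.irr {κ : M →+ X} {Φ : Set (M →ₗ[ℤ_[2]] M)} (h : Inv W Γ κ Φ)
    (hW : WIr W Γ) (U : Submodule ℤ_[2] M) (hU : ∀ φ ∈ Φ, ∀ m ∈ U, φ m ∈ U) :
    U = ⊥ ∨ ∃ r : ℕ, ∀ m : M, (2 : ℤ_[2]) ^ r • m ∈ U := by
  have h2 : ((2 : ℕ) : ℤ_[2]) = 2 := Nat.cast_ofNat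
  have key := JLIN5.main 2 M Φ ?_ U hU
  · rwa [h2] at key
  · intro U h2U hst
    let V : AddSubgroup X := (U.toAddSubgroup).map κ
    have hV : ∀ e, e ∈ V ↔ ∃ u ∈ U, κ u = e := fun e => Iff.rfl
    have hV1 : V ≤ W := by
      rintro e he
      obtain ⟨u, -, rfl⟩ := (hV e).1 he
      exact h.mem u
    have hV2 : ∀ γ ∈ Γ, ∀ e ∈ V, γ e ∈ V := by
      intro γ hγ e he
      obtain ⟨u, hu, rfl⟩ := (hV e).1 he
      obtain ⟨φ, hφ, hact⟩ := h.act γ hγ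
      exact (hV _).2 ⟨φ u, hst φ hφ u hu, hact u⟩
    rcases hW V hV1 hV2 with h1 | h1
    · left
      intro m hm
      rw [← h.cast]
      have h3 : κ m ∈ V := (hV _).2 ⟨m, hm, rfl⟩
      rw [h1] at h3
      exact h3
    · right
      rw [eq_top_iff]
      intro m _
      have h3 : κ m ∈ V := by rw [h1]; exact h.mem m
      obtain ⟨u, hu, he⟩ := (hV _).1 h3
      have h4 : κ (m - u) = 0 := by rw [map_sub, he, sub_self]
      obtain ⟨m', hm'⟩ := (h.cast _).1 h4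
      have h5 : m = u + ((2 : ℕ) : ℤ_[2]) • m' := by rw [← hm']; abel
      rw [h5]
      exact U.add_mem hu (h2U m')

theorem Inv.rank {κ : M →+ X} {Φ : Set (M →ₗ[ℤ_[2]] M)} (h : Inv W Γ κ Φ)
    (hW : WIr W Γ) (hfin : Finite W) (h2W : ∀ x ∈ W, 2 • x = 0) : Module.finrank ℤ_[2] M = 0 ∨
      Nat.card W = 2 ^ Module.finrank ℤ_[2] M := by
  have hV1 : κ.range ≤ W := by
    rintro e ⟨u, rfl⟩
    exact h.mem u
  have hV2 : ∀ γ ∈ Γ, ∀ e ∈ κ.range, γ e ∈ κ.range := by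
    rintro γ hγ e ⟨u, rfl⟩
    obtain ⟨φ, hφ, hact⟩ := h.act γ hγ
    exact ⟨φ u, hact u⟩
  rcases hW κ.range hV1 hV2 with h1 | h1
  · left
    refine JLIN6.main 2 M X κ 0 h.cast ?_
    rw [h1, pow_zero]
    exact AddSubgroup.card_bot
  · right
    haveI : Finite (Multiplicative W) := hfin
    have hp : IsPGroup 2 (Multiplicative W) := fun x => ⟨1, by
      rw [pow_one]
      have h3 : 2 • (Multiplicative.toAdd x : W) = 0 := Subtype.ext (h2W _ (Multiplicative.toAdd x).2)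
      exact congrArg Multiplicative.ofAdd h3⟩
    obtain ⟨N, hN⟩ := hp.exists_card_eq
    have hN' : Nat.card W = 2 ^ N := hN
    have h4 := JLIN6.main 2 M X κ N h.cast (by rw [h1]; exact hN')
    rw [h4, hN']

end abs

end Pool.Agent.Q45.GM
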