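import Pool.Agent.Q45.GM.CoreG
import Pool.Agent.Q45.GM.Act
import Pool.Agent.Q45.GM.Even
import Pool.Agent.Q45.GM.Inv

/-!
# The Kummer class of a Selmer class modulo `2`: arbitrary hyperelliptic fibrations
-/

set_option autoImplicit false
set_option linter.all false

open Polynomial IsDedekindDomain WithZero
open scoped nonZeroDivisors Classical

namespace Pool.Agent.Q45.GM

open Pool.Agent.Q45.TW (IsGeom)
open Pool.Agent.Q45.GP (Regular parF)
open Pool.Agent.Y160.SE (IsPw)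
open Pool.Agent.Y160.SQ
open Pool.Agent.TH115.GD (incl rs ak Sep Comp)

section cl

variable {K F L : Type} [Field K] [Field F] [Field L] [Algebra K F] [Algebra F L]
  [Algebra L (Sep F)] [IsScalarTower F L (Sep F)] {f : K[X]} (hgd : Good 2 (-1) f)

/-- `z` is the square of a Kummer generator of `c`. -/
def RelZ (a : Sep F) (c : (Sep F ≃ₐ[F] Sep F) → Jac 2 f (Sep F)) (z : Lˣ) : Prop :=
  ∃ t : Sep F, IsKum hgd a c t ∧ t ^ 2 = algebraMap L (Sep F) (z : L)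

/-- The data of the field generated by the root `a`. -/
structure Fld (a : Sep F) (θ : L) : Prop where
  rt : Rt f a
  val : algebraMap L (Sep F) θ = a
  top : IntermediateField.adjoin F {θ} = ⊤
  irr : Irreducible (f.map (algebraMap K F))

variable {hgd} {a : Sep F} {θ : L}

theorem Fld.fix (h : Fld (f := f) a θ) (σ : Sep F ≃ₐ[F] Sep F) (hσ : σ a = a) (x : L) :
    σ (algebraMap L (Sep F) x) = algebraMap L (Sep F) x := by
  have h1 : (σ : Sep F →ₐ[F] Sep F).comp (IsScalarTower.toAlgHom F L (Sep F)) =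
      IsScalarTower.toAlgHom F L (Sep F) := by
    refine Pool.Agent.Y474.SH.hom_ext h.top ?_
    show σ (algebraMap L (Sep F) θ) = algebraMap L (Sep F) θ
    rw [h.val, hσ]
  exact DFunLike.congr_fun h1 x

theorem Fld.range (h : Fld (f := f) a θ) {x : Sep F}
    (hx : ∀ σ : Sep F ≃ₐ[F] Sep F, σ a = a → σ x = x) : ∃ y : L, algebraMap L (Sep F) y = x := by
  haveI : IsGalois L (Sep F) := IsGalois.tower_top_of_isGalois F L (Sep F)
  have h2 : x ∈ Set.range (algebraMap L (Sep F)) := by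
    rw [InfiniteGalois.mem_range_algebraMap_iff_fixed]
    intro σ
    refine hx (σ.restrictScalars F) ?_
    rw [← h.val]
    exact σ.commutes θ
  exact h2

theorem Fld.exists_z (h : Fld (f := f) a θ) {c : (Sep F ≃ₐ[F] Sep F) → Jac 2 f (Sep F)}
    (hc : IsCoc 2 f c) (hc2 : ∀ σ, Tor hgd (c σ)) : ∃ z : Lˣ, RelZ hgd a c z := by
  obtain ⟨t, z, ht, htz⟩ := exists_kum hgd h.rt h.val h.top hc.lc hc.mul hc2
  have hz0 : z ≠ 0 := by
    rintro rfl
    rw [map_zero] at htz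
    exact ht.ne (pow_eq_zero_iff two_ne_zero |>.1 htz)
  exact ⟨Units.mk0 z hz0, t, ht, htz⟩

theorem Fld.mul (h : Fld (f := f) a θ) {c d : (Sep F ≃ₐ[F] Sep F) → Jac 2 f (Sep F)}
    (hc : ∀ σ, Tor hgd (c σ)) (hd : ∀ σ, Tor hgd (d σ)) {z w : Lˣ} (h1 : RelZ hgd a c z)
    (h2 : RelZ hgd a d w) : RelZ hgd a (fun σ => c σ + d σ) (z * w) := by
  obtain ⟨t, ht, htz⟩ := h1
  obtain ⟨u, hu, huw⟩ := h2
  exact ⟨t * u, ht.mul hgd h.rt hc hd hu, by rw [mul_pow, htz, huw, Units.val_mul, map_mul]⟩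

theorem Fld.unique (h : Fld (f := f) a θ) {c : (Sep F ≃ₐ[F] Sep F) → Jac 2 f (Sep F)}
    (hc : ∀ σ, Tor hgd (c σ)) {z w : Lˣ} (h1 : RelZ hgd a c z)
    (h2 : RelZ hgd a c w) : (QuotientGroup.mk z : Lˣ ⧸ sqS L) = QuotientGroup.mk w := by
  obtain ⟨t, ht, htz⟩ := h1
  obtain ⟨u, hu, huw⟩ := h2
  obtain ⟨s, hs0, hs⟩ := ht.div hgd h.rt h.val hc hu
  rw [QuotientGroup.eq]
  refine ⟨(Units.mk0 s hs0)⁻¹, ?_⟩
  have h3 : z = (Units.mk0 s hs0) ^ 2 * w := by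
    apply Units.ext
    apply (algebraMap L (Sep F)).injective
    rw [← htz, hs, mul_pow, huw, Units.val_mul, map_mul, Units.val_pow_eq_pow_val, Units.val_mk0,
      map_pow]
  show ((Units.mk0 s hs0)⁻¹) ^ 2 = z⁻¹ * w
  rw [h3, mul_inv, inv_mul_cancel_right, inv_pow]

theorem Fld.cob (h : Fld (f := f) a θ) {c : (Sep F ≃ₐ[F] Sep F) → Jac 2 f (Sep F)}
    (hmul : ∀ σ τ, c (σ * τ) = c σ + jm 2 f (rs K σ) (c τ))
    (hc : ∀ σ, Tor hgd (c σ)) {z : Lˣ} (h1 : RelZ hgd a c z) (hz : z ∈ sqS L) :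
    ∃ R : Jac 2 f (Sep F), Tor hgd R ∧ ∀ σ, c σ = jm 2 f (rs K σ) R - R := by
  obtain ⟨t, ht, htz⟩ := h1
  obtain ⟨y, rfl⟩ := hz
  refine ht.cob hgd h.irr h.rt hmul hc fun σ hσ => ?_
  have h3 : t ^ 2 = (algebraMap L (Sep F) (y : L)) ^ 2 := by
    rw [htz]
    show algebraMap L (Sep F) (((y ^ 2 : Lˣ)) : L) = _
    rw [Units.val_pow_eq_pow_val, map_pow]
  rcases sq_eq_sq_iff_eq_or_eq_neg.1 h3 with h4 | h4
  · rw [h4, h.fix σ hσ]
  · rw [h4, map_neg, h.fix σ hσ]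

theorem Fld.of_cob (h : Fld (f := f) a θ) {c : (Sep F ≃ₐ[F] Sep F) → Jac 2 f (Sep F)}
    {R : Jac 2 f (Sep F)} (hR : Tor hgd R) (hcR : ∀ σ, c σ = jm 2 f (rs K σ) R - R) {z : Lˣ}
    (h1 : RelZ hgd a c z) : z ∈ sqS L := by
  obtain ⟨t, ht, htz⟩ := h1
  obtain ⟨y, hy⟩ := h.range fun σ hσ => ht.fix hgd h.rt hR hcR σ hσ
  have hy0 : y ≠ 0 := by
    rintro rfl
    rw [map_zero] at hy
    exact ht.ne hy.symm
  refine ⟨Units.mk0 y hy0, ?_⟩
  apply Units.ext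
  apply (algebraMap L (Sep F)).injective
  rw [← htz, ← hy]
  show algebraMap L (Sep F) (((Units.mk0 y hy0 ^ 2 : Lˣ)) : L) = _
  rw [Units.val_pow_eq_pow_val, map_pow, Units.val_mk0]

theorem Fld.conj (h : Fld (f := f) a θ) {c : (Sep F ≃ₐ[F] Sep F) → Jac 2 f (Sep F)}
    (hmul : ∀ σ τ, c (σ * τ) = c σ + jm 2 f (rs K σ) (c τ))
    (hc : ∀ σ, Tor hgd (c σ)) {z : Lˣ} (h1 : RelZ hgd a c z) (Λ : Lift K F (Sep F)) (e : L ≃+* L)
    (he : ∀ x : L, Λ.T (algebraMap L (Sep F) x) = algebraMap L (Sep F) (e x)) (hθ : e θ = θ) :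
    RelZ hgd a (fun σ => jm 2 f (ak Λ.T) (c (Λ.conj σ))) (Units.map (e : L →* L) z) := by
  obtain ⟨t, ht, htz⟩ := h1
  have hTa : Λ.T a = a := by rw [← h.val, he, hθ]
  refine ⟨Λ.T t, ?_, ?_⟩
  · have h3 := ht.conj hgd Λ h.rt hmul hc (1 : Sep F ≃ₐ[F] Sep F) hTa
    exact h3
  · rw [← map_pow, htz, he]
    rfl

end cl

section kapz

variable {K F L : Type} [Field K] [Field F] [Field L] [Algebra K F] [Algebra F L]
  [Algebra L (Sep F)] [IsScalarTower F L (Sep F)] {f : K[X]} {B : Type} [CommRing B]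
  [IsDedekindDomain B] [Algebra B F] [IsFractionRing B F] (hgd : Good 2 (-1) f)
  {a : Sep F} {θ : L}

/-- The group of values. -/
def XL (L : Type) [Field L] : Type := Additive (Lˣ ⧸ sqS L)

noncomputable instance instXL (L : Type) [Field L] : AddCommGroup (XL L) :=
  inferInstanceAs (AddCommGroup (Additive (Lˣ ⧸ sqS L)))

/-- The class of an element. -/
def clX {L : Type} [Field L] (z : Lˣ) : XL L := Additive.ofMul (QuotientGroup.mk z)

theorem clX_surj {L : Type} [Field L] (x : XL L) : ∃ z : Lˣ, clX z = x := by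
  obtain ⟨z, hz⟩ := QuotientGroup.mk_surjective (Additive.toMul x)
  exact ⟨z, congrArg Additive.ofMul hz⟩

theorem clX_zero {L : Type} [Field L] {z : Lˣ} : clX z = 0 ↔ z ∈ sqS L := by
  have h1 : clX z = 0 ↔ (QuotientGroup.mk z : Lˣ ⧸ sqS L) = 1 := Iff.rfl
  rw [h1, QuotientGroup.eq_one_iff]

theorem clX_mul {L : Type} [Field L] (z w : Lˣ) : clX (z * w) = clX z + clX w := rfl

theorem two_clX {L : Type} [Field L] (x : XL L) : 2 • x = 0 := by
  obtain ⟨z, rfl⟩ := clX_surj x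
  rw [two_nsmul, ← clX_mul, clX_zero]
  exact ⟨z, pow_two z⟩

/-- The class of a cocycle. -/
noncomputable def kz (h : Fld (f := f) a θ) :
    ↥(Z1 2 (actJ 2 (F := F) f) (IsSelmer 2 B f) (sel_isLocal 2 B f)) →+ XL L :=
  AddMonoidHom.mk' (fun c => clX (h.exists_z (hgd := hgd) (lvl_coc c)
    (fun σ => (tor_two hgd).2 (lvl_two c σ))).choose) (by
    intro c d
    have hT : ∀ c : ↥(Z1 2 (actJ 2 (F := F) f) (IsSelmer 2 B f) (sel_isLocal 2 B f)),
      ∀ σ, Tor hgd (lvl c σ) := fun c σ => (tor_two hgd).2 (lvl_two c σ)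
    rw [← clX_mul]
    exact congrArg Additive.ofMul (h.unique (hT (c + d))
      (h.exists_z (hgd := hgd) (lvl_coc (c + d)) (hT (c + d))).choose_spec
      (h.mul (hT c) (hT d) (h.exists_z (hgd := hgd) (lvl_coc c) (hT c)).choose_spec
        (h.exists_z (hgd := hgd) (lvl_coc d) (hT d)).choose_spec)))

theorem kz_rel (h : Fld (f := f) a θ)
    (c : ↥(Z1 2 (actJ 2 (F := F) f) (IsSelmer 2 B f) (sel_isLocal 2 B f))) :
    ∃ z : Lˣ, RelZ hgd a (lvl c) z ∧ kz hgd h c = clX z :=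
  ⟨_, (h.exists_z (hgd := hgd) (lvl_coc c)
    (fun σ => (tor_two hgd).2 (lvl_two c σ))).choose_spec, rfl⟩

theorem kz_eq (h : Fld (f := f) a θ)
    (c : ↥(Z1 2 (actJ 2 (F := F) f) (IsSelmer 2 B f) (sel_isLocal 2 B f))) {z : Lˣ}
    (hz : RelZ hgd a (lvl c) z) : kz hgd h c = clX z := by
  obtain ⟨w, hw, h1⟩ := kz_rel hgd h c
  rw [h1]
  exact congrArg Additive.ofMul (h.unique (fun σ => (tor_two hgd).2 (lvl_two c σ)) hw hz)

theorem kz_zero_iff (h : Fld (f := f) a θ)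
    (c : ↥(Z1 2 (actJ 2 (F := F) f) (IsSelmer 2 B f) (sel_isLocal 2 B f))) :
    kz hgd h c = 0 ↔ ∃ m, cls (sel_isLocal 2 B f) c = (2 : ℤ_[2]) • m := by
  obtain ⟨z, hz, h1⟩ := kz_rel hgd h c
  rw [h1, clX_zero]
  constructor
  · intro h0
    obtain ⟨Q, hQ, hQc⟩ := h.cob (lvl_coc c).mul (fun σ => (tor_two hgd).2 (lvl_two c σ)) hz h0
    have h3 := cls_mem (p := 2) (actJ_isAct 2 hgd) (sel_isLocal 2 B f) (div_two hgd) c
      (Q := Q) ((tor_two hgd).1 hQ) hQc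
    exact_mod_cast h3
  · rintro ⟨m, hm⟩
    obtain ⟨Q, hQ, hQc⟩ := of_cls_mem (p := 2) (sel_isLocal 2 B f) c (m := m) (by exact_mod_cast hm)
    exact h.of_cob ((tor_two hgd).2 hQ) hQc hz

theorem kz_zero_of (h : Fld (f := f) a θ)
    (c : ↥(Z1 2 (actJ 2 (F := F) f) (IsSelmer 2 B f) (sel_isLocal 2 B f)))
    (hc : cls (sel_isLocal 2 B f) c = 0) : kz hgd h c = 0 := by
  rw [kz_zero_iff]
  exact ⟨0, by rw [hc, smul_zero]⟩

/-- The invariant of a class. -/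
noncomputable def kM (h : Fld (f := f) a θ) : SelT (F := F) 2 B f 2 →+ XL L :=
  QuotientAddGroup.lift _ (kz hgd h) (by
    intro c hc
    have h1 : cls (sel_isLocal 2 B f) c = 0 := (Submodule.Quotient.mk_eq_zero _).2 hc
    have h2 : kz hgd h c = 0 := kz_zero_of hgd h c h1
    first
      | exact (AddMonoidHom.mem_ker).2 h2
      | exact h2)

theorem kM_cls (h : Fld (f := f) a θ)
    (c : ↥(Z1 2 (actJ 2 (F := F) f) (IsSelmer 2 B f) (sel_isLocal 2 B f))) :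
    kM hgd h (cls (sel_isLocal 2 B f) c) = kz hgd h c := rfl

theorem kM_zero_iff (h : Fld (f := f) a θ) (m : SelT (F := F) 2 B f 2) :
    kM hgd h m = 0 ↔ ∃ m', m = (2 : ℤ_[2]) • m' := by
  obtain ⟨c, rfl⟩ := cls_surj (sel_isLocal 2 B f) m
  rw [kM_cls, kz_zero_iff]

/-- The operator defined by an automorphism of `L`. -/
def opX {L : Type} [Field L] (e : L ≃+* L) : XL L →+ XL L :=
  MonoidHom.toAdditive (QuotientGroup.map (sqS L) (sqS L) (Units.map (e : L →* L)) (by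
    rintro z ⟨y, rfl⟩
    exact ⟨Units.map (e : L →* L) y, (map_pow (Units.map (e : L →* L)) y 2).symm⟩))

theorem opX_cl {L : Type} [Field L] (e : L ≃+* L) (z : Lˣ) :
    opX e (clX z) = clX (Units.map (e : L →* L) z) := rfl

theorem kM_tw (h : Fld (f := f) a θ) (Λ : Lift K F (Sep F))
    (hΛ : IsTw (actJ 2 (F := F) f) (IsSelmer 2 B f) Λ.conj (jm 2 f (ak Λ.T))) (e : L ≃+* L)
    (he : ∀ x : L, Λ.T (algebraMap L (Sep F) x) = algebraMap L (Sep F) (e x)) (hθ : e θ = θ)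
    (m : SelT (F := F) 2 B f 2) :
    kM hgd h (tw (sel_isLocal 2 B f) hΛ m) = opX e (kM hgd h m) := by
  obtain ⟨c, rfl⟩ := cls_surj (sel_isLocal 2 B f) m
  rw [tw_cls, kM_cls, kM_cls]
  obtain ⟨z, hz, h1⟩ := kz_rel hgd h c
  rw [h1, opX_cl]
  exact kz_eq hgd h _ (h.conj (lvl_coc c).mul (fun σ => (tor_two hgd).2 (lvl_two c σ)) hz Λ e he hθ)

/-- Finiteness of the module, from the finiteness of the set of the values. -/
theorem fin_free (h : Fld (f := f) a θ) {W : AddSubgroup (XL L)} (hW : Finite W)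
    (hmem : ∀ m : SelT (F := F) 2 B f 2, kM hgd h m ∈ W) :
    Module.Finite ℤ_[2] (SelT (F := F) 2 B f 2) ∧ Module.Free ℤ_[2] (SelT (F := F) 2 B f 2) := by
  have h0 : ∀ x : Jac 2 f (Sep F), 2 • x = 0 →
      (∀ σ : Sep F ≃ₐ[F] Sep F, actJ 2 f σ x = x) → x = 0 :=
    fun _ hx hfix => inv_zero (F := F) hgd h.irr ((tor_two hgd).2 hx) hfix h.rt
  refine JFIN.main 2 (SelT (F := F) 2 B f 2) W (fun m => ⟨kM hgd h m, hmem m⟩) ?_ ?_ ?_
  · intro m m' hmm
    have h1 : kM hgd h (m - m') = 0 := by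
      rw [map_sub]
      exact sub_eq_zero.2 (congrArg Subtype.val hmm)
    exact_mod_cast (kM_zero_iff hgd h _).1 h1
  · exact H1.sep (p := 2) (actJ_isAct 2 hgd) (sel_isLocal 2 B f) h0
  · exact H1.torsion (p := 2) (actJ_isAct 2 hgd) (sel_isLocal 2 B f) h0

/-- The values are classes of elements whose ideal is a square. -/
theorem kM_mem [Algebra K L] [IsScalarTower K F L] {R : Type} [CommRing R] [IsDedekindDomain R]
    [Algebra R L] [IsFractionRing R L] [Algebra B R] [Algebra.IsIntegral B R] [Algebra B L]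
    [IsScalarTower B F L] [IsScalarTower B R L] [Module.IsTorsionFree B R]
    {fB : B[X]} (hfB : fB.map (algebraMap B F) = f.map (algebraMap K F)) (hfm : fB.Monic)
    (hreg : Regular F fB) (h : Fld (f := f) a θ) (m : SelT (F := F) 2 B f 2) :
    ∃ z : Lˣ, z ∈ evS R L ∧ kM hgd h m = clX z := by
  obtain ⟨c, rfl⟩ := cls_surj (sel_isLocal 2 B f) m
  obtain ⟨z, ⟨t, ht, htz⟩, h1⟩ := kz_rel hgd h c
  refine ⟨z, mem_evS_of fun 𝔓 => ?_, h1⟩
  exact parF (p := 2) (m := 1) (A := B) (B := R) (M := L) Nat.prime_two (by norm_num) hyps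
    (f1 := f) (fA := fB) hfB hgd hfm hreg h.val h.rt (lvl_coc c)
    (fun σ => (tor_two hgd).2 (lvl_two c σ)) (c.2.loc 1) ht.ne htz (fun σ hσ => ht.act σ hσ) 𝔓

end kapz

end Pool.Agent.Q45.GM
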