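import Pool.Agent.Q45.GM.HypB
import Pool.Agent.Q45.TT.Fin

/-!
# The base field of the surfaces `y ^ 2 = b(w ^ 2 - g(x))`
-/

set_option autoImplicit false
set_option linter.all false

open Polynomial IsDedekindDomain WithZero
open scoped Classical

namespace Pool.Agent.Q45.GM

open Pool.Agent.Q45.TT (IsQuad FS even_down even_rat ram_one IsTower regular_of_der val_under)
open Pool.Agent.Q45.TW (cst ff ff_monic ff_natDegree ff_map IsGeom)
open Pool.Agent.Q45.GP (Regular)
open Pool.Agent.Y160.SE (IsPw)

/-- The field `F` is generated over `k(t)` by a square root `β` of `b(t)`. -/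
structure IsHE (k F : Type) [Field k] [Field F] [Algebra k[X] F] (b : k[X]) (β : F) : Prop where
  inj : Function.Injective (algebraMap k[X] F)
  sq : β ^ 2 = algebraMap k[X] F b
  gen : Subfield.closure (Set.range (algebraMap k[X] F) ∪ {β}) = ⊤

section he

variable {k F : Type} [Field k] [Field F] [Algebra k[X] F] {b : k[X]} {β : F}

theorem IsHE.tower (h : IsHE k F b β) : IsTower k F 1 (fun _ => β) where
  inj := h.inj
  sq i hi := by
    show β ^ 2 ∈ _
    rw [h.sq]
    exact Subfield.subset_closure (Or.inl ⟨b, rfl⟩)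
  gen := by
    have h1 : (fun _ : ℕ => β) '' {j | j < 1} = {β} := by
      refine Set.ext fun x => ⟨?_, ?_⟩
      · rintro ⟨j, -, rfl⟩
        exact rfl
      · rintro rfl
        exact ⟨0, Nat.zero_lt_one, rfl⟩
    rw [h1]
    exact h.gen

theorem IsHE.geom {k' E : Type} [Field k'] [Algebra k k'] [Field E] [Algebra k'[X] E] [Algebra F E]
    (h : IsHE k F b β) (hE : IsGeom k k' F E) :
    IsHE k' E (b.map (algebraMap k k')) (algebraMap F E β) where
  inj := hE.inj
  sq := by rw [← map_pow, h.sq, hE.comp]
  gen := by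
    set S := Subfield.closure (Set.range (algebraMap k'[X] E) ∪ {algebraMap F E β}) with hS
    have h1 : ∀ x : F, algebraMap F E x ∈ S := by
      intro x
      have hx : x ∈ Subfield.closure (Set.range (algebraMap k[X] F) ∪ {β}) := by
        rw [h.gen]; trivial
      have h3 : Subfield.closure (Set.range (algebraMap k[X] F) ∪ {β}) ≤ S.comap (algebraMap F E) := by
        rw [Subfield.closure_le]
        rintro y (⟨p, rfl⟩ | hy)
        · show algebraMap F E (algebraMap k[X] F p) ∈ S
          rw [hE.comp]
          exact Subfield.subset_closure (Or.inl ⟨_, rfl⟩)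
        · rw [Set.mem_singleton_iff] at hy
          subst hy
          exact Subfield.subset_closure (Or.inr rfl)
      exact h3 hx
    rw [eq_top_iff]
    intro x _
    have hx : x ∈ IntermediateField.adjoin F (Set.range ((algebraMap k'[X] E).comp C)) := by
      rw [hE.gen]; trivial
    refine IntermediateField.adjoin_induction F (p := fun y _ => y ∈ S) ?_ ?_ ?_ ?_ ?_ hx
    · rintro y ⟨c, rfl⟩
      exact Subfield.subset_closure (Or.inl ⟨C c, rfl⟩)
    · exact h1
    · intro x y _ _ hx hy
      exact add_mem hx hy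
    · intro x _ hx
      exact inv_mem hx
    · intro x y _ _ hx hy
      exact mul_mem hx hy

/-- The fraction field as a subfield. -/
theorem IsHE.top (h : IsHE k F b β) (K' : Type) [Field K'] [Algebra k[X] K'] [Algebra K' F]
    [IsScalarTower k[X] K' F] : IntermediateField.adjoin K' {β} = ⊤ := by
  rw [eq_top_iff]
  intro x _
  have hx : x ∈ Subfield.closure (Set.range (algebraMap k[X] F) ∪ {β}) := by rw [h.gen]; trivial
  have h3 : Subfield.closure (Set.range (algebraMap k[X] F) ∪ {β}) ≤
      (IntermediateField.adjoin K' {β}).toSubfield := by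
    rw [Subfield.closure_le]
    rintro y (⟨p, rfl⟩ | hy)
    · rw [IsScalarTower.algebraMap_apply k[X] K' F]
      exact IntermediateField.algebraMap_mem _ _
    · rw [Set.mem_singleton_iff] at hy
      subst hy
      exact IntermediateField.mem_adjoin_simple_self K' y
  exact h3 hx

end he

section quad

variable {k N : Type} [Field k] [Field N] [Algebra k[X] N] {h : k[X]} {y : N}

/-- The conditions for a quadratic extension. -/
theorem quad_of (h2 : (2 : k) ≠ 0) (hsep : h.Separable) (hpos : 0 < h.natDegree)
    (hsq : y ^ 2 = algebraMap k[X] N h)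
    (K' : Type) [Field K'] [Algebra k[X] K'] [IsFractionRing k[X] K'] [Algebra K' N]
    [IsScalarTower k[X] K' N] (htop : IntermediateField.adjoin K' {y} = ⊤) :
    IsQuad (algebraMap k[X] K' h) y where
  two := by
    intro h0
    have h1 : algebraMap k[X] K' (C 2) = 0 := by
      rw [show (C 2 : k[X]) = 2 by rw [map_ofNat], map_ofNat]
      exact h0
    have h3 : (C 2 : k[X]) = 0 := IsFractionRing.injective k[X] K' (by rw [h1, map_zero])
    exact h2 (C_eq_zero.1 h3)
  sq := by rw [hsq, IsScalarTower.algebraMap_apply k[X] K' N]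
  nmem := by
    intro x hx
    have h1 : x ^ 2 = algebraMap k[X] K' h := by
      apply (algebraMap K' N).injective
      rw [map_pow, hx, hsq, IsScalarTower.algebraMap_apply k[X] K' N]
    have hint : IsIntegral k[X] x := by
      refine ⟨X ^ 2 - C h, monic_X_pow_sub_C _ two_ne_zero, ?_⟩
      rw [eval₂_sub, eval₂_pow, eval₂_X, eval₂_C, h1, sub_self]
    obtain ⟨p, hp⟩ := IsIntegrallyClosed.isIntegral_iff.1 hint
    have h3 : p ^ 2 = h := by
      apply IsFractionRing.injective k[X] K'
      rw [map_pow, hp, h1]
    have h4 : IsUnit p := hsep.squarefree p ⟨1, by rw [mul_one, ← h3, _root_.sq]⟩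
    have h5 := natDegree_eq_zero_of_isUnit h4
    rw [← h3, natDegree_pow, h5, mul_zero] at hpos
    exact lt_irrefl _ hpos
  top := htop

/-- The function field of a hyperelliptic curve. -/
theorem IsQuad.isHyp (K' : Type) [Field K'] [Algebra k[X] K'] [IsFractionRing k[X] K'] [Algebra K' N]
    [IsScalarTower k[X] K' N] (hq : IsQuad (algebraMap k[X] K' h) y) : IsHyp k N h y where
  inj := by
    rw [IsScalarTower.algebraMap_eq k[X] K' N]
    exact (algebraMap K' N).injective.comp (IsFractionRing.injective k[X] K')
  sq := by rw [hq.sq, ← IsScalarTower.algebraMap_apply]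
  gen := by
    intro z
    obtain ⟨u, w, rfl⟩ := hq.rep z
    obtain ⟨A, D, hD, rfl⟩ := IsFractionRing.div_surjective (A := k[X]) u
    obtain ⟨B, E, hE, rfl⟩ := IsFractionRing.div_surjective (A := k[X]) w
    have hD0 : algebraMap k[X] K' D ≠ 0 := fun h0 => nonZeroDivisors.ne_zero hD
      (IsFractionRing.injective k[X] K' (by rw [h0, map_zero]))
    have hE0 : algebraMap k[X] K' E ≠ 0 := fun h0 => nonZeroDivisors.ne_zero hE
      (IsFractionRing.injective k[X] K' (by rw [h0, map_zero]))
    refine ⟨A * E, B * D, D * E, mul_ne_zero (nonZeroDivisors.ne_zero hD)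
      (nonZeroDivisors.ne_zero hE), ?_⟩
    rw [IsScalarTower.algebraMap_apply k[X] K' N, IsScalarTower.algebraMap_apply k[X] K' N (A * E),
      IsScalarTower.algebraMap_apply k[X] K' N (B * D), mul_add, ← mul_assoc, ← map_mul, ← map_mul]
    congr 2
    · congr 1
      rw [map_mul, map_mul]
      field_simp
    · congr 1
      rw [map_mul, map_mul]
      field_simp

end quad

section he2

variable {k F : Type} [Field k] [Field F] [Algebra k[X] F] {b : k[X]} {β : F}

theorem IsHE.isHyp (h : IsHE k F b β) (h2 : (2 : k) ≠ 0) (hsep : b.Separable)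
    (hpos : 0 < b.natDegree) : IsHyp k F b β := by
  let K' := FractionRing k[X]
  let ψ : K' →+* F := IsFractionRing.lift (K := K') h.inj
  letI : Algebra K' F := ψ.toAlgebra
  haveI : IsScalarTower k[X] K' F := IsScalarTower.of_algebraMap_eq fun p =>
    (IsFractionRing.lift_algebraMap h.inj p).symm
  exact IsQuad.isHyp K' (quad_of h2 hsep hpos h.sq K' (h.top K'))

/-- The ramified places are zeros of `b`. -/
theorem IsHE.ram (h : IsHE k F b β) (h2 : (2 : k) ≠ 0) (hsep : b.Separable)
    (hpos : 0 < b.natDegree) {A : Type} [CommRing A] [IsDedekindDomain A] [Algebra k[X] A]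
    [Algebra A F] [IsScalarTower k[X] A F] [IsFractionRing A F] [IsIntegralClosure A k[X] F]
    (v : HeightOneSpectrum A) {p : k[X]} (hp : Irreducible p)
    (hpv : algebraMap k[X] A p ∈ v.asIdeal ^ 2) : algebraMap k[X] A b ∈ v.asIdeal := by
  by_contra hb
  let K' := FractionRing k[X]
  let ψ : K' →+* F := IsFractionRing.lift (K := K') h.inj
  letI : Algebra K' F := ψ.toAlgebra
  haveI : IsScalarTower k[X] K' F := IsScalarTower.of_algebraMap_eq fun p =>
    (IsFractionRing.lift_algebraMap h.inj p).symm
  have hq : IsQuad (algebraMap k[X] K' b) β := quad_of h2 hsep hpos h.sq K' (h.top K')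
  haveI := hq.fin
  haveI := hq.separable
  have hfs : FS k F := (FS.base (inferInstance : IsFractionRing k[X] K')).trans hq.fin hq.separable
  haveI := hfs.finite A
  haveI : Algebra.IsIntegral k[X] A := Algebra.IsIntegral.of_finite k[X] A
  haveI : Module.IsTorsionFree k[X] A := by
    rw [Module.isTorsionFree_iff_algebraMap_injective]
    exact hfs.injB A
  have h2u : IsUnit (2 : k[X]) := by
    rw [show (2 : k[X]) = C 2 by rw [map_ofNat]]
    exact isUnit_C.2 (IsUnit.mk0 _ h2)
  have hbv : b ∉ (v.under k[X]).asIdeal := hb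
  have hone := ram_one (A := k[X]) (B := A) (L := F) hq h2u v (by
    rw [val_one hbv]
    exact isPw_one 2)
  have h6 := (v.intValuation_le_pow_iff_mem _ 2).2 hpv
  have h7 := val_under (A := k[X]) (L := F) v (algebraMap k[X] K' p)
  rw [hone, pow_one, ← IsScalarTower.algebraMap_apply k[X] K' F,
    IsScalarTower.algebraMap_apply k[X] A F, v.valuation_of_algebraMap,
    (v.under k[X]).valuation_of_algebraMap] at h7
  rw [h7, (v.under k[X]).intValuation_le_pow_iff_mem] at h6
  have hpm : p ∈ (v.under k[X]).asIdeal := Ideal.pow_le_self two_ne_zero h6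
  have hspan : (v.under k[X]).asIdeal = Ideal.span {p} := by
    have h8 : (Ideal.span {p}).IsMaximal := PrincipalIdealRing.isMaximal_of_irreducible hp
    exact (h8.eq_of_le (v.under k[X]).isPrime.ne_top ((Ideal.span_singleton_le_iff_mem _).2 hpm)).symm
  rw [hspan, Ideal.span_singleton_pow, Ideal.mem_span_singleton] at h6
  obtain ⟨c, hc⟩ := h6
  refine hp.not_isUnit (IsUnit.of_mul_eq_one c ?_)
  have h9 : p * (p * c - 1) = 0 := by linear_combination -hc
  rcases mul_eq_zero.1 h9 with h10 | h10
  · exact absurd h10 hp.ne_zero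
  · exact sub_eq_zero.1 h10

/-- Regularity of the family `w ^ 2 = g(x) + t` over the base. -/
theorem IsHE.regular (h : IsHE k F b β) (h2 : (2 : k) ≠ 0) (hsep : b.Separable)
    (hpos : 0 < b.natDegree) {g : k[X]} (hbg : (b.comp (-g)).Separable)
    {A : Type} [CommRing A] [IsDedekindDomain A] [Algebra k[X] A]
    [Algebra A F] [IsScalarTower k[X] A F] [IsFractionRing A F] [IsIntegralClosure A k[X] F] :
    Regular F (ff g A) :=
  regular_of_der (h.tower.hasDer h2) fun v p hp hpv => ⟨b, h.ram h2 hsep hpos v hp hpv, hbg⟩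

end he2

end Pool.Agent.Q45.GM
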