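import Pool.Agent.Q45.GM.CoreA

/-!
# The field generated by a root of `g(x) + t`
-/

set_option autoImplicit false
set_option linter.all false

open Polynomial IsDedekindDomain WithZero
open scoped Classical

namespace Pool.Agent.Q45.GM

open Pool.Agent.Q45.TT (IsQuad FS even_down even_rat ram_one IsTower regular_of_der val_under)
open Pool.Agent.Q45.TW (cst ff ff_monic ff_natDegree ff_map IsGeom eval₂_ff)
open Pool.Agent.Q45.GP (Regular)
open Pool.Agent.Y160.SE (IsPw)

section up

variable {k F N : Type} [Field k] [Field F] [Algebra k[X] F] [Field N] [Algebra F N] {b g : k[X]}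
  {β : F} {θ : N}

/-- The root of `g(x) + t`. -/
theorem root_eq (hθ : aeval θ (ff g F) = 0) (ψ : k[X] →+* N) (hψX : ψ X = θ)
    (hψC : ∀ c, ψ (C c) = algebraMap F N (algebraMap k[X] F (C c))) (p : k[X]) :
    ψ (p.comp (-g)) = algebraMap F N (algebraMap k[X] F p) := by
  have h1 : ψ (-g) = algebraMap F N (algebraMap k[X] F X) := by
    rw [aeval_def, eval₂_ff] at hθ
    have h3 : ψ g = eval₂ ((algebraMap F N).comp (cst k F)) θ g := by
      have h4 : ψ = eval₂RingHom ((algebraMap F N).comp (cst k F)) θ := by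
        apply Polynomial.ringHom_ext
        · intro a
          rw [coe_eval₂RingHom, eval₂_C, hψC]
          rfl
        · rw [coe_eval₂RingHom, eval₂_X, hψX]
      rw [h4]
      rfl
    rw [map_neg, h3]
    linear_combination -hθ
  have h2 : ψ.comp (compRingHom (-g)) = (algebraMap F N).comp (algebraMap k[X] F) := by
    apply Polynomial.ringHom_ext
    · intro a
      show ψ ((C a).comp (-g)) = algebraMap F N (algebraMap k[X] F (C a))
      rw [C_comp, hψC]
    · show ψ (X.comp (-g)) = algebraMap F N (algebraMap k[X] F X)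
      rw [X_comp, h1]
  exact congrArg (fun f : k[X] →+* N => f p) h2

/-- The field generated by a root is the function field of `y ^ 2 = b(-g(θ))`. -/
theorem up_isHE (hF : IsHE k F b β) (hθ : aeval θ (ff g F) = 0)
    (htop : IntermediateField.adjoin F {θ} = ⊤) (ψ : k[X] →+* N) (hψX : ψ X = θ)
    (hψC : ∀ c, ψ (C c) = algebraMap F N (algebraMap k[X] F (C c))) :
    @IsHE k N _ _ ψ.toAlgebra (b.comp (-g)) (algebraMap F N β) := by
  have hcomp := root_eq (g := g) hθ ψ hψX hψC
  letI : Algebra k[X] N := ψ.toAlgebra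
  have halg : ∀ p, algebraMap k[X] N p = ψ p := fun p => rfl
  refine ⟨?_, ?_, ?_⟩
  · -- injectivity
    rw [injective_iff_map_eq_zero]
    intro p hp
    by_contra hp0
    letI : Algebra k N := (ψ.comp C).toAlgebra
    have hψ : ∀ q : k[X], aeval θ q = ψ q := by
      intro q
      have h4 : ψ = eval₂RingHom (ψ.comp C) θ := by
        apply Polynomial.ringHom_ext
        · intro a
          rw [coe_eval₂RingHom, eval₂_C]
          rfl
        · rw [coe_eval₂RingHom, eval₂_X, hψX]
      conv_rhs => rw [h4]
      rfl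
    have h1 : IsAlgebraic k θ := ⟨p, hp0, by rw [hψ]; exact hp⟩
    have h2 : IsIntegral k (aeval θ (-g)) := by
      have h3 := adjoin_le_integralClosure h1.isIntegral
      exact h3 (aeval_mem_adjoin_singleton k θ)
    obtain ⟨q, hq0, hq⟩ := h2.isAlgebraic
    rw [← aeval_comp, hψ, hcomp] at hq
    apply hq0
    apply hF.inj
    apply (algebraMap F N).injective
    rw [hq, map_zero, map_zero]
  · rw [halg, hcomp, ← hF.sq, map_pow]
  · set S := Subfield.closure (Set.range (algebraMap k[X] N) ∪ {algebraMap F N β}) with hS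
    have h1 : ∀ x : F, algebraMap F N x ∈ S := by
      intro x
      have hx : x ∈ Subfield.closure (Set.range (algebraMap k[X] F) ∪ {β}) := by
        rw [hF.gen]; trivial
      have h3 : Subfield.closure (Set.range (algebraMap k[X] F) ∪ {β}) ≤ S.comap (algebraMap F N) := by
        rw [Subfield.closure_le]
        rintro y (⟨p, rfl⟩ | hy)
        · show algebraMap F N (algebraMap k[X] F p) ∈ S
          rw [← hcomp]
          exact Subfield.subset_closure (Or.inl ⟨_, rfl⟩)
        · rw [Set.mem_singleton_iff] at hy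
          subst hy
          exact Subfield.subset_closure (Or.inr rfl)
      exact h3 hx
    rw [eq_top_iff]
    intro x _
    have hx : x ∈ IntermediateField.adjoin F {θ} := by
      rw [htop]; trivial
    refine IntermediateField.adjoin_induction F (p := fun y _ => y ∈ S) ?_ ?_ ?_ ?_ ?_ hx
    · rintro y hy
      rw [Set.mem_singleton_iff] at hy
      subst hy
      exact Subfield.subset_closure (Or.inl ⟨X, hψX⟩)
    · exact h1
    · intro x y _ _ hx hy
      exact add_mem hx hy
    · intro x _ hx
      exact inv_mem hx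
    · intro x y _ _ hx hy
      exact mul_mem hx hy

variable [Algebra k[X] N] [IsScalarTower k[X] F N] {R : Type} [CommRing R] [IsDedekindDomain R]
  [Algebra k[X] R] [Algebra R N] [IsScalarTower k[X] R N] [IsFractionRing R N]
  [IsIntegralClosure R k[X] N]

/-- Elements with even valuations are products of `θ - r`, modulo squares. -/
theorem z_form [IsSepClosed k] (h2 : (2 : k) ≠ 0) (hg : g.Monic) (hg0 : 0 < g.natDegree)
    (hb0 : 0 < b.natDegree) (hbg : (b.comp (-g)).Separable) (hF : IsHE k F b β)
    (hθ : aeval θ (ff g F) = 0) (htop : IntermediateField.adjoin F {θ} = ⊤) {z : N} (hz : z ≠ 0)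
    (hev : ∀ w : HeightOneSpectrum R, IsPw 2 (w.valuation N z)) :
    ∃ (S : Finset k) (s : N), S ⊆ (b.comp (-g)).roots.toFinset ∧ s ≠ 0 ∧
      z = s ^ 2 * ∏ r ∈ S, (θ - algebraMap F N (algebraMap k[X] F (C r))) := by
  have hcc : (algebraMap F N).comp (cst k F) = (algebraMap R N).comp (cst k R) := by
    refine RingHom.ext fun x => ?_
    show algebraMap F N (algebraMap k[X] F (C x)) = algebraMap R N (algebraMap k[X] R (C x))
    rw [← IsScalarTower.algebraMap_apply, ← IsScalarTower.algebraMap_apply]
  have hroot : algebraMap k[X] N X = -(eval₂ ((algebraMap F N).comp (cst k F)) θ g) := by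
    have h3 := hθ
    rw [aeval_def, eval₂_ff, ← IsScalarTower.algebraMap_apply k[X] F N] at h3
    linear_combination h3
  obtain ⟨θR, hθR⟩ : ∃ θR : R, algebraMap R N θR = θ := by
    apply (IsIntegralClosure.isIntegral_iff (A := R) (R := k[X])).1
    refine ⟨g.map C + C X, ?_, ?_⟩
    · refine (hg.map C).add_of_left ?_
      refine lt_of_le_of_lt degree_C_le ?_
      rw [degree_map_eq_of_injective C_injective]
      exact natDegree_pos_iff_degree_pos.1 hg0
    · rw [eval₂_add, eval₂_map, eval₂_C, hroot]
      have h3 : (algebraMap k[X] N).comp C = (algebraMap F N).comp (cst k F) := by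
        refine RingHom.ext fun x => ?_
        show algebraMap k[X] N (C x) = algebraMap F N (algebraMap k[X] F (C x))
        rw [← IsScalarTower.algebraMap_apply]
      rw [h3, add_neg_cancel]
  let ψR : k[X] →+* R := eval₂RingHom (cst k R) θR
  let ψ : k[X] →+* N := (algebraMap R N).comp ψR
  have hψX : ψ X = θ := by
    show algebraMap R N (eval₂ (cst k R) θR X) = θ
    rw [eval₂_X, hθR]
  have hψC : ∀ c, ψ (C c) = algebraMap F N (algebraMap k[X] F (C c)) := by
    intro c
    show algebraMap R N (eval₂ (cst k R) θR (C c)) = _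
    rw [eval₂_C, ← IsScalarTower.algebraMap_apply k[X] F N, IsScalarTower.algebraMap_apply k[X] R N]
    rfl
  have hcomp := root_eq (g := g) hθ ψ hψX hψC
  have hR : ∀ p : k[X], ψR (p.comp (-g)) = algebraMap k[X] R p := by
    intro p
    apply IsFractionRing.injective R N
    rw [← IsScalarTower.algebraMap_apply k[X] R N, IsScalarTower.algebraMap_apply k[X] F N, ← hcomp]
    rfl
  have hHE := up_isHE hF hθ htop ψ hψX hψC
  have hdeg : 0 < (b.comp (-g)).natDegree := by
    rw [natDegree_comp, natDegree_neg]
    exact Nat.mul_pos hb0 hg0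
  have hspl : (b.comp (-g)).Splits := IsSepClosed.splits_of_separable _ hbg
  have hHyp := @IsHE.isHyp k N _ _ ψ.toAlgebra _ _ hHE h2 hbg hdeg
  have hIC : @IsIntegralClosure R k[X] N _ _ _ ψ.toAlgebra _ := by
    refine @IsIntegralClosure.mk R k[X] N _ _ _ ψ.toAlgebra _ (IsFractionRing.injective R N) ?_
    intro x
    constructor
    · rintro ⟨P, hP, hPx⟩
      have h1 : IsIntegral R x := by
        refine ⟨P.map ψR, hP.map _, ?_⟩
        rw [eval₂_map]
        exact hPx
      obtain ⟨y, hy⟩ := IsIntegrallyClosed.isIntegral_iff.1 h1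
      exact ⟨y, hy⟩
    · rintro ⟨y, rfl⟩
      have h1 : IsIntegral k[X] y := IsIntegralClosure.isIntegral k[X] N y
      obtain ⟨P, hP, hPy⟩ := h1
      refine ⟨P.map (compRingHom (-g)), hP.map _, ?_⟩
      have h3 : (algebraMap R N).comp (ψR.comp (compRingHom (-g))) =
          (algebraMap R N).comp (algebraMap k[X] R) := RingHom.ext fun p => by
        show algebraMap R N (ψR (p.comp (-g))) = algebraMap R N (algebraMap k[X] R p)
        rw [hR]
      rw [eval₂_map]
      show eval₂ ((algebraMap R N).comp (ψR.comp (compRingHom (-g)))) (algebraMap R N y) P = 0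
      rw [h3, ← hom_eval₂, hPy, map_zero]
  obtain ⟨S, s, hS, hs, he⟩ := @hyp1 k N _ _ _ ψ.toAlgebra (b.comp (-g)) (algebraMap F N β) h2 hspl hbg
    hdeg hHyp R _ _ _ _ ψR.toAlgebra
    (@IsScalarTower.of_algebraMap_eq k[X] R N _ _ _ ψR.toAlgebra _ ψ.toAlgebra fun p => rfl)
    hIC z hz hev
  refine ⟨S, s, hS, hs, ?_⟩
  rw [he]
  congr 1
  show ψ (∏ r ∈ S, (X - C r)) = _
  rw [map_prod]
  refine Finset.prod_congr rfl fun r _ => ?_
  rw [map_sub, hψX, hψC]

end up

end Pool.Agent.Q45.GM
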