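import Pool.Agent.Q45.GM.Kum

/-!
# The norm of the Kummer generator, and its conjugates
-/

set_option autoImplicit false
set_option linter.all false

open Polynomial IsDedekindDomain
open scoped nonZeroDivisors Classical

namespace Pool.Agent.Q45.GM

open Pool.Agent.Y160.SQ
open Pool.Agent.TH115.GD (incl rs ak Sep Comp rs_mul lift_fix cont_rs)
open Pool.Agent.W309.TD (locConst_apply compare)

section norm

variable {ℓ : ℕ} {K F Ω : Type} [Field K] [Field F] [Field Ω] [Algebra K F] [Algebra F Ω]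
  [Algebra K Ω] [IsScalarTower K F Ω] {f : K[X]} {ζ : K} (hg : Good ℓ ζ f)
  [IsGalois F Ω] [IsSepClosed Ω]

/-- The product of the conjugates of `t ^ ℓ` is an `ℓ`-th power in `F`. -/
theorem IsKum.norm (hirr : Irreducible (f.map (algebraMap K F))) {a : Ω} (ha : Rt f a)
    {c : (Ω ≃ₐ[F] Ω) → Jac ℓ f Ω} (hmul : ∀ σ τ, c (σ * τ) = c σ + jm ℓ f (rs K σ) (c τ))
    (hc : ∀ τ, Tor hg (c τ)) {t : Ω} (ht : IsKum hg a c t) {P : F[X]} (hP : t ^ ℓ = aeval a P) :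
    ∃ y : F, algebraMap F Ω (y ^ ℓ) =
      ∏ β ∈ (f.map (algebraMap K Ω)).roots.toFinset, aeval β P := by
  have htr : ∀ β : Ω, ∃ ρ : Ω ≃ₐ[F] Ω, Rt f β → ρ a = β := by
    intro β
    by_cases hβ : Rt f β
    · obtain ⟨ρ, hρ⟩ := trans_rt hg hirr ha hβ
      exact ⟨ρ, fun _ => hρ⟩
    · exact ⟨1, fun h => absurd h hβ⟩
  choose ρ hρ using htr
  set R := (f.map (algebraMap K Ω)).roots.toFinset with hR
  have hrt : ∀ β, β ∈ R ↔ Rt f β := by
    intro β
    rw [hR, Multiset.mem_toFinset, mem_roots (hg.up Ω).monic.ne_zero]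
    exact ⟨fun h => rt_of h, fun h => h.ev⟩
  have hnd : (f.map (algebraMap K Ω)).roots.Nodup := nodup_roots (hg.up Ω).sep
  -- the elements `t_β`
  let T : Ω → Ω := fun β => (chi hg β (c (ρ β)))⁻¹ * ρ β t
  have hT : ∀ τ : Ω ≃ₐ[F] Ω, T (τ a) = (chi hg (τ a) (c τ))⁻¹ * τ t := by
    intro τ
    have hτa : Rt f (τ a) := ha.map (rs K τ)
    set s := (ρ (τ a))⁻¹ * τ with hs
    have h3 : s a = a := by
      apply (ρ (τ a)).injective
      rw [hs, AlgEquiv.mul_apply, ← AlgEquiv.mul_apply, mul_inv_cancel, hρ _ hτa]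
      rfl
    have h4 : τ = ρ (τ a) * s := by rw [hs]; group
    have h5 : c τ = c (ρ (τ a)) + jm ℓ f (rs K (ρ (τ a))) (c s) := by
      conv_lhs => rw [h4]
      exact hmul _ _
    have h6 := chi_map hyps hg (hc s) ha (rs K (ρ (τ a)))
    have h7 : (rs K (ρ (τ a))) a = τ a := hρ _ hτa
    rw [h7, chi_fix' hyps hg (hc s) ha] at h6
    have h8 : τ t = chi hg a (c s) * ρ (τ a) t := by
      conv_lhs => rw [h4]
      rw [AlgEquiv.mul_apply, ht.act s h3, map_mul]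
      congr 1
      exact chi_fix' hyps hg (hc s) ha (rs K (ρ (τ a)))
    have h9 := chi_ne hyps hg (hc s) ha
    have h10 := chi_ne hyps hg (hc (ρ (τ a))) hτa
    show (chi hg (τ a) (c (ρ (τ a))))⁻¹ * ρ (τ a) t = _
    rw [h5, chi_add hyps hg (hc _) ((hc _).map _) hτa, h6, h8]
    field_simp
  have hσT : ∀ (σ : Ω ≃ₐ[F] Ω) (β : Ω), Rt f β → σ (T β) = chi hg (σ β) (c σ) * T (σ β) := by
    intro σ β hβ
    have hσβ : Rt f (σ β) := hβ.map (rs K σ)
    have e : σ β = (σ * ρ β) a := by rw [AlgEquiv.mul_apply, hρ β hβ]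
    have h1 := hT (σ * ρ β)
    rw [← e, hmul, chi_add hyps hg (hc _) ((hc _).map _) hσβ, AlgEquiv.mul_apply] at h1
    have h3 := chi_map hyps hg (hc (ρ β)) hβ (rs K σ)
    rw [chi_fix' hyps hg (hc _) hβ] at h3
    have h4 : (rs K σ) β = σ β := rfl
    rw [h4] at h3
    rw [h3] at h1
    have h5 : σ (T β) = (chi hg β (c (ρ β)))⁻¹ * σ (ρ β t) := by
      show σ ((chi hg β (c (ρ β)))⁻¹ * ρ β t) = _
      rw [map_mul, map_inv₀]
      congr 2
      exact chi_fix' hyps hg (hc _) hβ (rs K σ)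
    rw [h5, h1]
    have h6 := chi_ne hyps hg (hc (ρ β)) hβ
    have h7 := chi_ne hyps hg (hc σ) hσβ
    field_simp
  -- the product
  have hy : ∏ β ∈ R, T β ∈ Set.range (algebraMap F Ω) := by
    rw [InfiniteGalois.mem_range_algebraMap_iff_fixed]
    intro σ
    rw [map_prod]
    have h1 : ∏ β ∈ R, σ (T β) = ∏ β ∈ R, (chi hg (σ β) (c σ) * T (σ β)) :=
      Finset.prod_congr rfl fun β hβ => hσT σ β ((hrt β).1 hβ)
    have h3 : ∏ β ∈ R, (chi hg (σ β) (c σ) * T (σ β)) = ∏ β ∈ R, (chi hg β (c σ) * T β) := by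
      refine Finset.prod_bij (fun β _ => σ β) ?_ ?_ ?_ ?_
      · intro β hβ
        exact (hrt _).2 (((hrt _).1 hβ).map (rs K σ))
      · intro β _ β' _ h
        exact σ.injective h
      · intro β hβ
        refine ⟨σ.symm β, (hrt _).2 (((hrt _).1 hβ).map (rs K σ.symm)), ?_⟩
        exact σ.apply_symm_apply β
      · intro β _
        rfl
    have h4 : ∏ β ∈ R, chi hg β (c σ) = 1 := by
      have h5 := chi_prod hyps hg (hc σ)
      rw [hR, Finset.prod, Multiset.toFinset_val, Multiset.dedup_eq_self.2 hnd]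
      exact h5
    rw [h1, h3, Finset.prod_mul_distrib, h4, one_mul]
  obtain ⟨y, hy⟩ := hy
  refine ⟨y, ?_⟩
  rw [map_pow, hy, ← Finset.prod_pow]
  refine Finset.prod_congr rfl fun β hβ => ?_
  have hβ' := (hrt β).1 hβ
  show ((chi hg β (c (ρ β)))⁻¹ * ρ β t) ^ ℓ = _
  rw [mul_pow, inv_pow, chi_pow hyps hg (hc _) hβ', inv_one, one_mul, ← map_pow, hP]
  have h1 : ρ β (aeval a P) = aeval (ρ β a) P := (aeval_algHom_apply (ρ β).toAlgHom a P).symm
  rw [h1, hρ β hβ']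

end norm

section conj

variable {ℓ : ℕ} {K F Ω : Type} [Field K] [Field F] [Field Ω] [Algebra K F] [Algebra F Ω]
  [Algebra K Ω] [IsScalarTower K F Ω] {f : K[X]} {ζ : K} (hg : Good ℓ ζ f)
  [IsGalois F Ω] [IsSepClosed Ω]

/-- The conjugate Kummer generator: `ρ` is an automorphism over `F` with `ρ (T a) = a`. -/
theorem IsKum.conj (L : Lift K F Ω) {a : Ω} (ha : Rt f a) {c : (Ω ≃ₐ[F] Ω) → Jac ℓ f Ω}
    (hmul : ∀ σ τ, c (σ * τ) = c σ + jm ℓ f (rs K σ) (c τ)) (hc : ∀ τ, Tor hg (c τ)) {t : Ω}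
    (ht : IsKum hg a c t) (ρ : Ω ≃ₐ[F] Ω) (hρ : ρ (L.T a) = a) :
    IsKum hg a (fun σ => jm ℓ f (ak L.T) (c (L.conj σ))) (ρ (L.T t)) := by
  set c' : (Ω ≃ₐ[F] Ω) → Jac ℓ f Ω := fun σ => jm ℓ f (ak L.T) (c (L.conj σ)) with hc'
  have hTa : Rt f (L.T a) := ha.map (ak L.T)
  have hcT : ∀ τ, Tor hg (c' τ) := fun τ => (hc _).map _
  have hmul' : ∀ σ τ, c' (σ * τ) = c' σ + jm ℓ f (rs K σ) (c' τ) := by
    intro σ τ
    show jm ℓ f (ak L.T) (c (L.conj (σ * τ))) = _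
    rw [L.conj_mul, hmul, map_add]
    congr 1
    have h1 : (ak L.T).comp (rs K (L.conj σ)) = (rs K σ).comp (ak L.T) :=
      AlgHom.ext fun y => L.T_conj σ y
    show _ = jm ℓ f (rs K σ) (jm ℓ f (ak L.T) (c (L.conj τ)))
    rw [jm_jm, jm_jm, h1]
  have h1 : ∀ σ : Ω ≃ₐ[F] Ω, σ (L.T a) = L.T a → σ (L.T t) = chi hg (L.T a) (c' σ) * L.T t := by
    intro σ hσ
    have h3 : L.conj σ a = a := by
      rw [L.conj_apply, hσ, AlgEquiv.symm_apply_apply]
    have h4 := ht.act _ h3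
    have h5 := chi_map hyps hg (hc (L.conj σ)) ha (ak L.T)
    have h6 : σ (L.T t) = L.T (L.conj σ t) := (L.T_conj σ t).symm
    rw [h6, h4, map_mul]
    congr 1
    exact h5.symm
  refine ⟨?_, fun σ hσ => ?_⟩
  · intro h
    apply ht.ne
    apply L.T.injective
    apply ρ.injective
    rw [h, map_zero, map_zero]
  · -- `σ = ρ σ' ρ⁻¹`
    set σ' : Ω ≃ₐ[F] Ω := ρ⁻¹ * σ * ρ with hσ'
    have h3 : ρ * σ' = σ * ρ := by rw [hσ']; group
    have h4 : σ' (L.T a) = L.T a := by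
      apply ρ.injective
      rw [← AlgEquiv.mul_apply, h3, AlgEquiv.mul_apply, hρ, hσ]
    have h5 := h1 σ' h4
    have h6 : σ (ρ (L.T t)) = ρ (σ' (L.T t)) := by
      rw [← AlgEquiv.mul_apply, ← h3, AlgEquiv.mul_apply]
    rw [h6, h5, map_mul]
    congr 1
    -- the values
    have e1 := hmul' ρ σ'
    have e2 := hmul' σ ρ
    rw [h3, e2] at e1
    have e3 : chi hg a (c' σ + jm ℓ f (rs K σ) (c' ρ)) =
        chi hg a (c' ρ + jm ℓ f (rs K ρ) (c' σ')) := by rw [e1]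
    rw [chi_add hyps hg (hcT _) ((hcT _).map _) ha, chi_add hyps hg (hcT _) ((hcT _).map _) ha] at e3
    have e4 := chi_map hyps hg (hcT ρ) ha (rs K σ)
    have e5 : (rs K σ) a = a := hσ
    rw [e5, chi_fix' hyps hg (hcT ρ) ha] at e4
    have e6 := chi_map hyps hg (hcT σ') hTa (rs K ρ)
    have e7 : (rs K ρ) (L.T a) = a := hρ
    rw [e7] at e6
    rw [e4, mul_comm] at e3
    have e8 := mul_left_cancel₀ (chi_ne hyps hg (hcT ρ) ha) e3
    rw [e8, e6]
    rfl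

end conj

end Pool.Agent.Q45.GM
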