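import Pool.Agent.Q45.GM.CoreB
import Pool.Agent.Q45.GM.Kum2
import Pool.Agent.Q45.GM.J.HYP2

/-!
# The Kummer generators of the Selmer classes of order two
-/

set_option autoImplicit false
set_option linter.all false

open Polynomial IsDedekindDomain WithZero
open scoped Classical

namespace Pool.Agent.Q45.GM

open Pool.Agent.Q45.TT (IsQuad FS IsTower exists_field sep_ff)
open Pool.Agent.Q45.TW (cst ff ff_monic ff_natDegree ff_map IsGeom eval₂_ff)
open Pool.Agent.Q45.GP (Regular parF)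
open Pool.Agent.Y160.SE (IsPw)
open Pool.Agent.Y160.SQ
open Pool.Agent.TH115.GD (incl rs ak Sep Comp)

section form

variable {k F : Type} [Field k] [Field F] [Algebra k[X] F] {b g : k[X]} {β : F}

/-- The constants in the separable closure. -/
noncomputable def kc (k F : Type) [Field k] [Field F] [Algebra k[X] F] (r : k) : Sep F :=
  algebraMap F (Sep F) (algebraMap k[X] F (C r))

/-- The Kummer generator of a Selmer class of order two. -/
theorem exists_form [IsSepClosed k] (h2 : (2 : k) ≠ 0) (hg : g.Monic) (hodd : Odd g.natDegree)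
    (hd : derivative g ≠ 0) (hb0 : 0 < b.natDegree) (hb : b.Separable)
    (hbg : (b.comp (-g)).Separable)
    (hF : IsHE k F b β) {K : Type} [Field K] [Algebra K F] {f : K[X]} (hgd : Good 2 (-1) f)
    (hf : f.map (algebraMap K F) = ff g F) {B : Type} [CommRing B] [IsDedekindDomain B]
    [Algebra k[X] B] [Algebra B F] [IsScalarTower k[X] B F] [IsFractionRing B F]
    [IsIntegralClosure B k[X] F] {a : Sep F} (ha : Rt f a)
    {c : (Sep F ≃ₐ[F] Sep F) → Jac 2 f (Sep F)} (hc : IsCoc 2 f c) (hc2 : ∀ σ, Tor hgd (c σ))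
    (hloc : IsSelmer 2 B f c) :
    ∃ (S : Finset k) (u : Sep F), S ⊆ (b.comp (-g)).roots.toFinset ∧ IsKum hgd a c u ∧
      u ^ 2 = ∏ r ∈ S, (a - kc k F r) := by
  have hirr : Irreducible (ff g F) := hF.tower.irr h2 hg hodd
  have hfsF : FS k F := hF.tower.fs h2
  have hreg : Regular F (ff g B) := hF.regular h2 hb hb0 hbg
  obtain ⟨L, R, i1, i2, i3, i4, i5, i6, i7, i8, θ, i9, i10, i11, i12, hint, hcomp, hθ, htop, hfsL⟩ :=
    exists_field hg hodd.pos hirr hd hfsF B
  haveI := hint
  have hmon : (ff g F).Monic := ff_monic hg hodd.pos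
  have hsep : (ff g F).Separable := sep_ff hirr hd
  haveI : FiniteDimensional F L := Pool.Agent.Q45.TW.fin_of hmon hθ htop
  haveI : Algebra.IsSeparable F L := Pool.Agent.Q45.TW.sep_of hsep hθ htop
  have hirr' : Irreducible (f.map (algebraMap K F)) := by rw [hf]; exact hirr
  -- the embedding
  obtain ⟨φ, hφ⟩ : ∃ φ : L →ₐ[F] Sep F, φ θ = a := by
    let φ0 : L →ₐ[F] Sep F := IsSepClosed.lift
    have h1 : Rt f (φ0 θ) := by
      show aeval (φ0 θ) f = 0
      rw [← aeval_map_algebraMap F, hf, aeval_algHom_apply, hθ, map_zero]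
    obtain ⟨ρ, hρ⟩ := trans_rt hgd hirr' h1 ha
    exact ⟨(ρ : Sep F →ₐ[F] Sep F).comp φ0, hρ⟩
  letI : Algebra L (Sep F) := φ.toRingHom.toAlgebra
  haveI : IsScalarTower F L (Sep F) := IsScalarTower.of_algebraMap_eq fun x => (φ.commutes x).symm
  have hθa : algebraMap L (Sep F) θ = a := hφ
  obtain ⟨t, z, ht, htz⟩ := exists_kum hgd ha hθa htop hc.lc hc.mul hc2
  have hz0 : z ≠ 0 := by
    rintro rfl
    rw [map_zero] at htz
    exact ht.ne (pow_eq_zero_iff two_ne_zero |>.1 htz)
  letI : Algebra K L := ((algebraMap F L).comp (algebraMap K F)).toAlgebra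
  haveI : IsScalarTower K F L := IsScalarTower.of_algebraMap_eq fun _ => rfl
  letI : Algebra B L := ((algebraMap F L).comp (algebraMap B F)).toAlgebra
  haveI : IsScalarTower B F L := IsScalarTower.of_algebraMap_eq fun _ => rfl
  haveI : IsScalarTower B R L := IsScalarTower.of_algebraMap_eq fun x => hcomp x
  haveI : Module.IsTorsionFree B R := by
    rw [Module.isTorsionFree_iff_algebraMap_injective]
    intro x y hxy
    apply IsFractionRing.injective B F
    apply (algebraMap F L).injective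
    rw [hcomp, hcomp, hxy]
  have hev : ∀ 𝔓 : HeightOneSpectrum R, IsPw 2 (𝔓.valuation L z) := fun 𝔓 =>
    parF (p := 2) (m := 1) (A := B) (B := R) (M := L) Nat.prime_two (by norm_num) hyps
      (f1 := f) (fA := ff g B)
      (by rw [ff_map (algebraMap B F) (fun p => (IsScalarTower.algebraMap_apply k[X] B F p).symm), hf])
      hgd (ff_monic hg hodd.pos) hreg hθa ha hc hc2 hloc ht.ne htz (fun σ hσ => ht.act σ hσ) 𝔓
  haveI : IsScalarTower k[X] F L := i9
  obtain ⟨S, s, hS, hs, hzs⟩ := z_form (R := R) h2 hg hodd.pos hb0 hbg hF hθ htop hz0 hev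
  have hs0 : algebraMap L (Sep F) s ≠ 0 := (_root_.map_ne_zero _).2 hs
  have hfixL : ∀ (σ : Sep F ≃ₐ[F] Sep F), σ a = a → ∀ x : L, σ (algebraMap L (Sep F) x) =
      algebraMap L (Sep F) x := by
    intro σ hσ x
    have h1 : (σ : Sep F →ₐ[F] Sep F).comp φ = φ := by
      refine Pool.Agent.Y474.SH.hom_ext htop ?_
      show σ (φ θ) = φ θ
      rw [hφ, hσ]
    exact DFunLike.congr_fun h1 x
  refine ⟨S, (algebraMap L (Sep F) s)⁻¹ * t, hS, ht.mul_fix (hgd) (inv_ne_zero hs0) (fun σ hσ => by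
    rw [map_inv₀, hfixL σ hσ]), ?_⟩
  rw [mul_pow, htz, hzs, map_mul, map_pow, inv_pow, inv_mul_cancel_left₀ (pow_ne_zero 2 hs0),
    map_prod]
  refine Finset.prod_congr rfl fun r _ => ?_
  rw [map_sub, hθa, ← IsScalarTower.algebraMap_apply F L (Sep F)]
  rfl

end form

end Pool.Agent.Q45.GM
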