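import Pool.Agent.Q45.GM.CoreC

/-!
# The invariant of a Selmer class of order two
-/

set_option autoImplicit false
set_option linter.all false

open Polynomial IsDedekindDomain WithZero
open scoped Classical

namespace Pool.Agent.Q45.GM

open Pool.Agent.Q45.TT (IsQuad FS IsTower exists_field sep_ff)
open Pool.Agent.Q45.TW (cst ff ff_monic ff_natDegree ff_map IsGeom eval₂_ff)
open Pool.Agent.Q45.GP (Regular parF)
open Pool.Agent.Y160.SE (IsPw)
open Pool.Agent.Y160.SQ
open Pool.Agent.TH115.GD (incl rs ak Sep Comp)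

section fin

variable {k : Type}

theorem z2_ne {x : ZMod 2} (h : x ≠ 1) : x = 0 := by
  revert h; revert x; decide

theorem z2_ne' {x : ZMod 2} (h : x ≠ 0) : x = 1 := by
  revert h; revert x; decide

/-- The sum of the values modulo two. -/
theorem sum_z2 (T : Finset k) (e : k → ZMod 2) :
    ∑ r ∈ T, e r = (((T.filter fun r => e r = 1).card : ℕ) : ZMod 2) := by
  rw [Finset.card_filter, Nat.cast_sum]
  refine Finset.sum_congr rfl fun r _ => ?_
  by_cases h : e r = 1
  · rw [if_pos h, h, Nat.cast_one]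
  · rw [if_neg h, z2_ne h, Nat.cast_zero]

theorem even_cast {n : ℕ} : ((n : ℕ) : ZMod 2) = 0 ↔ Even n := by
  rw [ZMod.natCast_eq_zero_iff, even_iff_two_dvd]

/-- The product over a symmetric difference. -/
theorem prod_add {M : Type} [CommMonoid M] (T : Finset k) (e e' : k → ZMod 2) (f : k → M) :
    (∏ r ∈ T.filter (fun r => e r = 1), f r) * ∏ r ∈ T.filter (fun r => e' r = 1), f r =
      (∏ r ∈ T.filter (fun r => e r + e' r = 1), f r) *
        (∏ r ∈ T.filter (fun r => e r = 1 ∧ e' r = 1), f r) ^ 2 := by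
  rw [Finset.prod_filter, Finset.prod_filter, Finset.prod_filter, Finset.prod_filter,
    ← Finset.prod_mul_distrib, ← Finset.prod_pow, ← Finset.prod_mul_distrib]
  refine Finset.prod_congr rfl fun r _ => ?_
  by_cases h1 : e r = 1
  · by_cases h2 : e' r = 1
    · have h3 : ¬ ((1 : ZMod 2) + 1 = 1) := by decide
      have h4 : ¬ (e r + e' r = 1) := by rw [h1, h2]; exact h3
      rw [if_pos h1, if_pos h2, if_pos (⟨h1, h2⟩ : e r = 1 ∧ e' r = 1), if_neg h4, one_mul, pow_two]
    · have h4 := z2_ne h2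
      have h5 : e r + e' r = 1 := by rw [h1, h4, add_zero]
      have h6 : ¬ (e r = 1 ∧ e' r = 1) := fun h => h2 h.2
      rw [if_pos h1, if_neg h2, if_pos h5, if_neg h6, one_pow]
  · have h4 := z2_ne h1
    by_cases h2 : e' r = 1
    · have h5 : ((0 : ZMod 2) + 1 = 1) := by decide
      rw [if_neg h1, if_pos h2, h4, h2, if_pos h5, if_neg (fun h => h1 (h4 ▸ h.1)), one_pow, mul_one,
        one_mul]
    · have h6 := z2_ne h2
      have h5 : ¬ (e r + e' r = 1) := by
        rw [h4, h6, add_zero]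
        exact zero_ne_one
      have h7 : ¬ (e r = 1 ∧ e' r = 1) := fun h => h1 h.1
      rw [if_neg h1, if_neg h2, if_neg h5, if_neg h7, one_pow]

end fin

section base

variable {k F : Type} [Field k] [Field F] [Algebra k[X] F] {b g : k[X]} {β : F}

/-- The parity of the multiplicities of a product of `t - γ` which is a square. -/
theorem base_parity [IsSepClosed k] (h2 : (2 : k) ≠ 0) (hb0 : 0 < b.natDegree) (hb : b.Separable)
    (hF : IsHE k F b β) (S : Finset k) (γ : k → k) (hγ : ∀ r ∈ S, γ r ∈ b.roots.toFinset) {y : F}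
    (hy : y ^ 2 = ∏ r ∈ S, (algebraMap k[X] F (X - C (γ r)))) :
    (∀ δ, Even (S.filter fun r => γ r = δ).card) ∨
      ∀ δ ∈ b.roots.toFinset, Odd (S.filter fun r => γ r = δ).card := by
  set RB := b.roots.toFinset with hRB
  let m : k → ℕ := fun δ => (S.filter fun r => γ r = δ).card
  have h1 : ∏ r ∈ S, (algebraMap k[X] F (X - C (γ r))) =
      ∏ δ ∈ RB, (algebraMap k[X] F (X - C δ)) ^ m δ := by
    rw [← Finset.prod_fiberwise_of_maps_to (g := γ) (t := RB) hγ]
    refine Finset.prod_congr rfl fun δ _ => ?_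
    rw [Finset.prod_congr rfl (g := fun _ => algebraMap k[X] F (X - C δ)), Finset.prod_const]
    intro r hr
    rw [(Finset.mem_filter.1 hr).2]
  have hne : ∀ δ, algebraMap k[X] F (X - C δ) ≠ 0 := by
    intro δ h0
    exact X_sub_C_ne_zero δ (hF.inj (by rw [h0, map_zero]))
  set S' := RB.filter fun δ => Odd (m δ) with hS'
  set s : F := ∏ δ ∈ RB, (algebraMap k[X] F (X - C δ)) ^ (m δ / 2) with hs
  have hs0 : s ≠ 0 := Finset.prod_ne_zero_iff.2 fun δ _ => pow_ne_zero _ (hne δ)
  have h3 : ∏ δ ∈ RB, (algebraMap k[X] F (X - C δ)) ^ m δ =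
      s ^ 2 * algebraMap k[X] F (∏ δ ∈ S', (X - C δ)) := by
    rw [hs, ← Finset.prod_pow, map_prod, hS', Finset.prod_filter, ← Finset.prod_mul_distrib]
    refine Finset.prod_congr rfl fun δ _ => ?_
    by_cases ho : Odd (m δ)
    · rw [if_pos ho, ← pow_mul, ← pow_succ, Nat.div_two_mul_two_add_one_of_odd ho]
    · rw [if_neg ho, mul_one, ← pow_mul, Nat.div_two_mul_two_of_even (Nat.not_odd_iff_even.1 ho)]
  have h4 : (y / s) ^ 2 = algebraMap k[X] F (∏ δ ∈ S', (X - C δ)) := by
    rw [div_pow, hy, h1, h3, mul_div_cancel_left₀ _ (pow_ne_zero 2 hs0)]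
  have hspl : b.Splits := IsSepClosed.splits_of_separable _ hb
  rcases JHYP2.main k F b β h2 hspl hb hb0 (hF.isHyp h2 hb hb0) S' (y / s)
    (Finset.filter_subset _ _) h4 with h5 | h5
  · left
    intro δ
    by_cases hδ : δ ∈ RB
    · rw [← Nat.not_odd_iff_even]
      intro ho
      have h6 : δ ∈ S' := Finset.mem_filter.2 ⟨hδ, ho⟩
      rw [h5] at h6
      exact Finset.notMem_empty _ h6
    · have h6 : (S.filter fun r => γ r = δ) = ∅ := by
        rw [Finset.filter_eq_empty_iff]
        intro r hr h7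
        exact hδ (h7 ▸ hγ r hr)
      rw [h6, Finset.card_empty]
      exact Even.zero
  · right
    intro δ hδ
    have h6 : δ ∈ S' := by rw [h5]; exact hδ
    exact (Finset.mem_filter.1 h6).2

/-- The number of the roots over a root of `b`. -/
theorem card_block [IsSepClosed k] (hg : g.Monic) (hg0 : 0 < g.natDegree) (hbg : (b.comp (-g)).Separable)
    {δ : k} (hδ : δ ∈ b.roots.toFinset) :
    ((b.comp (-g)).roots.toFinset.filter fun r => -g.eval r = δ).card = g.natDegree := by
  have hroot : b.IsRoot δ := isRoot_of_mem_roots (Multiset.mem_toFinset.1 hδ)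
  obtain ⟨q, hq⟩ := dvd_iff_isRoot.2 hroot
  have h1 : b.comp (-g) = (-(g + C δ)) * q.comp (-g) := by
    rw [hq, mul_comp, sub_comp, X_comp, C_comp]
    ring
  have hgd : (g + C δ).Monic := by
    refine hg.add_of_left (lt_of_le_of_lt degree_C_le ?_)
    exact natDegree_pos_iff_degree_pos.1 hg0
  have hsep : (g + C δ).Separable := hbg.of_dvd (by
    rw [h1]
    exact (dvd_neg.2 dvd_rfl).mul_right _)
  have hdeg : (g + C δ).natDegree = g.natDegree := natDegree_add_C
  have hspl : (g + C δ).Splits := IsSepClosed.splits_of_separable _ hsep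
  rw [← hdeg, hspl.natDegree_eq_card_roots, ← Multiset.toFinset_card_of_nodup (nodup_roots hsep)]
  congr 1
  ext r
  rw [Finset.mem_filter, Multiset.mem_toFinset, Multiset.mem_toFinset, mem_roots hbg.ne_zero,
    mem_roots hgd.ne_zero, IsRoot.def, IsRoot.def, eval_add, eval_C, eval_comp, eval_neg]
  constructor
  · rintro ⟨-, h3⟩
    rw [← h3]
    ring
  · intro h3
    have h4 : -g.eval r = δ := by linear_combination -h3
    rw [h4]
    exact ⟨hroot, rfl⟩

end base

end Pool.Agent.Q45.GM
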