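import Pool.Agent.Q45.GM.CoreD

/-!
# The invariant of a Selmer class of order two: existence
-/

set_option autoImplicit false
set_option linter.all false

open Polynomial IsDedekindDomain WithZero
open scoped Classical

namespace Pool.Agent.Q45.GM

open Pool.Agent.Q45.TT (IsQuad FS IsTower exists_field sep_ff)
open Pool.Agent.Q45.TW (cst ff ff_monic ff_natDegree ff_map IsGeom eval₂_ff)
open Pool.Agent.Q45.GP (Regular parF)
open Pool.Agent.Y160.SE (IsPw)
open Pool.Agent.Y160.SQ
open Pool.Agent.TH115.GD (incl rs ak Sep Comp)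

/-- The data: `F = k(t)(β)`, `β ^ 2 = b(t)`, and `f = g(x) + t`. -/
structure Stp {k F : Type} [Field k] [Field F] [Algebra k[X] F] (b g : k[X]) (β : F) {K : Type}
    [Field K] [Algebra K F] (f : K[X]) : Prop where
  two : (2 : k) ≠ 0
  gm : g.Monic
  odd : Odd g.natDegree
  der : derivative g ≠ 0
  pos : 0 < b.natDegree
  bsep : b.Separable
  sep : (b.comp (-g)).Separable
  he : IsHE k F b β
  good : Good 2 (-1) f
  eq : f.map (algebraMap K F) = ff g F

/-- The roots of `b(-g(x))`. -/
noncomputable def RT {k : Type} [Field k] (b g : k[X]) : Finset k := (b.comp (-g)).roots.toFinset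

/-- The function `e` on the roots of `b(-g(x))` is the invariant of the cocycle `c`. -/
structure Rel {k F : Type} [Field k] [Field F] [Algebra k[X] F] (b g : k[X]) {K : Type}
    [Field K] [Algebra K F] {f : K[X]} (hgd : Good 2 (-1) f) (a : Sep F)
    (c : (Sep F ≃ₐ[F] Sep F) → Jac 2 f (Sep F)) (e : k → ZMod 2) : Prop where
  supp : ∀ r, r ∉ RT b g → e r = 0
  bal : ∀ δ, ∑ r ∈ (RT b g).filter (fun r => -g.eval r = δ), e r = 0
  kum : ∃ u : Sep F, IsKum hgd a c u ∧
    u ^ 2 = ∏ r ∈ (RT b g).filter (fun r => e r = 1), (a - kc k F r)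

section rel

variable {k F : Type} [Field k] [Field F] [Algebra k[X] F] {b g : k[X]} {β : F} {K : Type}
  [Field K] [Algebra K F] {f : K[X]}

theorem mem_RT (hs : (b.comp (-g)).Separable) {r : k} : r ∈ RT b g ↔ b.eval (-g.eval r) = 0 := by
  unfold RT
  rw [Multiset.mem_toFinset, mem_roots hs.ne_zero, IsRoot.def, eval_comp, eval_neg]

theorem Stp.irr (h : Stp b g β f) : Irreducible (f.map (algebraMap K F)) := by
  rw [h.eq]
  exact h.he.tower.irr h.two h.gm h.odd

/-- The Kummer generator gives a square in `F`. -/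
theorem Stp.norm [IsSepClosed k] (h : Stp b g β f) {a : Sep F} (ha : Rt f a)
    {c : (Sep F ≃ₐ[F] Sep F) → Jac 2 f (Sep F)}
    (hmul : ∀ σ τ, c (σ * τ) = c σ + jm 2 f (rs K σ) (c τ)) (hc : ∀ τ, Tor h.good (c τ)) {u : Sep F}
    (hu : IsKum h.good a c u) {S : Finset k} (hS : u ^ 2 = ∏ r ∈ S, (a - kc k F r)) :
    ∃ y : F, y ^ 2 = ∏ r ∈ S, (algebraMap k[X] F (X - C (-g.eval r))) := by
  set P : F[X] := ∏ r ∈ S, (X - C (algebraMap k[X] F (C r))) with hP
  have haP : ∀ x : Sep F, aeval x P = ∏ r ∈ S, (x - kc k F r) := by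
    intro x
    rw [hP, map_prod]
    refine Finset.prod_congr rfl fun r _ => ?_
    rw [map_sub, aeval_X, aeval_C]
    rfl
  obtain ⟨y, hy⟩ := hu.norm h.good h.irr ha hmul hc (P := P) (by rw [hS, haP])
  have hmon : (f.map (algebraMap K (Sep F))).Monic := (h.good.up (Sep F)).monic
  have hnd : (f.map (algebraMap K (Sep F))).roots.Nodup := nodup_roots (h.good.up (Sep F)).sep
  have hspl : (f.map (algebraMap K (Sep F))).Splits := splits_up h.good
  have hdeg : f.natDegree = g.natDegree := by
    have h1 := congrArg natDegree h.eq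
    rw [natDegree_map, ff_natDegree h.gm h.odd.pos] at h1
    exact h1
  have hfe : ∀ r : k, (f.map (algebraMap K (Sep F))).eval (kc k F r) =
      algebraMap F (Sep F) (algebraMap k[X] F (X - C (-g.eval r))) := by
    intro r
    have h1 : f.map (algebraMap K (Sep F)) = (ff g F).map (algebraMap F (Sep F)) := by
      rw [← h.eq, Polynomial.map_map, ← IsScalarTower.algebraMap_eq]
    rw [h1, kc, eval_map, eval₂_at_apply]
    congr 1
    unfold ff
    rw [eval_add, eval_C, eval_map, C_neg, sub_neg_eq_add, map_add, add_comm]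
    congr 1
    show eval₂ (cst k F) (cst k F r) g = _
    rw [eval₂_at_apply]
    rfl
  have hprod : ∀ r : k, ∏ x ∈ (f.map (algebraMap K (Sep F))).roots.toFinset, (x - kc k F r) =
      -algebraMap F (Sep F) (algebraMap k[X] F (X - C (-g.eval r))) := by
    intro r
    rw [← hfe, hspl.eval_eq_prod_roots_of_monic hmon, Finset.prod, Multiset.toFinset_val,
      Multiset.dedup_eq_self.2 hnd]
    have h1 : ((f.map (algebraMap K (Sep F))).roots.map fun x => x - kc k F r) =
        (f.map (algebraMap K (Sep F))).roots.map fun x => -1 * (kc k F r - x) :=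
      Multiset.map_congr rfl fun x _ => by ring
    rw [h1, Multiset.prod_map_mul, Multiset.map_const', Multiset.prod_replicate,
      ← hspl.natDegree_eq_card_roots, natDegree_map, hdeg, h.odd.neg_one_pow, neg_one_mul]
  have hy2 : algebraMap F (Sep F) (y ^ 2) = algebraMap F (Sep F)
      (∏ r ∈ S, -(algebraMap k[X] F (X - C (-g.eval r)))) := by
    rw [hy, map_prod]
    have h1 : ∏ β ∈ (f.map (algebraMap K (Sep F))).roots.toFinset, aeval β P =
        ∏ β ∈ (f.map (algebraMap K (Sep F))).roots.toFinset, ∏ r ∈ S, (β - kc k F r) :=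
      Finset.prod_congr rfl fun x _ => haP x
    rw [h1, Finset.prod_comm]
    refine Finset.prod_congr rfl fun r _ => ?_
    exact (hprod r).trans (map_neg (algebraMap F (Sep F)) _).symm
  have hy3 := (algebraMap F (Sep F)).injective hy2
  obtain ⟨i, hi⟩ := IsSepClosed.exists_pow_nat_eq (-1 : k) 2 (hn := ⟨by exact_mod_cast h.two⟩)
  have hi0 : algebraMap k[X] F (C i) ≠ 0 := by
    intro h0
    have h1 : (C i : k[X]) = 0 := h.he.inj (by rw [h0, map_zero])
    rw [C_eq_zero.1 h1, zero_pow two_ne_zero] at hi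
    exact one_ne_zero (neg_eq_zero.1 hi.symm)
  refine ⟨y * (algebraMap k[X] F (C i)) ^ S.card, ?_⟩
  have h1 : (algebraMap k[X] F (C i)) ^ 2 = -1 := by
    rw [← map_pow, ← C_pow, hi, C_neg, C_1, map_neg, map_one]
  rw [mul_pow, hy3, ← pow_mul, mul_comm S.card 2, pow_mul, h1, Finset.prod_neg]
  have h2 : ((-1 : F) ^ S.card) * (-1) ^ S.card = 1 := by
    rw [← mul_pow, neg_one_mul, neg_neg, one_pow]
  linear_combination (∏ r ∈ S, (algebraMap k[X] F (X - C (-g.eval r)))) * h2

/-- Elements of the field generated by `a` are fixed by the stabilizer of `a`. -/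
theorem fix_sub {a : Sep F} (σ : Sep F ≃ₐ[F] Sep F) (hσ : σ a = a) (r : k) :
    σ (a - kc k F r) = a - kc k F r := by
  rw [map_sub, hσ, kc, σ.commutes]

theorem fix_prod {a : Sep F} (σ : Sep F ≃ₐ[F] Sep F) (hσ : σ a = a) (S : Finset k) :
    σ (∏ r ∈ S, (a - kc k F r)) = ∏ r ∈ S, (a - kc k F r) := by
  rw [map_prod]
  exact Finset.prod_congr rfl fun r _ => fix_sub σ hσ r

/-- `a` is not a constant. -/
theorem Stp.sub_ne (h : Stp b g β f) {a : Sep F} (ha : Rt f a) (r : k) : a - kc k F r ≠ 0 := by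
  intro h0
  have h1 : a = kc k F r := sub_eq_zero.1 h0
  have h2 : aeval (algebraMap k[X] F (C r)) (f.map (algebraMap K F)) = 0 := by
    apply (algebraMap F (Sep F)).injective
    rw [map_zero, ← aeval_algebraMap_apply, aeval_map_algebraMap]
    have h3 : algebraMap F (Sep F) (algebraMap k[X] F (C r)) = a := h1.symm
    rw [h3]
    exact ha
  rw [h.eq, aeval_def, Algebra.algebraMap_self, eval₂_id, ff, eval_add, eval_C, eval_map] at h2
  have h3 : eval₂ (cst k F) (algebraMap k[X] F (C r)) g = algebraMap k[X] F (C (g.eval r)) := by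
    show eval₂ (cst k F) (cst k F r) g = _
    rw [eval₂_at_apply]
    rfl
  rw [h3, ← map_add] at h2
  have h4 : (C (g.eval r) + X : k[X]) = 0 := h.he.inj (by rw [h2, map_zero])
  rw [add_comm] at h4
  exact (monic_X_add_C _).ne_zero h4

end rel

end Pool.Agent.Q45.GM
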