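import Pool.Agent.Q45.GM.CoreE

/-!
# The invariant of a Selmer class of order two: properties
-/

set_option autoImplicit false
set_option linter.all false

open Polynomial IsDedekindDomain WithZero
open scoped Classical

namespace Pool.Agent.Q45.GM

open Pool.Agent.Q45.TT (IsQuad FS IsTower exists_field sep_ff)
open Pool.Agent.Q45.TW (cst ff ff_monic ff_natDegree ff_map IsGeom eval₂_ff)
open Pool.Agent.Q45.GP (Regular parF)
open Pool.Agent.Y160.SE (IsPw)
open Pool.Agent.Y160.SQ
open Pool.Agent.TH115.GD (incl rs ak Sep Comp)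

section rel

variable {k F : Type} [Field k] [Field F] [Algebra k[X] F] {b g : k[X]} {β : F} {K : Type}
  [Field K] [Algebra K F] {f : K[X]}

/-- The product over all roots is a constant times `b(t)`. -/
theorem Stp.prod_all [IsSepClosed k] (h : Stp b g β f) {a : Sep F} (ha : Rt f a) :
    ∃ s : F, s ≠ 0 ∧ (algebraMap F (Sep F) s) ^ 2 = ∏ r ∈ RT b g, (a - kc k F r) := by
  have hspl : (b.comp (-g)).Splits := IsSepClosed.splits_of_separable _ h.sep
  have hnd := nodup_roots h.sep
  obtain ⟨l, hl⟩ := IsSepClosed.exists_pow_nat_eq (b.comp (-g)).leadingCoeff 2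
    (hn := ⟨by exact_mod_cast h.two⟩)
  have hl0 : l ≠ 0 := by
    rintro rfl
    rw [zero_pow two_ne_zero] at hl
    exact (leadingCoeff_ne_zero.2 h.sep.ne_zero) hl.symm
  -- the homomorphism `X ↦ a`
  let ψ : k[X] →+* Sep F := eval₂RingHom ((algebraMap F (Sep F)).comp (cst k F)) a
  have hψX : ψ X = a := eval₂_X _ _
  have hψC : ∀ c, ψ (C c) = algebraMap F (Sep F) (algebraMap k[X] F (C c)) := fun c => eval₂_C _ _
  have haF : aeval a (ff g F) = 0 := by
    rw [← h.eq, aeval_map_algebraMap]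
    exact ha
  have hcomp := root_eq (g := g) haF ψ hψX hψC b
  have h1 : ψ (b.comp (-g)) = kc k F (b.comp (-g)).leadingCoeff * ∏ r ∈ RT b g, (a - kc k F r) := by
    conv_lhs => rw [hspl.eq_prod_roots]
    rw [map_mul, hψC]
    congr 1
    rw [map_multiset_prod, Multiset.map_map, RT, Finset.prod, Multiset.toFinset_val,
      Multiset.dedup_eq_self.2 hnd]
    congr 1
    refine Multiset.map_congr rfl fun r _ => ?_
    show ψ (X - C r) = _
    rw [map_sub, hψX, hψC]
    rfl
  have hlk : algebraMap k[X] F (C l) ≠ 0 := by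
    intro h0
    exact hl0 (C_eq_zero.1 (h.he.inj (by rw [h0, map_zero])))
  have hβ0 : β ≠ 0 := by
    rintro rfl
    have h3 := h.he.sq
    rw [zero_pow two_ne_zero] at h3
    have h4 : b = 0 := h.he.inj (by rw [← h3, map_zero])
    have h5 := h.pos
    rw [h4, natDegree_zero] at h5
    exact lt_irrefl _ h5
  refine ⟨β / algebraMap k[X] F (C l), div_ne_zero hβ0 hlk, ?_⟩
  rw [hcomp, ← h.he.sq, ← hl] at h1
  have h3 : kc k F (l ^ 2) = algebraMap F (Sep F) (algebraMap k[X] F (C l)) ^ 2 := by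
    unfold kc
    rw [C_pow, map_pow, map_pow]
  rw [h3, map_pow] at h1
  have h4 : algebraMap F (Sep F) (algebraMap k[X] F (C l)) ≠ 0 := (_root_.map_ne_zero _).2 hlk
  rw [map_div₀, div_pow, h1, mul_div_cancel_left₀ _ (pow_ne_zero 2 h4)]

/-- Existence of the invariant. -/
theorem Stp.exists_rel [IsSepClosed k] (h : Stp b g β f) {B : Type} [CommRing B]
    [IsDedekindDomain B] [Algebra k[X] B] [Algebra B F] [IsScalarTower k[X] B F] [IsFractionRing B F]
    [IsIntegralClosure B k[X] F] {a : Sep F} (ha : Rt f a)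
    {c : (Sep F ≃ₐ[F] Sep F) → Jac 2 f (Sep F)} (hc : IsCoc 2 f c) (hc2 : ∀ σ, Tor h.good (c σ))
    (hloc : IsSelmer 2 B f c) : ∃ e : k → ZMod 2, Rel b g h.good a c e := by
  obtain ⟨S, u, hS, hu, huS⟩ := exists_form h.two h.gm h.odd h.der h.pos h.bsep h.sep h.he h.good
    h.eq ha hc hc2 hloc
  obtain ⟨y, hy⟩ := h.norm ha hc.mul hc2 hu huS
  have hγ : ∀ r ∈ RT b g, -g.eval r ∈ b.roots.toFinset := by
    intro r hr
    rw [mem_RT h.sep] at hr
    rw [Multiset.mem_toFinset, mem_roots h.bsep.ne_zero]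
    exact hr
  have key : ∀ (S : Finset k) (u : Sep F), S ⊆ RT b g → IsKum h.good a c u →
      u ^ 2 = ∏ r ∈ S, (a - kc k F r) → (∀ δ, Even (S.filter fun r => -g.eval r = δ).card) →
      ∃ e : k → ZMod 2, Rel b g h.good a c e := by
    intro S u hS hu huS hev
    refine ⟨fun r => if r ∈ S then 1 else 0, ?_, ?_, u, hu, ?_⟩
    · intro r hr
      rw [if_neg fun h1 => hr (hS h1)]
    · intro δ
      rw [sum_z2, even_cast]
      have h1 : (((RT b g).filter fun r => -g.eval r = δ).filter fun r =>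
          (if r ∈ S then (1 : ZMod 2) else 0) = 1) = S.filter fun r => -g.eval r = δ := by
        ext r
        rw [Finset.mem_filter, Finset.mem_filter, Finset.mem_filter]
        constructor
        · rintro ⟨⟨h3, h4⟩, h5⟩
          refine ⟨?_, h4⟩
          by_contra h6
          rw [if_neg h6] at h5
          exact zero_ne_one h5
        · rintro ⟨h3, h4⟩
          exact ⟨⟨hS h3, h4⟩, if_pos h3⟩
      rw [h1]
      exact hev δ
    · rw [huS]
      refine Finset.prod_congr ?_ fun _ _ => rfl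
      ext r
      rw [Finset.mem_filter]
      constructor
      · intro h3
        exact ⟨hS h3, if_pos h3⟩
      · rintro ⟨h3, h5⟩
        by_contra h6
        rw [if_neg h6] at h5
        exact zero_ne_one h5
  rcases base_parity h.two h.pos h.bsep h.he S (fun r => -g.eval r) (fun r hr => hγ r (hS hr)) hy
    with h1 | h1
  · exact key S u hS hu huS h1
  · -- the complement
    obtain ⟨s, hs0, hs⟩ := h.prod_all ha
    have hPS : ∏ r ∈ S, (a - kc k F r) ≠ 0 := Finset.prod_ne_zero_iff.2 fun r _ => h.sub_ne ha r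
    have hsd : (∏ r ∈ (RT b g) \ S, (a - kc k F r)) * ∏ r ∈ S, (a - kc k F r) =
        ∏ r ∈ RT b g, (a - kc k F r) := Finset.prod_sdiff hS
    have hs0' : algebraMap F (Sep F) s ≠ 0 := (_root_.map_ne_zero _).2 hs0
    refine key (RT b g \ S) (algebraMap F (Sep F) s / (∏ r ∈ S, (a - kc k F r)) * u)
      Finset.sdiff_subset (hu.mul_fix h.good (div_ne_zero hs0' hPS) fun σ hσ => ?_) ?_ ?_
    · rw [map_div₀, σ.commutes, fix_prod σ hσ]
    · rw [mul_pow, div_pow, hs, huS, ← hsd]
      field_simp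
    · intro δ
      by_cases hδ : δ ∈ b.roots.toFinset
      · have h3 := h1 δ hδ
        have h4 := card_block h.gm h.odd.pos h.sep hδ
        have h5 : ((RT b g \ S).filter fun r => -g.eval r = δ) =
            ((RT b g).filter fun r => -g.eval r = δ) \ (S.filter fun r => -g.eval r = δ) := by
          ext r
          rw [Finset.mem_filter, Finset.mem_sdiff, Finset.mem_sdiff, Finset.mem_filter,
            Finset.mem_filter]
          constructor
          · rintro ⟨⟨h6, h7⟩, h8⟩
            exact ⟨⟨h6, h8⟩, fun h9 => h7 h9.1⟩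
          · rintro ⟨⟨h6, h7⟩, h8⟩
            exact ⟨⟨h6, fun h9 => h8 ⟨h9, h7⟩⟩, h7⟩
        have h6 : (S.filter fun r => -g.eval r = δ) ⊆ ((RT b g).filter fun r => -g.eval r = δ) :=
          Finset.filter_subset_filter _ hS
        rw [h5, Finset.card_sdiff_of_subset h6]
        have h7 : ((RT b g).filter fun r => -g.eval r = δ).card = g.natDegree := h4
        rw [h7]
        exact Nat.Odd.sub_odd h.odd h3
      · have h6 : ((RT b g \ S).filter fun r => -g.eval r = δ) = ∅ := by
          rw [Finset.filter_eq_empty_iff]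
          intro r hr h7
          exact hδ (h7 ▸ hγ r (Finset.mem_sdiff.1 hr).1)
        rw [h6, Finset.card_empty]
        exact Even.zero

/-- A product with even blocks which is a square in the field generated by `a` is empty. -/
theorem Stp.square [IsSepClosed k] (h : Stp b g β f) {a : Sep F} (ha : Rt f a) {e : k → ZMod 2}
    (hbal : ∀ δ, ∑ r ∈ (RT b g).filter (fun r => -g.eval r = δ), e r = 0) {s : Sep F}
    (hfix : ∀ σ : Sep F ≃ₐ[F] Sep F, σ a = a → σ s = s)
    (hs : s ^ 2 = ∏ r ∈ (RT b g).filter (fun r => e r = 1), (a - kc k F r)) :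
    ∀ r ∈ RT b g, e r = 0 := by
  -- the field generated by `a`
  let N : IntermediateField F (Sep F) := IntermediateField.adjoin F {a}
  let θ : N := ⟨a, IntermediateField.mem_adjoin_simple_self F a⟩
  have htop : IntermediateField.adjoin F {θ} = ⊤ := by
    apply IntermediateField.lift_injective N
    rw [IntermediateField.lift_adjoin_simple, IntermediateField.lift_top]
  have hsN : s ∈ N := by
    rw [← InfiniteGalois.fixedField_fixingSubgroup N]
    rintro ⟨σ, hσ⟩
    exact hfix σ ((IntermediateField.mem_fixingSubgroup_iff N σ).1 hσ a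
      (IntermediateField.mem_adjoin_simple_self F a))
  have hθ : aeval θ (ff g F) = 0 := by
    apply (algebraMap N (Sep F)).injective
    rw [map_zero, ← aeval_algebraMap_apply, ← h.eq, aeval_map_algebraMap]
    exact ha
  let ψ : k[X] →+* N := eval₂RingHom ((algebraMap F N).comp (cst k F)) θ
  have hψX : ψ X = θ := eval₂_X _ _
  have hψC : ∀ c, ψ (C c) = algebraMap F N (algebraMap k[X] F (C c)) := fun c => eval₂_C _ _
  have hHE := up_isHE h.he hθ htop ψ hψX hψC
  have hdeg : 0 < (b.comp (-g)).natDegree := by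
    rw [natDegree_comp, natDegree_neg]
    exact Nat.mul_pos h.pos h.odd.pos
  have hHyp := @IsHE.isHyp k N _ _ ψ.toAlgebra _ _ hHE h.two h.sep hdeg
  have hspl : (b.comp (-g)).Splits := IsSepClosed.splits_of_separable _ h.sep
  have h1 : (⟨s, hsN⟩ : N) ^ 2 = ψ (∏ r ∈ (RT b g).filter (fun r => e r = 1), (X - C r)) := by
    apply Subtype.ext
    have h3 : ((ψ (∏ r ∈ (RT b g).filter (fun r => e r = 1), (X - C r)) : N) : Sep F) =
        ∏ r ∈ (RT b g).filter (fun r => e r = 1), (a - kc k F r) := by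
      rw [map_prod]
      show algebraMap N (Sep F) (∏ r ∈ (RT b g).filter (fun r => e r = 1), ψ (X - C r)) = _
      rw [map_prod]
      refine Finset.prod_congr rfl fun r _ => ?_
      rw [map_sub, hψX, hψC, map_sub, ← IsScalarTower.algebraMap_apply F N (Sep F)]
      rfl
    rw [h3, ← hs]
    rfl
  rcases @JHYP2.main k N _ _ ψ.toAlgebra (b.comp (-g)) (algebraMap F N β) h.two hspl h.sep hdeg hHyp
    ((RT b g).filter fun r => e r = 1) ⟨s, hsN⟩ (Finset.filter_subset _ _) h1 with h4 | h4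
  · intro r hr
    rw [Finset.filter_eq_empty_iff] at h4
    exact z2_ne (h4 hr)
  · exfalso
    -- a root of `b`
    have hsb : b.Splits := IsSepClosed.splits_of_separable _ h.bsep
    obtain ⟨δ, hδ⟩ := hsb.exists_eval_eq_zero (by
      rw [degree_eq_natDegree h.bsep.ne_zero]
      exact_mod_cast h.pos.ne')
    have hδ' : δ ∈ b.roots.toFinset := by
      rw [Multiset.mem_toFinset, mem_roots h.bsep.ne_zero]
      exact hδ
    have h5 := hbal δ
    have h6 : ∑ r ∈ (RT b g).filter (fun r => -g.eval r = δ), e r =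
        (((RT b g).filter (fun r => -g.eval r = δ)).card : ZMod 2) := by
      rw [Finset.card_eq_sum_ones, Nat.cast_sum]
      refine Finset.sum_congr rfl fun r hr => ?_
      have h7 : r ∈ (RT b g).filter fun r => e r = 1 := by
        rw [h4]
        exact (Finset.mem_filter.1 hr).1
      rw [(Finset.mem_filter.1 h7).2, Nat.cast_one]
    have h8 : ((RT b g).filter fun r => -g.eval r = δ).card = g.natDegree :=
      card_block h.gm h.odd.pos h.sep hδ'
    rw [h6, h8, even_cast] at h5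
    exact Nat.not_even_iff_odd.2 h.odd h5

/-- Additivity. -/
theorem Stp.rel_add (h : Stp b g β f) [IsSepClosed k] {a : Sep F} (ha : Rt f a)
    {c d : (Sep F ≃ₐ[F] Sep F) → Jac 2 f (Sep F)} (hc : ∀ τ, Tor h.good (c τ))
    (hd : ∀ τ, Tor h.good (d τ)) {e e' : k → ZMod 2} (h1 : Rel b g h.good a c e)
    (h2 : Rel b g h.good a d e') : Rel b g h.good a (fun σ => c σ + d σ) (fun r => e r + e' r) := by
  obtain ⟨u, hu, hue⟩ := h1.kum
  obtain ⟨w, hw, hwe⟩ := h2.kum
  have hP : ∏ r ∈ (RT b g).filter (fun r => e r = 1 ∧ e' r = 1), (a - kc k F r) ≠ 0 :=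
    Finset.prod_ne_zero_iff.2 fun r _ => h.sub_ne ha r
  refine ⟨fun r hr => by rw [h1.supp r hr, h2.supp r hr, add_zero], fun δ => by
    rw [Finset.sum_add_distrib, h1.bal, h2.bal, add_zero], _,
    (hu.mul h.good ha hc hd hw).mul_fix h.good (inv_ne_zero hP) fun σ hσ => by
      rw [map_inv₀, fix_prod σ hσ], ?_⟩
  have h3 := prod_add (RT b g) e e' (fun r => a - kc k F r)
  rw [mul_pow, mul_pow, hue, hwe, h3, inv_pow]
  field_simp

/-- Uniqueness. -/
theorem Stp.rel_unique (h : Stp b g β f) [IsSepClosed k] {a : Sep F} (ha : Rt f a)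
    {c : (Sep F ≃ₐ[F] Sep F) → Jac 2 f (Sep F)} (hc : ∀ τ, Tor h.good (c τ))
    {e e' : k → ZMod 2} (h1 : Rel b g h.good a c e)
    (h2 : Rel b g h.good a c e') : e = e' := by
  obtain ⟨u, hu, hue⟩ := h1.kum
  obtain ⟨w, hw, hwe⟩ := h2.kum
  have hP : ∏ r ∈ (RT b g).filter (fun r => e r = 1 ∧ e' r = 1), (a - kc k F r) ≠ 0 :=
    Finset.prod_ne_zero_iff.2 fun r _ => h.sub_ne ha r
  set Q := ∏ r ∈ (RT b g).filter (fun r => e r = 1 ∧ e' r = 1), (a - kc k F r) with hQ
  have h3 := prod_add (RT b g) e e' (fun r => a - kc k F r)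
  have hs : (u * w * Q⁻¹) ^ 2 = ∏ r ∈ (RT b g).filter (fun r => e r + e' r = 1), (a - kc k F r) := by
    rw [mul_pow, mul_pow, hue, hwe, h3, ← hQ, inv_pow, mul_assoc,
      mul_inv_cancel₀ (pow_ne_zero 2 hP), mul_one]
  have hfix : ∀ σ : Sep F ≃ₐ[F] Sep F, σ a = a → σ (u * w * Q⁻¹) = u * w * Q⁻¹ := by
    intro σ hσ
    have h4 := chi_pow hyps h.good (hc σ) ha
    rw [map_mul, map_mul, map_inv₀, hu.act σ hσ, hw.act σ hσ, hQ, fix_prod σ hσ]
    linear_combination (u * w * (∏ r ∈ (RT b g).filter (fun r => e r = 1 ∧ e' r = 1),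
      (a - kc k F r))⁻¹) * h4
  have h5 := h.square ha (e := fun r => e r + e' r) (fun δ => by
    rw [Finset.sum_add_distrib, h1.bal, h2.bal, add_zero]) hfix hs
  funext r
  by_cases hr : r ∈ RT b g
  · have h6 := h5 r hr
    have h7 : e' r + e' r = 0 := CharTwo.add_self_eq_zero _
    linear_combination h6 - h7
  · rw [h1.supp r hr, h2.supp r hr]

/-- The kernel. -/
theorem Stp.cob_of_rel (h : Stp b g β f) {a : Sep F} (ha : Rt f a)
    {c : (Sep F ≃ₐ[F] Sep F) → Jac 2 f (Sep F)}
    (hmul : ∀ σ τ, c (σ * τ) = c σ + jm 2 f (rs K σ) (c τ)) (hc : ∀ τ, Tor h.good (c τ))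
    (h1 : Rel b g h.good a c 0) :
    ∃ R : Jac 2 f (Sep F), Tor h.good R ∧ ∀ σ, c σ = jm 2 f (rs K σ) R - R := by
  obtain ⟨u, hu, hue⟩ := h1.kum
  have h2 : (RT b g).filter (fun r => (0 : k → ZMod 2) r = 1) = ∅ := by
    rw [Finset.filter_eq_empty_iff]
    intro r _ h3
    exact zero_ne_one h3
  rw [h2, Finset.prod_empty] at hue
  refine hu.cob h.good h.irr ha hmul hc fun σ _ => ?_
  have h3 : (u - 1) * (u + 1) = 0 := by linear_combination hue
  rcases mul_eq_zero.1 h3 with h4 | h4
  · rw [sub_eq_zero.1 h4, map_one]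
  · rw [eq_neg_of_add_eq_zero_left h4, map_neg, map_one]

theorem Stp.rel_of_cob (h : Stp b g β f) {a : Sep F} (ha : Rt f a)
    {c : (Sep F ≃ₐ[F] Sep F) → Jac 2 f (Sep F)} {R : Jac 2 f (Sep F)}
    (hR : Tor h.good R) (hcR : ∀ σ, c σ = jm 2 f (rs K σ) R - R) : Rel b g h.good a c 0 := by
  refine ⟨fun _ _ => rfl, fun δ => Finset.sum_const_zero, 1, ⟨one_ne_zero, fun σ hσ => ?_⟩, ?_⟩
  · rw [map_one, mul_one, hcR, chi_sub hyps h.good (hR.map _) hR ha]
    have h1 := chi_map hyps h.good hR ha (rs K σ)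
    have h2 : (rs K σ) a = a := hσ
    rw [h2, chi_fix' hyps h.good hR ha] at h1
    rw [h1, div_self (chi_ne hyps h.good hR ha)]
  · have h2 : (RT b g).filter (fun r => (0 : k → ZMod 2) r = 1) = ∅ := by
      rw [Finset.filter_eq_empty_iff]
      intro r _ h3
      exact zero_ne_one h3
    rw [h2, Finset.prod_empty, one_pow]

/-- The action of the automorphisms. -/
theorem Stp.rel_conj (h : Stp b g β f) {a : Sep F} (ha : Rt f a)
    {c : (Sep F ≃ₐ[F] Sep F) → Jac 2 f (Sep F)}
    (hmul : ∀ σ τ, c (σ * τ) = c σ + jm 2 f (rs K σ) (c τ)) (hc : ∀ τ, Tor h.good (c τ))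
    {e : k → ZMod 2} (h1 : Rel b g h.good a c e) (L : Lift K F (Sep F)) (τ : k ≃+* k)
    (hτ : ∀ x : k, L.s (algebraMap k[X] F (C x)) = algebraMap k[X] F (C (τ x)))
    (hgτ : g.map (τ : k →+* k) = g) (hbτ : b.map (τ : k →+* k) = b) :
    Rel b g h.good a (fun σ => jm 2 f (ak L.T) (c (L.conj σ))) (fun r => e (τ.symm r)) := by
  have hgr : ∀ r, g.eval (τ r) = τ (g.eval r) := by
    intro r
    have h3 := eval₂_at_apply (p := g) (τ : k →+* k) r
    rw [← eval_map, hgτ] at h3
    exact h3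
  have hbr : ∀ r, b.eval (τ r) = τ (b.eval r) := by
    intro r
    have h3 := eval₂_at_apply (p := b) (τ : k →+* k) r
    rw [← eval_map, hbτ] at h3
    exact h3
  have hRT : ∀ r, τ r ∈ RT b g ↔ r ∈ RT b g := by
    intro r
    rw [mem_RT h.sep, mem_RT h.sep, hgr, ← map_neg, hbr, map_eq_zero_iff τ τ.injective]
  obtain ⟨u, hu, hue⟩ := h1.kum
  have hTa : Rt f (L.T a) := ha.map (ak L.T)
  obtain ⟨ρ, hρ⟩ := trans_rt h.good h.irr hTa ha
  have hk : ∀ r, L.T (kc k F r) = kc k F (τ r) := by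
    intro r
    unfold kc
    rw [L.comm, hτ]
  refine ⟨?_, ?_, ρ (L.T u), hu.conj h.good L ha hmul hc ρ hρ, ?_⟩
  · intro r hr
    refine h1.supp _ fun h3 => hr ?_
    rw [← hRT, τ.apply_symm_apply] at h3
    exact h3
  · intro δ
    rw [← h1.bal (τ.symm δ)]
    symm
    refine Finset.sum_bij (fun r _ => τ r) ?_ ?_ ?_ ?_
    · intro r hr
      rw [Finset.mem_filter] at hr ⊢
      refine ⟨(hRT r).2 hr.1, ?_⟩
      rw [hgr, ← map_neg, hr.2, τ.apply_symm_apply]
    · intro r _ r' _ h3
      exact τ.injective h3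
    · intro r hr
      rw [Finset.mem_filter] at hr
      refine ⟨τ.symm r, ?_, τ.apply_symm_apply r⟩
      rw [Finset.mem_filter]
      refine ⟨?_, ?_⟩
      · rw [← hRT, τ.apply_symm_apply]
        exact hr.1
      · apply τ.injective
        rw [τ.apply_symm_apply, map_neg, ← hgr, τ.apply_symm_apply]
        exact hr.2
    · intro r _
      rw [τ.symm_apply_apply]
  · rw [← map_pow, ← map_pow, hue, map_prod, map_prod]
    refine Finset.prod_bij (fun r _ => τ r) ?_ ?_ ?_ ?_
    · intro r hr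
      rw [Finset.mem_filter] at hr ⊢
      refine ⟨(hRT r).2 hr.1, ?_⟩
      rw [τ.symm_apply_apply]
      exact hr.2
    · intro r _ r' _ h3
      exact τ.injective h3
    · intro r hr
      rw [Finset.mem_filter] at hr
      refine ⟨τ.symm r, ?_, τ.apply_symm_apply r⟩
      rw [Finset.mem_filter]
      refine ⟨?_, hr.2⟩
      rw [← hRT, τ.apply_symm_apply]
      exact hr.1
    · intro r _
      rw [map_sub, map_sub, hk, hρ]
      congr 1
      exact ρ.commutes _

end rel

end Pool.Agent.Q45.GM
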