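import Pool.Agent.Q45.GM.CoreF
import Pool.Agent.Q45.GM.J.FIN

/-!
# The invariant on the Selmer module
-/

set_option autoImplicit false
set_option linter.all false

open Polynomial IsDedekindDomain WithZero
open scoped Classical

namespace Pool.Agent.Q45.GM

open Pool.Agent.Q45.TT (IsQuad FS IsTower exists_field sep_ff)
open Pool.Agent.Q45.TW (cst ff ff_monic ff_natDegree ff_map IsGeom eval₂_ff)
open Pool.Agent.Y160.SQ
open Pool.Agent.TH115.GD (incl rs ak Sep Comp)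

section kap

variable {k F : Type} [Field k] [Field F] [Algebra k[X] F] {b g : k[X]} {β : F} {K : Type}
  [Field K] [Algebra K F] {f : K[X]} {B : Type} [CommRing B]
  [IsDedekindDomain B] [Algebra k[X] B] [Algebra B F] [IsScalarTower k[X] B F] [IsFractionRing B F]
  [IsIntegralClosure B k[X] F]

/-- The first component of a cocycle. -/
def lvl (c : ↥(Z1 2 (actJ 2 (F := F) f) (IsSelmer 2 B f) (sel_isLocal 2 B f))) :
    (Sep F ≃ₐ[F] Sep F) → Jac 2 f (Sep F) := fun σ => (c.1 σ).1 1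

theorem lvl_coc (c : ↥(Z1 2 (actJ 2 (F := F) f) (IsSelmer 2 B f) (sel_isLocal 2 B f))) :
    IsCoc 2 f (lvl c) := ⟨(c.2.coc 1).lc, (c.2.coc 1).mul⟩

theorem lvl_two (c : ↥(Z1 2 (actJ 2 (F := F) f) (IsSelmer 2 B f) (sel_isLocal 2 B f)))
    (σ : Sep F ≃ₐ[F] Sep F) : 2 • lvl c σ = 0 := by
  have h := tmS (c.1 σ) 0
  rw [tm0] at h
  exact h

theorem Stp.exists_kap [IsSepClosed k] (h : Stp b g β f) {a : Sep F} (ha : Rt f a)
    (c : ↥(Z1 2 (actJ 2 (F := F) f) (IsSelmer 2 B f) (sel_isLocal 2 B f))) :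
    ∃ e : k → ZMod 2, Rel b g h.good a (lvl c) e :=
  h.exists_rel (B := B) ha (lvl_coc c) (fun σ => (tor_two h.good).2 (lvl_two c σ)) (c.2.loc 1)

/-- The invariant of a cocycle. -/
noncomputable def kap [IsSepClosed k] (h : Stp b g β f) {a : Sep F} (ha : Rt f a) :
    ↥(Z1 2 (actJ 2 (F := F) f) (IsSelmer 2 B f) (sel_isLocal 2 B f)) →+ (k → ZMod 2) :=
  AddMonoidHom.mk' (fun c => (h.exists_kap ha c).choose) (by
    intro c d
    have hT : ∀ c : ↥(Z1 2 (actJ 2 (F := F) f) (IsSelmer 2 B f) (sel_isLocal 2 B f)),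
      ∀ σ, Tor h.good (lvl c σ) := fun c σ => (tor_two h.good).2 (lvl_two c σ)
    have h3 := h.rel_add ha (hT c) (hT d) (h.exists_kap ha c).choose_spec
      (h.exists_kap ha d).choose_spec
    exact h.rel_unique ha (hT (c + d)) (h.exists_kap ha (c + d)).choose_spec h3)

theorem kap_rel [IsSepClosed k] (h : Stp b g β f) {a : Sep F} (ha : Rt f a)
    (c : ↥(Z1 2 (actJ 2 (F := F) f) (IsSelmer 2 B f) (sel_isLocal 2 B f))) :
    Rel b g h.good a (lvl c) (kap h ha c) := (h.exists_kap ha c).choose_spec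

theorem kap_eq [IsSepClosed k] (h : Stp b g β f) {a : Sep F} (ha : Rt f a)
    (c : ↥(Z1 2 (actJ 2 (F := F) f) (IsSelmer 2 B f) (sel_isLocal 2 B f))) {e : k → ZMod 2}
    (he : Rel b g h.good a (lvl c) e) : kap h ha c = e :=
  h.rel_unique ha (fun σ => (tor_two h.good).2 (lvl_two c σ)) (kap_rel h ha c) he

theorem kap_zero_iff [IsSepClosed k] (h : Stp b g β f) {a : Sep F} (ha : Rt f a)
    (c : ↥(Z1 2 (actJ 2 (F := F) f) (IsSelmer 2 B f) (sel_isLocal 2 B f))) :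
    kap h ha c = 0 ↔ ∃ m, cls (sel_isLocal 2 B f) c = (2 : ℤ_[2]) • m := by
  constructor
  · intro h0
    have h1 := kap_rel h ha c
    rw [h0] at h1
    obtain ⟨Q, hQ, hQc⟩ := h.cob_of_rel ha (lvl_coc c).mul
      (fun σ => (tor_two h.good).2 (lvl_two c σ)) h1
    have h3 := cls_mem (p := 2) (actJ_isAct 2 h.good) (sel_isLocal 2 B f) (div_two h.good) c
      (Q := Q) ((tor_two h.good).1 hQ) hQc
    exact_mod_cast h3
  · rintro ⟨m, hm⟩
    obtain ⟨Q, hQ, hQc⟩ := of_cls_mem (p := 2) (sel_isLocal 2 B f) c (m := m) (by exact_mod_cast hm)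
    exact kap_eq h ha c (h.rel_of_cob ha ((tor_two h.good).2 hQ) hQc)

/-- The invariant of a class. -/
noncomputable def kapM [IsSepClosed k] (h : Stp b g β f) {a : Sep F} (ha : Rt f a) :
    SelT (F := F) 2 B f 2 →+ (k → ZMod 2) :=
  QuotientAddGroup.lift _ (kap h ha) (by
    intro c hc
    have h1 : cls (sel_isLocal 2 B f) c = 0 := (Submodule.Quotient.mk_eq_zero _).2 hc
    exact (kap_zero_iff h ha c).2 ⟨0, by rw [h1, smul_zero]⟩)

theorem kapM_cls [IsSepClosed k] (h : Stp b g β f) {a : Sep F} (ha : Rt f a)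
    (c : ↥(Z1 2 (actJ 2 (F := F) f) (IsSelmer 2 B f) (sel_isLocal 2 B f))) :
    kapM h ha (cls (sel_isLocal 2 B f) c) = kap h ha c := rfl

theorem kapM_zero_iff [IsSepClosed k] (h : Stp b g β f) {a : Sep F} (ha : Rt f a)
    (m : SelT (F := F) 2 B f 2) : kapM h ha m = 0 ↔ ∃ m', m = (2 : ℤ_[2]) • m' := by
  obtain ⟨c, rfl⟩ := cls_surj (sel_isLocal 2 B f) m
  rw [kapM_cls, kap_zero_iff]

theorem kapM_supp [IsSepClosed k] (h : Stp b g β f) {a : Sep F} (ha : Rt f a)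
    (m : SelT (F := F) 2 B f 2) {r : k} (hr : r ∉ RT b g) : kapM h ha m r = 0 := by
  obtain ⟨c, rfl⟩ := cls_surj (sel_isLocal 2 B f) m
  rw [kapM_cls]
  exact (kap_rel h ha c).supp r hr

theorem kapM_bal [IsSepClosed k] (h : Stp b g β f) {a : Sep F} (ha : Rt f a)
    (m : SelT (F := F) 2 B f 2) (δ : k) :
    ∑ r ∈ (RT b g).filter (fun r => -g.eval r = δ), kapM h ha m r = 0 := by
  obtain ⟨c, rfl⟩ := cls_surj (sel_isLocal 2 B f) m
  rw [kapM_cls]
  exact (kap_rel h ha c).bal δ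

theorem kapM_tw [IsSepClosed k] (h : Stp b g β f) {a : Sep F} (ha : Rt f a)
    (L : Lift K F (Sep F)) (hL : IsTw (actJ 2 (F := F) f) (IsSelmer 2 B f) L.conj (jm 2 f (ak L.T)))
    (τ : k ≃+* k) (hτ : ∀ x : k, L.s (algebraMap k[X] F (C x)) = algebraMap k[X] F (C (τ x)))
    (hgτ : g.map (τ : k →+* k) = g) (hbτ : b.map (τ : k →+* k) = b)
    (m : SelT (F := F) 2 B f 2) (r : k) :
    kapM h ha (tw (sel_isLocal 2 B f) hL m) (τ r) = kapM h ha m r := by
  obtain ⟨c, rfl⟩ := cls_surj (sel_isLocal 2 B f) m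
  rw [tw_cls, kapM_cls, kapM_cls]
  have h1 := h.rel_conj ha (lvl_coc c).mul (fun σ => (tor_two h.good).2 (lvl_two c σ))
    (kap_rel h ha c) L τ hτ hgτ hbτ
  rw [kap_eq h ha (twZ (sel_isLocal 2 B f) hL c) h1]
  show kap h ha c (τ.symm (τ r)) = _
  rw [τ.symm_apply_apply]

theorem Stp.h0 [IsSepClosed k] (h : Stp b g β f) {a : Sep F} (ha : Rt f a) :
    ∀ x : Jac 2 f (Sep F), 2 • x = 0 → (∀ σ : Sep F ≃ₐ[F] Sep F, actJ 2 f σ x = x) → x = 0 :=
  fun _ hx hfix => inv_zero (F := F) h.good h.irr ((tor_two h.good).2 hx) hfix ha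

/-- **The Selmer module is free of finite rank.** -/
theorem Stp.fin [IsSepClosed k] (h : Stp b g β f) {a : Sep F} (ha : Rt f a) :
    Module.Finite ℤ_[2] (SelT (F := F) 2 B f 2) ∧ Module.Free ℤ_[2] (SelT (F := F) 2 B f 2) := by
  refine JFIN.main 2 (SelT (F := F) 2 B f 2) (RT b g → ZMod 2)
    (fun m r => kapM h ha m r) ?_ ?_ ?_
  · intro m m' hmm
    have h1 : kapM h ha (m - m') = 0 := by
      rw [map_sub]
      funext r
      rw [Pi.sub_apply, Pi.zero_apply]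
      by_cases hr : r ∈ RT b g
      · exact sub_eq_zero.2 (congrFun hmm ⟨r, hr⟩)
      · rw [kapM_supp h ha m hr, kapM_supp h ha m' hr, sub_zero]
    exact_mod_cast (kapM_zero_iff h ha _).1 h1
  · exact H1.sep (p := 2) (actJ_isAct 2 h.good) (sel_isLocal 2 B f) (h.h0 ha)
  · exact H1.torsion (p := 2) (actJ_isAct 2 h.good) (sel_isLocal 2 B f) (h.h0 ha)

end kap

end Pool.Agent.Q45.GM
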