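import Pool.Agent.Q45.GM.CoreG
import Pool.Agent.Q45.GM.J.LIN1
import Pool.Agent.Q45.GM.J.LIN2

/-!
# The characteristic polynomial on the Selmer module
-/

set_option autoImplicit false
set_option linter.all false

open Polynomial IsDedekindDomain WithZero
open scoped Classical

namespace Pool.Agent.Q45.GM

open Pool.Agent.Q45.TT (IsQuad FS IsTower exists_field sep_ff)
open Pool.Agent.Q45.TW (cst ff ff_monic ff_natDegree ff_map IsGeom eval₂_ff)
open Pool.Agent.Y160.SQ
open Pool.Agent.TH115.GD (incl rs ak Sep Comp)

section per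

variable {α : Type}

/-- The period of a cyclic permutation of a finite set. -/
theorem period_eq (T : Finset α) (τ : α → α) {r : α} (hr : r ∈ T) (hτ : ∀ x ∈ T, τ x ∈ T)
    (hinj : Function.Injective τ) (h : ∀ x ∈ T, ∃ i : ℕ, x = τ^[i] r) :
    Function.minimalPeriod τ r = T.card := by
  have hmem : ∀ i : ℕ, τ^[i] r ∈ T := by
    intro i
    induction i with
    | zero => exact hr
    | succ i ih => rw [Function.iterate_succ_apply']; exact hτ _ ih
  have hpos : 0 < Function.minimalPeriod τ r := by
    obtain ⟨i, -, j, -, hij, he⟩ := Set.infinite_univ.exists_ne_map_eq_of_mapsTo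
      (s := (Set.univ : Set ℕ)) (t := (T : Set α)) (f := fun i => τ^[i] r)
      (fun i _ => hmem i) T.finite_toSet
    refine Function.IsPeriodicPt.minimalPeriod_pos (n := max i j - min i j) (by
      rcases lt_or_gt_of_ne hij with h1 | h1
      · rw [max_eq_right h1.le, min_eq_left h1.le]; omega
      · rw [max_eq_left h1.le, min_eq_right h1.le]; omega) ?_
    have key : ∀ i j : ℕ, i < j → τ^[i] r = τ^[j] r → Function.IsPeriodicPt τ (j - i) r := by
      intro i j hij he
      have h1 : τ^[j] r = τ^[i] (τ^[j - i] r) := by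
        rw [← Function.iterate_add_apply]
        congr 2
        omega
      rw [h1] at he
      exact (hinj.iterate i he).symm
    rcases lt_or_gt_of_ne hij with h1 | h1
    · rw [max_eq_right h1.le, min_eq_left h1.le]
      exact key i j h1 he
    · rw [max_eq_left h1.le, min_eq_right h1.le]
      exact key j i h1 he.symm
  have himg : (Finset.range (Function.minimalPeriod τ r)).image (fun i => τ^[i] r) = T := by
    ext x
    rw [Finset.mem_image]
    constructor
    · rintro ⟨i, -, rfl⟩
      exact hmem i
    · intro hx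
      obtain ⟨i, rfl⟩ := h x hx
      refine ⟨i % Function.minimalPeriod τ r, Finset.mem_range.2 (Nat.mod_lt _ hpos), ?_⟩
      exact Function.iterate_mod_minimalPeriod_eq
  rw [← himg, Finset.card_image_of_injOn, Finset.card_range]
  intro i hi j hj hij
  exact Function.iterate_injOn_Iio_minimalPeriod (by simpa using hi) (by simpa using hj) hij

end per

section abs

variable {k : Type} [Field k] {b g : k[X]}

/-- The characteristic polynomial modulo two of an endomorphism of a module with invariants which are
functions on the roots of `b(-g(x))`, permuted cyclically. -/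
theorem charpoly_abs [IsSepClosed k] (hgm : g.Monic) (hodd : Odd g.natDegree) (hpos : 0 < b.natDegree)
    (hbsep : b.Separable) (hsep : (b.comp (-g)).Separable)
    (τ : k ≃+* k) (hgτ : g.map (τ : k →+* k) = g) (hbτ : b.map (τ : k →+* k) = b) {r₀ : k}
    (hr₀ : r₀ ∈ RT b g) (hcyc : ∀ r ∈ RT b g, ∃ i : ℕ, r = τ^[i] r₀)
    (M : Type) [AddCommGroup M] [Module ℤ_[2] M] [Module.Free ℤ_[2] M] [Module.Finite ℤ_[2] M]
    (κ : M →+ (k → ZMod 2)) (hsupp : ∀ m, ∀ r ∉ RT b g, κ m r = 0)
    (hbal : ∀ m δ, ∑ r ∈ (RT b g).filter (fun r => -g.eval r = δ), κ m r = 0)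
    (hzero : ∀ m, κ m = 0 → ∃ m', m = (2 : ℤ_[2]) • m') (φ : M →ₗ[ℤ_[2]] M)
    (hact1 : ∀ m r, κ (φ m) (τ r) = κ m r) :
    φ.charpoly.map (PadicInt.toZMod (p := 2)) ∣
      ∑ j ∈ Finset.range g.natDegree, (X : (ZMod 2)[X]) ^ (j * b.natDegree) := by
  set n := g.natDegree with hn
  set d := b.natDegree with hd
  have hgr : ∀ r, g.eval (τ r) = τ (g.eval r) := by
    intro r
    have h3 := eval₂_at_apply (p := g) (τ : k →+* k) r
    rw [← eval_map, hgτ] at h3
    exact h3
  have hbr : ∀ r, b.eval (τ r) = τ (b.eval r) := by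
    intro r
    have h3 := eval₂_at_apply (p := b) (τ : k →+* k) r
    rw [← eval_map, hbτ] at h3
    exact h3
  have hRT : ∀ r, r ∈ RT b g → τ r ∈ RT b g := by
    intro r
    rw [mem_RT hsep, mem_RT hsep, hgr, ← map_neg, hbr, map_eq_zero_iff τ τ.injective]
    exact fun h => h
  -- the periods
  have hN : Function.minimalPeriod τ r₀ = n * d := by
    rw [period_eq (RT b g) τ hr₀ hRT τ.injective hcyc]
    have hspl : (b.comp (-g)).Splits := IsSepClosed.splits_of_separable _ hsep
    rw [RT, Multiset.toFinset_card_of_nodup (nodup_roots hsep), ← hspl.natDegree_eq_card_roots,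
      natDegree_comp, natDegree_neg, mul_comm]
  have hγ0 : -g.eval r₀ ∈ b.roots.toFinset := by
    rw [mem_RT hsep] at hr₀
    rw [Multiset.mem_toFinset, mem_roots hbsep.ne_zero]
    exact hr₀
  have hit : ∀ (i : ℕ) (r : k), -g.eval (τ^[i] r) = τ^[i] (-g.eval r) := by
    intro i r
    induction i with
    | zero => rfl
    | succ i ih => rw [Function.iterate_succ_apply', Function.iterate_succ_apply', hgr, ← map_neg, ih]
  have hRB : ∀ δ ∈ b.roots.toFinset, ∃ i : ℕ, δ = τ^[i] (-g.eval r₀) := by
    intro δ hδ
    have h1 := card_block hgm hodd.pos hsep hδ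
    obtain ⟨r, hr⟩ : ((b.comp (-g)).roots.toFinset.filter fun r => -g.eval r = δ).Nonempty := by
      rw [← Finset.card_pos, h1]
      exact hodd.pos
    rw [Finset.mem_filter] at hr
    obtain ⟨i, hi⟩ := hcyc r hr.1
    exact ⟨i, by rw [← hit, ← hi, hr.2]⟩
  have hdper : Function.minimalPeriod τ (-g.eval r₀) = d := by
    rw [period_eq b.roots.toFinset τ hγ0 (fun x hx => by
      rw [Multiset.mem_toFinset, mem_roots hbsep.ne_zero, IsRoot.def] at hx ⊢
      rw [hbr, hx, map_zero]) τ.injective hRB]
    have hspl : b.Splits := IsSepClosed.splits_of_separable _ hbsep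
    rw [Multiset.toFinset_card_of_nodup (nodup_roots hbsep), ← hspl.natDegree_eq_card_roots]
  have hdfix : ∀ δ ∈ b.roots.toFinset, ∀ j : ℕ, τ^[j * d] δ = δ := by
    intro δ hδ j
    obtain ⟨i, rfl⟩ := hRB δ hδ
    have h1 : Function.IsPeriodicPt τ (j * d) (-g.eval r₀) := by
      rw [← hdper]
      exact (Function.isPeriodicPt_minimalPeriod τ _).const_mul j
    rw [← Function.iterate_add_apply, add_comm, Function.iterate_add_apply, h1.eq]
  have hNr : ∀ r ∈ RT b g, Function.minimalPeriod τ r = n * d := by
    intro r hr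
    obtain ⟨i, rfl⟩ := hcyc r hr
    rw [← hN]
    refine Function.minimalPeriod_apply_iterate ?_ i
    rw [Function.mem_periodicPts]
    refine ⟨n * d, Nat.mul_pos hodd.pos hpos, ?_⟩
    rw [← hN]
    exact Function.isPeriodicPt_minimalPeriod τ _
  have hback : ∀ r ∈ RT b g, ∃ i : ℕ, r₀ = τ^[i] r := by
    intro r hr
    obtain ⟨i, rfl⟩ := hcyc r hr
    refine ⟨i * (n * d) - i, ?_⟩
    have h1 : Function.IsPeriodicPt τ (i * (n * d)) r₀ := by
      rw [← hN]
      exact (Function.isPeriodicPt_minimalPeriod τ _).const_mul i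
    rw [← Function.iterate_add_apply, Nat.sub_add_cancel
      (Nat.le_mul_of_pos_right i (Nat.mul_pos hodd.pos hpos))]
    exact h1.eq.symm
  -- the action
  have hact : ∀ (i : ℕ) (m : M) (r : k), κ ((φ ^ i) m) (τ^[i] r) = κ m r := by
    intro i
    induction i with
    | zero => intro m r; rfl
    | succ i ih =>
      intro m r
      rw [pow_succ', Function.iterate_succ_apply']
      show κ (φ ((φ ^ i) m)) (τ (τ^[i] r)) = _
      rw [hact1, ih]
  let ε : M →+ ZMod 2 := AddMonoidHom.mk' (fun m => κ m r₀) fun m m' => by rw [map_add]; rfl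
  have key := JLIN1.main 2 M φ ε (∑ j ∈ Finset.range n, (X : ℤ_[2][X]) ^ (j * d)) ?_ ?_
  · have h1 : (∑ j ∈ Finset.range n, (X : ℤ_[2][X]) ^ (j * d)).map (PadicInt.toZMod (p := 2)) =
        ∑ j ∈ Finset.range n, (X : (ZMod 2)[X]) ^ (j * d) := by
      rw [Polynomial.map_sum]
      exact Finset.sum_congr rfl fun j _ => by rw [Polynomial.map_pow, map_X]
    rw [h1] at key
    exact key
  · intro m hm
    have h1 : κ m = 0 := by
      funext r
      by_cases hr : r ∈ RT b g
      · obtain ⟨i, hi⟩ := hback r hr
        have h3 := hm i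
        have h4 : κ ((φ ^ i) m) r₀ = 0 := h3
        rw [hi, hact] at h4
        exact h4
      · exact hsupp m r hr
    exact_mod_cast hzero m h1
  · intro m
    have h1 : κ (aeval φ (∑ j ∈ Finset.range n, (X : ℤ_[2][X]) ^ (j * d)) m) = 0 := by
      funext r
      by_cases hr : r ∈ RT b g
      · rw [map_sum, LinearMap.sum_apply, map_sum, Finset.sum_apply, Pi.zero_apply]
        have hδ : -g.eval r ∈ b.roots.toFinset := by
          rw [mem_RT hsep] at hr
          rw [Multiset.mem_toFinset, mem_roots hbsep.ne_zero]
          exact hr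
        have hper : ∀ j : ℕ, τ^[j * (n * d)] r = r := by
          intro j
          have h1 : Function.IsPeriodicPt τ (j * (n * d)) r := by
            rw [← hNr r hr]
            exact (Function.isPeriodicPt_minimalPeriod τ _).const_mul j
          exact h1.eq
        have h3 : ∀ j ∈ Finset.range n, κ ((aeval φ ((X : ℤ_[2][X]) ^ (j * d))) m) r =
            κ m (τ^[(n - j) * d] r) := by
          intro j hj
          rw [map_pow, aeval_X]
          have h4 : r = τ^[j * d] (τ^[(n - j) * d] r) := by
            rw [← Function.iterate_add_apply, ← add_mul, Nat.add_sub_cancel'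
              (Finset.mem_range.1 hj).le]
            have := hper 1
            rw [one_mul] at this
            exact this.symm
          conv_lhs => rw [h4]
          rw [hact]
        rw [Finset.sum_congr rfl h3, ← hbal m (-g.eval r)]
        -- the block
        have hinj : Set.InjOn (fun j => τ^[(n - j) * d] r) (Finset.range n : Set ℕ) := by
          intro i hi j hj hij
          have hi' : i < n := by simpa using hi
          have hj' : j < n := by simpa using hj
          have hcan : ∀ i j : ℕ, i < n → j < n → i ≤ j →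
              τ^[(n - i) * d] r = τ^[(n - j) * d] r → i = j := by
            intro i j hi hj hle he
            have h5 : (n - i) * d = (n - j) * d + (j - i) * d := by
              rw [← add_mul]
              congr 1
              omega
            rw [h5, Function.iterate_add_apply] at he
            have h6 := τ.injective.iterate _ he
            have h7 : Function.minimalPeriod τ r ∣ (j - i) * d :=
              Function.IsPeriodicPt.minimalPeriod_dvd h6
            rw [hNr r hr, Nat.mul_dvd_mul_iff_right hpos] at h7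
            have h8 := Nat.eq_zero_of_dvd_of_lt h7 (by omega)
            omega
          rcases le_total i j with h5 | h5
          · exact hcan i j hi' hj' h5 hij
          · exact (hcan j i hj' hi' h5 hij.symm).symm
        have himg : (Finset.range n).image (fun j => τ^[(n - j) * d] r) =
            (RT b g).filter fun r' => -g.eval r' = -g.eval r := by
          apply Finset.eq_of_subset_of_card_le
          · intro x hx
            obtain ⟨j, hj, rfl⟩ := Finset.mem_image.1 hx
            rw [Finset.mem_filter]
            refine ⟨?_, ?_⟩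
            · have hmem : ∀ i : ℕ, τ^[i] r ∈ RT b g := by
                intro i
                induction i with
                | zero => exact hr
                | succ i ih => rw [Function.iterate_succ_apply']; exact hRT _ ih
              exact hmem _
            · rw [hit, hdfix _ hδ]
          · rw [Finset.card_image_of_injOn hinj, Finset.card_range]
            exact (card_block hgm hodd.pos hsep hδ).le
        rw [← himg, Finset.sum_image hinj]
      · rw [hsupp _ r hr]
        rfl
    exact_mod_cast hzero _ h1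

end abs

section kap

variable {k F : Type} [Field k] [Field F] [Algebra k[X] F] {b g : k[X]} {β : F} {K : Type}
  [Field K] [Algebra K F] {f : K[X]} {B : Type} [CommRing B]
  [IsDedekindDomain B] [Algebra k[X] B] [Algebra B F] [IsScalarTower k[X] B F] [IsFractionRing B F]
  [IsIntegralClosure B k[X] F]

/-- The characteristic polynomial modulo two. -/
theorem Stp.charpoly [IsSepClosed k] (h : Stp b g β f) {a : Sep F} (ha : Rt f a)
    (L : Lift K F (Sep F)) (hL : IsTw (actJ 2 (F := F) f) (IsSelmer 2 B f) L.conj (jm 2 f (ak L.T)))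
    (τ : k ≃+* k) (hτ : ∀ x : k, L.s (algebraMap k[X] F (C x)) = algebraMap k[X] F (C (τ x)))
    (hgτ : g.map (τ : k →+* k) = g) (hbτ : b.map (τ : k →+* k) = b) {r₀ : k} (hr₀ : r₀ ∈ RT b g)
    (hcyc : ∀ r ∈ RT b g, ∃ i : ℕ, r = τ^[i] r₀)
    [Module.Finite ℤ_[2] (SelT (F := F) 2 B f 2)] [Module.Free ℤ_[2] (SelT (F := F) 2 B f 2)] :
    (tw (p := 2) (sel_isLocal 2 B f) hL).charpoly.map (PadicInt.toZMod (p := 2)) ∣
      ∑ j ∈ Finset.range g.natDegree, (X : (ZMod 2)[X]) ^ (j * b.natDegree) :=
  charpoly_abs h.gm h.odd h.pos h.bsep h.sep τ hgτ hbτ hr₀ hcyc (SelT (F := F) 2 B f 2)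
    (kapM h ha) (fun m r hr => kapM_supp h ha m hr) (fun m δ => kapM_bal h ha m δ)
    (fun m hm => (kapM_zero_iff h ha m).1 hm) (tw (p := 2) (sel_isLocal 2 B f) hL)
    (fun m r => kapM_tw h ha L hL τ hτ hgτ hbτ m r)

end kap

end Pool.Agent.Q45.GM
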