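import Pool.Agent.Q45.GM.StmL
import Pool.Agent.Q45.GM.J.LIN5
import Pool.Agent.Q45.GM.J.LIN7
import Pool.Agent.Q151.GM.LIN9

/-!
# Irreducible endomorphisms modulo `2`: the dichotomy
-/

set_option autoImplicit false
set_option linter.all false

open Polynomial
open scoped Classical

namespace Pool.Agent.Q45.GM

section dich

variable {M : Type} [AddCommGroup M] [Module ℤ_[2] M] [Module.Finite ℤ_[2] M]
  [Module.Free ℤ_[2] M] (φ : M →ₗ[ℤ_[2]] M) {V : Type} [AddCommGroup V] [Module (ZMod 2) V]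
  [Module.Finite (ZMod 2) V] (E : V →ₗ[ZMod 2] V) (κ : M →+ V)

/-- The stable submodules. -/
theorem dich_irr (hk : ∀ m, κ m = 0 ↔ ∃ m', m = (2 : ℤ_[2]) • m') (hE : ∀ m, κ (φ m) = E (κ m))
    (hirr : Irreducible E.charpoly) (U : Submodule ℤ_[2] M) (hU : ∀ m ∈ U, φ m ∈ U) :
    U = ⊥ ∨ ∃ r : ℕ, ∀ m : M, (2 : ℤ_[2]) ^ r • m ∈ U := by
  have h2 : ((2 : ℕ) : ℤ_[2]) = 2 := Nat.cast_ofNat
  have key := JLIN5.main 2 M {φ} ?_ U (by
    rintro _ rfl m hm
    exact hU m hm)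
  · rwa [h2] at key
  · intro U h2U hst
    let V' : Submodule (ZMod 2) V := AddSubgroup.toZModSubmodule 2 ((U.toAddSubgroup).map κ)
    have hV' : ∀ v, v ∈ V' ↔ ∃ u ∈ U, κ u = v := fun v => Iff.rfl
    have hVE : ∀ v ∈ V', E v ∈ V' := by
      intro v hv
      obtain ⟨u, hu, rfl⟩ := (hV' v).1 hv
      exact (hV' _).2 ⟨φ u, hst φ rfl u hu, hE u⟩
    have hdv := Pool.Agent.Q151.GM.lin9 (ZMod 2) V E V' hVE
    rcases hirr.isUnit_or_isUnit hdv.choose_spec with h3 | h3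
    · left
      intro m hm
      rw [h2, ← hk]
      have h4 : (E.restrict hVE).charpoly.natDegree = 0 := natDegree_eq_zero_of_isUnit h3
      rw [LinearMap.charpoly_natDegree] at h4
      haveI : Subsingleton V' := Module.finrank_zero_iff.1 h4
      have h5 : (⟨κ m, (hV' _).2 ⟨m, hm, rfl⟩⟩ : V') = 0 := Subsingleton.elim _ _
      exact congrArg Subtype.val h5
    · right
      have h4 : (E.restrict hVE).charpoly.natDegree = E.charpoly.natDegree := by
        conv_rhs => rw [hdv.choose_spec]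
        rw [natDegree_mul (LinearMap.charpoly_monic _).ne_zero h3.ne_zero,
          natDegree_eq_zero_of_isUnit h3, add_zero]
      rw [LinearMap.charpoly_natDegree, LinearMap.charpoly_natDegree] at h4
      have h5 : V' = ⊤ := Submodule.eq_top_of_finrank_eq h4
      rw [eq_top_iff]
      intro m _
      have h6 : κ m ∈ V' := by rw [h5]; exact Submodule.mem_top
      obtain ⟨u, hu, he⟩ := (hV' _).1 h6
      have h7 : κ (m - u) = 0 := by rw [map_sub, he, sub_self]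
      obtain ⟨m', hm'⟩ := (hk _).1 h7
      have h8 : m = u + (2 : ℤ_[2]) • m' := by rw [← hm']; abel
      rw [h8]
      have h9 := h2U m'
      rw [h2] at h9
      exact U.add_mem hu h9

/-- The rank. -/
theorem dich_rank (hk : ∀ m, κ m = 0 ↔ ∃ m', m = (2 : ℤ_[2]) • m')
    (hE : ∀ m, κ (φ m) = E (κ m)) (hirr : Irreducible E.charpoly) :
    Module.finrank ℤ_[2] M = 0 ∨ Module.finrank ℤ_[2] M = Module.finrank (ZMod 2) V := by
  have h2 : ((2 : ℕ) : ℤ_[2]) = 2 := Nat.cast_ofNat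
  have hdv := Pool.Agent.Q151.GM.lin8 2 M φ V E κ (fun m => by rw [hk, h2]) hE
  have h4 : (φ.charpoly.map (PadicInt.toZMod (p := 2))).natDegree = Module.finrank ℤ_[2] M := by
    rw [(LinearMap.charpoly_monic φ).natDegree_map, LinearMap.charpoly_natDegree]
  have hm : (φ.charpoly.map (PadicInt.toZMod (p := 2))).Monic := (LinearMap.charpoly_monic φ).map _
  rcases hirr.isUnit_or_isUnit hdv.choose_spec with h3 | h3
  · left
    rw [← h4, natDegree_eq_zero_of_isUnit h3]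
  · right
    rw [← h4, ← LinearMap.charpoly_natDegree E]
    conv_rhs => rw [hdv.choose_spec]
    rw [natDegree_mul hm.ne_zero h3.ne_zero, natDegree_eq_zero_of_isUnit h3, add_zero]

/-- **The dichotomy.** -/
theorem dich (hk : ∀ m, κ m = 0 ↔ ∃ m', m = (2 : ℤ_[2]) • m') (hE : ∀ m, κ (φ m) = E (κ m))
    (hirr : Irreducible E.charpoly) (N : ℕ) (hN : E.charpoly ∣ X ^ N - 1) :
    (∀ m, m ≠ 0 → ∀ j : ℕ, 0 < j → (φ ^ j) m ≠ m) ∨ (∀ m, (φ ^ N) m = m) ∨
      ∀ m, (φ ^ N) m = -m := by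
  by_cases h0 : ∀ m, m ≠ 0 → ∀ j : ℕ, 0 < j → (φ ^ j) m ≠ m
  · exact Or.inl h0
  right
  obtain ⟨m₀, hm₀, j, hj, hfix⟩ : ∃ m₀, m₀ ≠ 0 ∧ ∃ j : ℕ, 0 < j ∧ (φ ^ j) m₀ = m₀ := by
    by_contra hne
    apply h0
    intro m hm j hj h1
    exact hne ⟨m, hm, j, hj, h1⟩
  have hcomm : ∀ (i l : ℕ) (m : M), (φ ^ i) ((φ ^ l) m) = (φ ^ l) ((φ ^ i) m) := by
    intro i l m
    have h1 : φ ^ i * φ ^ l = φ ^ l * φ ^ i := by rw [← pow_add, ← pow_add, add_comm]
    exact LinearMap.congr_fun h1 m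
  have key : ∀ ψ : M →ₗ[ℤ_[2]] M, (∀ m, ψ (φ m) = φ (ψ m)) → (∃ m, m ≠ 0 ∧ ψ m = 0) →
      ∀ m, ψ m = 0 := by
    rintro ψ hψ ⟨m, hm, hm0⟩
    rcases dich_irr φ E κ hk hE hirr (LinearMap.ker ψ) (fun x hx => by
      rw [LinearMap.mem_ker] at hx ⊢
      rw [hψ, hx, map_zero]) with h1 | ⟨r, hr⟩
    · exfalso
      apply hm
      have h3 : m ∈ LinearMap.ker ψ := hm0
      rw [h1] at h3
      exact h3
    · intro x
      have h3 := LinearMap.mem_ker.1 (hr x)
      rw [map_smul] at h3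
      rcases smul_eq_zero.1 h3 with h4 | h4
      · exact absurd h4 (pow_ne_zero _ two_ne_zero)
      · exact h4
  have hcφ : ∀ (i : ℕ) (m : M), (φ ^ i) (φ m) = φ ((φ ^ i) m) := fun i m => by
    have h1 := hcomm i 1 m
    rwa [pow_one] at h1
  have hj1 : ∀ m, (φ ^ j) m = m := by
    intro m
    have h1 := key (φ ^ j - 1) (fun m => by
      show (φ ^ j) (φ m) - φ m = φ ((φ ^ j) m - m)
      rw [hcφ, map_sub]) ⟨m₀, hm₀, by
        show (φ ^ j) m₀ - m₀ = 0
        rw [hfix, sub_self]⟩ m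
    exact sub_eq_zero.1 h1
  have hEN : ∀ v, (E ^ N) v = v := by
    intro v
    obtain ⟨Q, hQ⟩ := hN
    have h1 : aeval E (X ^ N - 1 : (ZMod 2)[X]) = 0 := by
      rw [hQ, map_mul, LinearMap.aeval_self_charpoly, zero_mul]
    rw [map_sub, map_pow, aeval_X, map_one] at h1
    exact LinearMap.congr_fun (sub_eq_zero.1 h1) v
  have hκN : ∀ (i : ℕ) (m : M), κ ((φ ^ i) m) = (E ^ i) (κ m) := by
    intro i
    induction i with
    | zero => intro m; rfl
    | succ i ih =>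
      intro m
      rw [pow_succ' φ, pow_succ' E]
      show κ (φ ((φ ^ i) m)) = E ((E ^ i) (κ m))
      rw [hE, ih]
  have hsub : ∀ m, ∃ m', (φ ^ N) m - m = (2 : ℤ_[2]) • m' := by
    intro m
    rw [← hk, map_sub, hκN, hEN, sub_self]
  have hsq : ∀ m, (φ ^ N) ((φ ^ N) m) = m := by
    intro m
    have h1 := JLIN7.main M (φ ^ N) hsub m j hj (by
      have h3 : (φ ^ N) ^ j = (φ ^ j) ^ N := by rw [← pow_mul, ← pow_mul, mul_comm]
      rw [h3]
      have h4 : φ ^ j = 1 := LinearMap.ext hj1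
      rw [h4, one_pow]
      rfl)
    have h2 : ((φ ^ N) ^ 2) m = (φ ^ N) ((φ ^ N) m) := by
      rw [pow_two (φ ^ N)]
      rfl
    rw [← h2]
    exact h1
  by_cases h1 : ∃ m, m ≠ 0 ∧ (φ ^ N) m = m
  · left
    obtain ⟨m₁, hm₁, h3⟩ := h1
    intro m
    have h4 := key (φ ^ N - 1) (fun m => by
      show (φ ^ N) (φ m) - φ m = φ ((φ ^ N) m - m)
      rw [hcφ, map_sub]) ⟨m₁, hm₁, by
        show (φ ^ N) m₁ - m₁ = 0
        rw [h3, sub_self]⟩ m
    exact sub_eq_zero.1 h4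
  · right
    intro m
    by_contra hne
    apply h1
    refine ⟨(φ ^ N) m + m, fun h3 => hne (eq_neg_of_add_eq_zero_left h3), ?_⟩
    rw [map_add, hsq, add_comm]

end dich

end Pool.Agent.Q45.GM
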