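import Mathlib

/-!
# Statements of the lemma jobs of the project GM, third part (only statements)
-/

set_option autoImplicit false
set_option linter.all false

open scoped Classical

namespace Pool.Agent.Q45.GM

/-- The functions on the finite set `R` (extended by zero) with values in `𝔽_2` whose sum over each
fibre of `π` is zero. -/
def WBal {α : Type} (R : Finset α) (π : α → α) : AddSubgroup (α → ZMod 2) where
  carrier := {e | (∀ r, r ∉ R → e r = 0) ∧ ∀ δ, ∑ r ∈ R.filter (fun r => π r = δ), e r = 0}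
  add_mem' := by
    rintro e e' ⟨h1, h2⟩ ⟨h3, h4⟩
    refine ⟨fun r hr => ?_, fun δ => ?_⟩
    · rw [Pi.add_apply, h1 r hr, h3 r hr, add_zero]
    · simp only [Pi.add_apply]
      rw [Finset.sum_add_distrib, h2, h4, add_zero]
  zero_mem' := ⟨fun r _ => rfl, fun δ => Finset.sum_eq_zero fun r _ => rfl⟩
  neg_mem' := by
    rintro e ⟨h1, h2⟩
    refine ⟨fun r hr => ?_, fun δ => ?_⟩
    · rw [Pi.neg_apply, h1 r hr, neg_zero]
    · simp only [Pi.neg_apply]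
      rw [Finset.sum_neg_distrib, h2, neg_zero]

/-- `Γ` is a set of permutations of `α` which preserve `R` and the fibres of `π` in `R`, it permutes the
fibres transitively, and it contains, for all `r ≠ r'` in the same fibre, a permutation which
interchanges `r` and `r'` and fixes the other elements of `R`. The fibres have `n` elements. -/
structure HasTranspositions {α : Type} (R : Finset α) (π : α → α) (n : ℕ) (Γ : Set (α ≃ α)) :
    Prop where
  mem : ∀ τ ∈ Γ, ∀ r, τ r ∈ R ↔ r ∈ R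
  fib : ∀ τ ∈ Γ, ∀ r ∈ R, ∀ r' ∈ R, (π (τ r) = π (τ r') ↔ π r = π r')
  trans : ∀ r ∈ R, ∀ r' ∈ R, ∃ τ ∈ Γ, π (τ r) = π r'
  swap : ∀ r ∈ R, ∀ r' ∈ R, r ≠ r' → π r = π r' →
    ∃ τ ∈ Γ, τ r = r' ∧ τ r' = r ∧ ∀ x ∈ R, x ≠ r → x ≠ r' → τ x = x
  card : ∀ r ∈ R, (R.filter fun x => π x = π r).card = n

/-- W1. If `n` is odd, the module is irreducible. -/
def W1 : Prop :=
  ∀ (α : Type) (R : Finset α) (π : α → α) (n : ℕ) (Γ : Set (α ≃ α)), Odd n →
    HasTranspositions R π n Γ → ∀ U : AddSubgroup (α → ZMod 2), U ≤ WBal R π →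
      (∀ τ ∈ Γ, ∀ e ∈ U, (fun r => e (τ r)) ∈ U) → U = ⊥ ∨ U = WBal R π

/-- W2. If `n` is odd, the only endomorphisms are `0` and `1`. -/
def W2 : Prop :=
  ∀ (α : Type) (R : Finset α) (π : α → α) (n : ℕ) (Γ : Set (α ≃ α)), Odd n →
    HasTranspositions R π n Γ → ∀ A : WBal R π →+ WBal R π,
      (∀ τ ∈ Γ, ∀ e e' : WBal R π, (∀ r, e'.1 r = e.1 (τ r)) → ∀ r, (A e').1 r = (A e).1 (τ r)) →
        A = 0 ∨ A = AddMonoidHom.id _

/-- W3. The number of elements of the module. -/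
def W3 : Prop :=
  ∀ (α : Type) (R : Finset α) (π : α → α),
    Nat.card (WBal R π) = 2 ^ (R.card - (R.image π).card)

/-- LIN5. Irreducibility modulo `p` implies irreducibility up to a power of `p`. -/
def Lin5 : Prop :=
  ∀ (p : ℕ) [Fact p.Prime] (M : Type) [AddCommGroup M] [Module ℤ_[p] M] [Module.Free ℤ_[p] M]
    [Module.Finite ℤ_[p] M] (Φ : Set (M →ₗ[ℤ_[p]] M)),
    (∀ U : Submodule ℤ_[p] M, (∀ m : M, (p : ℤ_[p]) • m ∈ U) → (∀ φ ∈ Φ, ∀ m ∈ U, φ m ∈ U) →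
      (∀ m ∈ U, ∃ m', m = (p : ℤ_[p]) • m') ∨ U = ⊤) →
    ∀ U : Submodule ℤ_[p] M, (∀ φ ∈ Φ, ∀ m ∈ U, φ m ∈ U) →
      U = ⊥ ∨ ∃ r : ℕ, ∀ m : M, (p : ℤ_[p]) ^ r • m ∈ U

/-- LIN6. The rank from the number of elements of `M / p M`. -/
def Lin6 : Prop :=
  ∀ (p : ℕ) [Fact p.Prime] (M : Type) [AddCommGroup M] [Module ℤ_[p] M] [Module.Free ℤ_[p] M]
    [Module.Finite ℤ_[p] M] (X : Type) [AddCommGroup X] (κ : M →+ X) (N : ℕ),
    (∀ m, κ m = 0 ↔ ∃ m', m = (p : ℤ_[p]) • m') → Nat.card κ.range = p ^ N →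
      Module.finrank ℤ_[p] M = N

/-- LIN7. Automorphisms congruent to `1` modulo `2`: a vector fixed by a power is fixed by the square. -/
def Lin7 : Prop :=
  ∀ (M : Type) [AddCommGroup M] [Module ℤ_[2] M] [Module.Free ℤ_[2] M] [Module.Finite ℤ_[2] M]
    (ψ : M →ₗ[ℤ_[2]] M), (∀ m, ∃ m', ψ m - m = (2 : ℤ_[2]) • m') → ∀ (m : M) (j : ℕ), 0 < j →
      (ψ ^ j) m = m → (ψ ^ 2) m = m

end Pool.Agent.Q45.GM
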