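import Pool.Agent.Q45.GM.Act
import Pool.Agent.Q45.GM.StmL
import Pool.Agent.Q45.GM.J.LIN4
import Pool.Agent.Q45.GM.J.LIN5
import Pool.Agent.Q45.GM.J.LIN6
import Pool.Agent.Q45.GM.J.LIN7
import Pool.Agent.Q45.GM.J.W3

/-!
# The representation on the Selmer module
-/

set_option autoImplicit false
set_option linter.all false

open Polynomial IsDedekindDomain WithZero
open scoped Classical TensorProduct

namespace Pool.Agent.Q45.GM

open Pool.Agent.Q45.TW (IsGeom ff)
open Pool.Agent.Y160.SQ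
open Pool.Agent.TH115.GD (incl rs ak Sep Comp)

section abs

variable {α : Type} {R : Finset α} {π : α → α} {Γ : Set (α ≃ α)} {M : Type} [AddCommGroup M]
  [Module ℤ_[2] M] [Module.Finite ℤ_[2] M] [Module.Free ℤ_[2] M]

/-- The module of the balanced functions is irreducible. -/
def WIrr (R : Finset α) (π : α → α) (Γ : Set (α ≃ α)) : Prop :=
  ∀ U : AddSubgroup (α → ZMod 2), U ≤ WBal R π →
    (∀ τ ∈ Γ, ∀ e ∈ U, (fun r => e (τ r)) ∈ U) → U = ⊥ ∨ U = WBal R π

/-- The endomorphisms of the module of the balanced functions are `0` and `1`. -/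
def WEnd (R : Finset α) (π : α → α) (Γ : Set (α ≃ α)) : Prop :=
  ∀ A : WBal R π →+ WBal R π,
    (∀ τ ∈ Γ, ∀ e e' : WBal R π, (∀ r, e'.1 r = e.1 (τ r)) → ∀ r, (A e').1 r = (A e).1 (τ r)) →
      A = 0 ∨ A = AddMonoidHom.id _

/-- `κ` is an invariant of the elements of `M` modulo `2` with values in the balanced functions,
compatible with the action of a set `Φ` of endomorphisms: for each `τ` in `Γ` there is `φ` in `Φ` with
`κ (φ m) (r) = κ m (τ r)`. -/
structure IsInvt (R : Finset α) (π : α → α) (Γ : Set (α ≃ α)) (κ : M →+ (α → ZMod 2))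
    (Φ : Set (M →ₗ[ℤ_[2]] M)) : Prop where
  zero : ∀ m, κ m = 0 ↔ ∃ m', m = (2 : ℤ_[2]) • m'
  mem : ∀ m, κ m ∈ WBal R π
  act : ∀ τ ∈ Γ, ∃ φ ∈ Φ, ∀ m r, κ (φ m) r = κ m (τ r)

theorem IsInvt.cast {κ : M →+ (α → ZMod 2)} {Φ : Set (M →ₗ[ℤ_[2]] M)} (h : IsInvt R π Γ κ Φ)
    (m : M) : κ m = 0 ↔ ∃ m', m = ((2 : ℕ) : ℤ_[2]) • m' := by
  have h2 : ((2 : ℕ) : ℤ_[2]) = 2 := Nat.cast_ofNat
  rw [h.zero, h2]

theorem IsInvt.irr {κ : M →+ (α → ZMod 2)} {Φ : Set (M →ₗ[ℤ_[2]] M)} (h : IsInvt R π Γ κ Φ)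
    (hW : WIrr R π Γ) (U : Submodule ℤ_[2] M) (hU : ∀ φ ∈ Φ, ∀ m ∈ U, φ m ∈ U) :
    U = ⊥ ∨ ∃ r : ℕ, ∀ m : M, (2 : ℤ_[2]) ^ r • m ∈ U := by
  have h2 : ((2 : ℕ) : ℤ_[2]) = 2 := Nat.cast_ofNat
  have key := JLIN5.main 2 M Φ ?_ U hU
  · rwa [h2] at key
  · intro U h2U hst
    let V : AddSubgroup (α → ZMod 2) := (U.toAddSubgroup).map κ
    have hV : ∀ e, e ∈ V ↔ ∃ u ∈ U, κ u = e := fun e => Iff.rfl
    have hV1 : V ≤ WBal R π := by
      rintro e he
      obtain ⟨u, -, rfl⟩ := (hV e).1 he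
      exact h.mem u
    have hV2 : ∀ τ ∈ Γ, ∀ e ∈ V, (fun r => e (τ r)) ∈ V := by
      intro τ hτ e he
      obtain ⟨u, hu, rfl⟩ := (hV e).1 he
      obtain ⟨φ, hφ, hact⟩ := h.act τ hτ
      exact (hV _).2 ⟨φ u, hst φ hφ u hu, funext fun r => hact u r⟩
    rcases hW V hV1 hV2 with h1 | h1
    · left
      intro m hm
      rw [← h.cast]
      have h3 : κ m ∈ V := (hV _).2 ⟨m, hm, rfl⟩
      rw [h1] at h3
      exact h3
    · right
      rw [eq_top_iff]
      intro m _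
      have h3 : κ m ∈ V := by rw [h1]; exact h.mem m
      obtain ⟨u, hu, he⟩ := (hV _).1 h3
      have h4 : κ (m - u) = 0 := by rw [map_sub, he, sub_self]
      obtain ⟨m', hm'⟩ := (h.cast _).1 h4
      have h5 : m = u + ((2 : ℕ) : ℤ_[2]) • m' := by rw [← hm']; abel
      rw [h5]
      exact U.add_mem hu (h2U m')

theorem IsInvt.rank {κ : M →+ (α → ZMod 2)} {Φ : Set (M →ₗ[ℤ_[2]] M)} (h : IsInvt R π Γ κ Φ)
    (hW : WIrr R π Γ) : Module.finrank ℤ_[2] M = 0 ∨
      Module.finrank ℤ_[2] M = R.card - (R.image π).card := by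
  have hV1 : κ.range ≤ WBal R π := by
    rintro e ⟨u, rfl⟩
    exact h.mem u
  have hV2 : ∀ τ ∈ Γ, ∀ e ∈ κ.range, (fun r => e (τ r)) ∈ κ.range := by
    rintro τ hτ e ⟨u, rfl⟩
    obtain ⟨φ, hφ, hact⟩ := h.act τ hτ
    exact ⟨φ u, funext fun r => hact u r⟩
  rcases hW κ.range hV1 hV2 with h1 | h1
  · left
    refine JLIN6.main 2 M (α → ZMod 2) κ 0 h.cast ?_
    rw [h1, pow_zero]
    exact AddSubgroup.card_bot
  · right
    refine JLIN6.main 2 M (α → ZMod 2) κ _ h.cast ?_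
    rw [h1]
    exact JW3.main α R π

theorem IsInvt.rank_le {κ : M →+ (α → ZMod 2)} {Φ : Set (M →ₗ[ℤ_[2]] M)} (h : IsInvt R π Γ κ Φ) :
    Module.finrank ℤ_[2] M ≤ R.card - (R.image π).card := by
  have hV1 : κ.range ≤ WBal R π := by
    rintro e ⟨u, rfl⟩
    exact h.mem u
  have hW := JW3.main α R π
  haveI : Finite (WBal R π) := Nat.finite_of_card_ne_zero (by rw [hW]; positivity)
  obtain ⟨N, hN⟩ : ∃ N, Nat.card κ.range = 2 ^ N := by
    have h3 := AddSubgroup.card_dvd_of_le hV1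
    rw [hW] at h3
    obtain ⟨N, -, hN⟩ := (Nat.dvd_prime_pow Nat.prime_two).1 h3
    exact ⟨N, hN⟩
  have h1 := JLIN6.main 2 M (α → ZMod 2) κ N h.cast hN
  rw [h1]
  have h3 := AddSubgroup.card_dvd_of_le hV1
  rw [hW, hN] at h3
  exact (Nat.pow_dvd_pow_iff_le_right (by norm_num)).1 h3

theorem IsInvt.scal {κ : M →+ (α → ZMod 2)} {Φ : Set (M →ₗ[ℤ_[2]] M)} (h : IsInvt R π Γ κ Φ)
    (hW : WIrr R π Γ) (hE : WEnd R π Γ) (ψ : M →ₗ[ℤ_[2]] M)
    (hψ : ∀ φ ∈ Φ, ∀ m, ψ (φ m) = φ (ψ m)) : ∃ c : ℤ_[2], ∀ m, ψ m = c • m := by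
  refine (JLIN4.main 2 M Φ ?_).1 ψ hψ
  clear ψ hψ
  intro ψ hψ
  have hV1 : κ.range ≤ WBal R π := by
    rintro e ⟨u, rfl⟩
    exact h.mem u
  have hV2 : ∀ τ ∈ Γ, ∀ e ∈ κ.range, (fun r => e (τ r)) ∈ κ.range := by
    rintro τ hτ e ⟨u, rfl⟩
    obtain ⟨φ, hφ, hact⟩ := h.act τ hτ
    exact ⟨φ u, funext fun r => hact u r⟩
  rcases hW κ.range hV1 hV2 with h1 | h1
  · refine ⟨0, fun m => ?_⟩
    rw [zero_smul, sub_zero, ← h.cast]
    have h3 : κ (ψ m) ∈ κ.range := ⟨ψ m, rfl⟩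
    rw [h1] at h3
    exact h3
  · have hsurj : ∀ e : WBal R π, ∃ m, κ m = e.1 := by
      intro e
      have h3 : e.1 ∈ κ.range := by rw [h1]; exact e.2
      exact h3
    have hcong : ∀ m m', κ m = κ m' → κ (ψ m) = κ (ψ m') := by
      intro m m' hmm
      have h3 : κ (m - m') = 0 := by rw [map_sub, hmm, sub_self]
      obtain ⟨m'', hm''⟩ := (h.zero _).1 h3
      have h4 : ψ m - ψ m' = (2 : ℤ_[2]) • ψ m'' := by rw [← map_sub, hm'', map_smul]
      have h5 : κ (ψ m - ψ m') = 0 := (h.zero _).2 ⟨_, h4⟩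
      rw [map_sub] at h5
      exact sub_eq_zero.1 h5
    choose s hs using hsurj
    let A : WBal R π →+ WBal R π := AddMonoidHom.mk' (fun e => ⟨κ (ψ (s e)), h.mem _⟩) (by
      intro e e'
      apply Subtype.ext
      show κ (ψ (s (e + e'))) = κ (ψ (s e)) + κ (ψ (s e'))
      rw [← map_add, ← map_add]
      apply hcong
      rw [map_add, hs, hs, hs]
      rfl)
    have hA : ∀ m : M, (A ⟨κ m, h.mem m⟩).1 = κ (ψ m) := fun m => hcong _ _ (hs _)
    rcases hE A (by
      intro τ hτ e e' hee r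
      obtain ⟨φ, hφ, hact⟩ := h.act τ hτ
      have h3 : κ (φ (s e)) = e'.1 := by
        funext x
        rw [hact, hs, hee]
      have h4 : e' = ⟨κ (φ (s e)), h.mem _⟩ := Subtype.ext h3.symm
      rw [h4, hA]
      show _ = κ (ψ (s e)) (τ r)
      rw [← hact]
      obtain ⟨m', hm'⟩ := hψ φ hφ (s e)
      have h5 : κ (ψ (φ (s e)) - φ (ψ (s e))) = 0 := (h.cast _).2 ⟨m', hm'⟩
      rw [map_sub, sub_eq_zero] at h5
      rw [h5]) with h3 | h3
    · refine ⟨0, fun m => ?_⟩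
      rw [zero_smul, sub_zero, ← h.cast, ← hA, h3]
      rfl
    · refine ⟨1, fun m => ?_⟩
      rw [one_smul, ← h.cast, map_sub, ← hA, h3]
      exact sub_self _

/-- The elements fixed by a subset which is stable under conjugation. -/
theorem fixed_all {G : Type} [Group G] (ρ : G → M →ₗ[ℤ_[2]] M)
    (hmul : ∀ S T m, ρ (S * T) m = ρ S (ρ T m))
    (hirr : ∀ U : Submodule ℤ_[2] M, (∀ T, ∀ m ∈ U, ρ T m ∈ U) →
      U = ⊥ ∨ ∃ r : ℕ, ∀ m : M, (2 : ℤ_[2]) ^ r • m ∈ U) (N : Set G)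
    (hN : ∀ S ∈ N, ∀ T : G, T⁻¹ * S * T ∈ N) {m₀ : M} (hm₀ : m₀ ≠ 0)
    (hfix : ∀ S ∈ N, ρ S m₀ = m₀) : ∀ S ∈ N, ∀ m, ρ S m = m := by
  let U : Submodule ℤ_[2] M :=
    { carrier := {m | ∀ S ∈ N, ρ S m = m}
      add_mem' := fun {a b} ha hb S hS => by rw [map_add, ha S hS, hb S hS]
      zero_mem' := fun S _ => map_zero _
      smul_mem' := fun c m hm S hS => by rw [map_smul, hm S hS] }
  have hU : ∀ m, m ∈ U ↔ ∀ S ∈ N, ρ S m = m := fun m => Iff.rfl
  rcases hirr U (by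
    intro T m hm
    rw [hU] at hm ⊢
    intro S hS
    rw [← hmul]
    have h1 : S * T = T * (T⁻¹ * S * T) := by group
    rw [h1, hmul, hm _ (hN S hS T)]) with h1 | ⟨r, hr⟩
  · exfalso
    apply hm₀
    have h3 : m₀ ∈ U := (hU _).2 hfix
    rw [h1] at h3
    exact h3
  · intro S hS m
    have h3 := (hU _).1 (hr m) S hS
    rw [map_smul] at h3
    have h4 : (2 : ℤ_[2]) ^ r • (ρ S m - m) = 0 := by rw [smul_sub, h3, sub_self]
    rcases smul_eq_zero.1 h4 with h5 | h5
    · exact absurd h5 (pow_ne_zero _ two_ne_zero)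
    · exact sub_eq_zero.1 h5

end abs

section sel

variable {k k' K F : Type} [Field k] [Field k'] [Algebra k k'] [IsSepClosed k']
  [Algebra.IsSeparable k k'] [Field K] [Algebra k[X] K] [Field F] [Algebra k'[X] F] [Algebra K F]
  (B : Type) [CommRing B] [IsDedekindDomain B] [Algebra k'[X] B]
  [Algebra B F] [IsScalarTower k'[X] B F] [IsFractionRing B F] [IsIntegralClosure B k'[X] F]
  {b g : k[X]} {s : K}

/-- The invariant is compatible with the action. -/
theorem rho_kap (hF : IsGeom k k' K F) {f : K[X]}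
    (hS : Stp (b.map (algebraMap k k')) (g.map (algebraMap k k')) (algebraMap K F s) f)
    {a : Sep F} (ha : Rt f a) (T : Sep F ≃ₐ[K] Sep F) (τ : k' ≃ₐ[k] k')
    (hτ : ∀ x, T (cs k' F x) = cs k' F (τ x)) (m : SelT (F := F) 2 B f 2) (r : k') :
    kapM hS ha (rho B hF f T m) (τ r) = kapM hS ha m r := by
  have hmap : ∀ p : k[X], (p.map (algebraMap k k')).map ((τ : k' ≃+* k') : k' →+* k') =
      p.map (algebraMap k k') := by
    intro p
    rw [Polynomial.map_map]
    congr 1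
    exact RingHom.ext fun x => τ.commutes x
  refine kapM_tw hS ha (lf B hF f T) (lf_tw B hF f T) (τ : k' ≃+* k') ?_ (hmap g) (hmap b) m r
  intro x
  apply (algebraMap F (Sep F)).injective
  have h1 := (lf B hF f T).comm (algebraMap k'[X] F (C x))
  rw [lf_T] at h1
  rw [← h1]
  exact hτ x

/-- The set of the automorphisms of `k'` over `k`. -/
def Gal (k k' : Type) [Field k] [Field k'] [Algebra k k'] : Set (k' ≃ k') :=
  {e | ∃ τ : k' ≃ₐ[k] k', ∀ x, e x = τ x}

/-- The map from the roots to the roots of `b`. -/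
noncomputable def fb {k k' : Type} [Field k] [Field k'] [Algebra k k'] (g : k[X]) (r : k') : k' :=
  -(aeval r g)

theorem isInvt (h2 : (2 : k) ≠ 0) (hb : b.Separable) (hb0 : 0 < b.natDegree) (hK : IsHE k K b s)
    (hF : IsGeom k k' K F) {f : K[X]}
    (hS : Stp (b.map (algebraMap k k')) (g.map (algebraMap k k')) (algebraMap K F s) f)
    {a : Sep F} (ha : Rt f a) [Module.Finite ℤ_[2] (SelT (F := F) 2 B f 2)]
    [Module.Free ℤ_[2] (SelT (F := F) 2 B f 2)] :
    IsInvt (RT (b.map (algebraMap k k')) (g.map (algebraMap k k'))) (fb g) (Gal k k')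
      (kapM (B := B) hS ha) (Set.range (rho B hF f)) where
  zero := kapM_zero_iff hS ha
  mem m := by
    refine ⟨fun r hr => kapM_supp hS ha m hr, fun δ => ?_⟩
    have h1 := kapM_bal hS ha m δ
    simp only [eval_map_algebraMap] at h1
    exact h1
  act := by
    rintro e ⟨τ, hτ⟩
    obtain ⟨T, hT⟩ := exists_T (F := F) h2 hb hb0 hK hF τ.symm
    refine ⟨rho B hF f T, ⟨T, rfl⟩, fun m r => ?_⟩
    have h1 := rho_kap B hF hS ha T τ.symm hT m (τ r)
    rw [AlgEquiv.symm_apply_apply] at h1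
    rw [h1, hτ]

/-- The number of the roots and of the fibres. -/
theorem card_eq (hg : g.Monic) (hodd : Odd g.natDegree) (hsep : (b.comp (-g)).Separable)
    (hb0 : 0 < b.natDegree) :
    (RT (b.map (algebraMap k k')) (g.map (algebraMap k k'))).card -
      ((RT (b.map (algebraMap k k')) (g.map (algebraMap k k'))).image (fb g)).card =
      b.natDegree * (g.natDegree - 1) := by
  set R := RT (b.map (algebraMap k k')) (g.map (algebraMap k k')) with hR
  have hcomp : (b.map (algebraMap k k')).comp (-(g.map (algebraMap k k'))) =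
      (b.comp (-g)).map (algebraMap k k') := by
    rw [map_comp, Polynomial.map_neg]
  have hs' : ((b.map (algebraMap k k')).comp (-(g.map (algebraMap k k')))).Separable := by
    rw [hcomp]; exact hsep.map
  have hc : R.card = b.natDegree * g.natDegree := by
    have hspl : ((b.map (algebraMap k k')).comp (-(g.map (algebraMap k k')))).Splits :=
      IsSepClosed.splits_of_separable _ hs'
    rw [hR, RT, Multiset.toFinset_card_of_nodup (nodup_roots hs'), ← hspl.natDegree_eq_card_roots,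
      natDegree_comp, natDegree_neg, natDegree_map_eq_of_injective (algebraMap k k').injective,
      natDegree_map_eq_of_injective (algebraMap k k').injective]
  have hbs : (b.map (algebraMap k k')).Separable := (bsep_of hodd.pos hsep).map
  have hgm : (g.map (algebraMap k k')).Monic := hg.map _
  have hgd : (g.map (algebraMap k k')).natDegree = g.natDegree := hg.natDegree_map _
  have hfib : ∀ δ ∈ R.image (fb g), (R.filter fun r => fb g r = δ).card = g.natDegree := by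
    intro δ hδ
    obtain ⟨r, hr, rfl⟩ := Finset.mem_image.1 hδ
    have h1 : fb g r ∈ (b.map (algebraMap k k')).roots.toFinset := by
      rw [hR, mem_RT hs'] at hr
      rw [Multiset.mem_toFinset, mem_roots hbs.ne_zero, IsRoot.def]
      have h5 : (g.map (algebraMap k k')).eval r = aeval r g := eval_map_algebraMap _ _
      rw [h5] at hr
      exact hr
    have h3 := card_block hgm (by rw [hgd]; exact hodd.pos) hs' h1
    rw [hgd] at h3
    rw [← h3, hR]
    congr 1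
    ext x
    rw [Finset.mem_filter, Finset.mem_filter, RT, eval_map_algebraMap]
    rfl
  have h1 := Finset.card_eq_sum_card_image (fb g) R
  rw [Finset.sum_congr rfl hfib, Finset.sum_const, smul_eq_mul, hc] at h1
  have h3 : b.natDegree = (R.image (fb g)).card := Nat.eq_of_mul_eq_mul_right hodd.pos h1
  rw [hc, ← h3, Nat.mul_sub, mul_one]

end sel

end Pool.Agent.Q45.GM
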