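import Pool.Agent.Q45.GM.ClsZ
import Pool.Agent.Q45.GM.Rep

/-!
# Extension of automorphisms of `L` and finiteness of the groups of values
-/

set_option autoImplicit false
set_option linter.all false

open Polynomial IsDedekindDomain
open scoped Classical

namespace Pool.Agent.Q45.GM

open Pool.Agent.TH115.GD (Sep)

/-- Extension of an automorphism of `L` over `K` to `Sep F`. -/
theorem lift_e {K F L : Type} [Field K] [Field F] [Field L] [Algebra K F] [Algebra F L]
    [Algebra K L] [IsScalarTower K F L] [Algebra L (Sep F)] [IsScalarTower F L (Sep F)]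
    (e : L ≃+* L) (he : ∀ x : K, e (algebraMap K L x) = algebraMap K L x) :
    ∃ T : Sep F ≃ₐ[K] Sep F, ∀ x : L, T (algebraMap L (Sep F) x) = algebraMap L (Sep F) (e x) := by
  haveI : Algebra.IsSeparable L (Sep F) := Algebra.isSeparable_tower_top_of_isSeparable F L (Sep F)
  haveI : Algebra.IsAlgebraic L (Sep F) := Algebra.IsSeparable.isAlgebraic L (Sep F)
  obtain ⟨T, hT⟩ := JLIFTT.ext_hom (F := L) (L := Sep F) (M := Sep F)
    ((algebraMap L (Sep F)).comp (e : L →+* L))
  obtain ⟨T', hT'⟩ := JLIFTT.ext_hom (F := L) (L := Sep F) (M := Sep F)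
    ((algebraMap L (Sep F)).comp (e.symm : L →+* L))
  have hT1 : ∀ x : L, T (algebraMap L (Sep F) x) = algebraMap L (Sep F) (e x) := hT
  have hT2 : ∀ x : L, T' (algebraMap L (Sep F) x) = algebraMap L (Sep F) (e.symm x) := hT'
  have h1 : Function.Bijective (T'.comp T) := by
    refine JLIFTT.bij (F := L) _ fun x => ?_
    rw [RingHom.comp_apply, hT1, hT2, RingEquiv.symm_apply_apply]
  have h2 : Function.Bijective (T.comp T') := by
    refine JLIFTT.bij (F := L) _ fun x => ?_
    rw [RingHom.comp_apply, hT2, hT1, RingEquiv.apply_symm_apply]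
  have h3 : Function.Bijective T := by
    constructor
    · intro a b hab
      refine h1.1 ?_
      rw [RingHom.comp_apply, RingHom.comp_apply, hab]
    · intro y
      obtain ⟨x, hx⟩ := h2.2 y
      exact ⟨T' x, hx⟩
  have hK : ∀ a : K, T (algebraMap K (Sep F) a) = algebraMap K (Sep F) a := by
    intro a
    have h4 : algebraMap K (Sep F) a = algebraMap L (Sep F) (algebraMap K L a) := by
      rw [IsScalarTower.algebraMap_apply K F (Sep F), IsScalarTower.algebraMap_apply K F L,
        ← IsScalarTower.algebraMap_apply F L (Sep F)]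
    rw [h4, hT1, he]
  let T0 : Sep F →ₐ[K] Sep F := { T with commutes' := hK }
  exact ⟨AlgEquiv.ofBijective T0 h3, hT1⟩

section fin

variable {X : Type} [AddCommGroup X]

/-- A finitely generated group of exponent `2` is finite. -/
theorem closure_fin (h2 : ∀ x : X, 2 • x = 0) (S : Set X) (hS : S.Finite) :
    Finite (AddSubgroup.closure S) := by
  haveI : Module (ZMod 2) X := AddCommGroup.zmodModule (n := 2) h2
  haveI : Module.Finite (ZMod 2) (Submodule.span (ZMod 2) S) := Module.Finite.span_of_finite _ hS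
  haveI : Finite (Submodule.span (ZMod 2) S) := Module.finite_of_finite (ZMod 2)
  have h3 : AddSubgroup.closure S ≤ (Submodule.span (ZMod 2) S).toAddSubgroup :=
    (AddSubgroup.closure_le _).2 Submodule.subset_span
  exact Finite.of_injective (fun x : AddSubgroup.closure S =>
    (⟨x.1, h3 x.2⟩ : Submodule.span (ZMod 2) S)) fun x y hxy => Subtype.ext (congrArg
      (fun z : Submodule.span (ZMod 2) S => z.1) hxy)

/-- Finiteness of an irreducible group of exponent `2` with finite orbits. -/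
theorem fin_of_irr {W : AddSubgroup X} {Γ : Set (X →+ X)} (hW : WIr W Γ)
    (hst : ∀ γ ∈ Γ, ∀ x ∈ W, γ x ∈ W) (h2 : ∀ x : X, 2 • x = 0)
    (horb : ∀ x : X, ∃ S : Set X, S.Finite ∧ x ∈ S ∧ ∀ γ ∈ Γ, ∀ y ∈ S, γ y ∈ S) : Finite W := by
  by_cases h0 : W = ⊥
  · rw [h0]
    infer_instance
  · obtain ⟨x, hx, hx0⟩ : ∃ x ∈ W, x ≠ 0 := by
      by_contra hne
      apply h0
      rw [eq_bot_iff]
      intro x hx
      by_contra hx0
      exact hne ⟨x, hx, hx0⟩
    obtain ⟨S, hS, hxS, hSt⟩ := horb x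
    have h3 := closure_fin h2 (S ∩ W) (hS.inter_of_left _)
    have h4 : AddSubgroup.closure (S ∩ W) ≤ W :=
      (AddSubgroup.closure_le _).2 Set.inter_subset_right
    rcases hW _ h4 (by
      intro γ hγ y hy
      have h5 : AddSubgroup.closure (S ∩ W) ≤ (AddSubgroup.closure (S ∩ W)).comap γ := by
        rw [AddSubgroup.closure_le]
        rintro z ⟨hz1, hz2⟩
        exact AddSubgroup.subset_closure ⟨hSt γ hγ z hz1, hst γ hγ z hz2⟩
      exact h5 hy) with h5 | h5
    · exfalso
      apply hx0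
      have h6 : x ∈ AddSubgroup.closure (S ∩ W) := AddSubgroup.subset_closure ⟨hxS, hx⟩
      rw [h5] at h6
      exact h6
    · rw [← h5]
      exact h3

/-- The stable part. -/
theorem dichotomy {W : AddSubgroup X} {Γ : Set (X →+ X)} (hW : WIr W Γ)
    (h1 : AddMonoidHom.id X ∈ Γ) (hcomp : ∀ γ ∈ Γ, ∀ γ' ∈ Γ, γ'.comp γ ∈ Γ)
    (h2 : ∀ x : X, 2 • x = 0)
    (horb : ∀ x : X, ∃ S : Set X, S.Finite ∧ x ∈ S ∧ ∀ γ ∈ Γ, ∀ y ∈ S, γ y ∈ S) :
    Finite W ∨ ∀ x : X, (∀ γ ∈ Γ, γ x ∈ W) → x = 0 := by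
  let W' : AddSubgroup X :=
    { carrier := {x | ∀ γ ∈ Γ, γ x ∈ W}
      add_mem' := fun {a b} ha hb γ hγ => by rw [map_add]; exact W.add_mem (ha γ hγ) (hb γ hγ)
      zero_mem' := fun γ _ => by rw [map_zero]; exact W.zero_mem
      neg_mem' := fun {a} ha γ hγ => by rw [map_neg]; exact W.neg_mem (ha γ hγ) }
  have hW' : ∀ x, x ∈ W' ↔ ∀ γ ∈ Γ, γ x ∈ W := fun x => Iff.rfl
  rcases hW W' (fun x hx => hx _ h1) (fun γ hγ x hx => (hW' _).2 fun γ' hγ' =>
    hx _ (hcomp γ hγ γ' hγ')) with h3 | h3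
  · right
    intro x hx
    have h4 : x ∈ W' := hx
    rw [h3] at h4
    exact h4
  · left
    refine fin_of_irr hW (fun γ hγ x hx => ?_) h2 horb
    have h4 : x ∈ W' := by rw [h3]; exact hx
    exact h4 γ hγ

end fin

end Pool.Agent.Q45.GM
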