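import Pool.Agent.Q45.GM.Dpa

/-!
# The invariant with values in the classes of the functions with even divisor
-/

set_option autoImplicit false
set_option linter.all false

open Polynomial IsDedekindDomain
open scoped Classical

namespace Pool.Agent.Q45.GM

open Pool.Agent.Q45.TW (IsGeom)
open Pool.Agent.Q45.GP (Regular)
open Pool.Agent.Y160.SQ
open Pool.Agent.TH115.GD (incl rs ak Sep Comp)

theorem alg_KF {k k' K F : Type} [Field k] [Field k'] [Algebra k k'] [Algebra.IsSeparable k k']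
    [Field K] [Algebra k[X] K] [Field F] [Algebra k'[X] F] [Algebra K F] (hF : IsGeom k k' K F) :
    Algebra.IsAlgebraic K F := by
  have h1 : ∀ x ∈ Set.range ((algebraMap k'[X] F).comp C), IsIntegral K x := by
    rintro _ ⟨c, rfl⟩
    refine ⟨(minpoly k c).map ((algebraMap k[X] K).comp C),
      (minpoly.monic (Algebra.IsIntegral.isIntegral c)).map _, ?_⟩
    rw [eval₂_map]
    have h2 : (algebraMap K F).comp ((algebraMap k[X] K).comp C) =
        ((algebraMap k'[X] F).comp C).comp (algebraMap k k') := by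
      refine RingHom.ext fun a => ?_
      show algebraMap K F (algebraMap k[X] K (C a)) = algebraMap k'[X] F (C (algebraMap k k' a))
      rw [hF.comp, map_C]
    rw [h2, ← hom_eval₂]
    have h3 : eval₂ (algebraMap k k') c (minpoly k c) = 0 := minpoly.aeval k c
    rw [h3, map_zero]
  haveI h2 := IntermediateField.isAlgebraic_adjoin h1
  rw [hF.gen] at h2
  exact (IntermediateField.topEquiv (F := K) (E := F)).symm.isAlgebraic_iff.2 h2

section ops

variable {K L : Type} [Field K] [Field L] [Algebra K L]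

/-- The operators defined by the automorphisms of `L` over `K` which fix `θ`. -/
def opsX (K : Type) {L : Type} [Field K] [Field L] [Algebra K L] (θ : L) : Set (XL L →+ XL L) :=
  {γ | ∃ e : L ≃+* L, (∀ x : K, e (algebraMap K L x) = algebraMap K L x) ∧ e θ = θ ∧ γ = opX e}

theorem id_mem (θ : L) : AddMonoidHom.id (XL L) ∈ opsX K θ := by
  refine ⟨RingEquiv.refl L, fun _ => rfl, rfl, ?_⟩
  refine AddMonoidHom.ext fun x => ?_
  obtain ⟨z, rfl⟩ := clX_surj x
  rfl

theorem comp_mem {θ : L} : ∀ γ ∈ opsX K θ, ∀ γ' ∈ opsX K θ, γ'.comp γ ∈ opsX K θ := by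
  rintro _ ⟨e, h1, h2, rfl⟩ _ ⟨e', h1', h2', rfl⟩
  refine ⟨e.trans e', fun x => ?_, ?_, ?_⟩
  · rw [RingEquiv.trans_apply, h1, h1']
  · rw [RingEquiv.trans_apply, h2, h2']
  · refine AddMonoidHom.ext fun x => ?_
    obtain ⟨z, rfl⟩ := clX_surj x
    rfl

theorem orb_fin [Algebra.IsAlgebraic K L] (θ : L) (x : XL L) : ∃ S : Set (XL L), S.Finite ∧ x ∈ S ∧
    ∀ γ ∈ opsX K θ, ∀ y ∈ S, γ y ∈ S := by
  obtain ⟨z, rfl⟩ := clX_surj x
  have hint : IsIntegral K (z : L) := (Algebra.IsAlgebraic.isAlgebraic (z : L)).isIntegral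
  have h0 : (minpoly K (z : L)).map (algebraMap K L) ≠ 0 :=
    (Polynomial.map_ne_zero_iff (algebraMap K L).injective).2 (minpoly.ne_zero hint)
  refine ⟨clX '' {y : Lˣ | aeval (y : L) (minpoly K (z : L)) = 0}, ?_, ?_, ?_⟩
  · refine Set.Finite.image _ ?_
    refine Set.Finite.of_finite_image (f := fun y : Lˣ => (y : L)) ?_ (fun a _ b _ h => Units.ext h)
    refine (((minpoly K (z : L)).map (algebraMap K L)).rootSet_finite L).subset ?_
    rintro _ ⟨y, hy, rfl⟩
    have hy' : aeval (y : L) (minpoly K (z : L)) = 0 := hy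
    rw [mem_rootSet]
    refine ⟨h0, ?_⟩
    rw [aeval_map_algebraMap]
    exact hy'
  · exact ⟨z, minpoly.aeval K _, rfl⟩
  · rintro _ ⟨e, h1, h2, rfl⟩ _ ⟨y, hy, rfl⟩
    refine ⟨Units.map (e : L →* L) y, ?_, rfl⟩
    have hy' : aeval (y : L) (minpoly K (z : L)) = 0 := hy
    let e' : L →ₐ[K] L := { (e : L →+* L) with commutes' := h1 }
    show aeval (e' (y : L)) (minpoly K (z : L)) = 0
    rw [aeval_algHom_apply, hy', map_zero]

/-- The subgroup of the classes of the functions with even divisor. -/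
def wX (S L : Type) [CommRing S] [Field L] [Algebra S L] [IsFractionRing S L]
    [IsDedekindDomain S] : AddSubgroup (XL L) where
  carrier := {x | ∃ z ∈ evS S L, clX z = x}
  add_mem' := by
    rintro _ _ ⟨z, hz, rfl⟩ ⟨w, hw, rfl⟩
    exact ⟨z * w, mul_mem hz hw, rfl⟩
  zero_mem' := ⟨1, one_mem _, rfl⟩
  neg_mem' := by
    rintro _ ⟨z, hz, rfl⟩
    exact ⟨z⁻¹, inv_mem hz, rfl⟩

variable {S : Type} [CommRing S] [Algebra S L] [IsFractionRing S L] [IsDedekindDomain S]

theorem clX_eq {z w : Lˣ} (h : clX z = clX w) : ∃ y : Lˣ, z = w * y ^ 2 := by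
  have h1 : clX (z * w⁻¹) = 0 := by
    rw [clX_mul, h, ← clX_mul, mul_inv_cancel]
    rfl
  obtain ⟨y, hy⟩ := clX_zero.1 h1
  refine ⟨y, ?_⟩
  have h2 : y ^ 2 = z * w⁻¹ := hy
  rw [h2]
  group
  rw [mul_comm w z]
  group

theorem clX_mem {z : Lˣ} : clX z ∈ wX S L ↔ z ∈ evS S L := by
  constructor
  · rintro ⟨w, hw, h⟩
    obtain ⟨y, rfl⟩ := clX_eq h.symm
    exact mul_mem hw (sq_le ⟨y, rfl⟩)
  · exact fun h => ⟨z, h, rfl⟩

/-- The irreducibility, from the subgroups of `Lˣ`. -/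
theorem wIr_of (θ : L) (h : ∀ U : Subgroup Lˣ, sqS L ≤ U → U ≤ evS S L →
    (∀ e : L ≃+* L, (∀ x : K, e (algebraMap K L x) = algebraMap K L x) → e θ = θ →
      ∀ z ∈ U, Units.map (e : L →* L) z ∈ U) → U = sqS L ∨ U = evS S L) :
    WIr (wX S L) (opsX K θ) := by
  intro V hV hst
  let U : Subgroup Lˣ :=
    { carrier := {z | clX z ∈ V}
      mul_mem' := fun {a b} ha hb => V.add_mem ha hb
      one_mem' := V.zero_mem
      inv_mem' := fun {a} ha => V.neg_mem ha }
  have hU : ∀ z, z ∈ U ↔ clX z ∈ V := fun z => Iff.rfl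
  rcases h U (fun z hz => by rw [hU, clX_zero.2 hz]; exact V.zero_mem)
    (fun z hz => clX_mem.1 (hV hz)) (fun e h1 h2 z hz => hst _ ⟨e, h1, h2, rfl⟩ _ hz) with h3 | h3
  · left
    rw [eq_bot_iff]
    intro x hx
    obtain ⟨z, rfl⟩ := clX_surj x
    have h4 : z ∈ U := hx
    rw [h3] at h4
    rw [clX_zero.2 h4]
    exact zero_mem _
  · right
    refine le_antisymm hV ?_
    rintro _ ⟨z, hz, rfl⟩
    rw [← h3] at hz
    exact hz

theorem card_wX : Nat.card (wX S L) = (sqS L).relIndex (evS S L) := by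
  have h1 := Subgroup.relIndex_ker (QuotientGroup.mk' (sqS L)) (K := evS S L)
  rw [QuotientGroup.ker_mk'] at h1
  rw [h1]
  rfl

end ops

end Pool.Agent.Q45.GM
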