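import Pool.Agent.Q45.GM.Dpb

/-!
# The module of the classes: rank and irreducibility
-/

set_option autoImplicit false
set_option linter.all false

open Polynomial IsDedekindDomain
open scoped Classical

namespace Pool.Agent.Q45.GM

open Pool.Agent.Q45.TW (IsGeom)
open Pool.Agent.Q45.GP (Regular)
open Pool.Agent.Y160.SQ
open Pool.Agent.TH115.GD (incl rs ak Sep Comp)

section core

variable {k k' K F L S : Type} [Field k] [Field k'] [Algebra k k'] [IsSepClosed k']
  [Algebra.IsSeparable k k'] [Field K] [Algebra k[X] K] [Field F] [Algebra k'[X] F] [Algebra K F]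
  (B : Type) [CommRing B] [IsDedekindDomain B] [Algebra k'[X] B] [Algebra B F]
  [IsScalarTower k'[X] B F] [IsFractionRing B F] [IsIntegralClosure B k'[X] F]
  [Field L] [Algebra F L] [Algebra K L] [IsScalarTower K F L] [Algebra L (Sep F)]
  [IsScalarTower F L (Sep F)] [CommRing S] [IsDedekindDomain S] [Algebra S L] [IsFractionRing S L]
  [Algebra B S] [Algebra.IsIntegral B S] [Algebra B L] [IsScalarTower B F L]
  [IsScalarTower B S L] [Module.IsTorsionFree B S] {f : K[X]} (hgd : Good 2 (-1) f) {a : Sep F}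
  {θ : L}

include hgd in
/-- The invariant. -/
theorem inv_kM (hF : IsGeom k k' K F) {fB : B[X]}
    (hfB : fB.map (algebraMap B F) = f.map (algebraMap K F)) (hfm : fB.Monic)
    (hreg : Regular F fB) (h : Fld (f := f) a θ) :
    Inv (wX S L) (opsX K θ) (kM (B := B) hgd h) (Set.range (rho B hF f)) where
  zero := kM_zero_iff hgd h
  mem m := by
    obtain ⟨z, hz, h1⟩ := kM_mem (R := S) hgd hfB hfm hreg h m
    exact ⟨z, hz, h1.symm⟩
  act := by
    rintro _ ⟨e, he, hθ, rfl⟩
    obtain ⟨T, hT⟩ := lift_e (F := F) e he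
    refine ⟨rho B hF f T, ⟨T, rfl⟩, fun m => ?_⟩
    refine kM_tw hgd h (lf B hF f T) (lf_tw B hF f T) e ?_ hθ m
    intro x
    rw [lf_T]
    exact hT x

include hgd in
/-- The conclusion for the module of the classes. -/
theorem core_dp (hF : IsGeom k k' K F) {fB : B[X]}
    (hfB : fB.map (algebraMap B F) = f.map (algebraMap K F)) (hfm : fB.Monic)
    (hreg : Regular F fB) (h : Fld (f := f) a θ)
    (hirr : ∀ U : Subgroup Lˣ, sqS L ≤ U → U ≤ evS S L →
      (∀ e : L ≃+* L, (∀ x : K, e (algebraMap K L x) = algebraMap K L x) → e θ = θ →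
        ∀ z ∈ U, Units.map (e : L →* L) z ∈ U) → U = sqS L ∨ U = evS S L) :
    ∃ (_ : Module.Finite ℤ_[2] (SelT (F := F) 2 B f 2))
      (_ : Module.Free ℤ_[2] (SelT (F := F) 2 B f 2)),
      (Module.finrank ℤ_[2] (SelT (F := F) 2 B f 2) = 0 ∨
        2 ^ Module.finrank ℤ_[2] (SelT (F := F) 2 B f 2) = (sqS L).relIndex (evS S L)) ∧
      ∀ U : Submodule ℤ_[2] (SelT (F := F) 2 B f 2), (∀ T, ∀ m ∈ U, rho B hF f T m ∈ U) →
        U = ⊥ ∨ ∃ r : ℕ, ∀ m : SelT (F := F) 2 B f 2, (2 : ℤ_[2]) ^ r • m ∈ U := by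
  haveI : Algebra.IsAlgebraic K F := alg_KF hF
  haveI : Algebra.IsAlgebraic F L := Algebra.IsAlgebraic.tower_bot F L (Sep F)
  haveI : Algebra.IsAlgebraic K L := Algebra.IsAlgebraic.trans K F L
  have hW : WIr (wX S L) (opsX K θ) := wIr_of θ hirr
  have hmem : ∀ m : SelT (F := F) 2 B f 2, kM hgd h m ∈ wX S L := fun m => by
    obtain ⟨z, hz, h1⟩ := kM_mem (R := S) hgd hfB hfm hreg h m
    exact ⟨z, hz, h1.symm⟩
  rcases dichotomy hW (id_mem θ) comp_mem two_clX (orb_fin θ) with h1 | h1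
  · obtain ⟨h2, h3⟩ := fin_free hgd h h1 hmem
    refine ⟨h2, h3, ?_, ?_⟩
    · have h4 := (inv_kM (S := S) B hgd hF hfB hfm hreg h).rank hW h1 (fun x _ => two_clX x)
      rcases h4 with h4 | h4
      · exact Or.inl h4
      · exact Or.inr (by rw [← h4, card_wX])
    · intro U hU
      refine (inv_kM (S := S) B hgd hF hfB hfm hreg h).irr hW U ?_
      rintro _ ⟨T, rfl⟩ m hm
      exact hU T m hm
  · have h0 : ∀ m : SelT (F := F) 2 B f 2, kM hgd h m = 0 := by
      intro m
      refine h1 _ ?_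
      rintro _ ⟨e, he, hθ, rfl⟩
      obtain ⟨T, hT⟩ := lift_e (F := F) e he
      have h5 := kM_tw hgd h (lf B hF f T) (lf_tw B hF f T) e (by
        intro x
        rw [lf_T]
        exact hT x) hθ m
      rw [← h5]
      exact hmem _
    haveI : Finite (⊥ : AddSubgroup (XL L)) := inferInstance
    obtain ⟨h2, h3⟩ := fin_free hgd h (W := ⊥) this (fun m => by
      rw [h0]
      exact zero_mem _)
    have h4 : ∀ m : SelT (F := F) 2 B f 2, ∃ m', m = (2 : ℤ_[2]) • m' := fun m =>
      (kM_zero_iff hgd h m).1 (h0 m)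
    have hcast : ∀ m : SelT (F := F) 2 B f 2, kM hgd h m = 0 ↔
        ∃ m', m = ((2 : ℕ) : ℤ_[2]) • m' := by
      intro m
      have h2' : ((2 : ℕ) : ℤ_[2]) = 2 := Nat.cast_ofNat
      rw [kM_zero_iff, h2']
    have h5 : Module.finrank ℤ_[2] (SelT (F := F) 2 B f 2) = 0 := by
      refine JLIN6.main 2 _ (XL L) (kM hgd h) 0 hcast ?_
      have h6 : (kM (B := B) hgd h).range = ⊥ := by
        rw [eq_bot_iff]
        rintro _ ⟨m, rfl⟩
        rw [h0]
        exact zero_mem _
      rw [h6, pow_zero]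
      exact AddSubgroup.card_bot
    refine ⟨h2, h3, Or.inl h5, ?_⟩
    intro U _
    left
    haveI : Subsingleton (SelT (F := F) 2 B f 2) := Module.finrank_zero_iff.1 h5
    rw [eq_bot_iff]
    intro m _
    rw [Subsingleton.elim m 0]
    exact zero_mem _

end core

end Pool.Agent.Q45.GM
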