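import Pool.Agent.Q45.GM.Dpe
import Pool.Agent.Q45.TG.Reg
import Pool.Agent.Q45.TT.Dv

/-!
# Double planes
-/

set_option autoImplicit false
set_option linter.all false

open Polynomial IsDedekindDomain
open scoped Classical

namespace Pool.Agent.Q45.GM

open Pool.Agent.Q45.TW (IsGeom)
open Pool.Agent.Q45.GP (Regular)
open Pool.Agent.Q45.TG (fF fF_map fF_monic fF_natDegree irr_base sep_fF ds ds_map regular_of_der)
open Pool.Agent.Q45.TT (hasDer_base)
open Pool.Agent.Y160.SQ
open Pool.Agent.TH115.GD (incl rs ak Sep Comp)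

/-- The rational function fields. -/
theorem isGeom_rat {k k' K F : Type} [Field k] [Field k'] [Algebra k k'] [Field K] [Algebra k[X] K]
    [IsFractionRing k[X] K] [Field F] [Algebra k'[X] F] [IsFractionRing k'[X] F] [Algebra K F]
    (hcomp : ∀ p : k[X], algebraMap K F (algebraMap k[X] K p) =
      algebraMap k'[X] F (p.map (algebraMap k k'))) : IsGeom k k' K F := by
  refine ⟨IsFractionRing.injective k'[X] F, hcomp, ?_⟩
  rw [eq_top_iff]
  rintro x -
  set E := IntermediateField.adjoin K (Set.range ((algebraMap k'[X] F).comp C)) with hE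
  have h1 : ∀ p : k'[X], algebraMap k'[X] F p ∈ E := by
    intro p
    induction p using Polynomial.induction_on' with
    | add p q hp hq => rw [map_add]; exact add_mem hp hq
    | monomial n a =>
      rw [← C_mul_X_pow_eq_monomial, map_mul, map_pow]
      refine mul_mem (IntermediateField.subset_adjoin _ _ ⟨a, rfl⟩) (pow_mem ?_ n)
      have h2 := hcomp X
      rw [map_X] at h2
      rw [← h2]
      exact E.algebraMap_mem _
  obtain ⟨a, b, -, rfl⟩ := IsFractionRing.div_surjective (A := k'[X]) x
  exact div_mem (h1 a) (h1 b)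

/-- Regularity over the polynomial ring. -/
theorem regular_base {k' F : Type} [Field k'] [Field F] [Algebra k'[X] F] [IsFractionRing k'[X] F]
    {P : k'[X][X]} (hsm : ∃ a₁ a₂ a₃ : k'[X][X], a₁ * P + a₂ * derivative P + a₃ * ds P = 1) :
    Regular F (fF P k'[X]) := by
  refine regular_of_der hsm (hasDer_base inferInstance) ?_
  intro v b hb hbv
  exfalso
  have h1 : b ∈ v.asIdeal := Ideal.pow_le_self two_ne_zero hbv
  have h2 : (Ideal.span {b}).IsMaximal := PrincipalIdealRing.isMaximal_of_irreducible hb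
  have h3 : Ideal.span {b} = v.asIdeal :=
    h2.eq_of_le v.isPrime.ne_top ((Ideal.span_singleton_le_iff_mem _).2 h1)
  have h4 : b ∈ v.asIdeal ^ 2 := hbv
  rw [← h3, Ideal.span_singleton_pow, Ideal.mem_span_singleton] at h4
  obtain ⟨c, hc⟩ := h4
  have h5 : b * (b * c) = b * 1 := by rw [mul_one, ← mul_assoc, ← pow_two, ← hc]
  have h6 : b * c = 1 := mul_left_cancel₀ hb.ne_zero h5
  exact hb.not_isUnit (IsUnit.of_mul_eq_one _ h6)

section dp

variable {k k' : Type} [Field k] [Field k'] [Algebra k k']

/-- The polynomial with coefficients in `k'`. -/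
noncomputable def pm (k' : Type) [Field k'] [Algebra k k'] (P : k[X][X]) : k'[X][X] :=
  P.map (mapRingHom (algebraMap k k'))

theorem irr_of_dom {P : k'[X][X]} (hP : P ≠ 0) [IsDomain (AdjoinRoot P)] : Irreducible P := by
  have h1 : (Ideal.span {P}).IsPrime := 
    (Ideal.Quotient.isDomain_iff_prime _).1 (inferInstanceAs (IsDomain (AdjoinRoot P)))
  exact ((Ideal.span_singleton_prime hP).1 h1).irreducible

theorem ff_comp {K F : Type} [Field K] [Algebra k[X] K] [Field F] [Algebra k'[X] F] [Algebra K F]
    (hcomp : ∀ p : k[X], algebraMap K F (algebraMap k[X] K p) =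
      algebraMap k'[X] F (p.map (algebraMap k k'))) (P : k[X][X]) :
    (fF (pm k' P) k'[X]).map (algebraMap k'[X] F) = (fF P K).map (algebraMap K F) := by
  unfold fF pm
  rw [Polynomial.map_map, Polynomial.map_map, Polynomial.map_map]
  congr 1
  refine RingHom.ext fun p => ?_
  exact (hcomp p).symm

/-- The elements of the field of the functions on the curve. -/
theorem adjoin_top {F L : Type} [Field F] [Algebra k'[X] F] {P : k'[X][X]} [IsDomain (AdjoinRoot P)]
    [Field L] [Algebra (AdjoinRoot P) L] [IsFractionRing (AdjoinRoot P) L] [Algebra F L]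
    (h : ∀ p : k'[X], algebraMap F L (algebraMap k'[X] F p) =
      algebraMap (AdjoinRoot P) L (AdjoinRoot.of P p)) :
    IntermediateField.adjoin F {algebraMap (AdjoinRoot P) L (AdjoinRoot.root P)} = ⊤ := by
  rw [eq_top_iff]
  rintro x -
  set E := IntermediateField.adjoin F {algebraMap (AdjoinRoot P) L (AdjoinRoot.root P)} with hE
  have h1 : ∀ s : AdjoinRoot P, algebraMap (AdjoinRoot P) L s ∈ E := by
    intro s
    induction s using AdjoinRoot.induction_on with
    | ih p =>
      induction p using Polynomial.induction_on' with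
      | add p q hp hq => rw [map_add, map_add]; exact add_mem hp hq
      | monomial n a =>
        rw [← C_mul_X_pow_eq_monomial, map_mul, map_pow, AdjoinRoot.mk_C, AdjoinRoot.mk_X, map_mul,
          map_pow, ← h]
        exact mul_mem (E.algebraMap_mem _) (pow_mem (IntermediateField.mem_adjoin_simple_self F _) n)
  obtain ⟨a, b, -, rfl⟩ := IsFractionRing.div_surjective (A := AdjoinRoot P) x
  exact div_mem (h1 a) (h1 b)

section main

variable {K F : Type} [Field K] [Algebra k[X] K] [IsFractionRing k[X] K] [Field F]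
  [Algebra k'[X] F] [IsFractionRing k'[X] F] [Algebra K F] {P : k[X][X]}

/-- The conditions on the polynomial of the branch curve. -/
structure IsBr (P : k[X][X]) : Prop where
  two : (2 : k) ≠ 0
  monic : P.Monic
  odd : Odd P.natDegree
  der : derivative P ≠ 0
  smooth : ∃ a₁ a₂ a₃ : k[X][X], a₁ * P + a₂ * derivative P + a₃ * ds P = 1

theorem IsBr.pm_monic (h : IsBr P) : (pm k' P).Monic := h.monic.map _

theorem IsBr.pm_smooth (h : IsBr P) : ∃ a₁ a₂ a₃ : k'[X][X],
    a₁ * pm k' P + a₂ * derivative (pm k' P) + a₃ * ds (pm k' P) = 1 := by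
  obtain ⟨a₁, a₂, a₃, h1⟩ := h.smooth
  refine ⟨pm k' a₁, pm k' a₂, pm k' a₃, ?_⟩
  unfold pm
  rw [derivative_map, ds_map, ← Polynomial.map_mul, ← Polynomial.map_mul, ← Polynomial.map_mul,
    ← Polynomial.map_add, ← Polynomial.map_add, h1, Polynomial.map_one]

theorem IsBr.pm_der (h : IsBr P) : derivative (pm k' P) ≠ 0 := by
  unfold pm
  rw [derivative_map]
  exact (Polynomial.map_ne_zero_iff (map_injective _ (algebraMap k k').injective)).2 h.der

theorem fF_pm (hcomp : ∀ p : k[X], algebraMap K F (algebraMap k[X] K p) =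
      algebraMap k'[X] F (p.map (algebraMap k k'))) :
    fF (pm k' P) F = (fF P K).map (algebraMap K F) := by
  rw [← ff_comp hcomp P]
  unfold fF
  rw [Polynomial.map_map]
  rfl

theorem IsBr.good (h : IsBr P)
    (hcomp : ∀ p : k[X], algebraMap K F (algebraMap k[X] K p) =
      algebraMap k'[X] F (p.map (algebraMap k k')))
    (h3 : ((fF P K).map (algebraMap K F)).Separable) : Good 2 (-1) (fF P K) := by
  have h2 : (2 : K) ≠ 0 := by
    have h3 : (algebraMap k[X] K) (C (2 : k)) = 2 := by
      rw [show (C (2 : k)) = (2 : k[X]) from rfl, map_ofNat]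
    rw [← h3]
    intro h4
    exact h.two (C_injective ((IsFractionRing.injective k[X] K) (by rw [h4, C_0, map_zero])))
  haveI : NeZero (2 : K) := ⟨h2⟩
  have hne : (-1 : K) ≠ 1 := fun h3 => h2 (by linear_combination -h3)
  refine ⟨Nat.prime_two.isPrimePow, ?_, fF_monic h.monic K, ?_, ?_⟩
  · exact IsPrimitiveRoot.mk_of_lt _ (by norm_num) (by norm_num) (by
      intro l h1 h2
      have h3 : l = 1 := by omega
      rw [h3, pow_one]
      exact hne)
  · exact (separable_map (algebraMap K F)).1 h3
  · rw [fF_natDegree h.monic]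
    exact Nat.coprime_two_left.2 h.odd

/-- The automorphism `e` of `L` fixes the polynomials in `t` and `x` over `k`. -/
def FixP (k : Type) {k' : Type} [Field k] [Field k'] [Algebra k k'] {Q : k'[X][X]} {L : Type}
    [Field L] [Algebra (AdjoinRoot Q) L] (e : L ≃+* L) : Prop :=
  ∀ p : k[X][X], e (algebraMap (AdjoinRoot Q) L (AdjoinRoot.mk Q (pm k' p))) =
    algebraMap (AdjoinRoot Q) L (AdjoinRoot.mk Q (pm k' p))

/-- The data of a double plane. -/
theorem with_dp (h : IsBr P) {Q : k'[X][X]}
    (hQ : pm k' P = Q) [IsDomain (AdjoinRoot Q)]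
    (hcomp : ∀ p : k[X], algebraMap K F (algebraMap k[X] K p) =
      algebraMap k'[X] F (p.map (algebraMap k k'))) (L : Type) [Field L]
    [Algebra (AdjoinRoot Q) L] [IsFractionRing (AdjoinRoot Q) L] {Cn : Prop}
    (cont : ∀ [Algebra F L] [Algebra K L] [IsScalarTower K F L] [Algebra L (Sep F)]
      [IsScalarTower F L (Sep F)] [Algebra k'[X] L] [IsScalarTower k'[X] F L]
      [IsScalarTower k'[X] (AdjoinRoot Q) L] [Algebra.IsIntegral k'[X] (AdjoinRoot Q)]
      [Module.IsTorsionFree k'[X] (AdjoinRoot Q)] (hgd : Good 2 (-1) (fF P K)) (a : Sep F) (θ : L)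
      (hfld : Fld (f := fF P K) a θ)
      (hff : (fF Q k'[X]).map (algebraMap k'[X] F) = (fF P K).map (algebraMap K F))
      (hm : (fF Q k'[X]).Monic) (hreg : Regular F (fF Q k'[X]))
      (hfix : ∀ e : L ≃+* L, FixP k (Q := Q) e ↔ Fixes K θ e), Cn) : Cn := by
  have hQm : Q.Monic := by rw [← hQ]; exact h.pm_monic
  have hirrQ : Irreducible Q := irr_of_dom hQm.ne_zero
  have hdQ : derivative Q ≠ 0 := by rw [← hQ]; exact h.pm_der
  have hsmQ : ∃ a₁ a₂ a₃ : k'[X][X], a₁ * Q + a₂ * derivative Q + a₃ * ds Q = 1 := by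
    rw [← hQ]; exact h.pm_smooth
  have hinjA : Function.Injective (AdjoinRoot.of Q) :=
    AdjoinRoot.of.injective_of_degree_ne_zero (by
      have h1 : 0 < Q.natDegree := by
        rw [← hQ, pm, h.monic.natDegree_map]
        exact h.odd.pos
      exact (natDegree_pos_iff_degree_pos.1 h1).ne')
  have hinj : Function.Injective ((algebraMap (AdjoinRoot Q) L).comp (AdjoinRoot.of Q)) :=
    (IsFractionRing.injective (AdjoinRoot Q) L).comp hinjA
  letI iBL : Algebra k'[X] L := ((algebraMap (AdjoinRoot Q) L).comp (AdjoinRoot.of Q)).toAlgebra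
  haveI : IsScalarTower k'[X] (AdjoinRoot Q) L := IsScalarTower.of_algebraMap_eq fun _ => rfl
  letI iFL : Algebra F L := (IsFractionRing.lift (A := k'[X]) (K := F) hinj).toAlgebra
  have hFL : ∀ p : k'[X], algebraMap F L (algebraMap k'[X] F p) =
      algebraMap (AdjoinRoot Q) L (AdjoinRoot.of Q p) := fun p =>
    IsFractionRing.lift_algebraMap hinj p
  haveI : IsScalarTower k'[X] F L := IsScalarTower.of_algebraMap_eq fun p => (hFL p).symm
  letI iKL : Algebra K L := ((algebraMap F L).comp (algebraMap K F)).toAlgebra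
  haveI : IsScalarTower K F L := IsScalarTower.of_algebraMap_eq fun _ => rfl
  set θ : L := algebraMap (AdjoinRoot Q) L (AdjoinRoot.root Q) with hθ
  have htop : IntermediateField.adjoin F {θ} = ⊤ := adjoin_top hFL
  have hev : ∀ p : k'[X][X], aeval θ (p.map (algebraMap k'[X] F)) =
      algebraMap (AdjoinRoot Q) L (AdjoinRoot.mk Q p) := by
    intro p
    rw [aeval_def, eval₂_map]
    have h1 : (algebraMap F L).comp (algebraMap k'[X] F) =
        (algebraMap (AdjoinRoot Q) L).comp (AdjoinRoot.of Q) := RingHom.ext hFL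
    rw [h1, hθ, ← hom_eval₂, ← AdjoinRoot.aeval_eq, aeval_def]
    rfl
  have hroot : aeval θ (fF Q F) = 0 := by
    have h1 := hev Q
    rw [AdjoinRoot.mk_self, map_zero] at h1
    exact h1
  have hirrF : Irreducible (fF Q F) := irr_base hQm hirrQ inferInstance
  have hsepF : (fF Q F).Separable := sep_fF (IsFractionRing.injective k'[X] F) hirrF hdQ
  have hint : IsIntegral F θ := ⟨fF Q F, fF_monic hQm F, hroot⟩
  have hsθ : IsSeparable F θ := hsepF.of_dvd (minpoly.dvd F θ hroot)
  haveI : Algebra.IsSeparable F L := by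
    have h1 := (IntermediateField.isSeparable_adjoin_simple_iff_isSeparable F L).2 hsθ
    rw [htop] at h1
    exact Algebra.IsSeparable.of_algHom F _ (IntermediateField.topEquiv (F := F) (E := L)).symm.toAlgHom
  letI iLS : Algebra L (Sep F) := (IsSepClosed.lift : L →ₐ[F] Sep F).toRingHom.toAlgebra
  haveI : IsScalarTower F L (Sep F) := IsScalarTower.of_algebraMap_eq fun x =>
    ((IsSepClosed.lift : L →ₐ[F] Sep F).commutes x).symm
  have hfp : fF Q F = (fF P K).map (algebraMap K F) := by rw [← hQ]; exact fF_pm hcomp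
  have hgd : Good 2 (-1) (fF P K) := h.good hcomp (by rw [← hfp]; exact hsepF)
  have hfld : Fld (f := fF P K) (algebraMap L (Sep F) θ) θ := by
    refine ⟨?_, rfl, htop, by rw [← hfp]; exact hirrF⟩
    unfold Rt
    have h1 : aeval (algebraMap L (Sep F) θ) (fF P K) = aeval (algebraMap L (Sep F) θ)
        ((fF P K).map (algebraMap K F)) := (aeval_map_algebraMap _ _ _).symm
    rw [h1, ← hfp, aeval_algebraMap_apply, hroot, map_zero]
  haveI : Module.Finite k'[X] (AdjoinRoot Q) := hQm.finite_adjoinRoot
  haveI : Algebra.IsIntegral k'[X] (AdjoinRoot Q) := Algebra.IsIntegral.of_finite _ _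
  haveI : Module.IsTorsionFree k'[X] (AdjoinRoot Q) := by
    rw [Module.isTorsionFree_iff_algebraMap_injective]
    exact hinjA
  have hffc : (fF Q k'[X]).map (algebraMap k'[X] F) = (fF P K).map (algebraMap K F) := by
    rw [← hQ]; exact ff_comp hcomp P
  refine cont hgd _ θ hfld hffc (fF_monic hQm _) (regular_base hsmQ) fun e => ⟨fun he => ⟨?_, ?_⟩,
    fun he p => ?_⟩
  · have h4 : ∀ p : k[X], e (algebraMap K L (algebraMap k[X] K p)) =
        algebraMap K L (algebraMap k[X] K p) := by
      intro p
      have h5 : algebraMap K L (algebraMap k[X] K p) =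
          algebraMap (AdjoinRoot Q) L (AdjoinRoot.mk Q (pm k' (C p))) := by
        rw [IsScalarTower.algebraMap_apply K F L, hcomp, hFL]
        unfold pm
        rw [map_C]
        rfl
      rw [h5]
      exact he (C p)
    intro x
    obtain ⟨a, b, -, rfl⟩ := IsFractionRing.div_surjective (A := k[X]) x
    rw [map_div₀, map_div₀, h4, h4]
  · have h5 := he X
    unfold pm at h5
    rw [map_X, AdjoinRoot.mk_X] at h5
    exact h5
  · induction p using Polynomial.induction_on' with
    | add p q hp hq =>
      unfold pm at hp hq ⊢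
      rw [Polynomial.map_add, map_add, map_add, map_add, hp, hq]
    | monomial n a =>
      have h5 : algebraMap K L (algebraMap k[X] K a) =
          algebraMap (AdjoinRoot Q) L (AdjoinRoot.of Q (a.map (algebraMap k k'))) := by
        rw [IsScalarTower.algebraMap_apply K F L, hcomp, hFL]
      unfold pm
      rw [← C_mul_X_pow_eq_monomial, Polynomial.map_mul, Polynomial.map_pow, map_X, map_C, map_mul,
        map_pow, AdjoinRoot.mk_C, AdjoinRoot.mk_X, map_mul, map_pow, coe_mapRingHom, ← h5, map_mul,
        map_pow, he.1, he.2]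

end main

end dp

end Pool.Agent.Q45.GM
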