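import Pool.Agent.Q45.GM.Inv
import Pool.Agent.Q45.GM.J.LIN4

/-!
# Chains of stable submodules and endomorphisms, from the invariants modulo `2`
-/

set_option autoImplicit false
set_option linter.all false

open scoped Classical

namespace Pool.Agent.Q45.GM

section abs

variable {X : Type} [AddCommGroup X] {W : AddSubgroup X} {Γ : Set (X →+ X)} {M : Type}
  [AddCommGroup M] [Module ℤ_[2] M] [Module.Finite ℤ_[2] M] [Module.Free ℤ_[2] M]

/-- The order of the group of the values on a saturated submodule. -/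
theorem Inv.card_map {κ : M →+ X} {Φ : Set (M →ₗ[ℤ_[2]] M)} (h : Inv W Γ κ Φ) (hfin : Finite W)
    (h2W : ∀ x ∈ W, 2 • x = 0) (U : Submodule ℤ_[2] M)
    (hsat : ∀ m : M, (2 : ℤ_[2]) • m ∈ U → m ∈ U) :
    Nat.card (U.toAddSubgroup.map κ) = 2 ^ Module.finrank ℤ_[2] U := by
  have hc : ((2 : ℕ) : ℤ_[2]) = 2 := Nat.cast_ofNat
  set κ' : U →+ X := κ.comp U.subtype.toAddMonoidHom with hκ'
  have hr : κ'.range = U.toAddSubgroup.map κ := by
    ext x
    constructor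
    · rintro ⟨u, rfl⟩
      exact ⟨u.1, u.2, rfl⟩
    · rintro ⟨u, hu, rfl⟩
      exact ⟨⟨u, hu⟩, rfl⟩
  have hle : κ'.range ≤ W := by
    rintro e ⟨u, rfl⟩
    exact h.mem u.1
  haveI : Finite κ'.range := Finite.of_injective (fun x : κ'.range => (⟨x.1, hle x.2⟩ : W))
    fun x y hxy => Subtype.ext (congrArg (fun z : W => z.1) hxy)
  haveI : Finite (Multiplicative κ'.range) := this
  have hp : IsPGroup 2 (Multiplicative κ'.range) := fun x => ⟨1, by
    rw [pow_one]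
    have h3 : 2 • (Multiplicative.toAdd x : κ'.range) = 0 :=
      Subtype.ext (h2W _ (hle (Multiplicative.toAdd x).2))
    exact congrArg Multiplicative.ofAdd h3⟩
  obtain ⟨N, hN⟩ := hp.exists_card_eq
  have hN' : Nat.card κ'.range = 2 ^ N := hN
  have h4 := JLIN6.main 2 U X κ' N (fun m => by
    rw [hc]
    have h5 : κ' m = 0 ↔ ∃ m', m.1 = (2 : ℤ_[2]) • m' := h.zero m.1
    rw [h5]
    constructor
    · rintro ⟨m', hm'⟩
      exact ⟨⟨m', hsat m' (by rw [← hm']; exact m.2)⟩, Subtype.ext hm'⟩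
    · rintro ⟨m', hm'⟩
      exact ⟨m'.1, congrArg Subtype.val hm'⟩) hN'
  rw [← hr, hN', h4]

/-- The endomorphisms of `W`, defined as maps from `W` to `X`. -/
def WSc (W : AddSubgroup X) (Γ : Set (X →+ X)) : Prop :=
  ∀ A : W →+ X, (∀ x, A x ∈ W) → (∀ γ ∈ Γ, ∀ x x' : W, x'.1 = γ x.1 → A x' = γ (A x)) →
    (∀ x, A x = 0) ∨ ∀ x, A x = x.1

theorem Inv.scal {κ : M →+ X} {Φ : Set (M →ₗ[ℤ_[2]] M)} (h : Inv W Γ κ Φ)
    (hW : WIr W Γ) (hE : WSc W Γ) (ψ : M →ₗ[ℤ_[2]] M)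
    (hψ : ∀ φ ∈ Φ, ∀ m, ψ (φ m) = φ (ψ m)) : ∃ c : ℤ_[2], ∀ m, ψ m = c • m := by
  refine (JLIN4.main 2 M Φ ?_).1 ψ hψ
  clear ψ hψ
  intro ψ hψ
  have hV1 : κ.range ≤ W := by
    rintro e ⟨u, rfl⟩
    exact h.mem u
  have hV2 : ∀ γ ∈ Γ, ∀ e ∈ κ.range, γ e ∈ κ.range := by
    rintro γ hγ e ⟨u, rfl⟩
    obtain ⟨φ, hφ, hact⟩ := h.act γ hγ
    exact ⟨φ u, hact u⟩
  rcases hW κ.range hV1 hV2 with h1 | h1
  · refine ⟨0, fun m => ?_⟩
    rw [zero_smul, sub_zero, ← h.cast]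
    have h3 : κ (ψ m) ∈ κ.range := ⟨ψ m, rfl⟩
    rw [h1] at h3
    exact h3
  · have hsurj : ∀ e : W, ∃ m, κ m = e.1 := by
      intro e
      have h3 : e.1 ∈ κ.range := by rw [h1]; exact e.2
      exact h3
    have hcong : ∀ m m', κ m = κ m' → κ (ψ m) = κ (ψ m') := by
      intro m m' hmm
      have h3 : κ (m - m') = 0 := by rw [map_sub, hmm, sub_self]
      obtain ⟨m'', hm''⟩ := (h.zero _).1 h3
      have h4 : ψ m - ψ m' = (2 : ℤ_[2]) • ψ m'' := by rw [← map_sub, hm'', map_smul]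
      have h5 : κ (ψ m - ψ m') = 0 := (h.zero _).2 ⟨_, h4⟩
      rw [map_sub] at h5
      exact sub_eq_zero.1 h5
    choose s hs using hsurj
    let A : W →+ X := AddMonoidHom.mk' (fun e => κ (ψ (s e))) (by
      intro e e'
      rw [← map_add, ← map_add]
      apply hcong
      rw [map_add, hs, hs, hs]
      rfl)
    have hA : ∀ m : M, A ⟨κ m, h.mem m⟩ = κ (ψ m) := fun m => hcong _ _ (hs _)
    rcases hE A (fun x => h.mem _) (by
      intro γ hγ e e' hee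
      obtain ⟨φ, hφ, hact⟩ := h.act γ hγ
      have h3 : κ (φ (s e)) = e'.1 := by rw [hact, hs, hee]
      have h4 : e' = ⟨κ (φ (s e)), h.mem _⟩ := Subtype.ext h3.symm
      rw [h4, hA]
      show _ = γ (κ (ψ (s e)))
      rw [← hact]
      obtain ⟨m', hm'⟩ := hψ φ hφ (s e)
      have h5 : κ (ψ (φ (s e)) - φ (ψ (s e))) = 0 := (h.cast _).2 ⟨m', hm'⟩
      rw [map_sub, sub_eq_zero] at h5
      rw [h5]) with h3 | h3
    · refine ⟨0, fun m => ?_⟩
      rw [zero_smul, sub_zero, ← h.cast, ← hA, h3]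
    · refine ⟨1, fun m => ?_⟩
      rw [one_smul, ← h.cast, map_sub, ← hA, h3]
      exact sub_self _

end abs

end Pool.Agent.Q45.GM
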