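import Pool.Agent.Q45.GM.Dpc
import Pool.Agent.Q45.GM.Inv2

/-!
# The stable submodules and the endomorphisms of the module of the classes
-/

set_option autoImplicit false
set_option linter.all false

open Polynomial IsDedekindDomain
open scoped Classical

namespace Pool.Agent.Q45.GM

open Pool.Agent.Q45.TW (IsGeom)
open Pool.Agent.Q45.GP (Regular)
open Pool.Agent.Y160.SQ
open Pool.Agent.TH115.GD (incl rs ak Sep Comp)

section ops

variable {K L : Type} [Field K] [Field L] [Algebra K L]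

/-- The automorphism `e` of `L` fixes `K` and `θ`. -/
def Fixes (K : Type) {L : Type} [Field K] [Field L] [Algebra K L] (θ : L) (e : L ≃+* L) : Prop :=
  (∀ x : K, e (algebraMap K L x) = algebraMap K L x) ∧ e θ = θ

/-- The subgroup of `Lˣ` defined by a subgroup of the group of values. -/
def subL (V : AddSubgroup (XL L)) : Subgroup Lˣ where
  carrier := {z | clX z ∈ V}
  mul_mem' := fun {a b} ha hb => V.add_mem ha hb
  one_mem' := V.zero_mem
  inv_mem' := fun {a} ha => V.neg_mem ha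

theorem mem_subL {V : AddSubgroup (XL L)} {z : Lˣ} : z ∈ subL V ↔ clX z ∈ V := Iff.rfl

theorem relIndex_subL (V : AddSubgroup (XL L)) : (sqS L).relIndex (subL V) = Nat.card V := by
  have h1 := Subgroup.relIndex_ker (QuotientGroup.mk' (sqS L)) (K := subL V)
  rw [QuotientGroup.ker_mk'] at h1
  rw [h1]
  refine Nat.card_congr (Equiv.setCongr ?_)
  ext x
  constructor
  · rintro ⟨z, hz, rfl⟩
    exact hz
  · intro hx
    obtain ⟨z, rfl⟩ := QuotientGroup.mk_surjective x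
    exact ⟨z, hx, rfl⟩

variable {S : Type} [CommRing S] [Algebra S L] [IsFractionRing S L] [IsDedekindDomain S]

theorem finite_wX (h : (sqS L).relIndex (evS S L) ≠ 0) : Finite (wX S L) := by
  rw [← card_wX] at h
  exact Nat.finite_of_card_ne_zero h

/-- The endomorphisms of the group of the values. -/
theorem wSc_of (θ : L) (h : ∀ A : evS S L →* (Lˣ ⧸ sqS L),
    (∀ z, ∃ w ∈ evS S L, A z = QuotientGroup.mk w) →
    (∀ z : evS S L, z.1 ∈ sqS L → A z = 1) →
    (∀ e : L ≃+* L, Fixes K θ e → ∀ (z z' : evS S L) (w : Lˣ), z'.1 = Units.map (e : L →* L) z.1 →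
      A z = QuotientGroup.mk w → A z' = QuotientGroup.mk (Units.map (e : L →* L) w)) →
    (∀ z, A z = 1) ∨ ∀ z, A z = QuotientGroup.mk z.1) :
    WSc (wX S L) (opsX K θ) := by
  intro A' hA1 hA2
  let A : evS S L →* (Lˣ ⧸ sqS L) :=
    { toFun := fun z => Additive.toMul (A' ⟨clX z.1, clX_mem.2 z.2⟩ : Additive (Lˣ ⧸ sqS L))
      map_one' := by
        have h1 : (⟨clX (1 : Lˣ), clX_mem.2 (one_mem (evS S L))⟩ : wX S L) = 0 := Subtype.ext rfl
        have h2 := congrArg A' h1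
        rw [map_zero] at h2
        exact h2
      map_mul' := fun z z' => by
        have h1 : (⟨clX (z.1 * z'.1), clX_mem.2 (mul_mem z.2 z'.2)⟩ : wX S L) =
            ⟨clX z.1, clX_mem.2 z.2⟩ + ⟨clX z'.1, clX_mem.2 z'.2⟩ := Subtype.ext rfl
        have h2 := congrArg A' h1
        rw [map_add] at h2
        exact h2 }
  have hA : ∀ z : evS S L, (A z : Lˣ ⧸ sqS L) = (A' ⟨clX z.1, clX_mem.2 z.2⟩ : XL L) := fun z => rfl
  rcases h A (fun z => by
      obtain ⟨w, hw, hw2⟩ := hA1 ⟨clX z.1, clX_mem.2 z.2⟩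
      exact ⟨w, hw, hw2.symm⟩)
    (fun z hz => by
      have h1 : (⟨clX z.1, clX_mem.2 z.2⟩ : wX S L) = 0 := Subtype.ext (clX_zero.2 hz)
      have h2 := congrArg A' h1
      rw [map_zero] at h2
      exact h2)
    (fun e he z z' w hzz hw => by
      have h1 := hA2 _ ⟨e, he.1, he.2, rfl⟩ ⟨clX z.1, clX_mem.2 z.2⟩ ⟨clX z'.1, clX_mem.2 z'.2⟩
        (by show clX z'.1 = opX e (clX z.1); rw [hzz]; rfl)
      have h2 : (A' ⟨clX z.1, clX_mem.2 z.2⟩ : XL L) = clX w := hw
      rw [h2] at h1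
      exact h1) with h3 | h3
  · left
    rintro ⟨x, hx⟩
    obtain ⟨z, hz, rfl⟩ := hx
    exact h3 ⟨z, hz⟩
  · right
    rintro ⟨x, hx⟩
    obtain ⟨z, hz, rfl⟩ := hx
    exact h3 ⟨z, hz⟩

end ops

section core

variable {k k' K F L S : Type} [Field k] [Field k'] [Algebra k k'] [IsSepClosed k']
  [Algebra.IsSeparable k k'] [Field K] [Algebra k[X] K] [Field F] [Algebra k'[X] F] [Algebra K F]
  (B : Type) [CommRing B] [IsDedekindDomain B] [Algebra k'[X] B] [Algebra B F]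
  [IsScalarTower k'[X] B F] [IsFractionRing B F] [IsIntegralClosure B k'[X] F]
  [Field L] [Algebra F L] [Algebra K L] [IsScalarTower K F L] [Algebra L (Sep F)]
  [IsScalarTower F L (Sep F)] [CommRing S] [IsDedekindDomain S] [Algebra S L] [IsFractionRing S L]
  [Algebra B S] [Algebra.IsIntegral B S] [Algebra B L] [IsScalarTower B F L]
  [IsScalarTower B S L] [Module.IsTorsionFree B S] {f : K[X]} (hgd : Good 2 (-1) f) {a : Sep F}
  {θ : L}

include hgd in
/-- The subgroups of `Lˣ` defined by the stable submodules. -/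
theorem core_chain (hF : IsGeom k k' K F) {fB : B[X]}
    (hfB : fB.map (algebraMap B F) = f.map (algebraMap K F)) (hfm : fB.Monic)
    (hreg : Regular F fB) (h : Fld (f := f) a θ) (hfin : (sqS L).relIndex (evS S L) ≠ 0) :
    ∃ (_ : Module.Finite ℤ_[2] (SelT (F := F) 2 B f 2))
      (_ : Module.Free ℤ_[2] (SelT (F := F) 2 B f 2))
      (Ψ : Submodule ℤ_[2] (SelT (F := F) 2 B f 2) → Subgroup Lˣ),
      (∀ U U', U ≤ U' → Ψ U ≤ Ψ U') ∧
      ∀ U : Submodule ℤ_[2] (SelT (F := F) 2 B f 2), (∀ T, ∀ m ∈ U, rho B hF f T m ∈ U) →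
        sqS L ≤ Ψ U ∧ Ψ U ≤ evS S L ∧
        (∀ e : L ≃+* L, Fixes K θ e → ∀ z ∈ Ψ U, Units.map (e : L →* L) z ∈ Ψ U) ∧
        ((∀ m : SelT (F := F) 2 B f 2, (2 : ℤ_[2]) • m ∈ U → m ∈ U) →
          2 ^ Module.finrank ℤ_[2] U = (sqS L).relIndex (Ψ U)) := by
  have hmem : ∀ m : SelT (F := F) 2 B f 2, kM hgd h m ∈ wX S L := fun m => by
    obtain ⟨z, hz, h1⟩ := kM_mem (R := S) hgd hfB hfm hreg h m
    exact ⟨z, hz, h1.symm⟩
  have hW := finite_wX hfin
  obtain ⟨h2, h3⟩ := fin_free hgd h hW hmem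
  have hI := inv_kM (S := S) B hgd hF hfB hfm hreg h
  refine ⟨h2, h3, fun U => subL (U.toAddSubgroup.map (kM hgd h)), ?_, ?_⟩
  · intro U U' hUU z hz
    obtain ⟨u, hu, hz⟩ := hz
    exact ⟨u, hUU hu, hz⟩
  · intro U hU
    refine ⟨?_, ?_, ?_, ?_⟩
    · intro z hz
      rw [mem_subL, clX_zero.2 hz]
      exact zero_mem _
    · rintro z ⟨u, hu, hz⟩
      rw [← clX_mem (S := S), ← hz]
      exact hmem u
    · rintro e he z ⟨u, hu, hz⟩
      obtain ⟨φ, ⟨T, rfl⟩, hφ⟩ := hI.act (opX e) ⟨e, he.1, he.2, rfl⟩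
      refine ⟨rho B hF f T u, hU T u hu, ?_⟩
      show kM hgd h (rho B hF f T u) = _
      rw [hφ]
      have hz' : kM hgd h u = clX z := hz
      rw [hz']
      rfl
    · intro hsat
      rw [relIndex_subL]
      exact (hI.card_map hW (fun x _ => two_clX x) U hsat).symm

include hgd in
/-- The endomorphisms of the module of the classes. -/
theorem core_scal (hF : IsGeom k k' K F) {fB : B[X]}
    (hfB : fB.map (algebraMap B F) = f.map (algebraMap K F)) (hfm : fB.Monic)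
    (hreg : Regular F fB) (h : Fld (f := f) a θ)
    (hirr : ∀ U : Subgroup Lˣ, sqS L ≤ U → U ≤ evS S L →
      (∀ e : L ≃+* L, (∀ x : K, e (algebraMap K L x) = algebraMap K L x) → e θ = θ →
        ∀ z ∈ U, Units.map (e : L →* L) z ∈ U) → U = sqS L ∨ U = evS S L)
    (hsc : ∀ A : evS S L →* (Lˣ ⧸ sqS L),
      (∀ z, ∃ w ∈ evS S L, A z = QuotientGroup.mk w) →
      (∀ z : evS S L, z.1 ∈ sqS L → A z = 1) →
      (∀ e : L ≃+* L, Fixes K θ e → ∀ (z z' : evS S L) (w : Lˣ),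
        z'.1 = Units.map (e : L →* L) z.1 →
        A z = QuotientGroup.mk w → A z' = QuotientGroup.mk (Units.map (e : L →* L) w)) →
      (∀ z, A z = 1) ∨ ∀ z, A z = QuotientGroup.mk z.1)
    (ψ : SelT (F := F) 2 B f 2 →ₗ[ℤ_[2]] SelT (F := F) 2 B f 2)
    (hψ : ∀ T m, ψ (rho B hF f T m) = rho B hF f T (ψ m)) : ∃ c : ℤ_[2], ∀ m, ψ m = c • m := by
  obtain ⟨h2, h3, -, -⟩ := core_dp (S := S) B hgd hF hfB hfm hreg h hirr
  refine (inv_kM (S := S) B hgd hF hfB hfm hreg h).scal (wIr_of θ hirr) (wSc_of θ hsc) ψ ?_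
  rintro _ ⟨T, rfl⟩ m
  exact hψ T m

end core

end Pool.Agent.Q45.GM
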