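import Pool.Agent.Q45.GM.Rep

/-!
# Fields of definition of the classes with a finite orbit
-/

set_option autoImplicit false
set_option linter.all false

open Polynomial IsDedekindDomain WithZero
open scoped Classical TensorProduct

namespace Pool.Agent.Q45.GM

open Pool.Agent.Q45.TW (IsGeom ff)
open Pool.Agent.Y160.SQ
open Pool.Agent.TH115.GD (incl rs ak Sep Comp)

section sel

variable {k k' K F : Type} [Field k] [Field k'] [Algebra k k'] [IsSepClosed k']
  [Algebra.IsSeparable k k'] [Field K] [Algebra k[X] K] [Field F] [Algebra k'[X] F] [Algebra K F]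
  (B : Type) [CommRing B] [IsDedekindDomain B] [Algebra k'[X] B]
  [Algebra B F] [IsScalarTower k'[X] B F] [IsFractionRing B F] [IsIntegralClosure B k'[X] F]
  {b g : k[X]} {s : K}

theorem mem_RT' (hsep : (b.comp (-g)).Separable) {r : k'} :
    r ∈ RT (b.map (algebraMap k k')) (g.map (algebraMap k k')) ↔ aeval r (b.comp (-g)) = 0 := by
  have hs' : ((b.map (algebraMap k k')).comp (-(g.map (algebraMap k k')))).Separable := by
    rw [← Polynomial.map_neg, ← map_comp]; exact hsep.map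
  rw [mem_RT hs']
  have h5 : (g.map (algebraMap k k')).eval r = aeval r g := eval_map_algebraMap _ _
  rw [h5, eval_map_algebraMap, aeval_comp, map_neg]

/-- The automorphisms which fix the roots act trivially modulo two. -/
theorem rho_sub (hF : IsGeom k k' K F) {f : K[X]} (hsep : (b.comp (-g)).Separable)
    (hS : Stp (b.map (algebraMap k k')) (g.map (algebraMap k k')) (algebraMap K F s) f)
    {a : Sep F} (ha : Rt f a) (T : Sep F ≃ₐ[K] Sep F)
    (hfix : ∀ r : k', aeval r (b.comp (-g)) = 0 → T (cs k' F r) = cs k' F r)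
    (m : SelT (F := F) 2 B f 2) : ∃ m', rho B hF f T m - m = (2 : ℤ_[2]) • m' := by
  obtain ⟨τ, hτ⟩ := exists_tau hF T
  rw [← kapM_zero_iff hS ha, map_sub]
  funext r
  rw [Pi.sub_apply, Pi.zero_apply, sub_eq_zero]
  by_cases hr : r ∈ RT (b.map (algebraMap k k')) (g.map (algebraMap k k'))
  · have h1 := rho_kap B hF hS ha T τ hτ m r
    have h2 : τ r = r := by
      apply (cs k' F).injective
      rw [← hτ, hfix r ((mem_RT' hsep).1 hr)]
    rw [h2] at h1
    exact h1
  · rw [kapM_supp hS ha _ hr, kapM_supp hS ha _ hr]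

theorem rho_pow (hF : IsGeom k k' K F) (f : K[X]) (T : Sep F ≃ₐ[K] Sep F) (j : ℕ)
    (m : SelT (F := F) 2 B f 2) : rho B hF f (T ^ (j + 1)) m = (rho B hF f T ^ (j + 1)) m := by
  induction j with
  | zero => rw [zero_add, pow_one, pow_one]
  | succ j ih =>
    have h1 : (rho B hF f T ^ (j + 1 + 1)) m = rho B hF f T ((rho B hF f T ^ (j + 1)) m) := by
      rw [pow_succ' (rho B hF f T) (j + 1)]
      rfl
    rw [pow_succ' T, rho_mul, ih, h1]

theorem rho_one (hF : IsGeom k k' K F) (f : K[X]) (m : SelT (F := F) 2 B f 2) :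
    rho B hF f 1 m = m := by
  obtain ⟨c, ⟨hc, hcs⟩, rfl⟩ := clsOf_surj B f m
  have h1 := rho_cls B hF f 1 hc hcs (d := c) (fun n σ σ' h => by
    have h3 : σ' = σ := AlgEquiv.ext fun x => h x
    have h4 : ak (1 : Sep F ≃ₐ[K] Sep F) = AlgHom.id K (Sep F) := AlgHom.ext fun x => rfl
    rw [h3, h4, jm_id])
  exact h1.2.symm

theorem rho_inj (hF : IsGeom k k' K F) (f : K[X]) (T : Sep F ≃ₐ[K] Sep F) :
    Function.Injective (rho B hF f T) := by
  intro x y hxy
  have h1 : rho B hF f T⁻¹ (rho B hF f T x) = rho B hF f T⁻¹ (rho B hF f T y) := by rw [hxy]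
  rwa [← rho_mul, ← rho_mul, inv_mul_cancel, rho_one, rho_one] at h1

/-- Automorphisms which fix the roots, and vectors with a finite orbit. -/
theorem rho_sq (hF : IsGeom k k' K F) {f : K[X]} (hsep : (b.comp (-g)).Separable)
    (hS : Stp (b.map (algebraMap k k')) (g.map (algebraMap k k')) (algebraMap K F s) f)
    {a : Sep F} (ha : Rt f a) [Module.Finite ℤ_[2] (SelT (F := F) 2 B f 2)]
    [Module.Free ℤ_[2] (SelT (F := F) 2 B f 2)] (T : Sep F ≃ₐ[K] Sep F)
    (hfix : ∀ r : k', aeval r (b.comp (-g)) = 0 → T (cs k' F r) = cs k' F r)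
    (m : SelT (F := F) 2 B f 2) (j : ℕ) (hj : 0 < j) (hm : (rho B hF f T ^ j) m = m) :
    rho B hF f T (rho B hF f T m) = m := by
  have h := JLIN7.main (SelT (F := F) 2 B f 2) (rho B hF f T) (rho_sub B hF hsep hS ha T hfix) m j hj hm
  have h1 : (rho B hF f T ^ 2) m = rho B hF f T (rho B hF f T m) := by
    rw [pow_two (rho B hF f T)]
    rfl
  rw [← h1]
  exact h

omit [Algebra.IsSeparable k k'] in
/-- An automorphism of `k'` has a power which fixes a given finite extension. -/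
theorem exists_pow_fix [Normal k k'] (E : IntermediateField k k') [FiniteDimensional k E]
    (τ : k' ≃ₐ[k] k') : ∃ j : ℕ, ∀ x ∈ E, (τ ^ (j + 1)) x = x := by
  let E' : IntermediateField k k' := IntermediateField.normalClosure k E k'
  haveI : Normal k E' := inferInstance
  haveI : FiniteDimensional k E' := inferInstance
  have hle : E ≤ E' := IntermediateField.le_normalClosure E
  let σ : E' ≃ₐ[k] E' := AlgEquiv.restrictNormalHom E' τ
  haveI : Finite (E' ≃ₐ[k] E') := inferInstance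
  obtain ⟨j, hj, hσ⟩ := (isOfFinOrder_iff_pow_eq_one (x := σ)).1 (isOfFinOrder_of_finite σ)
  refine ⟨j - 1, fun x hx => ?_⟩
  rw [Nat.sub_add_cancel hj]
  have h1 : AlgEquiv.restrictNormalHom E' (τ ^ j) = 1 := by rw [map_pow]; exact hσ
  have h2 := AlgEquiv.restrictNormal_commutes (τ ^ j) E' ⟨x, hle hx⟩
  have h3 : AlgEquiv.restrictNormal (τ ^ j) E' = 1 := h1
  rw [h3] at h2
  exact h2.symm

/-- A vector which is fixed by the automorphisms which fix a finite extension has a finite orbit. -/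
theorem pow_fix (hF : IsGeom k k' K F) (f : K[X]) (E : IntermediateField k k')
    [FiniteDimensional k E] (m : SelT (F := F) 2 B f 2)
    (hm : ∀ T : Sep F ≃ₐ[K] Sep F, (∀ x ∈ E, T (cs k' F x) = cs k' F x) → rho B hF f T m = m)
    (T : Sep F ≃ₐ[K] Sep F) : ∃ j : ℕ, 0 < j ∧ (rho B hF f T ^ j) m = m := by
  obtain ⟨τ, hτ⟩ := exists_tau hF T
  have hcl : IsSepClosure k k' := ⟨inferInstance, inferInstance⟩
  haveI : IsGalois k k' := hcl.isGalois
  obtain ⟨j, hj⟩ := exists_pow_fix E τ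
  refine ⟨j + 1, Nat.succ_pos j, ?_⟩
  rw [← rho_pow]
  apply hm
  intro x hx
  have h1 : ∀ (i : ℕ) (x : k'), (T ^ i) (cs k' F x) = cs k' F ((τ ^ i) x) := by
    intro i
    induction i with
    | zero => intro x; rfl
    | succ i ih =>
      intro x
      rw [pow_succ', AlgEquiv.mul_apply, ih, hτ, pow_succ', AlgEquiv.mul_apply]
  rw [h1, hj x hx]

/-- The conjugate of a vector with a finite orbit. -/
theorem conj_fix (hF : IsGeom k k' K F) (f : K[X]) (m : SelT (F := F) 2 B f 2)
    (S T : Sep F ≃ₐ[K] Sep F) (hfin : ∀ T : Sep F ≃ₐ[K] Sep F, ∃ j : ℕ, 0 < j ∧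
      (rho B hF f T ^ j) m = m) : ∃ j : ℕ, 0 < j ∧ (rho B hF f T ^ j) (rho B hF f S m) =
        rho B hF f S m := by
  obtain ⟨j, hj, hm⟩ := hfin (S⁻¹ * T * S)
  refine ⟨j, hj, ?_⟩
  obtain ⟨i, rfl⟩ := Nat.exists_eq_add_of_lt hj
  rw [zero_add] at hm ⊢
  rw [← rho_pow] at hm ⊢
  rw [← rho_mul]
  have h1 : T ^ (i + 1) * S = S * (S⁻¹ * T * S) ^ (i + 1) := by
    rw [show S⁻¹ * T * S = S⁻¹ * T * S⁻¹⁻¹ by rw [inv_inv], conj_pow]
    group
  rw [h1, rho_mul, hm]

/-- **The classes which are defined over a finite extension.** -/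
theorem finite_orbit (hF : IsGeom k k' K F) {f : K[X]} (hsep : (b.comp (-g)).Separable)
    (hS : Stp (b.map (algebraMap k k')) (g.map (algebraMap k k')) (algebraMap K F s) f)
    {a : Sep F} (ha : Rt f a) [Module.Finite ℤ_[2] (SelT (F := F) 2 B f 2)]
    [Module.Free ℤ_[2] (SelT (F := F) 2 B f 2)] (E : IntermediateField k k')
    [FiniteDimensional k E] (m : SelT (F := F) 2 B f 2)
    (hm : ∀ T : Sep F ≃ₐ[K] Sep F, (∀ x ∈ E, T (cs k' F x) = cs k' F x) → rho B hF f T m = m)
    (S T : Sep F ≃ₐ[K] Sep F)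
    (hfS : ∀ r : k', aeval r (b.comp (-g)) = 0 → S (cs k' F r) = cs k' F r)
    (hfT : ∀ r : k', aeval r (b.comp (-g)) = 0 → T (cs k' F r) = cs k' F r) :
    rho B hF f T (rho B hF f T m) = m ∧
      rho B hF f S (rho B hF f T m) = rho B hF f T (rho B hF f S m) := by
  have hfin := pow_fix B hF f E m hm
  have hsq : ∀ T : Sep F ≃ₐ[K] Sep F,
      (∀ r : k', aeval r (b.comp (-g)) = 0 → T (cs k' F r) = cs k' F r) →
      rho B hF f T (rho B hF f T m) = m := by
    intro T hT
    obtain ⟨j, hj, h⟩ := hfin T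
    exact rho_sq B hF hsep hS ha T hT m j hj h
  refine ⟨hsq T hfT, ?_⟩
  have hST := hsq (S * T) (fun r hr => by rw [AlgEquiv.mul_apply, hfT r hr, hfS r hr])
  rw [rho_mul, rho_mul] at hST
  -- `S T S T m = m`
  have hS2 : rho B hF f S (rho B hF f S m) = m := hsq S hfS
  obtain ⟨j, hj, h⟩ := conj_fix B hF f m S T hfin
  have hT2 : rho B hF f T (rho B hF f T (rho B hF f S m)) = rho B hF f S m :=
    rho_sq B hF hsep hS ha T hfT _ j hj h
  -- `T S T m = S m`
  have h3 : rho B hF f T (rho B hF f S (rho B hF f T m)) = rho B hF f S m := by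
    apply rho_inj B hF f S
    rw [hST, hS2]
  apply rho_inj B hF f T
  rw [h3, hT2]

end sel

end Pool.Agent.Q45.GM
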