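import Pool.Agent.Q45.GM.Dpd
import Pool.Agent.Q45.GM.Fod

/-!
# The action depends only on the restriction to the constants
-/

set_option autoImplicit false
set_option linter.all false

open Polynomial IsDedekindDomain WithZero
open scoped Classical TensorProduct

namespace Pool.Agent.Q45.GM

open Pool.Agent.Q45.TW (IsGeom)
open Pool.Agent.Y160.SQ
open Pool.Agent.TH115.GD (incl rs ak Sep Comp)

section gal

variable {k k' K F : Type} [Field k] [Field k'] [Algebra k k'] [IsSepClosed k']
  [Algebra.IsSeparable k k'] [Field K] [Algebra k[X] K] [Field F] [Algebra k'[X] F] [Algebra K F]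
  (B : Type) [CommRing B] [IsDedekindDomain B] [Algebra k'[X] B]
  [Algebra B F] [IsScalarTower k'[X] B F] [IsFractionRing B F] [IsIntegralClosure B k'[X] F]
  (hF : IsGeom k k' K F) (f : K[X])

/-- The automorphisms over `F` act trivially. -/
theorem rho_gal (s : Sep F ≃ₐ[F] Sep F) (m : SelT (F := F) 2 B f 2) :
    rho B hF f (s.restrictScalars K) m = m := by
  obtain ⟨c, ⟨hc, hcs⟩, rfl⟩ := clsOf_surj B f m
  set T : Sep F ≃ₐ[K] Sep F := s.restrictScalars K with hT
  have hrs : ak T = rs K s := AlgHom.ext fun x => rfl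
  have hconj : ∀ σ σ' : Sep F ≃ₐ[F] Sep F, (∀ x, T (σ' x) = σ (T x)) → s * σ' = σ * s := by
    intro σ σ' h
    exact AlgEquiv.ext fun x => h x
  set d : ℕ → (Sep F ≃ₐ[F] Sep F) → Jac 2 f (Sep F) :=
    fun n σ => c n σ + jm 2 f (rs K σ) (c n s) - c n s with hd
  have hdt : ∀ n (σ σ' : Sep F ≃ₐ[F] Sep F), (∀ x, T (σ' x) = σ (T x)) →
      d n σ = jm 2 f (ak T) (c n σ') := by
    intro n σ σ' h
    have h1 := (hc.coc n).mul s σ'
    have h2 := (hc.coc n).mul σ s
    rw [hconj σ σ' h, h2] at h1
    rw [hrs, hd]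
    show c n σ + jm 2 f (rs K σ) (c n s) - c n s = _
    rw [h1]
    abel
  obtain ⟨⟨h1, h2⟩, h3⟩ := rho_cls B hF f T hc hcs hdt
  rw [← h3, clsOf_eq B f h1 h2, clsOf_eq B f hc hcs]
  have h4 : cls (sel_isLocal 2 B f) (toZ B f d h1 h2 - toZ B f c hc hcs) = 0 := by
    rw [cls_eq_zero]
    refine ⟨(toZ B f c hc hcs).1 s, fun σ n => ?_⟩
    show d n σ - c n σ = jm 2 f (rs K σ) (c n s) - c n s
    rw [hd]
    show c n σ + jm 2 f (rs K σ) (c n s) - c n s - c n σ = _
    abel
  rw [map_sub, sub_eq_zero] at h4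
  exact h4

/-- The action depends only on the constants. -/
theorem rho_congr (T T' : Sep F ≃ₐ[K] Sep F) (h : ∀ x : k', T (cs k' F x) = T' (cs k' F x))
    (m : SelT (F := F) 2 B f 2) : rho B hF f T m = rho B hF f T' m := by
  set U : Sep F ≃ₐ[K] Sep F := T'⁻¹ * T with hU
  have h1 : ∀ x : F, U (algebraMap F (Sep F) x) = algebraMap F (Sep F) x := by
    intro x
    let j : F →ₐ[K] Sep F := IsScalarTower.toAlgHom K F (Sep F)
    have h2 : IntermediateField.adjoin K (Set.range ((algebraMap k'[X] F).comp C)) ≤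
        IntermediateField.comap j (IntermediateField.fixedField (Subgroup.zpowers U)) := by
      rw [IntermediateField.adjoin_le_iff]
      rintro - ⟨c, rfl⟩
      have h3 : ∀ n : ℤ, (U ^ n) (cs k' F c) = cs k' F c := by
        have h4 : U (cs k' F c) = cs k' F c := by
          rw [hU, AlgEquiv.mul_apply, h]
          exact T'.symm_apply_apply _
        intro n
        have h5 : U ∈ MulAction.stabilizer (Sep F ≃ₐ[K] Sep F) (cs k' F c) := h4
        exact zpow_mem h5 n
      show (cs k' F c) ∈ IntermediateField.fixedField (Subgroup.zpowers U)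
      rw [IntermediateField.mem_fixedField_iff]
      rintro _ ⟨n, rfl⟩
      exact h3 n
    rw [hF.gen] at h2
    have h3 : algebraMap F (Sep F) x ∈ IntermediateField.fixedField (Subgroup.zpowers U) :=
      h2 (IntermediateField.mem_top (x := x))
    rw [IntermediateField.mem_fixedField_iff] at h3
    exact h3 U (Subgroup.mem_zpowers U)
  let s : Sep F ≃ₐ[F] Sep F := { (U : Sep F ≃+* Sep F) with commutes' := h1 }
  have h2 : T = T' * s.restrictScalars K := by
    have h3 : s.restrictScalars K = U := AlgEquiv.ext fun x => rfl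
    rw [h3, hU]
    group
  rw [h2, rho_mul, rho_gal]

end gal

end Pool.Agent.Q45.GM
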