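import Mathlib

/-!
# Statements of the lemma jobs of the project GM, fourth part (only statements)
-/

set_option autoImplicit false
set_option linter.all false

open Polynomial

namespace Pool.Agent.Q45.GM

/-- LIN8. `M` is a free `ℤ_p`-module of finite rank with an endomorphism `φ`, `V` a finite dimensional
vector space over `𝔽_p` with an endomorphism `E`, and `κ : M → V` an additive map with kernel `p M` and
`κ (φ m) = E (κ m)`. Then the characteristic polynomial of `φ` modulo `p` divides that of `E`. -/
def Lin8 : Prop :=
  ∀ (p : ℕ) [Fact p.Prime] (M : Type) [AddCommGroup M] [Module ℤ_[p] M] [Module.Free ℤ_[p] M]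
    [Module.Finite ℤ_[p] M] (φ : M →ₗ[ℤ_[p]] M) (V : Type) [AddCommGroup V] [Module (ZMod p) V]
    [Module.Finite (ZMod p) V] (E : V →ₗ[ZMod p] V) (κ : M →+ V),
    (∀ m, κ m = 0 ↔ ∃ m', m = (p : ℤ_[p]) • m') → (∀ m, κ (φ m) = E (κ m)) →
    φ.charpoly.map PadicInt.toZMod ∣ E.charpoly

/-- LIN9. The same for a chain of two stable submodules: the characteristic polynomial of an
endomorphism of a finite dimensional vector space is divisible by that of its restriction to a stable
subspace. -/
def Lin9 : Prop :=
  ∀ (K V : Type) [Field K] [AddCommGroup V] [Module K V] [Module.Finite K V] (E : V →ₗ[K] V)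
    (U : Submodule K V) (h : ∀ u ∈ U, E u ∈ U), (E.restrict h).charpoly ∣ E.charpoly

end Pool.Agent.Q45.GM
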