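import Pool.Agent.Q45.GM.Dpf
import Pool.Agent.Q45.GM.StmM
import Pool.Agent.Q45.GM.J.LIN2

/-!
# The congruence of the characteristic polynomials
-/

set_option autoImplicit false
set_option linter.all false

open Polynomial IsDedekindDomain WithZero
open scoped Classical TensorProduct

namespace Pool.Agent.Q45.GM

open Pool.Agent.Q45.TW (IsGeom)
open Pool.Agent.Q45.GP (Regular)
open Pool.Agent.Y160.SQ
open Pool.Agent.TH115.GD (incl rs ak Sep Comp)

section model

variable {H : Type} [CommGroup H]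

/-- The vector space `V` over `𝔽_2` contains the quotient `Ev / Sq`, and `E` induces the action of `e`. -/
structure IsMod2 (Sq Ev : Subgroup H) (e : H →* H) {V : Type} [AddCommGroup V] [Module (ZMod 2) V]
    (cl : H → V) (E : V →ₗ[ZMod 2] V) : Prop where
  add : ∀ z ∈ Ev, ∀ w ∈ Ev, cl (z * w) = cl z + cl w
  zero : ∀ z ∈ Ev, cl z = 0 ↔ z ∈ Sq
  act : ∀ z ∈ Ev, cl (e z) = E (cl z)

end model

section kap

variable {L S : Type} [Field L] [CommRing S] [IsDedekindDomain S] [Algebra S L]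
  [IsFractionRing S L] {V : Type} [AddCommGroup V] [Module (ZMod 2) V] {cl : Lˣ → V}
  {E : V →ₗ[ZMod 2] V} {e : L ≃+* L}

theorem IsMod2.congr (h : IsMod2 (sqS L) (evS S L) (Units.map (e : L →* L)) cl E) {z w : Lˣ}
    (hz : z ∈ evS S L) (hzw : clX z = clX w) : cl z = cl w := by
  obtain ⟨y, hy⟩ := clX_eq hzw.symm
  have h1 : y ^ 2 ∈ sqS L := ⟨y, rfl⟩
  rw [hy, h.add _ hz _ (sq_le h1), (h.zero _ (sq_le h1)).2 h1, add_zero]

theorem IsMod2.finite [Module.Finite (ZMod 2) V]
    (h : IsMod2 (sqS L) (evS S L) (Units.map (e : L →* L)) cl E) : Finite (wX S L) := by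
  haveI : Finite V := Module.finite_of_finite (ZMod 2)
  choose r hr1 hr2 using fun x : wX S L => x.2
  refine Finite.of_injective (fun x => cl (r x)) fun x y hxy => ?_
  have hxy' : cl (r x) = cl (r y) := hxy
  have h1 : cl (r x * (r y)⁻¹) = 0 := by
    have h2 : cl (r x) = cl (r x * (r y)⁻¹) + cl (r y) := by
      rw [← h.add _ (mul_mem (hr1 x) (inv_mem (hr1 y))) _ (hr1 y), inv_mul_cancel_right]
    rw [hxy'] at h2
    have h3 : (0 : V) + cl (r y) = cl (r x * (r y)⁻¹) + cl (r y) := by rw [zero_add]; exact h2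
    exact (add_right_cancel h3).symm
  rw [h.zero _ (mul_mem (hr1 x) (inv_mem (hr1 y))), ← clX_zero] at h1
  apply Subtype.ext
  rw [← hr2 x, ← hr2 y]
  have h4 : clX (r x * (r y)⁻¹) + clX (r y) = clX (r x) := by
    rw [← clX_mul, inv_mul_cancel_right]
  rw [h1, zero_add] at h4
  exact h4.symm

/-- The additive map to `V`. -/
theorem IsMod2.exists_kap (h : IsMod2 (sqS L) (evS S L) (Units.map (e : L →* L)) cl E) {M : Type}
    [AddCommGroup M] (κ : M →+ XL L) (hκ : ∀ m, ∃ z ∈ evS S L, κ m = clX z) :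
    ∃ κ' : M →+ V, (∀ m, κ' m = 0 ↔ κ m = 0) ∧ ∀ m m', κ m' = opX e (κ m) → κ' m' = E (κ' m) := by
  choose r hr1 hr2 using hκ
  refine ⟨AddMonoidHom.mk' (fun m => cl (r m)) (fun m m' => ?_), fun m => ?_, fun m m' hm => ?_⟩
  · rw [← h.add _ (hr1 m) _ (hr1 m')]
    refine h.congr (hr1 _) ?_
    rw [← hr2, clX_mul, ← hr2, ← hr2, map_add]
  · show cl (r m) = 0 ↔ _
    rw [h.zero _ (hr1 m), hr2, clX_zero]
  · show cl (r m') = E (cl (r m))
    rw [← h.act _ (hr1 m)]
    refine h.congr (hr1 _) ?_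
    rw [← hr2, hm, hr2]
    rfl

end kap

section core

variable {k k' K F L S : Type} [Field k] [Field k'] [Algebra k k'] [IsSepClosed k']
  [Algebra.IsSeparable k k'] [Field K] [Algebra k[X] K] [Field F] [Algebra k'[X] F] [Algebra K F]
  (B : Type) [CommRing B] [IsDedekindDomain B] [Algebra k'[X] B] [Algebra B F]
  [IsScalarTower k'[X] B F] [IsFractionRing B F] [IsIntegralClosure B k'[X] F]
  [Field L] [Algebra F L] [Algebra K L] [IsScalarTower K F L] [Algebra L (Sep F)]
  [IsScalarTower F L (Sep F)] [CommRing S] [IsDedekindDomain S] [Algebra S L] [IsFractionRing S L]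
  [Algebra B S] [Algebra.IsIntegral B S] [Algebra B L] [IsScalarTower B F L]
  [IsScalarTower B S L] [Module.IsTorsionFree B S] {f : K[X]} (hgd : Good 2 (-1) f) {a : Sep F}
  {θ : L}

include hgd in
/-- The invariant and an automorphism `T` which has the same effect as `e` on the constants. -/
theorem kM_rho (hF : IsGeom k k' K F) (h : Fld (f := f) a θ) (e : L ≃+* L) (he : Fixes K θ e)
    (T : Sep F ≃ₐ[K] Sep F)
    (hT : ∀ x : k', T (cs k' F x) = algebraMap L (Sep F) (e (algebraMap F L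
      (algebraMap k'[X] F (C x))))) (m : SelT (F := F) 2 B f 2) :
    kM hgd h (rho B hF f T m) = opX e (kM hgd h m) := by
  obtain ⟨T', hT'⟩ := lift_e (F := F) e he.1
  have h1 : rho B hF f T m = rho B hF f T' m := by
    refine rho_congr B hF f T T' (fun x => ?_) m
    rw [hT, ← hT', cs_apply, IsScalarTower.algebraMap_apply F L (Sep F)]
  rw [h1]
  refine kM_tw hgd h (lf B hF f T') (lf_tw B hF f T') e ?_ he.2 m
  intro x
  rw [lf_T]
  exact hT' x

include hgd in
/-- **The congruence.** -/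
theorem core_cong (hL8 : Lin8) (hF : IsGeom k k' K F) {fB : B[X]}
    (hfB : fB.map (algebraMap B F) = f.map (algebraMap K F)) (hfm : fB.Monic)
    (hreg : Regular F fB) (h : Fld (f := f) a θ) (e : L ≃+* L) (he : Fixes K θ e)
    {V : Type} [AddCommGroup V] [Module (ZMod 2) V] [Module.Finite (ZMod 2) V] {cl : Lˣ → V}
    {E : V →ₗ[ZMod 2] V} (hV : IsMod2 (sqS L) (evS S L) (Units.map (e : L →* L)) cl E)
    (T : Sep F ≃ₐ[K] Sep F)
    (hT : ∀ x : k', T (cs k' F x) = algebraMap L (Sep F) (e (algebraMap F L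
      (algebraMap k'[X] F (C x))))) :
    ∃ (_ : Module.Finite ℤ_[2] (SelT (F := F) 2 B f 2))
      (_ : Module.Free ℤ_[2] (SelT (F := F) 2 B f 2)),
      (rho B hF f T).charpoly.map PadicInt.toZMod ∣ E.charpoly := by
  have hmem : ∀ m : SelT (F := F) 2 B f 2, ∃ z ∈ evS S L, kM hgd h m = clX z := fun m =>
    kM_mem (R := S) hgd hfB hfm hreg h m
  obtain ⟨h2, h3⟩ := fin_free hgd h hV.finite (fun m => by
    obtain ⟨z, hz, h1⟩ := hmem m
    exact ⟨z, hz, h1.symm⟩)
  refine ⟨h2, h3, ?_⟩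
  obtain ⟨κ', hk1, hk2⟩ := hV.exists_kap (kM (B := B) hgd h) hmem
  refine hL8 2 _ (rho B hF f T) V E κ' (fun m => ?_) fun m => hk2 m _ (kM_rho B hgd hF h e he T hT m)
  have h2' : ((2 : ℕ) : ℤ_[2]) = 2 := Nat.cast_ofNat
  rw [hk1, kM_zero_iff, h2']

end core

end Pool.Agent.Q45.GM
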