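import Pool.Agent.Q45.GM.Dpg

/-!
# Fields of definition of the classes with a finite orbit: double planes
-/

set_option autoImplicit false
set_option linter.all false

open Polynomial IsDedekindDomain WithZero
open scoped Classical TensorProduct

namespace Pool.Agent.Q45.GM

open Pool.Agent.Q45.TW (IsGeom)
open Pool.Agent.Q45.GP (Regular)
open Pool.Agent.Y160.SQ
open Pool.Agent.TH115.GD (incl rs ak Sep Comp)

section sel

variable {k k' K F : Type} [Field k] [Field k'] [Algebra k k'] [IsSepClosed k']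
  [Algebra.IsSeparable k k'] [Field K] [Algebra k[X] K] [Field F] [Algebra k'[X] F] [Algebra K F]
  (B : Type) [CommRing B] [IsDedekindDomain B] [Algebra k'[X] B]
  [Algebra B F] [IsScalarTower k'[X] B F] [IsFractionRing B F] [IsIntegralClosure B k'[X] F]

theorem rho_sq' (hF : IsGeom k k' K F) {f : K[X]} [Module.Finite ℤ_[2] (SelT (F := F) 2 B f 2)]
    [Module.Free ℤ_[2] (SelT (F := F) 2 B f 2)] (T : Sep F ≃ₐ[K] Sep F)
    (hsub : ∀ m : SelT (F := F) 2 B f 2, ∃ m', rho B hF f T m - m = (2 : ℤ_[2]) • m')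
    (m : SelT (F := F) 2 B f 2) (j : ℕ) (hj : 0 < j) (hm : (rho B hF f T ^ j) m = m) :
    rho B hF f T (rho B hF f T m) = m := by
  have h := JLIN7.main (SelT (F := F) 2 B f 2) (rho B hF f T) hsub m j hj hm
  have h1 : (rho B hF f T ^ 2) m = rho B hF f T (rho B hF f T m) := by
    rw [pow_two (rho B hF f T)]
    rfl
  rw [← h1]
  exact h

/-- **The classes which are defined over a finite extension.** -/
theorem finite_orbit' (hF : IsGeom k k' K F) {f : K[X]}
    [Module.Finite ℤ_[2] (SelT (F := F) 2 B f 2)]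
    [Module.Free ℤ_[2] (SelT (F := F) 2 B f 2)] (N : Set (Sep F ≃ₐ[K] Sep F))
    (hN : ∀ S ∈ N, ∀ T ∈ N, S * T ∈ N)
    (hsub : ∀ T ∈ N, ∀ m : SelT (F := F) 2 B f 2, ∃ m', rho B hF f T m - m = (2 : ℤ_[2]) • m')
    (E : IntermediateField k k') [FiniteDimensional k E] (m : SelT (F := F) 2 B f 2)
    (hm : ∀ T : Sep F ≃ₐ[K] Sep F, (∀ x ∈ E, T (cs k' F x) = cs k' F x) → rho B hF f T m = m)
    (S T : Sep F ≃ₐ[K] Sep F) (hS : S ∈ N) (hT : T ∈ N) :
    rho B hF f T (rho B hF f T m) = m ∧
      rho B hF f S (rho B hF f T m) = rho B hF f T (rho B hF f S m) := by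
  have hfin := pow_fix B hF f E m hm
  have hsq : ∀ T ∈ N, rho B hF f T (rho B hF f T m) = m := by
    intro T hT
    obtain ⟨j, hj, h⟩ := hfin T
    exact rho_sq' B hF T (hsub T hT) m j hj h
  refine ⟨hsq T hT, ?_⟩
  have hST := hsq (S * T) (hN S hS T hT)
  rw [rho_mul, rho_mul] at hST
  have hS2 : rho B hF f S (rho B hF f S m) = m := hsq S hS
  obtain ⟨j, hj, h⟩ := conj_fix B hF f m S T hfin
  have hT2 : rho B hF f T (rho B hF f T (rho B hF f S m)) = rho B hF f S m :=
    rho_sq' B hF T (hsub T hT) _ j hj h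
  have h3 : rho B hF f T (rho B hF f S (rho B hF f T m)) = rho B hF f S m := by
    apply rho_inj B hF f S
    rw [hST, hS2]
  apply rho_inj B hF f T
  rw [h3, hT2]

end sel

section core

variable {k k' K F L S : Type} [Field k] [Field k'] [Algebra k k'] [IsSepClosed k']
  [Algebra.IsSeparable k k'] [Field K] [Algebra k[X] K] [Field F] [Algebra k'[X] F] [Algebra K F]
  (B : Type) [CommRing B] [IsDedekindDomain B] [Algebra k'[X] B] [Algebra B F]
  [IsScalarTower k'[X] B F] [IsFractionRing B F] [IsIntegralClosure B k'[X] F]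
  [Field L] [Algebra F L] [Algebra K L] [IsScalarTower K F L] [Algebra L (Sep F)]
  [IsScalarTower F L (Sep F)] [CommRing S] [IsDedekindDomain S] [Algebra S L] [IsFractionRing S L]
  [Algebra B S] [Algebra.IsIntegral B S] [Algebra B L] [IsScalarTower B F L]
  [IsScalarTower B S L] [Module.IsTorsionFree B S] {f : K[X]} (hgd : Good 2 (-1) f) {a : Sep F}
  {θ : L}

include hgd in
/-- The automorphisms which act trivially on the group of the values act trivially modulo two. -/
theorem core_sub (hF : IsGeom k k' K F) {fB : B[X]}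
    (hfB : fB.map (algebraMap B F) = f.map (algebraMap K F)) (hfm : fB.Monic)
    (hreg : Regular F fB) (h : Fld (f := f) a θ) (e : L ≃+* L) (he : Fixes K θ e)
    (htriv : ∀ z ∈ evS S L, Units.map (e : L →* L) z / z ∈ sqS L) (T : Sep F ≃ₐ[K] Sep F)
    (hT : ∀ x : k', T (cs k' F x) = algebraMap L (Sep F) (e (algebraMap F L
      (algebraMap k'[X] F (C x))))) (m : SelT (F := F) 2 B f 2) :
    ∃ m', rho B hF f T m - m = (2 : ℤ_[2]) • m' := by
  rw [← kM_zero_iff hgd h, map_sub, kM_rho B hgd hF h e he T hT]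
  obtain ⟨z, hz, h1⟩ := kM_mem (R := S) hgd hfB hfm hreg h m
  rw [h1, opX_cl, sub_eq_zero]
  have h2 := htriv z hz
  have h3 : clX (Units.map (e : L →* L) z) = clX (Units.map (e : L →* L) z / z) + clX z := by
    rw [← clX_mul, div_mul_cancel]
  rw [h3, clX_zero.2 h2, zero_add]

include hgd in
/-- Finiteness. -/
theorem core_fin (hF : IsGeom k k' K F) {fB : B[X]}
    (hfB : fB.map (algebraMap B F) = f.map (algebraMap K F)) (hfm : fB.Monic)
    (hreg : Regular F fB) (h : Fld (f := f) a θ) (hfin : (sqS L).relIndex (evS S L) ≠ 0) :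
    Module.Finite ℤ_[2] (SelT (F := F) 2 B f 2) ∧ Module.Free ℤ_[2] (SelT (F := F) 2 B f 2) :=
  fin_free hgd h (finite_wX hfin) (fun m => by
    obtain ⟨z, hz, h1⟩ := kM_mem (R := S) hgd hfB hfm hreg h m
    exact ⟨z, hz, h1.symm⟩)

end core

end Pool.Agent.Q45.GM
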