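import Pool.Agent.Q45.GM.TM

/-!
# The module of classes of continuous cocycles with values in the Tate module, with local conditions
-/

set_option autoImplicit false
set_option linter.all false

open scoped Classical

namespace Pool.Agent.Q45.GM

section h1

variable {p : ℕ} {G X : Type} [Group G] [TopologicalSpace G] [AddCommGroup X]

/-- An action of a topological group on a discrete group. -/
structure IsAct (ρ : G → (X →+ X)) : Prop where
  one : ∀ x, ρ 1 x = x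
  mul : ∀ σ τ x, ρ (σ * τ) x = ρ σ (ρ τ x)
  lc : ∀ x, IsLocallyConstant fun σ => ρ σ x

/-- `c` is a continuous 1-cocycle. -/
structure IsCc (ρ : G → (X →+ X)) (c : G → X) : Prop where
  lc : IsLocallyConstant c
  mul : ∀ σ τ, c (σ * τ) = c σ + ρ σ (c τ)

/-- A local condition on cocycles. -/
structure IsLocal (ρ : G → (X →+ X)) (P : (G → X) → Prop) : Prop where
  add : ∀ c d, IsCc ρ c → IsCc ρ d → P c → P d → P (c + d)
  cob : ∀ x, P fun σ => ρ σ x - x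

/-- `c` is a cocycle with values in the Tate module of `X`, and its components satisfy `P`. -/
structure IsTm (p : ℕ) (ρ : G → (X →+ X)) (P : (G → X) → Prop) (c : G → TM p X) : Prop where
  coc : ∀ n, IsCc ρ fun σ => (c σ).1 n
  loc : ∀ n, P fun σ => (c σ).1 n

variable {ρ : G → (X →+ X)} {P : (G → X) → Prop}

theorem IsCc.add {c d : G → X} (hc : IsCc ρ c) (hd : IsCc ρ d) : IsCc ρ (c + d) := by
  refine ⟨hc.lc.add hd.lc, fun σ τ => ?_⟩
  rw [Pi.add_apply, Pi.add_apply, Pi.add_apply, hc.mul, hd.mul, map_add]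
  abel

theorem IsCc.nsmul {c : G → X} (hc : IsCc ρ c) (m : ℕ) : IsCc ρ (m • c) := by
  refine ⟨hc.lc.comp fun x => m • x, fun σ τ => ?_⟩
  rw [Pi.smul_apply, Pi.smul_apply, Pi.smul_apply, hc.mul, smul_add, map_nsmul]

theorem cob_isCc (hρ : IsAct ρ) (x : X) : IsCc ρ fun σ => ρ σ x - x := by
  refine ⟨(hρ.lc x).sub (IsLocallyConstant.const x), fun σ τ => ?_⟩
  rw [hρ.mul, map_sub]
  abel

theorem zero_isCc : IsCc ρ (0 : G → X) :=
  ⟨IsLocallyConstant.const 0, fun σ τ => by simp only [Pi.zero_apply, map_zero, add_zero]⟩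

theorem IsLocal.zero (hP : IsLocal ρ P) : P (0 : G → X) := by
  have h := hP.cob 0
  have h1 : (fun σ => ρ σ (0 : X) - 0) = (0 : G → X) := by
    funext σ
    rw [map_zero, sub_zero]
    rfl
  rwa [h1] at h

theorem IsLocal.nsmul (hP : IsLocal ρ P) {c : G → X} (hc : IsCc ρ c) (h : P c) (m : ℕ) :
    P (m • c) := by
  induction m with
  | zero => rw [zero_smul]; exact hP.zero
  | succ m ih => rw [succ_nsmul]; exact hP.add _ _ (hc.nsmul m) hc ih h

variable [Fact p.Prime]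

/-- The module of cocycles. -/
noncomputable def Z1 (p : ℕ) [Fact p.Prime] (ρ : G → (X →+ X)) (P : (G → X) → Prop)
    (hP : IsLocal ρ P) : Submodule ℤ_[p] (G → TM p X) where
  carrier := {c | IsTm p ρ P c}
  add_mem' := by
    rintro c d ⟨h1, h2⟩ ⟨h3, h4⟩
    exact ⟨fun n => (h1 n).add (h3 n), fun n => hP.add _ _ (h1 n) (h3 n) (h2 n) (h4 n)⟩
  zero_mem' := ⟨fun n => zero_isCc, fun n => hP.zero⟩
  smul_mem' := by
    rintro a c ⟨h1, h2⟩
    exact ⟨fun n => (h1 n).nsmul (res a n), fun n => hP.nsmul (h1 n) (h2 n) (res a n)⟩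

/-- The coboundary of an element of the Tate module. -/
noncomputable def cobL (p : ℕ) [Fact p.Prime] (ρ : G → (X →+ X)) :
    TM p X →ₗ[ℤ_[p]] (G → TM p X) where
  toFun R := fun σ => tmMap (ρ σ) R - R
  map_add' R S := by
    funext σ
    show tmMap (ρ σ) (R + S) - (R + S) = (tmMap (ρ σ) R - R) + (tmMap (ρ σ) S - S)
    rw [map_add]
    abel
  map_smul' a R := by
    funext σ
    show tmMap (ρ σ) (a • R) - a • R = a • (tmMap (ρ σ) R - R)
    rw [map_smul, smul_sub]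

theorem cobL_apply (R : TM p X) (σ : G) (n : ℕ) : (cobL p ρ R σ).1 n = ρ σ (R.1 n) - R.1 n := rfl

theorem cobL_mem (hρ : IsAct ρ) (hP : IsLocal ρ P) (R : TM p X) : cobL p ρ R ∈ Z1 p ρ P hP :=
  ⟨fun n => cob_isCc hρ _, fun n => hP.cob _⟩

/-- The classes of the cocycles. -/
abbrev H1 (p : ℕ) [Fact p.Prime] (ρ : G → (X →+ X)) (P : (G → X) → Prop) (hP : IsLocal ρ P) : Type :=
  ↥(Z1 p ρ P hP) ⧸ ((LinearMap.range (cobL p ρ)).comap (Z1 p ρ P hP).subtype)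

/-- The class of a cocycle. -/
noncomputable def cls (hP : IsLocal ρ P) : ↥(Z1 p ρ P hP) →ₗ[ℤ_[p]] H1 p ρ P hP :=
  Submodule.mkQ _

theorem cls_surj (hP : IsLocal ρ P) : Function.Surjective (cls (p := p) hP) :=
  Submodule.mkQ_surjective _

theorem cls_eq_zero (hP : IsLocal ρ P) (c : ↥(Z1 p ρ P hP)) :
    cls hP c = 0 ↔ ∃ R : TM p X, ∀ σ n, (c.1 σ).1 n = ρ σ (R.1 n) - R.1 n := by
  rw [cls, Submodule.mkQ_apply, Submodule.Quotient.mk_eq_zero, Submodule.mem_comap]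
  constructor
  · rintro ⟨R, hR⟩
    refine ⟨R, fun σ n => ?_⟩
    rw [← cobL_apply, hR]
    rfl
  · rintro ⟨R, hR⟩
    refine ⟨R, ?_⟩
    funext σ
    apply Subtype.ext
    funext n
    rw [cobL_apply, ← hR]
    rfl

theorem exists_tm (hdiv : ∀ x : X, ∃ y, p • y = x) {Q : X} (hQ : p • Q = 0) :
    ∃ R : TM p X, R.1 1 = Q := by
  choose d hd using hdiv
  let R : ℕ → X := fun n => Nat.casesOn n 0 fun m => d^[m] Q
  refine ⟨⟨R, rfl, ?_⟩, rfl⟩
  intro n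
  cases n with
  | zero => exact hQ
  | succ m =>
    show p • d^[m + 1] Q = d^[m] Q
    rw [Function.iterate_succ_apply', hd]

theorem tors_zero (h0 : ∀ x : X, p • x = 0 → (∀ σ, ρ σ x = x) → x = 0) (n : ℕ) :
    ∀ x : X, p ^ n • x = 0 → (∀ σ, ρ σ x = x) → x = 0 := by
  induction n with
  | zero => intro x hx _; rwa [pow_zero, one_smul] at hx
  | succ n ih =>
    intro x hx hfix
    apply h0 x ?_ hfix
    apply ih
    · rw [← mul_smul, ← pow_succ, hx]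
    · intro σ
      rw [map_nsmul, hfix]

/-- If the first component of a cocycle is the coboundary of an element of order `p`, then its class
is a multiple of `p`. -/
theorem cls_mem (hρ : IsAct ρ) (hP : IsLocal ρ P) (hdiv : ∀ x : X, ∃ y, p • y = x)
    (c : ↥(Z1 p ρ P hP)) {Q : X} (hQ : p • Q = 0) (h : ∀ σ, (c.1 σ).1 1 = ρ σ Q - Q) :
    ∃ m, cls hP c = (p : ℤ_[p]) • m := by
  obtain ⟨R, hR⟩ := exists_tm hdiv hQ
  let d : ↥(Z1 p ρ P hP) := c - ⟨cobL p ρ R, cobL_mem hρ hP R⟩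
  have hd1 : ∀ σ, (d.1 σ).1 1 = 0 := by
    intro σ
    show (c.1 σ).1 1 - (ρ σ (R.1 1) - R.1 1) = 0
    rw [hR, h, sub_self]
  let e : ↥(Z1 p ρ P hP) := ⟨fun σ => tmShift (d.1 σ) (hd1 σ),
    ⟨fun n => d.2.coc (n + 1), fun n => d.2.loc (n + 1)⟩⟩
  have he : (p : ℤ_[p]) • e = d := by
    apply Subtype.ext
    funext σ
    exact smul_tmShift (d.1 σ) (hd1 σ)
  refine ⟨cls hP e, ?_⟩
  have h1 : c = d + ⟨cobL p ρ R, cobL_mem hρ hP R⟩ := by
    show c = c - _ + _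
    rw [sub_add_cancel]
  rw [h1, map_add, ← he, map_smul]
  have h2 : cls hP (⟨cobL p ρ R, cobL_mem hρ hP R⟩ : ↥(Z1 p ρ P hP)) = 0 :=
    (cls_eq_zero hP _).2 ⟨R, fun σ n => rfl⟩
  rw [h2, add_zero]

/-- If the class of a cocycle is a multiple of `p`, its first component is the coboundary of an element
of order `p`. -/
theorem of_cls_mem (hP : IsLocal ρ P) (c : ↥(Z1 p ρ P hP)) {m : H1 p ρ P hP}
    (h : cls hP c = (p : ℤ_[p]) • m) : ∃ Q : X, p • Q = 0 ∧ ∀ σ, (c.1 σ).1 1 = ρ σ Q - Q := by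
  obtain ⟨d, rfl⟩ := cls_surj hP m
  rw [← map_smul, ← sub_eq_zero, ← map_sub, cls_eq_zero] at h
  obtain ⟨R, hR⟩ := h
  refine ⟨R.1 1, ?_, fun σ => ?_⟩
  · have := tmS R 0
    rwa [tm0 R] at this
  · rw [← hR]
    have h1 := pow_smul_apply 1 (d.1 σ) 1
    rw [pow_one, pow_one, tmS (d.1 σ) 0, tm0] at h1
    have h2 : ((c - (p : ℤ_[p]) • d).1 σ).1 1 = (c.1 σ).1 1 - ((p : ℤ_[p]) • d.1 σ).1 1 := rfl
    rw [h2, h1, sub_zero]

theorem H1.torsion (hρ : IsAct ρ) (hP : IsLocal ρ P)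
    (h0 : ∀ x : X, p • x = 0 → (∀ σ, ρ σ x = x) → x = 0) (m : H1 p ρ P hP)
    (hm : (p : ℤ_[p]) • m = 0) : m = 0 := by
  obtain ⟨c, rfl⟩ := cls_surj hP m
  rw [← map_smul, cls_eq_zero] at hm
  obtain ⟨R, hR⟩ := hm
  have h1 : R.1 1 = 0 := by
    apply h0
    · have := tmS R 0
      rwa [tm0 R] at this
    · intro σ
      have h2 := hR σ 1
      have h3 := pow_smul_apply 1 (c.1 σ) 1
      rw [pow_one, pow_one, tmS (c.1 σ) 0, tm0] at h3
      have h4 : (((p : ℤ_[p]) • c).1 σ).1 1 = ((p : ℤ_[p]) • c.1 σ).1 1 := rfl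
      rw [h4, h3] at h2
      exact (sub_eq_zero.1 h2.symm)
  rw [cls_eq_zero]
  refine ⟨tmShift R h1, fun σ n => ?_⟩
  rw [tmShift_apply, ← hR]
  have h3 := pow_smul_apply 1 (c.1 σ) (n + 1)
  rw [pow_one, pow_one, tmS (c.1 σ) n] at h3
  exact h3.symm

theorem H1.sep (hρ : IsAct ρ) (hP : IsLocal ρ P)
    (h0 : ∀ x : X, p • x = 0 → (∀ σ, ρ σ x = x) → x = 0) (m : H1 p ρ P hP)
    (hm : ∀ n : ℕ, ∃ m', m = (p : ℤ_[p]) ^ n • m') : m = 0 := by
  obtain ⟨c, rfl⟩ := cls_surj hP m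
  have h1 : ∀ n : ℕ, ∃ S : X, p ^ n • S = 0 ∧ ∀ σ, (c.1 σ).1 n = ρ σ S - S := by
    intro n
    obtain ⟨m', hm'⟩ := hm n
    obtain ⟨d, rfl⟩ := cls_surj hP m'
    rw [← map_smul, ← sub_eq_zero, ← map_sub, cls_eq_zero] at hm'
    obtain ⟨R, hR⟩ := hm'
    refine ⟨R.1 n, tmT R n, fun σ => ?_⟩
    rw [← hR]
    have h2 := pow_smul_apply n (d.1 σ) n
    rw [tmT] at h2
    have h3 : ((c - (p : ℤ_[p]) ^ n • d).1 σ).1 n = (c.1 σ).1 n - ((p : ℤ_[p]) ^ n • d.1 σ).1 n := rfl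
    rw [h3, h2, sub_zero]
  choose S hS1 hS2 using h1
  have h2 : ∀ n (x : X), p ^ n • x = 0 → (∀ σ, (c.1 σ).1 n = ρ σ x - x) → x = S n := by
    intro n x hx1 hx2
    rw [← sub_eq_zero]
    refine tors_zero h0 n _ ?_ fun σ => ?_
    · rw [smul_sub, hx1, hS1, sub_zero]
    · have h3 := hx2 σ
      rw [hS2 n σ] at h3
      rw [map_sub]
      have h4 : ρ σ x = x + (ρ σ (S n) - S n) := by rw [h3]; abel
      rw [h4]
      abel
  have hTM : S 0 = 0 ∧ ∀ n, p • S (n + 1) = S n := by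
    refine ⟨?_, fun n => ?_⟩
    · have := hS1 0
      rwa [pow_zero, one_smul] at this
    · apply h2
      · rw [← mul_smul, ← pow_succ, hS1]
      · intro σ
        rw [map_nsmul, ← smul_sub, ← hS2, tmS]
  rw [cls_eq_zero]
  exact ⟨⟨S, hTM⟩, fun σ n => hS2 n σ⟩

end h1

section twist

variable {p : ℕ} {G X : Type} [Group G] [TopologicalSpace G] [AddCommGroup X]
  {ρ : G → (X →+ X)} {P : (G → X) → Prop} [Fact p.Prime]

/-- A semilinear automorphism. -/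
structure IsTw (ρ : G → (X →+ X)) (P : (G → X) → Prop) (α : G → G) (θ : X →+ X) : Prop where
  mul : ∀ σ τ, α (σ * τ) = α σ * α τ
  cont : Continuous α
  comm : ∀ σ x, θ (ρ (α σ) x) = ρ σ (θ x)
  loc : ∀ c, IsCc ρ c → P c → P fun σ => θ (c (α σ))

theorem IsTw.coc {α : G → G} {θ : X →+ X} (h : IsTw ρ P α θ) {c : G → X} (hc : IsCc ρ c) :
    IsCc ρ fun σ => θ (c (α σ)) := by
  refine ⟨(hc.lc.comp_continuous h.cont).comp θ, fun σ τ => ?_⟩
  rw [h.mul, hc.mul, map_add, h.comm]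

/-- The action on cocycles. -/
noncomputable def twZ (hP : IsLocal ρ P) {α : G → G} {θ : X →+ X} (h : IsTw ρ P α θ) :
    ↥(Z1 p ρ P hP) →ₗ[ℤ_[p]] ↥(Z1 p ρ P hP) where
  toFun c := ⟨fun σ => tmMap θ (c.1 (α σ)), ⟨fun n => h.coc (c.2.coc n),
    fun n => h.loc _ (c.2.coc n) (c.2.loc n)⟩⟩
  map_add' c d := by
    apply Subtype.ext
    funext σ
    exact map_add (tmMap θ) _ _
  map_smul' a c := by
    apply Subtype.ext
    funext σ
    exact map_smul (tmMap θ) a _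

theorem twZ_apply (hP : IsLocal ρ P) {α : G → G} {θ : X →+ X} (h : IsTw ρ P α θ)
    (c : ↥(Z1 p ρ P hP)) (σ : G) (n : ℕ) : ((twZ hP h c).1 σ).1 n = θ ((c.1 (α σ)).1 n) := rfl

/-- The action on classes. -/
noncomputable def tw (hP : IsLocal ρ P) {α : G → G} {θ : X →+ X} (h : IsTw ρ P α θ) :
    H1 p ρ P hP →ₗ[ℤ_[p]] H1 p ρ P hP :=
  Submodule.mapQ _ _ (twZ hP h) (by
    rintro c ⟨R, hR⟩
    refine ⟨tmMap θ R, ?_⟩
    funext σ
    apply Subtype.ext
    funext n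
    rw [cobL_apply]
    show _ = θ ((c.1 (α σ)).1 n)
    have h1 : (c.1 (α σ)).1 n = (cobL p ρ R (α σ)).1 n := by rw [hR]; rfl
    rw [h1, cobL_apply, map_sub, h.comm]
    rfl)

theorem tw_cls (hP : IsLocal ρ P) {α : G → G} {θ : X →+ X} (h : IsTw ρ P α θ)
    (c : ↥(Z1 p ρ P hP)) : tw hP h (cls hP c) = cls hP (twZ hP h c) := rfl

end twist

end Pool.Agent.Q45.GM
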