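import Pool.Agent.Q45.GM.StmJ
import Pool.Agent.Q45.TT.Base
import Pool.Agent.Q45.TT.Triv

/-!
# Elements with even valuations in the function field of a hyperelliptic curve
-/

set_option autoImplicit false
set_option linter.all false

open Polynomial IsDedekindDomain WithZero
open scoped Classical

namespace Pool.Agent.Q45.GM

open Pool.Agent.Q45.TT (IsQuad FS even_down even_rat ram_one)
open Pool.Agent.Y160.SE (IsPw)

theorem isPw_one (ℓ : ℕ) : IsPw ℓ 1 := ⟨1, (one_pow ℓ).symm⟩

/-- The parity of the values. -/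
theorem isPw_or {γ : WithZero (Multiplicative ℤ)} (h0 : γ ≠ 0) :
    IsPw 2 γ ∨ IsPw 2 (γ / exp (-1 : ℤ)) := by
  have h1 : exp (log γ) = γ := exp_log h0
  rcases Int.even_or_odd (log γ) with ⟨m, hm⟩ | ⟨m, hm⟩
  · left
    refine ⟨exp m, ?_⟩
    rw [← h1, hm, ← exp_nsmul]
    congr 1
    ring
  · right
    refine ⟨exp (m + 1), ?_⟩
    rw [← h1, hm, ← exp_sub, ← exp_nsmul]
    congr 1
    ring

theorem isPw_div {γ δ : WithZero (Multiplicative ℤ)} (h : IsPw 2 γ) (h' : IsPw 2 δ) :
    IsPw 2 (γ / δ) := by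
  obtain ⟨a, rfl⟩ := h
  obtain ⟨b, rfl⟩ := h'
  exact ⟨a / b, (div_pow _ _ _).symm⟩

section lin

variable {k' : Type} [Field k']

/-- The place `X = r`. -/
noncomputable def plc (r : k') : HeightOneSpectrum k'[X] where
  asIdeal := Ideal.span {X - C r}
  isPrime := (Ideal.span_singleton_prime (X_sub_C_ne_zero r)).2 (prime_X_sub_C r)
  ne_bot := by rw [Ne, Ideal.span_singleton_eq_bot]; exact X_sub_C_ne_zero r

theorem mem_plc {r : k'} {P : k'[X]} : P ∈ (plc r).asIdeal ↔ P.eval r = 0 := by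
  show P ∈ Ideal.span {X - C r} ↔ _
  rw [Ideal.mem_span_singleton, dvd_iff_isRoot]
  rfl

theorem eq_plc {v : HeightOneSpectrum k'[X]} {r : k'} (h : X - C r ∈ v.asIdeal) : v = plc r := by
  apply HeightOneSpectrum.ext
  have h1 : (plc r).asIdeal ≤ v.asIdeal := (Ideal.span_singleton_le_iff_mem _).2 h
  exact ((plc r).isMaximal.eq_of_le v.isPrime.ne_top h1).symm

variable {L : Type} [Field L] [Algebra k'[X] L] [IsFractionRing k'[X] L]

theorem val_plc (r : k') : (plc r).valuation L (algebraMap k'[X] L (X - C r)) = exp (-1 : ℤ) := by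
  rw [(plc r).valuation_of_algebraMap, (plc r).intValuation_singleton (X_sub_C_ne_zero r) rfl]

theorem val_one {v : HeightOneSpectrum k'[X]} {P : k'[X]} (h : P ∉ v.asIdeal) :
    v.valuation L (algebraMap k'[X] L P) = 1 := by
  rw [v.valuation_of_algebraMap, v.intValuation_eq_one_iff]
  exact h

/-- Elements whose valuations are even outside the roots of `h`. -/
theorem rat_of_even [IsSepClosed k'] (h2 : (2 : k') ≠ 0) (T : Finset k') {w : L} (hw : w ≠ 0)
    (hev : ∀ v : HeightOneSpectrum k'[X], (∀ r ∈ T, X - C r ∉ v.asIdeal) → IsPw 2 (v.valuation L w)) :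
    ∃ (S : Finset k') (s : L), S ⊆ T ∧ s ≠ 0 ∧ w = s ^ 2 * algebraMap k'[X] L (∏ r ∈ S, (X - C r)) := by
  set S : Finset k' := T.filter fun r => ¬ IsPw 2 ((plc r).valuation L w) with hS
  set P : k'[X] := ∏ r ∈ S, (X - C r) with hP
  have hP0 : algebraMap k'[X] L P ≠ 0 := by
    intro h0
    have h1 : P = 0 := IsFractionRing.injective k'[X] L (by rw [h0, map_zero])
    exact Finset.prod_ne_zero_iff.2 (fun r _ => X_sub_C_ne_zero r) h1
  have hPv : ∀ v : HeightOneSpectrum k'[X], (∀ r ∈ S, X - C r ∉ v.asIdeal) →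
      v.valuation L (algebraMap k'[X] L P) = 1 := by
    intro v hv
    apply val_one
    intro h0
    obtain ⟨r, hr, hr2⟩ := (v.isPrime.prod_mem_iff).1 h0
    exact hv r hr hr2
  have key : ∀ v : HeightOneSpectrum k'[X], IsPw 2 (v.valuation L (w / algebraMap k'[X] L P)) := by
    intro v
    rw [map_div₀]
    by_cases hv : ∃ r ∈ S, X - C r ∈ v.asIdeal
    · obtain ⟨r, hr, hrv⟩ := hv
      have hvr := eq_plc hrv
      subst hvr
      have h1 : P = (X - C r) * ∏ r' ∈ S.erase r, (X - C r') := (Finset.mul_prod_erase S _ hr).symm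
      have h3 : (plc r).valuation L (algebraMap k'[X] L (∏ r' ∈ S.erase r, (X - C r'))) = 1 := by
        apply val_one
        rw [mem_plc, eval_prod, Finset.prod_eq_zero_iff]
        rintro ⟨r', hr', h0⟩
        rw [eval_sub, eval_X, eval_C, sub_eq_zero] at h0
        exact (Finset.mem_erase.1 hr').1 h0.symm
      rw [h1, map_mul, map_mul, val_plc, h3, mul_one]
      rcases isPw_or (γ := (plc r).valuation L w) ((Valuation.ne_zero_iff _).2 hw) with h4 | h4
      · exact absurd h4 (Finset.mem_filter.1 hr).2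
      · exact h4
    · push Not at hv
      rw [hPv v hv, div_one]
      by_cases hT : ∀ r ∈ T, X - C r ∉ v.asIdeal
      · exact hev v hT
      · push Not at hT
        obtain ⟨r, hr, hrv⟩ := hT
        have hvr := eq_plc hrv
        subst hvr
        by_contra hcon
        exact hv r (Finset.mem_filter.2 ⟨hr, hcon⟩) hrv
  obtain ⟨c, s, hc, hs, he⟩ := even_rat (k := k') (R := k'[X]) (L := L) (RingEquiv.refl _)
    (z := w / algebraMap k'[X] L P) (div_ne_zero hw hP0) key
  obtain ⟨c', hc'⟩ := IsSepClosed.exists_pow_nat_eq c 2 (hn := ⟨by exact_mod_cast h2⟩)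
  have hc0 : c' ≠ 0 := by
    rintro rfl
    rw [zero_pow two_ne_zero] at hc'
    exact hc hc'.symm
  refine ⟨S, algebraMap k'[X] L (C c') * s, Finset.filter_subset _ _, mul_ne_zero ?_ hs, ?_⟩
  · intro h0
    have h1 : (C c' : k'[X]) = 0 := IsFractionRing.injective k'[X] L (by rw [h0, map_zero])
    exact hc0 (C_eq_zero.1 h1)
  · rw [div_eq_iff hP0] at he
    rw [he, mul_pow, ← map_pow, ← C_pow, hc']
    rfl

end lin

end Pool.Agent.Q45.GM
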