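import Pool.Agent.Q45.GM.HypA

/-!
# Elements with even valuations in the function field of a hyperelliptic curve, continued
-/

set_option autoImplicit false
set_option linter.all false

open Polynomial IsDedekindDomain WithZero
open scoped Classical

namespace Pool.Agent.Q45.GM

open Pool.Agent.Q45.TT (IsQuad FS even_down even_rat ram_one)
open Pool.Agent.Y160.SE (IsPw)

section quad

variable {k' N : Type} [Field k'] [Field N] [Algebra k'[X] N] {h : k'[X]} {y : N}

/-- The function field of a hyperelliptic curve is a quadratic extension of `k'(a)`. -/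
theorem IsHyp.quad (h2 : (2 : k') ≠ 0) (hsep : h.Separable) (hpos : 0 < h.natDegree)
    (hh : IsHyp k' N h y) (K' : Type) [Field K'] [Algebra k'[X] K'] [IsFractionRing k'[X] K']
    [Algebra K' N] [IsScalarTower k'[X] K' N] : IsQuad (algebraMap k'[X] K' h) y where
  two := by
    intro h0
    have h1 : algebraMap k'[X] K' (C 2) = 0 := by
      rw [show (C 2 : k'[X]) = 2 by rw [map_ofNat], map_ofNat]
      exact h0
    have h3 : (C 2 : k'[X]) = 0 := IsFractionRing.injective k'[X] K' (by rw [h1, map_zero])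
    exact h2 (C_eq_zero.1 h3)
  sq := by rw [hh.sq, IsScalarTower.algebraMap_apply k'[X] K' N]
  nmem := by
    intro x hx
    have h1 : x ^ 2 = algebraMap k'[X] K' h := by
      apply (algebraMap K' N).injective
      rw [map_pow, hx, hh.sq, IsScalarTower.algebraMap_apply k'[X] K' N]
    have hint : IsIntegral k'[X] x := by
      refine ⟨X ^ 2 - C h, monic_X_pow_sub_C _ two_ne_zero, ?_⟩
      rw [eval₂_sub, eval₂_pow, eval₂_X, eval₂_C, h1, sub_self]
    obtain ⟨p, hp⟩ := IsIntegrallyClosed.isIntegral_iff.1 hint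
    have h3 : p ^ 2 = h := by
      apply IsFractionRing.injective k'[X] K'
      rw [map_pow, hp, h1]
    have h4 : IsUnit p := hsep.squarefree p ⟨1, by rw [mul_one, ← h3, _root_.sq]⟩
    have h5 := natDegree_eq_zero_of_isUnit h4
    rw [← h3, natDegree_pow, h5, mul_zero] at hpos
    exact lt_irrefl _ hpos
  top := by
    rw [eq_top_iff]
    intro z _
    obtain ⟨A, B, D, hD, hz⟩ := hh.gen z
    have hD0 : algebraMap k'[X] N D ≠ 0 := by
      intro h0
      exact hD (hh.inj (by rw [h0, map_zero]))
    have h1 : z = algebraMap K' N (algebraMap k'[X] K' A / algebraMap k'[X] K' D) +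
        algebraMap K' N (algebraMap k'[X] K' B / algebraMap k'[X] K' D) * y := by
      rw [map_div₀, map_div₀, ← IsScalarTower.algebraMap_apply, ← IsScalarTower.algebraMap_apply,
        ← IsScalarTower.algebraMap_apply]
      field_simp
      linear_combination hz
    rw [h1]
    exact add_mem (IntermediateField.algebraMap_mem _ _) (mul_mem (IntermediateField.algebraMap_mem _ _)
      (IntermediateField.mem_adjoin_simple_self K' y))

end quad

/-- **HYP1.** -/
theorem hyp1 : Hyp1 := by
  intro k' N _ _ _ _ h y h2 hspl hsep hpos hh B' _ _ _ _ _ _ _ z hz hev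
  let K' := FractionRing k'[X]
  let ψ : K' →+* N := IsFractionRing.lift (K := K') hh.inj
  letI : Algebra K' N := ψ.toAlgebra
  haveI : IsScalarTower k'[X] K' N := IsScalarTower.of_algebraMap_eq fun p =>
    (IsFractionRing.lift_algebraMap hh.inj p).symm
  have hq : IsQuad (algebraMap k'[X] K' h) y := hh.quad h2 hsep hpos K'
  haveI := hq.fin
  haveI := hq.separable
  have hfs0 : FS k' K' := FS.base inferInstance
  have hfs : FS k' N := hfs0.trans hq.fin hq.separable
  haveI := hfs.finite B'
  haveI : Algebra.IsIntegral k'[X] B' := Algebra.IsIntegral.of_finite k'[X] B'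
  haveI : Module.IsTorsionFree k'[X] B' := by
    rw [Module.isTorsionFree_iff_algebraMap_injective]
    exact hfs.injB B'
  have hev' : ∀ 𝔓 : HeightOneSpectrum B', IsPw 2 (𝔓.valuation N z) := hev
  -- the norm
  have hn0 : Algebra.norm K' z ≠ 0 := (Algebra.norm_ne_zero_iff).2 hz
  obtain ⟨c, s, hc, hs, he⟩ := even_rat (k := k') (R := k'[X]) (L := K') (RingEquiv.refl _)
    hn0 fun v => Pool.Agent.Q45.TW.norm_even (R := B') hz hev' v
  obtain ⟨c', hc'⟩ := IsSepClosed.exists_pow_nat_eq c 2 (hn := ⟨by exact_mod_cast h2⟩)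
  have hy2 : Algebra.norm K' z = (algebraMap k'[X] K' (C c') * s) ^ 2 := by
    rw [he, mul_pow, ← map_pow, ← C_pow, hc']
    rfl
  obtain ⟨w, ρ, hw, hρ, hzw⟩ := hq.hilbert hz hy2
  -- the valuations of `w`
  have hevw : ∀ 𝔓 : HeightOneSpectrum B', IsPw 2 (𝔓.valuation N (algebraMap K' N w)) := by
    intro 𝔓
    have h1 := hev' 𝔓
    rw [hzw, map_mul, map_pow] at h1
    exact IsPw.of_mul ((Valuation.ne_zero_iff _).2 hρ) h1
  have h2u : IsUnit (2 : k'[X]) := by
    rw [show (2 : k'[X]) = C 2 by rw [map_ofNat]]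
    exact isUnit_C.2 (IsUnit.mk0 _ h2)
  obtain ⟨S, t, hS, ht, hwt⟩ := rat_of_even (L := K') h2 h.roots.toFinset hw (fun v hv => by
    refine even_down (B := B') hq h2u v ?_ hevw
    have h3 : h ∉ v.asIdeal := by
      intro hmem
      rw [hspl.eq_prod_roots] at hmem
      rcases v.isPrime.mem_or_mem hmem with h4 | h4
      · refine v.isPrime.ne_top (Ideal.eq_top_of_isUnit_mem _ h4 (isUnit_C.2 (IsUnit.mk0 _ ?_)))
        exact leadingCoeff_ne_zero.2 hsep.ne_zero
      · rw [Ideal.IsPrime.multiset_prod_mem_iff_exists_mem v.isPrime] at h4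
        obtain ⟨p, hp, hpv⟩ := h4
        obtain ⟨r, hr, rfl⟩ := Multiset.mem_map.1 hp
        exact hv r (Multiset.mem_toFinset.2 hr) hpv
    rw [val_one h3]
    exact isPw_one 2)
  refine ⟨S, algebraMap K' N t * ρ, hS, mul_ne_zero ((_root_.map_ne_zero _).2 ht) hρ, ?_⟩
  rw [hzw, hwt, map_mul, map_pow, mul_pow, ← IsScalarTower.algebraMap_apply k'[X] K' N]
  ring

end Pool.Agent.Q45.GM
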