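import Pool.Agent.Q45.GM.H1
import Pool.Agent.Q45.GS.ParF
import Pool.Agent.Y160.SQ.All

/-!
# The Selmer module of the Tate module of `J`
-/

set_option autoImplicit false
set_option linter.all false

open Polynomial IsDedekindDomain
open scoped nonZeroDivisors Classical

namespace Pool.Agent.Q45.GM

open Pool.Agent.Y160.SQ
open Pool.Agent.TH115.GD (incl rs ak Sep Comp rs_mul exists_compl_map exists_kappa exists_restrict)
open Pool.Agent.W309.TD (locConst_apply compare)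

section any

variable {ℓ : ℕ} {K F Ω L Ω' : Type} [Field K] [Field F] [Field Ω] [Field L] [Field Ω']
  [Algebra K F] [Algebra F Ω] [Algebra K Ω] [IsScalarTower K F Ω] [IsGalois F Ω]
  [Algebra K L] [Algebra L Ω'] [Algebra K Ω'] [Algebra F Ω'] [IsScalarTower K L Ω']
  [IsScalarTower K F Ω'] (f : K[X])

/-- The condition of local triviality does not depend on the embedding. -/
theorem of_any {c : (Ω ≃ₐ[F] Ω) → Jac ℓ f Ω}
    (hc : ∀ σ τ, c (σ * τ) = c σ + jm ℓ f (rs K σ) (c τ)) (h : LocTriv ℓ f L Ω' c)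
    (ι' : Ω →ₐ[F] Ω') : ∃ P : Jac ℓ f Ω', ∀ (τ : Ω' ≃ₐ[L] Ω') (σ : Ω ≃ₐ[F] Ω),
      (∀ x, τ (ι' x) = ι' (σ x)) →
        jm ℓ f (ι'.restrictScalars K) (c σ) = jm ℓ f (rs K τ) P - P := by
  obtain ⟨ι, P, hP⟩ := h
  letI : Algebra Ω Ω' := ι.toRingHom.toAlgebra
  haveI : IsScalarTower F Ω Ω' := IsScalarTower.of_algebraMap_eq fun x => (ι.commutes x).symm
  let g0 : Ω →ₐ[F] Ω := AlgHom.restrictNormal ι' Ω
  have hg0 : ∀ x, ι (g0 x) = ι' x := fun x => AlgHom.restrictNormal_commutes ι' Ω x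
  have hbij : Function.Bijective g0 := Algebra.IsAlgebraic.algHom_bijective g0
  let g : Ω ≃ₐ[F] Ω := AlgEquiv.ofBijective g0 hbij
  have hg : ∀ x, ι (g x) = ι' x := hg0
  refine ⟨P + jm ℓ f (ι.restrictScalars K) (c g), fun τ σ' hτ => ?_⟩
  -- conjugate
  set σ : Ω ≃ₐ[F] Ω := g * σ' * g⁻¹ with hσ
  have hσg : σ * g = g * σ' := by rw [hσ]; group
  have h1 : ∀ x, τ (ι x) = ι (σ x) := by
    intro x
    obtain ⟨y, rfl⟩ := g.surjective x
    have h3 : σ (g y) = g (σ' y) := by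
      have := congrArg (fun e : Ω ≃ₐ[F] Ω => e y) hσg
      exact this
    rw [hg, hτ, h3, hg]
  have h2 := hP τ σ h1
  have c1 := hc σ g
  have c2 := hc g σ'
  rw [hσg, c2] at c1
  have h4 : jm ℓ f (rs K g) (c σ') = c σ + jm ℓ f (rs K σ) (c g) - c g := by
    rw [← c1]; abel
  have h5 : (ι'.restrictScalars K) = (ι.restrictScalars K).comp (rs K g) :=
    AlgHom.ext fun x => (hg x).symm
  have h6 : (ι.restrictScalars K).comp (rs K σ) = (rs K τ).comp (ι.restrictScalars K) :=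
    AlgHom.ext fun x => (h1 x).symm
  rw [h5, ← jm_jm, h4, map_sub, map_add, h2, jm_jm, h6, ← jm_jm, map_add]
  abel

theorem locTriv_add {c c' : (Ω ≃ₐ[F] Ω) → Jac ℓ f Ω}
    (hc' : ∀ σ τ, c' (σ * τ) = c' σ + jm ℓ f (rs K σ) (c' τ))
    (h : LocTriv ℓ f L Ω' c) (h' : LocTriv ℓ f L Ω' c') :
    LocTriv ℓ f L Ω' (c + c') := by
  obtain ⟨ι, P, hP⟩ := h
  obtain ⟨P', hP'⟩ := of_any f hc' h' ι
  refine ⟨ι, P + P', fun τ σ hτ => ?_⟩
  rw [Pi.add_apply, map_add, hP τ σ hτ, hP' τ σ hτ, map_add]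
  abel

theorem locTriv_cob (ι : Ω →ₐ[F] Ω') (Q : Jac ℓ f Ω) :
    LocTriv ℓ f L Ω' (fun σ : Ω ≃ₐ[F] Ω => jm ℓ f (rs K σ) Q - Q) := by
  refine ⟨ι, jm ℓ f (ι.restrictScalars K) Q, fun τ σ hτσ => ?_⟩
  have h5 : (ι.restrictScalars K).comp (rs K σ) = (rs K τ).comp (ι.restrictScalars K) :=
    AlgHom.ext fun x => (hτσ x).symm
  rw [map_sub, jm_jm, jm_jm, h5]

end any

section sel

variable (ℓ : ℕ) {K F : Type} [Field K] [Field F] [Algebra K F] (B : Type) [CommRing B]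
  [IsDedekindDomain B] [Algebra B F] [IsFractionRing B F] (f : K[X])

/-- The action of the Galois group of `F` on `J(Sep F)`. -/
noncomputable def actJ (σ : Sep F ≃ₐ[F] Sep F) : Jac ℓ f (Sep F) →+ Jac ℓ f (Sep F) :=
  jm ℓ f (rs K σ)

/-- The restriction of the cochain `c` to the completion of `F` at every maximal ideal of the Dedekind
domain `B` with field of fractions `F` is a coboundary. -/
def IsSelmer (c : (Sep F ≃ₐ[F] Sep F) → Jac ℓ f (Sep F)) : Prop :=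
  ∀ v : HeightOneSpectrum B, LocTriv ℓ f (Comp B F v) (Sep (Comp B F v)) c

theorem actJ_isAct {ζ : K} {f : K[X]} (hg : Good ℓ ζ f) : IsAct (actJ ℓ (F := F) f) where
  one x := by
    have h : rs K (1 : Sep F ≃ₐ[F] Sep F) = AlgHom.id K (Sep F) := AlgHom.ext fun y => rfl
    show jm ℓ f (rs K (1 : Sep F ≃ₐ[F] Sep F)) x = x
    rw [h, jm_id]
  mul σ τ x := by
    show jm ℓ f (rs K (σ * τ)) x = jm ℓ f (rs K σ) (jm ℓ f (rs K τ) x)
    rw [rs_mul, jm_jm]
  lc x := jm_locConst hyps hg x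

theorem sel_isLocal : IsLocal (actJ ℓ (F := F) f) (IsSelmer ℓ (F := F) B f) where
  add c d hc hd h1 h2 v := locTriv_add f hd.mul (h1 v) (h2 v)
  cob x v := by
    refine locTriv_cob f (IsSepClosed.lift) x

/-- The module `T_p Sel` of classes of continuous cocycles with values in `T_p J` which are locally
trivial at the maximal ideals of `B`. -/
abbrev SelT (p : ℕ) [Fact p.Prime] : Type :=
  H1 p (actJ ℓ (F := F) f) (IsSelmer ℓ B f) (sel_isLocal ℓ B f)

end sel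

end Pool.Agent.Q45.GM
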