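import Pool.Agent.Q45.GM.Lift
import Pool.Agent.Y474.SH.N

/-!
# The Kummer generators of the classes of order two
-/

set_option autoImplicit false
set_option linter.all false

open Polynomial IsDedekindDomain
open scoped nonZeroDivisors Classical

namespace Pool.Agent.Q45.GM

open Pool.Agent.Y160.SQ
open Pool.Agent.TH115.GD (incl rs ak Sep Comp rs_mul lift_fix cont_rs)
open Pool.Agent.W309.TD (locConst_apply compare)

section two

variable {K Ω : Type} [Field K] [Field Ω] [Algebra K Ω] {f : K[X]} {ζ : K} (hg : Good 2 ζ f)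

include hg

theorem uu_two : uu 2 = 1 := by
  unfold uu
  rw [Finset.sum_range_succ, Finset.sum_range_one, Finset.sum_range_zero, Finset.sum_range_one,
    pow_zero, zero_add]

theorem tor_two {x : Jac 2 f Ω} : Tor hg x ↔ 2 • x = 0 := by
  have h := uu_mul hyps hg x
  rw [uu_two hg, pe_one] at h
  unfold Tor
  rw [h]

theorem div_two [IsSepClosed Ω] (x : Jac 2 f Ω) : ∃ y, 2 • y = x := by
  obtain ⟨y, hy⟩ := lam_surj hyps hg x
  refine ⟨y, ?_⟩
  have h := uu_mul hyps hg y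
  rw [uu_two hg, pe_one] at h
  rw [← h, hy]

end two

section kum

variable {ℓ : ℕ} {K F Ω : Type} [Field K] [Field F] [Field Ω] [Algebra K F] [Algebra F Ω]
  [Algebra K Ω] [IsScalarTower K F Ω] {f : K[X]} {ζ : K} (hg : Good ℓ ζ f)

/-- `t` is a Kummer generator of the cocycle `c` at the root `a`. -/
structure IsKum (a : Ω) (c : (Ω ≃ₐ[F] Ω) → Jac ℓ f Ω) (t : Ω) : Prop where
  ne : t ≠ 0
  act : ∀ σ : Ω ≃ₐ[F] Ω, σ a = a → σ t = chi hg a (c σ) * t

variable [IsGalois F Ω] [IsSepClosed Ω]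

/-- Only `0` is fixed by the Galois group. -/
theorem inv_zero (hirr : Irreducible (f.map (algebraMap K F))) {x : Jac ℓ f Ω} (hx : Tor hg x)
    (hfix : ∀ σ : Ω ≃ₐ[F] Ω, jm ℓ f (rs K σ) x = x) {a : Ω} (ha : Rt f a) : x = 0 := by
  have h1 : ∀ β : Ω, Rt f β → chi hg β x = chi hg a x := by
    intro β hβ
    obtain ⟨ρ, rfl⟩ := trans_rt hg hirr ha hβ
    have h3 := chi_map hyps hg hx ha (rs K ρ)
    rw [hfix, chi_fix' hyps hg hx ha] at h3
    exact h3
  have h2 := chi_prod hyps hg hx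
  have h3 : ((f.map (algebraMap K Ω)).roots.map fun β => chi hg β x) =
      (f.map (algebraMap K Ω)).roots.map fun β => chi hg a x :=
    Multiset.map_congr rfl fun β hβ => h1 β (rt_of ((mem_roots (hg.up Ω).monic.ne_zero).1 hβ))
  rw [h3, Multiset.map_const', Multiset.prod_replicate,
    ← (splits_up hg (Ω := Ω)).natDegree_eq_card_roots, natDegree_map] at h2
  have h4 := chi_pow hyps hg hx ha
  have h5 : chi hg a x = 1 := by
    have h6 : orderOf (chi hg a x) ∣ Nat.gcd ℓ f.natDegree :=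
      Nat.dvd_gcd (orderOf_dvd_of_pow_eq_one h4) (orderOf_dvd_of_pow_eq_one h2)
    have h7 : Nat.gcd ℓ f.natDegree = 1 := hg.cop
    rw [h7] at h6
    exact orderOf_eq_one_iff.1 (Nat.dvd_one.1 h6)
  exact chi_inj hyps hg hx fun β hβ => (h1 β hβ).trans h5

/-- Existence of the Kummer generator. -/
theorem exists_kum {N : Type} [Field N] [Algebra F N] [Algebra N Ω] [IsScalarTower F N Ω] {θ : N}
    {a : Ω} (ha : Rt f a) (hθ : algebraMap N Ω θ = a)
    (htop : IntermediateField.adjoin F {θ} = ⊤) {g : (Ω ≃ₐ[F] Ω) → Jac ℓ f Ω}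
    (hgl : IsLocallyConstant g) (hmul : ∀ σ τ, g (σ * τ) = g σ + jm ℓ f (rs K σ) (g τ))
    (hg2 : ∀ τ, Tor hg (g τ)) :
    ∃ (t : Ω) (z : N), IsKum hg a g t ∧ t ^ ℓ = algebraMap N Ω z := by
  haveI : IsGalois N Ω := IsGalois.tower_top_of_isGalois F N Ω
  have hfix : ∀ τ : Ω ≃ₐ[N] Ω, (τ.restrictScalars F) a = a := by
    intro τ
    rw [← hθ]
    exact τ.commutes θ
  let h : (Ω ≃ₐ[N] Ω) → Jac ℓ f Ω := fun τ => g (AlgEquiv.restrictScalarsHom F τ)
  have hval : ∀ x : Jac ℓ f Ω, ∃ c : N, Tor hg x → chi hg a x = algebraMap N Ω c ∧ c ≠ 0 := by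
    intro x
    by_cases hx : Tor hg x
    · obtain ⟨i, hi⟩ := chi_mem hyps hg hx ha
      refine ⟨algebraMap F N (algebraMap K F (ζ ^ i)), fun _ => ⟨?_, ?_⟩⟩
      · rw [hi, ← IsScalarTower.algebraMap_apply F N Ω, ← IsScalarTower.algebraMap_apply K F Ω]
      · rw [_root_.map_ne_zero, _root_.map_ne_zero]
        exact pow_ne_zero _ (hg.root.ne_zero hg.ne)
    · exact ⟨0, fun h => absurd h hx⟩
  choose cv hcv using hval
  have hmul' : ∀ σ τ : Ω ≃ₐ[N] Ω, chi hg a (h (σ * τ)) = chi hg a (h σ) * chi hg a (h τ) := by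
    intro σ τ
    show chi hg a (g (AlgEquiv.restrictScalarsHom F (σ * τ))) = _
    rw [map_mul, hmul, chi_add hyps hg (hg2 _) ((hg2 _).map _) ha]
    congr 1
    have h1 := chi_map hyps hg (hg2 (AlgEquiv.restrictScalarsHom F τ)) ha
      (rs K (σ.restrictScalars F))
    have h3 : (rs K (σ.restrictScalars F)) a = a := hfix σ
    rw [h3, chi_fix' hyps hg (hg2 _) ha] at h1
    exact h1
  obtain ⟨t, ht, hk⟩ := exists_root_l (K := N) (Ω := Ω) (fun τ => cv (h τ))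
    (fun σ => (hcv _ (hg2 _)).2) (fun σ τ => by
      apply (algebraMap N Ω).injective
      rw [map_mul]
      rw [← (hcv (h (σ * τ)) (hg2 _)).1, ← (hcv (h σ) (hg2 _)).1, ← (hcv (h τ) (hg2 _)).1, hmul'])
    (by
      have h1 : IsLocallyConstant (g ∘ (AlgEquiv.restrictScalarsHom F : (Ω ≃ₐ[N] Ω) →* _)) :=
        hgl.comp_continuous (cont_rs (F := F) (M := N) (Ω := Ω))
      exact h1.comp cv)
  have hk' : ∀ τ : Ω ≃ₐ[N] Ω, τ t = chi hg a (h τ) * t := by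
    intro τ
    rw [hk, ← (hcv (h τ) (hg2 _)).1]
  have hz : t ^ ℓ ∈ Set.range (algebraMap N Ω) := by
    rw [InfiniteGalois.mem_range_algebraMap_iff_fixed]
    intro σ
    rw [map_pow, hk', mul_pow, chi_pow hyps hg (hg2 _) ha, one_mul]
  obtain ⟨z, hz⟩ := hz
  refine ⟨t, z, ⟨ht, fun τ hτ => ?_⟩, hz.symm⟩
  obtain ⟨τ', hτ'⟩ := lift_fix htop τ (by rw [hθ]; exact hτ)
  have h1 := hk' τ'
  have h3 : AlgEquiv.restrictScalarsHom F τ' = τ := AlgEquiv.ext fun x => hτ' x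
  have h4 : h τ' = g τ := by
    show g (AlgEquiv.restrictScalarsHom F τ') = _
    rw [h3]
  rw [h4, hτ'] at h1
  exact h1

omit [IsGalois F Ω] in
theorem IsKum.mul {a : Ω} (ha : Rt f a) {c d : (Ω ≃ₐ[F] Ω) → Jac ℓ f Ω} (hc : ∀ τ, Tor hg (c τ))
    (hd : ∀ τ, Tor hg (d τ)) {t u : Ω} (ht : IsKum hg a c t) (hu : IsKum hg a d u) :
    IsKum hg a (fun σ => c σ + d σ) (t * u) := by
  refine ⟨mul_ne_zero ht.ne hu.ne, fun σ hσ => ?_⟩
  rw [map_mul, ht.act σ hσ, hu.act σ hσ, chi_add hyps hg (hc σ) (hd σ) ha]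
  ring

omit [IsGalois F Ω] [IsSepClosed Ω] in
theorem IsKum.mul_fix {a : Ω} {c : (Ω ≃ₐ[F] Ω) → Jac ℓ f Ω} {t s : Ω} (ht : IsKum hg a c t)
    (hs : s ≠ 0) (hfix : ∀ σ : Ω ≃ₐ[F] Ω, σ a = a → σ s = s) : IsKum hg a c (s * t) := by
  refine ⟨mul_ne_zero hs ht.ne, fun σ hσ => ?_⟩
  rw [map_mul, ht.act σ hσ, hfix σ hσ]
  ring

/-- The quotient of two Kummer generators is in the field generated by `a`. -/
theorem IsKum.div {N : Type} [Field N] [Algebra F N] [Algebra N Ω] [IsScalarTower F N Ω] {θ : N}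
    {a : Ω} (ha : Rt f a) (hθ : algebraMap N Ω θ = a) {c : (Ω ≃ₐ[F] Ω) → Jac ℓ f Ω}
    (hc : ∀ τ, Tor hg (c τ)) {t u : Ω} (ht : IsKum hg a c t) (hu : IsKum hg a c u) :
    ∃ s : N, s ≠ 0 ∧ t = algebraMap N Ω s * u := by
  haveI : IsGalois N Ω := IsGalois.tower_top_of_isGalois F N Ω
  have h : t / u ∈ Set.range (algebraMap N Ω) := by
    rw [InfiniteGalois.mem_range_algebraMap_iff_fixed]
    intro σ
    have h1 : (σ.restrictScalars F) a = a := by
      rw [← hθ]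
      exact σ.commutes θ
    have h2 := ht.act _ h1
    have h3 := hu.act _ h1
    have h4 : σ t = (σ.restrictScalars F) t := rfl
    have h5 : σ u = (σ.restrictScalars F) u := rfl
    rw [map_div₀, h4, h5, h2, h3, mul_div_mul_left _ _ (chi_ne hyps hg (hc _) ha)]
  obtain ⟨s, hs⟩ := h
  refine ⟨s, ?_, ?_⟩
  · rintro rfl
    rw [map_zero] at hs
    exact div_ne_zero ht.ne hu.ne hs.symm
  · rw [hs, div_mul_cancel₀ _ hu.ne]

/-- If the Kummer generator is fixed by the stabilizer of `a`, the cocycle is a coboundary. -/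
theorem IsKum.cob (hirr : Irreducible (f.map (algebraMap K F))) {a : Ω} (ha : Rt f a)
    {c : (Ω ≃ₐ[F] Ω) → Jac ℓ f Ω} (hmul : ∀ σ τ, c (σ * τ) = c σ + jm ℓ f (rs K σ) (c τ))
    (hc : ∀ τ, Tor hg (c τ)) {t : Ω} (ht : IsKum hg a c t)
    (hfix : ∀ σ : Ω ≃ₐ[F] Ω, σ a = a → σ t = t) :
    ∃ R : Jac ℓ f Ω, Tor hg R ∧ ∀ σ, c σ = jm ℓ f (rs K σ) R - R := by
  refine cob1 (F := F) hyps hg hirr ha hmul hc fun σ hσ => ?_
  have h1 := ht.act σ hσ
  rw [hfix σ hσ] at h1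
  exact (mul_eq_right₀ ht.ne).1 h1.symm

omit [IsGalois F Ω] in
/-- The Kummer generator of a coboundary. -/
theorem IsKum.fix {a : Ω} (ha : Rt f a) {c : (Ω ≃ₐ[F] Ω) → Jac ℓ f Ω} {R : Jac ℓ f Ω}
    (hR : Tor hg R) (hcR : ∀ σ, c σ = jm ℓ f (rs K σ) R - R) {t : Ω} (ht : IsKum hg a c t)
    (σ : Ω ≃ₐ[F] Ω) (hσ : σ a = a) : σ t = t := by
  rw [ht.act σ hσ, hcR, chi_sub hyps hg (hR.map _) hR ha]
  have h1 := chi_map hyps hg hR ha (rs K σ)
  have h2 : (rs K σ) a = a := hσ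
  rw [h2, chi_fix' hyps hg hR ha] at h1
  rw [h1, div_self (chi_ne hyps hg hR ha), one_mul]

end kum

end Pool.Agent.Q45.GM
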