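import Pool.Agent.Q45.GM.Jac

/-!
# The action of the automorphisms of the base field
-/

set_option autoImplicit false
set_option linter.all false

open Polynomial IsDedekindDomain
open scoped nonZeroDivisors Classical

namespace Pool.Agent.Q45.GM

open Pool.Agent.Y160.SQ
open Pool.Agent.TH115.GD (incl rs ak Sep Comp rs_mul exists_compl_map exists_kappa exists_restrict)
open Pool.Agent.W309.TD (locConst_apply compare)

/-- An automorphism `T` of `Ω` over `K` which maps the subfield `F` to itself. -/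
structure Lift (K F Ω : Type) [Field K] [Field F] [Field Ω] [Algebra K F] [Algebra F Ω]
    [Algebra K Ω] [IsScalarTower K F Ω] where
  /-- The automorphism of `Ω`. -/
  T : Ω ≃ₐ[K] Ω
  /-- The automorphism of `F`. -/
  s : F ≃ₐ[K] F
  comm : ∀ x, T (algebraMap F Ω x) = algebraMap F Ω (s x)

section conj

variable {K F Ω : Type} [Field K] [Field F] [Field Ω] [Algebra K F] [Algebra F Ω]
  [Algebra K Ω] [IsScalarTower K F Ω] (L : Lift K F Ω)

/-- The automorphism `T⁻¹ σ T` of `Ω` over `F`. -/
def Lift.conj (σ : Ω ≃ₐ[F] Ω) : Ω ≃ₐ[F] Ω :=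
  AlgEquiv.ofRingEquiv (f := (L.T.toRingEquiv.trans σ.toRingEquiv).trans L.T.symm.toRingEquiv)
    (fun x => by
      show L.T.symm (σ (L.T (algebraMap F Ω x))) = algebraMap F Ω x
      rw [L.comm, σ.commutes, ← L.comm, AlgEquiv.symm_apply_apply])

theorem Lift.conj_apply (σ : Ω ≃ₐ[F] Ω) (x : Ω) : L.conj σ x = L.T.symm (σ (L.T x)) := rfl

theorem Lift.T_conj (σ : Ω ≃ₐ[F] Ω) (x : Ω) : L.T (L.conj σ x) = σ (L.T x) := by
  rw [L.conj_apply, AlgEquiv.apply_symm_apply]

theorem Lift.conj_mul (σ τ : Ω ≃ₐ[F] Ω) : L.conj (σ * τ) = L.conj σ * L.conj τ := by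
  refine AlgEquiv.ext fun x => ?_
  apply L.T.injective
  rw [L.T_conj, AlgEquiv.mul_apply, AlgEquiv.mul_apply, L.T_conj, L.T_conj]

theorem Lift.conj_cont [Algebra.IsAlgebraic F Ω] : Continuous L.conj := by
  let c : (Ω ≃ₐ[F] Ω) →* (Ω ≃ₐ[F] Ω) := MonoidHom.mk' L.conj L.conj_mul
  have h : Continuous c := by
    refine continuous_of_continuousAt_one c ?_
    rw [ContinuousAt, map_one]
    intro s hs
    obtain ⟨E, hE, hEs⟩ := (krullTopology_mem_nhds_one_iff F Ω s).1 hs
    let b := Module.finBasis F E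
    let E' : IntermediateField F Ω := IntermediateField.adjoin F (Set.range fun i => L.T (b i : Ω))
    haveI : FiniteDimensional F E' := IntermediateField.finiteDimensional_adjoin
      fun x _ => Algebra.IsIntegral.isIntegral x
    rw [Filter.mem_map, krullTopology_mem_nhds_one_iff]
    refine ⟨E', inferInstance, fun σ hσ => hEs ?_⟩
    have hb : ∀ i, L.conj σ (b i : Ω) = (b i : Ω) := by
      intro i
      apply L.T.injective
      rw [L.T_conj]
      exact (IntermediateField.mem_fixingSubgroup_iff E' σ).1 hσ _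
        (IntermediateField.subset_adjoin F _ ⟨i, rfl⟩)
    show L.conj σ ∈ E.fixingSubgroup
    rw [IntermediateField.mem_fixingSubgroup_iff]
    intro x hx
    have h1 := b.sum_repr ⟨x, hx⟩
    have h2 : x = ∑ i, (b.repr ⟨x, hx⟩ i) • (b i : Ω) := by
      have h3 := congrArg (fun y : E => (y : Ω)) h1
      refine h3.symm.trans ?_
      show ((∑ i, (b.repr ⟨x, hx⟩) i • b i : E) : Ω) = _
      rw [AddSubmonoidClass.coe_finset_sum]
      rfl
    rw [h2, map_sum]
    refine Finset.sum_congr rfl fun i _ => ?_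
    rw [map_smul, hb]
  exact h

end conj

section place

variable {A F B M : Type} [CommRing A] [IsDedekindDomain A] [Field F] [Algebra A F]
  [IsFractionRing A F] [CommRing B] [IsDedekindDomain B] [Field M] [Algebra B M]
  [IsFractionRing B M]

/-- The place under an isomorphism. -/
theorem exists_place (e : A ≃+* B) (s : F →+* M)
    (hes : ∀ a, algebraMap B M (e a) = s (algebraMap A F a)) (w : HeightOneSpectrum B) :
    ∃ v : HeightOneSpectrum A, (∀ x, v.valuation F x ≤ 1 → w.valuation M (s x) ≤ 1) ∧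
      (∀ x, v.valuation F x < 1 → w.valuation M (s x) < 1) := by
  letI : Algebra A B := e.toRingHom.toAlgebra
  letI : Algebra F M := s.toAlgebra
  letI : Algebra A M := ((algebraMap B M).comp e.toRingHom).toAlgebra
  haveI : IsScalarTower A B M := IsScalarTower.of_algebraMap_eq fun x => rfl
  haveI : IsScalarTower A F M := IsScalarTower.of_algebraMap_eq fun x => hes x
  haveI : Algebra.IsIntegral A B := ⟨fun b => by
    have h : b = algebraMap A B (e.symm b) := (e.apply_symm_apply b).symm
    rw [h]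
    exact isIntegral_algebraMap⟩
  haveI : Module.IsTorsionFree A B := by
    rw [Module.isTorsionFree_iff_algebraMap_injective]
    exact e.injective
  let v : HeightOneSpectrum A := w.under A
  haveI hlo : w.asIdeal.LiesOver v.asIdeal := ⟨rfl⟩
  have hval : ∀ x : F, v.valuation F x ^ v.asIdeal.ramificationIdx' w.asIdeal =
      w.valuation M (algebraMap F M x) := fun x =>
    HeightOneSpectrum.valuation_liesOver (A := A) M v w x
  have he : v.asIdeal.ramificationIdx' w.asIdeal ≠ 0 :=
    Ideal.IsDedekindDomain.ramificationIdx'_ne_zero_of_liesOver w.asIdeal v.ne_bot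
  refine ⟨v, fun x hx => ?_, fun x hx => ?_⟩
  · have h := hval x
    have h1 : algebraMap F M x = s x := rfl
    rw [← h1, ← h]
    exact pow_le_one₀ zero_le hx
  · have h := hval x
    have h1 : algebraMap F M x = s x := rfl
    rw [← h1, ← h]
    exact pow_lt_one₀ zero_le hx he

end place

section trans

variable {ℓ : ℕ} {K F : Type} [Field K] [Field F] [Algebra K F] {B : Type} [CommRing B]
  [IsDedekindDomain B] [Algebra B F] [IsFractionRing B F] (f : K[X])

/-- The local conditions are stable under the automorphisms of `F` which preserve `B`. -/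
theorem sel_conj (L : Lift K F (Sep F)) (e : B ≃+* B)
    (he : ∀ b, algebraMap B F (e b) = L.s (algebraMap B F b))
    {c : (Sep F ≃ₐ[F] Sep F) → Jac ℓ f (Sep F)} (hc : IsSelmer ℓ B f c) :
    IsSelmer ℓ B f (fun σ => jm ℓ f (ak L.T) (c (L.conj σ))) := by
  intro w
  obtain ⟨v, hv1, hv2⟩ := exists_place e (L.s : F →+* F) he w
  obtain ⟨j, hj1, -, -⟩ := exists_compl_map v w (L.s : F →+* F) hv1 hv2
  let Lv := Comp B F v
  let Ew := Comp B F w
  let j' : Lv →+* Ew := j
  have hj' : ∀ x : F, j' (algebraMap F Lv x) = algebraMap F Ew (L.s x) := fun x => hj1 x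
  have hjK : ∀ x : K, j' (algebraMap K Lv x) = algebraMap K Ew x := by
    intro x
    have h1 : algebraMap K Lv x = algebraMap F Lv (algebraMap K F x) := rfl
    have h2 : algebraMap K Ew x = algebraMap F Ew (algebraMap K F x) := rfl
    rw [h1, hj', h2, L.s.commutes]
  obtain ⟨κ, hκ1, hκ2⟩ := exists_kappa (F := K) (L := Lv) (Ω' := Sep Lv) (E := Ew) (Ω'' := Sep Ew)
    j' hjK
  obtain ⟨ι, P, hP⟩ := hc v
  have hι : ∀ x : F, κ (ι (L.T.symm (algebraMap F (Sep F) x))) = algebraMap F (Sep Ew) x := by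
    intro x
    have h1 : L.T.symm (algebraMap F (Sep F) x) = algebraMap F (Sep F) (L.s.symm x) := by
      rw [AlgEquiv.symm_apply_eq, L.comm, AlgEquiv.apply_symm_apply]
    rw [h1, ι.commutes, IsScalarTower.algebraMap_apply F Lv (Sep Lv), hκ1, hj',
      AlgEquiv.apply_symm_apply, ← IsScalarTower.algebraMap_apply F Ew (Sep Ew)]
  let ι' : Sep F →ₐ[F] Sep Ew :=
    { toRingHom := (κ.toRingHom.comp ι.toRingHom).comp L.T.symm.toAlgHom.toRingHom
      commutes' := hι }
  have hι' : ∀ x, ι' x = κ (ι (L.T.symm x)) := fun x => rfl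
  refine ⟨ι', jm ℓ f κ P, fun τ σ hτσ => ?_⟩
  obtain ⟨τ', hτ'⟩ := hκ2 τ
  have h1 : ∀ x, τ' (ι x) = ι (L.conj σ x) := by
    intro x
    have h3 := hτσ (L.T x)
    rw [hι', hι', AlgEquiv.symm_apply_apply, hτ'] at h3
    exact (κ : Sep Lv →+* Sep Ew).injective h3
  have h2 := hP τ' (L.conj σ) h1
  have h3 : (ι'.restrictScalars K).comp (ak L.T) = κ.comp (ι.restrictScalars K) :=
    AlgHom.ext fun x => by
      show κ (ι (L.T.symm (L.T x))) = κ (ι x)
      rw [AlgEquiv.symm_apply_apply]
  have h4 : κ.comp (rs K τ') = (rs K τ).comp κ := AlgHom.ext fun x => (hτ' x).symm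
  show jm ℓ f (ι'.restrictScalars K) (jm ℓ f (ak L.T) (c (L.conj σ))) = _
  rw [jm_jm, h3, ← jm_jm, h2, map_sub, jm_jm, h4, ← jm_jm]

/-- The semilinear action on the module of cocycles. -/
theorem lift_isTw (L : Lift K F (Sep F)) (e : B ≃+* B)
    (he : ∀ b, algebraMap B F (e b) = L.s (algebraMap B F b)) :
    IsTw (actJ ℓ (F := F) f) (IsSelmer ℓ B f) L.conj (jm ℓ f (ak L.T)) where
  mul := L.conj_mul
  cont := L.conj_cont
  comm σ x := by
    show jm ℓ f (ak L.T) (jm ℓ f (rs K (L.conj σ)) x) = jm ℓ f (rs K σ) (jm ℓ f (ak L.T) x)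
    have h1 : (ak L.T).comp (rs K (L.conj σ)) = (rs K σ).comp (ak L.T) :=
      AlgHom.ext fun y => L.T_conj σ y
    rw [jm_jm, jm_jm, h1]
  loc c _ h := sel_conj f L e he h

end trans

end Pool.Agent.Q45.GM
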