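import Pool.Agent.Q45.GM.Fin

/-!
# The module of classes in elementary terms
-/

set_option autoImplicit false
set_option linter.all false

open Polynomial IsDedekindDomain WithZero
open scoped Classical TensorProduct

namespace Pool.Agent.Q45.GM

open Pool.Agent.Q45.TW (IsGeom)
open Pool.Agent.Y160.SQ
open Pool.Agent.TH115.GD (incl rs ak Sep Comp)

section ss

variable {M : Type} [AddCommGroup M] [Module ℤ_[2] M] [Module.Finite ℤ_[2] M] [Module.Free ℤ_[2] M]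

theorem one_tmul_inj {m : M} (h : (1 : ℚ_[2]) ⊗ₜ[ℤ_[2]] m = 0) : m = 0 := by
  have h1 : Function.Injective (TensorProduct.mk ℤ_[2] ℚ_[2] M 1) := by
    have h2 := Module.Flat.rTensor_preserves_injective_linearMap (M := M)
      (Algebra.linearMap ℤ_[2] ℚ_[2]) (IsFractionRing.injective ℤ_[2] ℚ_[2])
    intro a b hab
    have h3 : (Algebra.linearMap ℤ_[2] ℚ_[2]).rTensor M ((1 : ℤ_[2]) ⊗ₜ a) =
        (Algebra.linearMap ℤ_[2] ℚ_[2]).rTensor M ((1 : ℤ_[2]) ⊗ₜ b) := by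
      rw [LinearMap.rTensor_tmul, LinearMap.rTensor_tmul, Algebra.linearMap_apply, map_one]
      exact hab
    have h4 := h2 h3
    have h5 := congrArg (TensorProduct.lid ℤ_[2] M) h4
    rwa [TensorProduct.lid_tmul, TensorProduct.lid_tmul, one_smul, one_smul] at h5
  apply h1
  rw [TensorProduct.mk_apply, TensorProduct.mk_apply, h, TensorProduct.tmul_zero]

theorem tmul_sm (a : ℤ_[2]) (m : M) : (1 : ℚ_[2]) ⊗ₜ[ℤ_[2]] (a • m) =
    (a : ℚ_[2]) • ((1 : ℚ_[2]) ⊗ₜ[ℤ_[2]] m) := by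
  rw [← TensorProduct.smul_tmul, TensorProduct.smul_tmul']
  congr 1

theorem tmul_two (n : ℕ) (m : M) : (1 : ℚ_[2]) ⊗ₜ[ℤ_[2]] ((2 : ℤ_[2]) ^ n • m) =
    ((2 : ℚ_[2]) ^ n) • ((1 : ℚ_[2]) ⊗ₜ[ℤ_[2]] m) := by
  rw [tmul_sm, PadicInt.coe_pow]
  rfl

/-- Denominators of numbers. -/
theorem exists_int (x : ℚ_[2]) : ∃ (r : ℕ) (a : ℤ_[2]), (a : ℚ_[2]) = (2 : ℚ_[2]) ^ r * x := by
  obtain ⟨r, hr⟩ := pow_unbounded_of_one_lt ‖x‖ (show (1 : ℝ) < 2 by norm_num)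
  refine ⟨r, ⟨(2 : ℚ_[2]) ^ r * x, ?_⟩, rfl⟩
  rw [norm_mul, norm_pow]
  have h2 : ‖(2 : ℚ_[2])‖ = 2⁻¹ := by
    have := Padic.norm_p (p := 2)
    exact_mod_cast this
  rw [h2, inv_pow, inv_mul_le_iff₀ (by positivity), mul_one]
  exact hr.le

/-- Semisimplicity in terms of `M`. -/
theorem compl_of (φ : M →ₗ[ℤ_[2]] M) (h : Module.End.IsSemisimple (φ.baseChange ℚ_[2]))
    (U : Submodule ℤ_[2] M) (hU : ∀ u ∈ U, φ u ∈ U) :
    ∃ U' : Submodule ℤ_[2] M, (∀ u ∈ U', φ u ∈ U') ∧ U ⊓ U' = ⊥ ∧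
      ∃ r : ℕ, ∀ m : M, (2 : ℤ_[2]) ^ r • m ∈ U ⊔ U' := by
  rw [Module.End.isSemisimple_iff] at h
  set W : Submodule ℚ_[2] (ℚ_[2] ⊗[ℤ_[2]] M) := Submodule.span ℚ_[2]
    {w | ∃ u ∈ U, w = (1 : ℚ_[2]) ⊗ₜ[ℤ_[2]] u} with hW
  have hden : ∀ w ∈ W, ∃ (r : ℕ) (u : M), u ∈ U ∧ ((2 : ℚ_[2]) ^ r) • w = (1 : ℚ_[2]) ⊗ₜ[ℤ_[2]] u := by
    intro w hw
    induction hw using Submodule.span_induction with
    | mem w hw =>
      obtain ⟨u, hu, rfl⟩ := hw
      exact ⟨0, u, hu, by rw [pow_zero, one_smul]⟩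
    | zero => exact ⟨0, 0, U.zero_mem, by rw [smul_zero, TensorProduct.tmul_zero]⟩
    | add x y _ _ hx hy =>
      obtain ⟨r, m, hm, hr⟩ := hx
      obtain ⟨r', m', hm', hr'⟩ := hy
      refine ⟨r + r', (2 : ℤ_[2]) ^ r' • m + (2 : ℤ_[2]) ^ r • m',
        U.add_mem (U.smul_mem _ hm) (U.smul_mem _ hm'), ?_⟩
      rw [TensorProduct.tmul_add, tmul_two, tmul_two, ← hr, ← hr', smul_add, smul_smul, smul_smul,
        ← pow_add, ← pow_add, add_comm r' r]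
    | smul a x _ hx =>
      obtain ⟨r, m, hm, hr⟩ := hx
      obtain ⟨r', a', ha'⟩ := exists_int a
      refine ⟨r' + r, a' • m, U.smul_mem _ hm, ?_⟩
      rw [tmul_sm, ha', ← hr, smul_smul, smul_smul]
      congr 1
      ring
  obtain ⟨W', hW', hc⟩ := h W (by
    rw [Module.End.mem_invtSubmodule]
    intro w hw
    rw [Submodule.mem_comap]
    induction hw using Submodule.span_induction with
    | mem w hw =>
      obtain ⟨u, hu, rfl⟩ := hw
      rw [LinearMap.baseChange_tmul]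
      exact Submodule.subset_span ⟨φ u, hU u hu, rfl⟩
    | zero => rw [map_zero]; exact W.zero_mem
    | add x y _ _ hx hy => rw [map_add]; exact W.add_mem hx hy
    | smul a x _ hx => rw [map_smul]; exact W.smul_mem _ hx)
  rw [Module.End.mem_invtSubmodule] at hW'
  let U' : Submodule ℤ_[2] M :=
    { carrier := {m | (1 : ℚ_[2]) ⊗ₜ[ℤ_[2]] m ∈ W'}
      add_mem' := fun {a b} ha hb => by
        show (1 : ℚ_[2]) ⊗ₜ[ℤ_[2]] (a + b) ∈ W'
        rw [TensorProduct.tmul_add]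
        exact W'.add_mem ha hb
      zero_mem' := by
        show (1 : ℚ_[2]) ⊗ₜ[ℤ_[2]] (0 : M) ∈ W'
        rw [TensorProduct.tmul_zero]
        exact W'.zero_mem
      smul_mem' := fun a m hm => by
        show (1 : ℚ_[2]) ⊗ₜ[ℤ_[2]] (a • m) ∈ W'
        rw [tmul_sm]
        exact W'.smul_mem _ hm }
  have hU' : ∀ m, m ∈ U' ↔ (1 : ℚ_[2]) ⊗ₜ[ℤ_[2]] m ∈ W' := fun m => Iff.rfl
  refine ⟨U', ?_, ?_, ?_⟩
  · intro u hu
    rw [hU'] at hu ⊢
    have h3 := hW' hu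
    rw [Submodule.mem_comap, LinearMap.baseChange_tmul] at h3
    exact h3
  · rw [eq_bot_iff]
    rintro m ⟨hm, hm'⟩
    have h3 : (1 : ℚ_[2]) ⊗ₜ[ℤ_[2]] m ∈ W ⊓ W' := ⟨Submodule.subset_span ⟨m, hm, rfl⟩, hm'⟩
    rw [hc.inf_eq_bot, Submodule.mem_bot] at h3
    exact (Submodule.mem_bot _).2 (one_tmul_inj h3)
  · -- denominators for one element
    have key : ∀ m : M, ∃ r : ℕ, (2 : ℤ_[2]) ^ r • m ∈ U ⊔ U' := by
      intro m
      have h3 : (1 : ℚ_[2]) ⊗ₜ[ℤ_[2]] m ∈ W ⊔ W' := by rw [hc.sup_eq_top]; trivial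
      obtain ⟨w, hw, w', hw', he⟩ := Submodule.mem_sup.1 h3
      obtain ⟨r, u, hu, hr⟩ := hden w hw
      refine ⟨r, Submodule.mem_sup.2 ⟨u, hu, (2 : ℤ_[2]) ^ r • m - u, ?_, by abel⟩⟩
      rw [hU', TensorProduct.tmul_sub, tmul_two, ← hr, ← he, smul_add, add_sub_cancel_left]
      exact W'.smul_mem _ hw'
    obtain ⟨S, hS⟩ := (Module.Finite.fg_top : (⊤ : Submodule ℤ_[2] M).FG)
    choose r hr using key
    refine ⟨∑ s ∈ S, r s, fun m => ?_⟩
    have hm : m ∈ Submodule.span ℤ_[2] (S : Set M) := by rw [hS]; trivial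
    induction hm using Submodule.span_induction with
    | mem m hm =>
      have h3 : ∑ s ∈ S, r s = (∑ s ∈ S.erase m, r s) + r m := by
        rw [add_comm, Finset.add_sum_erase S r hm]
      rw [h3, pow_add, mul_smul]
      exact (U ⊔ U').smul_mem _ (hr m)
    | zero => rw [smul_zero]; exact (U ⊔ U').zero_mem
    | add x y _ _ hx hy => rw [smul_add]; exact (U ⊔ U').add_mem hx hy
    | smul a x _ hx => rw [smul_comm]; exact (U ⊔ U').smul_mem _ hx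

end ss

section cls

variable {K F : Type} [Field K] [Field F] [Algebra K F] (B : Type) [CommRing B]
  [IsDedekindDomain B] [Algebra B F] [IsFractionRing B F] (f : K[X])

/-- The cocycle as an element of the module of cocycles. -/
def toZ (c : ℕ → (Sep F ≃ₐ[F] Sep F) → Jac 2 f (Sep F)) (h : IsTC 2 2 f c)
    (hs : ∀ n, IsSelmer 2 B f (c n)) :
    ↥(Z1 2 (actJ 2 (F := F) f) (IsSelmer 2 B f) (sel_isLocal 2 B f)) :=
  ⟨fun σ => ⟨fun n => c n σ, h.zero σ, fun n => h.step n σ⟩,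
    ⟨fun n => ⟨(h.coc n).lc, (h.coc n).mul⟩, hs⟩⟩

/-- The components of an element of the module of cocycles. -/
theorem of_Z (z : ↥(Z1 2 (actJ 2 (F := F) f) (IsSelmer 2 B f) (sel_isLocal 2 B f))) :
    ∃ (c : ℕ → (Sep F ≃ₐ[F] Sep F) → Jac 2 f (Sep F)) (h : IsTC 2 2 f c)
      (hs : ∀ n, IsSelmer 2 B f (c n)), toZ B f c h hs = z :=
  ⟨fun n σ => (z.1 σ).1 n, ⟨fun n => ⟨(z.2.coc n).lc, (z.2.coc n).mul⟩, fun σ => tm0 (z.1 σ),
    fun n σ => tmS (z.1 σ) n⟩, fun n => z.2.loc n, rfl⟩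

/-- The class of a cochain: zero if it is not a cocycle. -/
noncomputable def clsOf (c : ℕ → (Sep F ≃ₐ[F] Sep F) → Jac 2 f (Sep F)) :
    SelT (F := F) 2 B f 2 :=
  if h : IsTC 2 2 f c ∧ ∀ n, IsSelmer 2 B f (c n) then cls (sel_isLocal 2 B f) (toZ B f c h.1 h.2)
  else 0

theorem clsOf_eq {c : ℕ → (Sep F ≃ₐ[F] Sep F) → Jac 2 f (Sep F)} (h : IsTC 2 2 f c)
    (hs : ∀ n, IsSelmer 2 B f (c n)) :
    clsOf B f c = cls (sel_isLocal 2 B f) (toZ B f c h hs) := dif_pos ⟨h, hs⟩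

theorem clsOf_surj (m : SelT (F := F) 2 B f 2) :
    ∃ c, (IsTC 2 2 f c ∧ ∀ n, IsSelmer 2 B f (c n)) ∧ clsOf B f c = m := by
  obtain ⟨z, rfl⟩ := cls_surj (sel_isLocal 2 B f) m
  obtain ⟨c, h, hs, rfl⟩ := of_Z B f z
  exact ⟨c, ⟨h, hs⟩, clsOf_eq B f h hs⟩

theorem clsOf_add {c d : ℕ → (Sep F ≃ₐ[F] Sep F) → Jac 2 f (Sep F)} (hc : IsTC 2 2 f c)
    (hcs : ∀ n, IsSelmer 2 B f (c n)) (hd : IsTC 2 2 f d) (hds : ∀ n, IsSelmer 2 B f (d n)) :
    clsOf B f (c + d) = clsOf B f c + clsOf B f d := by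
  obtain ⟨e, he, hes, h⟩ := of_Z B f (toZ B f c hc hcs + toZ B f d hd hds)
  have h1 : e = c + d := by
    funext n σ
    have h2 := congrArg (fun z => (z.1 σ).1 n) h
    exact h2
  subst h1
  rw [clsOf_eq B f he hes, clsOf_eq B f hc hcs, clsOf_eq B f hd hds, ← map_add, h]

theorem clsOf_zero {c : ℕ → (Sep F ≃ₐ[F] Sep F) → Jac 2 f (Sep F)} (hc : IsTC 2 2 f c)
    (hcs : ∀ n, IsSelmer 2 B f (c n)) : clsOf B f c = 0 ↔
      ∃ R : ℕ → Jac 2 f (Sep F), IsTM 2 2 f R ∧ ∀ n σ, c n σ = jm 2 f (rs K σ) (R n) - R n := by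
  rw [clsOf_eq B f hc hcs, cls_eq_zero]
  constructor
  · rintro ⟨R, hR⟩
    exact ⟨R.1, ⟨tm0 R, tmS R⟩, fun n σ => hR σ n⟩
  · rintro ⟨R, hR, h⟩
    exact ⟨⟨R, hR.zero, hR.step⟩, fun σ n => h n σ⟩

/-- The action on the classes. -/
theorem clsOf_tw (L : Lift K F (Sep F))
    (hL : IsTw (actJ 2 (F := F) f) (IsSelmer 2 B f) L.conj (jm 2 f (ak L.T)))
    {c : ℕ → (Sep F ≃ₐ[F] Sep F) → Jac 2 f (Sep F)} (hc : IsTC 2 2 f c)
    (hcs : ∀ n, IsSelmer 2 B f (c n)) {d : ℕ → (Sep F ≃ₐ[F] Sep F) → Jac 2 f (Sep F)}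
    (hd : ∀ n (σ σ' : Sep F ≃ₐ[F] Sep F), (∀ x, L.T (σ' x) = σ (L.T x)) →
      d n σ = jm 2 f (ak L.T) (c n σ')) :
    (IsTC 2 2 f d ∧ ∀ n, IsSelmer 2 B f (d n)) ∧
      clsOf B f d = tw (p := 2) (sel_isLocal 2 B f) hL (clsOf B f c) := by
  have h1 : d = fun n σ => jm 2 f (ak L.T) (c n (L.conj σ)) := by
    funext n σ
    exact hd n σ (L.conj σ) (L.T_conj σ)
  obtain ⟨e, he, hes, h⟩ := of_Z B f (twZ (p := 2) (sel_isLocal 2 B f) hL (toZ B f c hc hcs))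
  have h3 : e = d := by
    rw [h1]
    funext n σ
    have h2 := congrArg (fun z => (z.1 σ).1 n) h
    exact h2
  subst h3
  refine ⟨⟨he, hes⟩, ?_⟩
  rw [clsOf_eq B f he hes, clsOf_eq B f hc hcs, tw_cls, h]

end cls

section lift

variable {k k' K F : Type} [Field k] [Field k'] [Algebra k k'] [Field K] [Algebra k[X] K] [Field F]
  [Algebra k'[X] F] [Algebra K F]

/-- An automorphism of `Sep F` over `K` which maps `k'` to itself maps `F` to itself. -/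
theorem exists_lift (hF : IsGeom k k' K F) (τ : k' ≃+* k') (T : Sep F ≃ₐ[K] Sep F)
    (hT : ∀ x : k', T (algebraMap F (Sep F) (algebraMap k'[X] F (C x))) =
      algebraMap F (Sep F) (algebraMap k'[X] F (C (τ x)))) :
    ∃ L : Lift K F (Sep F), L.T = T ∧
      ∀ x : k', L.s (algebraMap k'[X] F (C x)) = algebraMap k'[X] F (C (τ x)) := by
  have key : ∀ (τ : k' ≃+* k') (T : Sep F ≃ₐ[K] Sep F),
      (∀ x : k', T (algebraMap F (Sep F) (algebraMap k'[X] F (C x))) =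
        algebraMap F (Sep F) (algebraMap k'[X] F (C (τ x)))) →
      ∀ x : F, ∃ y : F, T (algebraMap F (Sep F) x) = algebraMap F (Sep F) y := by
    intro τ T hT x
    let j : F →ₐ[K] Sep F := IsScalarTower.toAlgHom K F (Sep F)
    have h1 : IntermediateField.adjoin K (Set.range ((algebraMap k'[X] F).comp C)) ≤
        (j.fieldRange).comap (T.toAlgHom.comp j) := by
      rw [IntermediateField.adjoin_le_iff]
      rintro - ⟨x, rfl⟩
      show T (algebraMap F (Sep F) (algebraMap k'[X] F (C x))) ∈ j.fieldRange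
      rw [hT]
      exact ⟨_, rfl⟩
    rw [hF.gen] at h1
    obtain ⟨y, hy⟩ := h1 (IntermediateField.mem_top (x := x))
    exact ⟨y, hy.symm⟩
  have hT' : ∀ x : k', T.symm (algebraMap F (Sep F) (algebraMap k'[X] F (C x))) =
      algebraMap F (Sep F) (algebraMap k'[X] F (C (τ.symm x))) := by
    intro x
    rw [AlgEquiv.symm_apply_eq, hT, RingEquiv.apply_symm_apply]
  choose s hs using key τ T hT
  choose s' hs' using key τ.symm T.symm hT'
  have hinj : Function.Injective (algebraMap F (Sep F)) := (algebraMap F (Sep F)).injective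
  let e : F ≃ₐ[K] F :=
    { toFun := s
      invFun := s'
      left_inv := fun x => hinj (by rw [← hs', ← hs, AlgEquiv.symm_apply_apply])
      right_inv := fun x => hinj (by rw [← hs, ← hs', AlgEquiv.apply_symm_apply])
      map_mul' := fun x y => hinj (by rw [← hs, map_mul, map_mul, map_mul, hs, hs])
      map_add' := fun x y => hinj (by rw [← hs, map_add, map_add, map_add, hs, hs])
      commutes' := fun x => hinj (by
        rw [← hs, ← IsScalarTower.algebraMap_apply K F (Sep F), T.commutes]) }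
  refine ⟨⟨T, e, hs⟩, rfl, fun x => hinj ?_⟩
  show algebraMap F (Sep F) (s _) = _
  rw [← hs, hT]

end lift

end Pool.Agent.Q45.GM
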