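import Mathlib

/-!
# Products of eigenvalues
-/

set_option autoImplicit false
set_option linter.all false

open Polynomial

namespace Pool.Agent.Q45.GM

/-- In a field of characteristic `2`, if the orders of the `γ i` divide numbers whose pairwise greatest
common divisors are powers of `2`, and the product of the `γ i` is `1`, then all the `γ i` are `1`. -/
theorem all_one {κ : Type} [Field κ] (h2 : (2 : κ) = 0) {ι : Type} [Fintype ι] (N : ι → ℕ)
    (hN : ∀ i, 0 < N i) (hc : ∀ i j, i ≠ j → ∃ r : ℕ, Nat.gcd (N i) (N j) = 2 ^ r) (γ : ι → κ)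
    (hγ : ∀ i, γ i ^ N i = 1) (hp : ∏ i, γ i = 1) (j : ι) : γ j = 1 := by
  classical
  have h1 : γ j * ∏ i ∈ Finset.univ.erase j, γ i = 1 := by
    rw [Finset.mul_prod_erase _ _ (Finset.mem_univ j)]
    exact hp
  set M : ℕ := ∏ i ∈ Finset.univ.erase j, N i with hM
  have h3 : (∏ i ∈ Finset.univ.erase j, γ i) ^ M = 1 := by
    rw [← Finset.prod_pow]
    refine Finset.prod_eq_one fun i hi => ?_
    obtain ⟨c, hc'⟩ : N i ∣ M := Finset.dvd_prod_of_mem N hi
    rw [hc', pow_mul, hγ, one_pow]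
  have h4 : γ j ^ M = 1 := by
    have h5 : (γ j * ∏ i ∈ Finset.univ.erase j, γ i) ^ M = 1 := by rw [h1, one_pow]
    rwa [mul_pow, h3, mul_one] at h5
  have ho1 : orderOf (γ j) ∣ N j := orderOf_dvd_of_pow_eq_one (hγ j)
  have ho2 : orderOf (γ j) ∣ M := orderOf_dvd_of_pow_eq_one h4
  by_contra hne
  have ho3 : orderOf (γ j) ≠ 1 := fun h => hne (orderOf_eq_one_iff.1 h)
  have ho4 : 0 < orderOf (γ j) := Nat.pos_of_dvd_of_pos ho1 (hN j)
  have hsq : ∀ x : κ, x ^ 2 = 1 → x = 1 := by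
    intro x hx
    have h6 : (x - 1) ^ 2 = 0 := by linear_combination hx + (1 - x) * h2
    have h7 := pow_eq_zero_iff (two_ne_zero) |>.1 h6
    exact sub_eq_zero.1 h7
  have hodd : ¬ 2 ∣ orderOf (γ j) := by
    rintro ⟨c, hc'⟩
    have h8 : (γ j ^ c) ^ 2 = 1 := by
      rw [← pow_mul, mul_comm c 2, ← hc', pow_orderOf_eq_one]
    have h9 := hsq _ h8
    have h10 : orderOf (γ j) ∣ c := orderOf_dvd_of_pow_eq_one h9
    have hcpos : 0 < c := by
      rcases Nat.eq_zero_or_pos c with h0 | h0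
      · subst h0; omega
      · exact h0
    have h11 := Nat.le_of_dvd hcpos h10
    omega
  obtain ⟨p, hp1, hp2⟩ := Nat.exists_prime_and_dvd ho3
  have hp3 : p ∣ N j := hp2.trans ho1
  have hp4 : p ∣ M := hp2.trans ho2
  obtain ⟨i, hi, hpi⟩ := (hp1.prime.dvd_finset_prod_iff _).1 hp4
  have hij : j ≠ i := fun h => (Finset.ne_of_mem_erase hi) h.symm
  obtain ⟨r, hr⟩ := hc j i hij
  have hp5 : p ∣ 2 ^ r := hr ▸ Nat.dvd_gcd hp3 hpi
  have hp6 : p ∣ 2 := hp1.dvd_of_dvd_pow hp5
  have hp7 : p = 2 := (Nat.prime_dvd_prime_iff_eq hp1 Nat.prime_two).1 hp6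
  exact hodd (hp7 ▸ hp2)

/-- The reduction of the integers of an extension field of `ℤ_2`. -/
theorem exists_red (E : Type) [Field E] [Algebra ℤ_[2] E] :
    ∃ (κ : Type) (_ : Field κ) (_ : Algebra (ZMod 2) κ) (r : integralClosure ℤ_[2] E →+* κ),
      r.comp (algebraMap ℤ_[2] (integralClosure ℤ_[2] E)) =
        (algebraMap (ZMod 2) κ).comp (PadicInt.toZMod (p := 2)) := by
  obtain ⟨m, hm⟩ := Ideal.exists_maximal (integralClosure ℤ_[2] E)
  letI : Field (integralClosure ℤ_[2] E ⧸ m) := Ideal.Quotient.field m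
  have hcm : (m.comap (algebraMap ℤ_[2] (integralClosure ℤ_[2] E))).IsMaximal :=
    Ideal.isMaximal_comap_of_isIntegral_of_isMaximal m
  have hcm' : m.comap (algebraMap ℤ_[2] (integralClosure ℤ_[2] E)) = IsLocalRing.maximalIdeal ℤ_[2] :=
    IsLocalRing.eq_maximalIdeal hcm
  let r0 : integralClosure ℤ_[2] E →+* (integralClosure ℤ_[2] E ⧸ m) := Ideal.Quotient.mk m
  have hker : ∀ x : ℤ_[2], PadicInt.toZMod x = 0 →
      (r0.comp (algebraMap ℤ_[2] (integralClosure ℤ_[2] E))) x = 0 := by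
    intro x hx
    have hx' : x ∈ RingHom.ker (PadicInt.toZMod (p := 2)) := hx
    rw [PadicInt.ker_toZMod, ← hcm'] at hx'
    exact Ideal.Quotient.eq_zero_iff_mem.2 hx'
  have hsurj : Function.Surjective (PadicInt.toZMod (p := 2)) := ZMod.ringHom_surjective _
  let a : ZMod 2 →+* (integralClosure ℤ_[2] E ⧸ m) :=
    (PadicInt.toZMod (p := 2)).liftOfRightInverse (Function.surjInv hsurj)
      (Function.rightInverse_surjInv hsurj) ⟨r0.comp (algebraMap ℤ_[2] (integralClosure ℤ_[2] E)), hker⟩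
  letI : Algebra (ZMod 2) (integralClosure ℤ_[2] E ⧸ m) := a.toAlgebra
  refine ⟨integralClosure ℤ_[2] E ⧸ m, inferInstance, inferInstance, r0, ?_⟩
  refine RingHom.ext fun x => ?_
  exact (RingHom.liftOfRightInverse_comp_apply (PadicInt.toZMod (p := 2)) (Function.surjInv hsurj)
    (Function.rightInverse_surjInv hsurj)
    ⟨r0.comp (algebraMap ℤ_[2] (integralClosure ℤ_[2] E)), hker⟩ x).symm

section eig

variable {M : Type} [AddCommGroup M] [Module ℤ_[2] M] [Module.Finite ℤ_[2] M] [Module.Free ℤ_[2] M]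

/-- `α` is `1` or an eigenvalue of `φ`. -/
def OneEig (φ : M →ₗ[ℤ_[2]] M) {E : Type} [Field E] [Algebra ℤ_[2] E] (α : E) : Prop :=
  α = 1 ∨ aeval α φ.charpoly = 0

variable {φ : M →ₗ[ℤ_[2]] M} {n d : ℕ}

/-- The eigenvalues in the ring of integers. -/
theorem OneEig.exists_int {E : Type} [Field E] [Algebra ℤ_[2] E] {α : E} (h : OneEig φ α) :
    ∃ a : integralClosure ℤ_[2] E, (a : E) = α ∧ (a = 1 ∨ aeval a φ.charpoly = 0) := by
  rcases h with h | h
  · exact ⟨1, by rw [h]; rfl, Or.inl rfl⟩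
  · have hi : IsIntegral ℤ_[2] α := ⟨φ.charpoly, LinearMap.charpoly_monic φ, h⟩
    refine ⟨⟨α, hi⟩, rfl, Or.inr ?_⟩
    apply Subtype.ext
    have h1 := Polynomial.aeval_algHom_apply (integralClosure ℤ_[2] E).val
      (⟨α, hi⟩ : integralClosure ℤ_[2] E) φ.charpoly
    exact h1.symm.trans h

theorem red_root {κ R : Type} [Field κ] [Algebra (ZMod 2) κ] [CommRing R] [Algebra ℤ_[2] R]
    (r : R →+* κ)
    (hr : r.comp (algebraMap ℤ_[2] R) = (algebraMap (ZMod 2) κ).comp (PadicInt.toZMod (p := 2)))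
    (P : ℤ_[2][X]) (a : R) (ha : aeval a P = 0) :
    aeval (r a) (P.map (PadicInt.toZMod (p := 2))) = 0 := by
  have h1 := congrArg r ha
  rw [map_zero, aeval_def, hom_eval₂, hr] at h1
  rw [aeval_def, eval₂_map]
  exact h1

/-- The reductions of the eigenvalues: their order divides `n d`, and they are different from `1`. -/
theorem pow_eq_one {κ : Type} [Field κ] [Algebra (ZMod 2) κ] (hn : Odd n)
    (h : φ.charpoly.map (PadicInt.toZMod (p := 2)) ∣
      ∑ j ∈ Finset.range n, (X : (ZMod 2)[X]) ^ (j * d)) (x : κ)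
    (hx : aeval x (φ.charpoly.map (PadicInt.toZMod (p := 2))) = 0) : x ^ (n * d) = 1 ∧ x ≠ 1 := by
  obtain ⟨Q, hQ⟩ := h
  have h1 : ∑ j ∈ Finset.range n, x ^ (j * d) = 0 := by
    have h2 := congrArg (aeval x) hQ
    rw [map_mul, hx, zero_mul, map_sum] at h2
    simpa using h2
  constructor
  · have h3 := geom_sum_mul (x ^ d) n
    have h4 : ∑ j ∈ Finset.range n, (x ^ d) ^ j = 0 := by
      rw [← h1]
      refine Finset.sum_congr rfl fun j _ => ?_
      rw [← pow_mul, mul_comm]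
    rw [h4, zero_mul, ← pow_mul, mul_comm d n] at h3
    exact (sub_eq_zero.1 h3.symm)
  · rintro rfl
    simp only [one_pow, Finset.sum_const, Finset.card_range, nsmul_eq_mul, mul_one] at h1
    haveI : CharP κ 2 := charP_of_injective_algebraMap (algebraMap (ZMod 2) κ).injective 2
    rw [CharP.cast_eq_zero_iff κ 2 n] at h1
    exact (Nat.not_even_iff_odd.2 hn) (even_iff_two_dvd.2 h1)

/-- Two different roots of a monic polynomial over a domain with the same reduction are a double root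
of the reduction. -/
theorem eq_of_red {κ R : Type} [Field κ] [Algebra (ZMod 2) κ] [CommRing R] [IsDomain R]
    [Algebra ℤ_[2] R] (r : R →+* κ)
    (hr : r.comp (algebraMap ℤ_[2] R) = (algebraMap (ZMod 2) κ).comp (PadicInt.toZMod (p := 2)))
    (P : ℤ_[2][X]) (hs : (P.map (PadicInt.toZMod (p := 2))).Separable) (a b : R)
    (ha : aeval a P = 0) (hb : aeval b P = 0) (hab : r a = r b) : a = b := by
  by_contra hne
  have h1 : (X - C a) ∣ P.map (algebraMap ℤ_[2] R) := by
    rw [dvd_iff_isRoot, IsRoot.def, eval_map_algebraMap, ha]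
  obtain ⟨Q, hQ⟩ := h1
  have h2 : (X - C b) ∣ Q := by
    rw [dvd_iff_isRoot, IsRoot.def]
    have h3 := congrArg (eval b) hQ
    rw [eval_map_algebraMap, hb, eval_mul, eval_sub, eval_X, eval_C] at h3
    exact (mul_eq_zero.1 h3.symm).resolve_left (sub_ne_zero.2 (Ne.symm hne))
  obtain ⟨Q', hQ'⟩ := h2
  have h4 : (P.map (PadicInt.toZMod (p := 2))).map (algebraMap (ZMod 2) κ) =
      (X - C (r a)) * ((X - C (r a)) * Q'.map r) := by
    rw [Polynomial.map_map, ← hr, ← Polynomial.map_map, hQ, hQ', Polynomial.map_mul,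
      Polynomial.map_mul, Polynomial.map_sub, Polynomial.map_sub, map_X, map_C, map_C, ← hab]
  have h5 : ((P.map (PadicInt.toZMod (p := 2))).map (algebraMap (ZMod 2) κ)).Separable := hs.map
  rw [h4, ← mul_assoc] at h5
  have h6 := h5.of_mul_left
  have h7 := h6.squarefree (X - C (r a)) (dvd_refl _)
  exact not_isUnit_X_sub_C (r a) h7

end eig

section fam

variable {ι : Type} [Fintype ι] {M : ι → Type} [∀ i, AddCommGroup (M i)] [∀ i, Module ℤ_[2] (M i)]
  [∀ i, Module.Finite ℤ_[2] (M i)] [∀ i, Module.Free ℤ_[2] (M i)] {φ : ∀ i, M i →ₗ[ℤ_[2]] M i}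
  {n d : ι → ℕ}

/-- The factors of equal products have equal reductions. -/
theorem red_eq (hn : ∀ i, Odd (n i)) (hd : ∀ i, 0 < d i)
    (hc : ∀ i j, i ≠ j → ∃ r : ℕ, Nat.gcd (n i * d i) (n j * d j) = 2 ^ r)
    (h : ∀ i, (φ i).charpoly.map (PadicInt.toZMod (p := 2)) ∣
      ∑ j ∈ Finset.range (n i), (X : (ZMod 2)[X]) ^ (j * d i))
    {κ : Type} [Field κ] [Algebra (ZMod 2) κ] (x y : ι → κ)
    (hx : ∀ i, x i = 1 ∨ aeval (x i) ((φ i).charpoly.map (PadicInt.toZMod (p := 2))) = 0)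
    (hy : ∀ i, y i = 1 ∨ aeval (y i) ((φ i).charpoly.map (PadicInt.toZMod (p := 2))) = 0)
    (hxy : ∏ i, x i = ∏ i, y i) (j : ι) : x j = y j := by
  have h1 : ∀ z : ι → κ, (∀ i, z i = 1 ∨
      aeval (z i) ((φ i).charpoly.map (PadicInt.toZMod (p := 2))) = 0) → ∀ i, z i ^ (n i * d i) = 1 := by
    intro z hz i
    rcases hz i with h2 | h2
    · rw [h2, one_pow]
    · exact (pow_eq_one (hn i) (h i) _ h2).1
  have hN : ∀ i, 0 < n i * d i := fun i => Nat.mul_pos (hn i).pos (hd i)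
  have hne : ∀ z : ι → κ, (∀ i, z i ^ (n i * d i) = 1) → ∀ i, z i ≠ 0 := by
    intro z hz i h0
    have h3 := hz i
    rw [h0, zero_pow (hN i).ne'] at h3
    exact zero_ne_one h3
  have hx1 := h1 x hx
  have hy1 := h1 y hy
  have h2 : (2 : κ) = 0 := by
    have h3 : (algebraMap (ZMod 2) κ) 2 = 0 := by
      rw [show (2 : ZMod 2) = 0 from rfl, map_zero]
    rwa [map_ofNat] at h3
  have h4 := all_one h2 (fun i => n i * d i) hN hc (fun i => x i / y i) (fun i => by
    rw [div_pow, hx1, hy1, div_one]) (by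
    rw [Finset.prod_div_distrib, hxy]
    exact div_self (Finset.prod_ne_zero_iff.2 fun i _ => hne y hy1 i)) j
  exact (div_eq_one_iff_eq (hne y hy1 j)).1 h4

/-- The products of the eigenvalues. -/
theorem prod_eig (hn : ∀ i, Odd (n i)) (hd : ∀ i, 0 < d i)
    (hc : ∀ i j, i ≠ j → ∃ r : ℕ, Nat.gcd (n i * d i) (n j * d j) = 2 ^ r)
    (h : ∀ i, (φ i).charpoly.map (PadicInt.toZMod (p := 2)) ∣
      ∑ j ∈ Finset.range (n i), (X : (ZMod 2)[X]) ^ (j * d i))
    (E : Type) [Field E] [Algebra ℤ_[2] E] :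
    (∀ i (α : E), aeval α (φ i).charpoly = 0 → α ≠ 1) ∧
    (∀ α : ι → E, (∀ i, OneEig (φ i) (α i)) → ∏ i, α i = 1 → ∀ i, α i = 1) ∧
    ((∀ i, Odd (d i)) → ∀ α β : ι → E, (∀ i, OneEig (φ i) (α i)) → (∀ i, OneEig (φ i) (β i)) →
      ∏ i, α i = ∏ i, β i → α = β) := by
  obtain ⟨κ, _, _, r, hr⟩ := exists_red E
  have hred : ∀ i (a : integralClosure ℤ_[2] E), (a = 1 ∨ aeval a (φ i).charpoly = 0) →
      (r a = 1 ∨ aeval (r a) ((φ i).charpoly.map (PadicInt.toZMod (p := 2))) = 0) := by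
    rintro i a (h1 | h1)
    · left
      rw [h1, map_one]
    · right
      exact red_root r hr _ a h1
  have hprod : ∀ α β : ι → E, (∀ i, OneEig (φ i) (α i)) → (∀ i, OneEig (φ i) (β i)) →
      ∏ i, α i = ∏ i, β i → ∀ i, ∃ a b : integralClosure ℤ_[2] E, (a : E) = α i ∧ (b : E) = β i ∧
        (a = 1 ∨ aeval a (φ i).charpoly = 0) ∧ (b = 1 ∨ aeval b (φ i).charpoly = 0) ∧ r a = r b := by
    intro α β hα hβ hαβ i
    choose a ha1 ha2 using fun i => (hα i).exists_int
    choose b hb1 hb2 using fun i => (hβ i).exists_int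
    refine ⟨a i, b i, ha1 i, hb1 i, ha2 i, hb2 i, ?_⟩
    have h3 : ∏ i, a i = ∏ i, b i := by
      apply Subtype.ext
      have h4 : ∀ c : ι → integralClosure ℤ_[2] E, ((∏ i, c i : integralClosure ℤ_[2] E) : E) =
          ∏ i, (c i : E) := fun c => map_prod (integralClosure ℤ_[2] E).val c _
      rw [h4, h4]
      simp only [ha1, hb1]
      exact hαβ
    refine red_eq hn hd hc h (fun i => r (a i)) (fun i => r (b i)) (fun i => hred i _ (ha2 i))
      (fun i => hred i _ (hb2 i)) ?_ i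
    rw [← map_prod, ← map_prod, h3]
  have hne : ∀ i (a : integralClosure ℤ_[2] E), aeval a (φ i).charpoly = 0 → r a ≠ 1 := by
    intro i a ha
    exact (pow_eq_one (hn i) (h i) _ (red_root r hr _ a ha)).2
  refine ⟨?_, ?_, ?_⟩
  · rintro i α hα rfl
    refine hne i 1 ?_ (map_one r)
    apply Subtype.ext
    have h1 := Polynomial.aeval_algHom_apply (integralClosure ℤ_[2] E).val
      (1 : integralClosure ℤ_[2] E) (φ i).charpoly
    rw [map_one] at h1
    exact h1.symm.trans hα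
  · intro α hα h1 i
    obtain ⟨a, b, rfl', hb, ha2, hb2, hab⟩ := hprod α (fun _ => 1) hα (fun i => Or.inl rfl)
      (by rw [h1, Finset.prod_const_one]) i
    have hb3 : b = 1 := Subtype.ext (hb.trans rfl)
    rw [hb3, map_one] at hab
    rcases ha2 with h3 | h3
    · rw [← rfl', h3]; rfl
    · exact absurd hab (hne i a h3)
  · intro hdo α β hα hβ hαβ
    funext i
    obtain ⟨a, b, ha1, hb1, ha2, hb2, hab⟩ := hprod α β hα hβ hαβ i
    rw [← ha1, ← hb1]
    rcases ha2 with ha3 | ha3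
    · rcases hb2 with hb3 | hb3
      · rw [ha3, hb3]
      · rw [ha3, map_one] at hab
        exact absurd hab.symm (hne i b hb3)
    · rcases hb2 with hb3 | hb3
      · rw [hb3, map_one] at hab
        exact absurd hab (hne i a ha3)
      · have hN : ((n i * d i : ℕ) : ZMod 2) ≠ 0 := by
          rw [Ne, ZMod.natCast_eq_zero_iff, ← even_iff_two_dvd, Nat.not_even_iff_odd]
          exact (hn i).mul (hdo i)
        have hs : ((X : (ZMod 2)[X]) ^ (n i * d i) - 1).Separable :=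
          X_pow_sub_one_separable_iff.2 hN
        have hgeom : (∑ j ∈ Finset.range (n i), (X : (ZMod 2)[X]) ^ (j * d i)) * (X ^ d i - 1) =
            X ^ (n i * d i) - 1 := by
          have h1 := geom_sum_mul ((X : (ZMod 2)[X]) ^ d i) (n i)
          rw [← pow_mul, mul_comm (d i) (n i)] at h1
          rw [← h1]
          congr 1
          refine Finset.sum_congr rfl fun j _ => ?_
          rw [← pow_mul, mul_comm]
        have hs' : ((φ i).charpoly.map (PadicInt.toZMod (p := 2))).Separable :=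
          Separable.of_dvd hs ((h i).trans (hgeom ▸ dvd_mul_right _ _))
        rw [eq_of_red r hr _ hs' a b ha3 hb3 hab]

end fam

end Pool.Agent.Q45.GM
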