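import Pool.Agent.Q45.GM.Prod

/-!
# Products of eigenvalues, from the roots of polynomials modulo `2`
-/

set_option autoImplicit false
set_option linter.all false

open Polynomial

namespace Pool.Agent.Q45.GM

section fam

variable {ι : Type} {M : ι → Type} [∀ i, AddCommGroup (M i)] [∀ i, Module ℤ_[2] (M i)]
  [∀ i, Module.Finite ℤ_[2] (M i)] [∀ i, Module.Free ℤ_[2] (M i)] {φ : ∀ i, M i →ₗ[ℤ_[2]] M i}
  {R : ι → (ZMod 2)[X]}

/-- The reduction of a set of eigenvalues. -/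
theorem exists_reds (h : ∀ i, (φ i).charpoly.map (PadicInt.toZMod (p := 2)) ∣ R i) {E κ : Type}
    [Field E] [Algebra ℤ_[2] E] [Field κ] [Algebra (ZMod 2) κ] (r : integralClosure ℤ_[2] E →+* κ)
    (hr : r.comp (algebraMap ℤ_[2] (integralClosure ℤ_[2] E)) =
      (algebraMap (ZMod 2) κ).comp (PadicInt.toZMod (p := 2))) (S : Finset ι) (α : ι → E)
    (hα : ∀ i ∈ S, aeval (α i) (φ i).charpoly = 0) :
    ∃ a : ι → integralClosure ℤ_[2] E, (∀ i ∈ S, (a i : E) = α i) ∧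
      (∀ i ∈ S, aeval (a i) (φ i).charpoly = 0) ∧ (∀ i ∈ S, aeval (r (a i)) (R i) = 0) ∧
      ((∏ i ∈ S, a i : integralClosure ℤ_[2] E) : E) = ∏ i ∈ S, α i := by
  classical
  have hint : ∀ i ∈ S, IsIntegral ℤ_[2] (α i) := fun i hi =>
    ⟨(φ i).charpoly, LinearMap.charpoly_monic _, hα i hi⟩
  set a : ι → integralClosure ℤ_[2] E := fun i => if hi : i ∈ S then ⟨α i, hint i hi⟩ else 1 with ha
  have ha1 : ∀ i ∈ S, (a i : E) = α i := by
    intro i hi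
    rw [ha]
    show ((if hi : i ∈ S then (⟨α i, hint i hi⟩ : integralClosure ℤ_[2] E) else 1 :
      integralClosure ℤ_[2] E) : E) = α i
    rw [dif_pos hi]
  have ha2 : ∀ i ∈ S, aeval (a i) (φ i).charpoly = 0 := by
    intro i hi
    apply Subtype.ext
    have h1 := Polynomial.aeval_algHom_apply (integralClosure ℤ_[2] E).val (a i) (φ i).charpoly
    refine h1.symm.trans ?_
    show aeval (a i : E) (φ i).charpoly = 0
    rw [ha1 i hi, hα i hi]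
  refine ⟨a, ha1, ha2, fun i hi => ?_, ?_⟩
  · obtain ⟨Q, hQ⟩ := h i
    rw [hQ, map_mul, red_root r hr _ _ (ha2 i hi), zero_mul]
  · have h3 : ((∏ i ∈ S, a i : integralClosure ℤ_[2] E) : E) = ∏ i ∈ S, (a i : E) :=
      map_prod (integralClosure ℤ_[2] E).val a S
    rw [h3]
    exact Finset.prod_congr rfl fun i hi => ha1 i hi

theorem prod_ne (h : ∀ i, (φ i).charpoly.map (PadicInt.toZMod (p := 2)) ∣ R i)
    (hR : ∀ (κ : Type) [Field κ] [Algebra (ZMod 2) κ] (S : Finset ι) (γ : ι → κ), S.Nonempty →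
      (∀ i ∈ S, aeval (γ i) (R i) = 0) → ∏ i ∈ S, γ i ≠ 1) (E : Type) [Field E]
    [Algebra ℤ_[2] E] (S : Finset ι) (α : ι → E) (hS : S.Nonempty)
    (hα : ∀ i ∈ S, aeval (α i) (φ i).charpoly = 0) : ∏ i ∈ S, α i ≠ 1 := by
  intro h1
  obtain ⟨κ, iκ, iA, r, hr⟩ := exists_red E
  obtain ⟨a, ha1, ha2, ha3, ha4⟩ := exists_reds h r hr S α hα
  refine hR κ S (fun i => r (a i)) hS ha3 ?_
  rw [← map_prod]
  have h2 : (∏ i ∈ S, a i : integralClosure ℤ_[2] E) = 1 := by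
    apply Subtype.ext
    rw [ha4, h1]
    rfl
  rw [h2, map_one]

theorem prod_distinct (h : ∀ i, (φ i).charpoly.map (PadicInt.toZMod (p := 2)) ∣ R i)
    (hs : ∀ i, (R i).Separable)
    (hR : ∀ (κ : Type) [Field κ] [Algebra (ZMod 2) κ] (S S' : Finset ι) (γ δ : ι → κ),
      (∀ i ∈ S, aeval (γ i) (R i) = 0) → (∀ i ∈ S', aeval (δ i) (R i) = 0) →
        ∏ i ∈ S, γ i = ∏ i ∈ S', δ i → S = S' ∧ ∀ i ∈ S, γ i = δ i) (E : Type) [Field E]
    [Algebra ℤ_[2] E] (S S' : Finset ι) (α β : ι → E)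
    (hα : ∀ i ∈ S, aeval (α i) (φ i).charpoly = 0) (hβ : ∀ i ∈ S', aeval (β i) (φ i).charpoly = 0)
    (hp : ∏ i ∈ S, α i = ∏ i ∈ S', β i) : S = S' ∧ ∀ i ∈ S, α i = β i := by
  obtain ⟨κ, iκ, iA, r, hr⟩ := exists_red E
  obtain ⟨a, ha1, ha2, ha3, ha4⟩ := exists_reds h r hr S α hα
  obtain ⟨b, hb1, hb2, hb3, hb4⟩ := exists_reds h r hr S' β hβ
  have h2 : (∏ i ∈ S, a i : integralClosure ℤ_[2] E) = ∏ i ∈ S', b i := by
    apply Subtype.ext
    rw [ha4, hb4, hp]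
  obtain ⟨h3, h4⟩ := hR κ S S' (fun i => r (a i)) (fun i => r (b i)) ha3 hb3 (by
    rw [← map_prod, ← map_prod, h2])
  refine ⟨h3, fun i hi => ?_⟩
  have hi' : i ∈ S' := h3 ▸ hi
  have h5 := eq_of_red r hr _ ((hs i).of_dvd (h i)) (a i) (b i) (ha2 i hi) (hb2 i hi') (h4 i hi)
  rw [← ha1 i hi, ← hb1 i hi', h5]

end fam

end Pool.Agent.Q45.GM
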