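import Mathlib

/-!
# Statements of the lemma jobs of the project GM (only statements)
-/

set_option autoImplicit false
set_option linter.all false

open Polynomial IsDedekindDomain
open scoped Classical TensorProduct

namespace Pool.Agent.Q45.GM

/-- LIN1. `M` is a free `ℤ_p`-module of finite rank with an endomorphism `φ`. There are an additive map
`ε : M → 𝔽_p` such that `m ∈ p M` if `ε (φ ^ i m) = 0` for all `i`, and a monic polynomial `Q` over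
`𝔽_p` which is the reduction of `Q'` with `Q' (φ) M ⊆ p M`. Then the characteristic polynomial of `φ`
modulo `p` divides `Q`; so `rank M ≤ deg Q`. -/
def Lin1 : Prop :=
  ∀ (p : ℕ) [Fact p.Prime] (M : Type) [AddCommGroup M] [Module ℤ_[p] M] [Module.Free ℤ_[p] M]
    [Module.Finite ℤ_[p] M] (φ : M →ₗ[ℤ_[p]] M) (ε : M →+ ZMod p) (Q' : ℤ_[p][X]),
    (∀ m, (∀ i : ℕ, ε ((φ ^ i) m) = 0) → ∃ m', m = (p : ℤ_[p]) • m') →
    (∀ m, ∃ m', aeval φ Q' m = (p : ℤ_[p]) • m') →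
    φ.charpoly.map PadicInt.toZMod ∣ Q'.map PadicInt.toZMod

/-- LIN2. If the characteristic polynomial of `φ` modulo `p` is separable then the characteristic
polynomial of `φ` is separable, `φ` is semisimple over `ℚ_p`, and the endomorphisms of `M` (of `ℚ_p ⊗ M`)
which commute with `φ` are the polynomials in `φ` over `ℤ_p` (over `ℚ_p`). -/
def Lin2 : Prop :=
  ∀ (p : ℕ) [Fact p.Prime] (M : Type) [AddCommGroup M] [Module ℤ_[p] M] [Module.Free ℤ_[p] M]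
    [Module.Finite ℤ_[p] M] (φ : M →ₗ[ℤ_[p]] M), (φ.charpoly.map PadicInt.toZMod).Separable →
    φ.charpoly.Separable ∧
    (∀ ψ : M →ₗ[ℤ_[p]] M, (∀ m, ψ (φ m) = φ (ψ m)) → ∃ P : ℤ_[p][X], ψ = aeval φ P) ∧
    (φ.baseChange ℚ_[p]).charpoly.Separable ∧ Module.End.IsSemisimple (φ.baseChange ℚ_[p]) ∧
    ∀ ψ : (ℚ_[p] ⊗[ℤ_[p]] M) →ₗ[ℚ_[p]] (ℚ_[p] ⊗[ℤ_[p]] M),
      (∀ m, ψ (φ.baseChange ℚ_[p] m) = φ.baseChange ℚ_[p] (ψ m)) →
        ∃ P : ℚ_[p][X], ψ = aeval (φ.baseChange ℚ_[p]) P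

/-- LIN3. `Φ` is a set of endomorphisms of `M`. If the only `Φ`-stable submodules of `M` which contain
`p M` are `p M` and `M`, then the only `Φ`-stable subspaces of `ℚ_p ⊗ M` are `0` and `ℚ_p ⊗ M`. -/
def Lin3 : Prop :=
  ∀ (p : ℕ) [Fact p.Prime] (M : Type) [AddCommGroup M] [Module ℤ_[p] M] [Module.Free ℤ_[p] M]
    [Module.Finite ℤ_[p] M] (Φ : Set (M →ₗ[ℤ_[p]] M)),
    (∀ U : Submodule ℤ_[p] M, (∀ m : M, (p : ℤ_[p]) • m ∈ U) → (∀ φ ∈ Φ, ∀ m ∈ U, φ m ∈ U) →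
      (∀ m ∈ U, ∃ m', m = (p : ℤ_[p]) • m') ∨ U = ⊤) →
    ∀ W : Submodule ℚ_[p] (ℚ_[p] ⊗[ℤ_[p]] M),
      (∀ φ ∈ Φ, ∀ w ∈ W, φ.baseChange ℚ_[p] w ∈ W) → W = ⊥ ∨ W = ⊤

/-- LIN4. If the only endomorphisms of `M` which commute with `Φ` modulo `p` are the integers modulo `p`,
then the only endomorphisms of `ℚ_p ⊗ M` which commute with `Φ` are the elements of `ℚ_p`. -/
def Lin4 : Prop :=
  ∀ (p : ℕ) [Fact p.Prime] (M : Type) [AddCommGroup M] [Module ℤ_[p] M] [Module.Free ℤ_[p] M]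
    [Module.Finite ℤ_[p] M] (Φ : Set (M →ₗ[ℤ_[p]] M)),
    (∀ ψ : M →ₗ[ℤ_[p]] M, (∀ φ ∈ Φ, ∀ m, ∃ m', ψ (φ m) - φ (ψ m) = (p : ℤ_[p]) • m') →
      ∃ c : ℤ, ∀ m, ∃ m', ψ m - c • m = (p : ℤ_[p]) • m') →
    (∀ ψ : M →ₗ[ℤ_[p]] M, (∀ φ ∈ Φ, ∀ m, ψ (φ m) = φ (ψ m)) → ∃ c : ℤ_[p], ∀ m, ψ m = c • m) ∧
    ∀ ψ : (ℚ_[p] ⊗[ℤ_[p]] M) →ₗ[ℚ_[p]] (ℚ_[p] ⊗[ℤ_[p]] M),
      (∀ φ ∈ Φ, ∀ w, ψ (φ.baseChange ℚ_[p] w) = φ.baseChange ℚ_[p] (ψ w)) →
        ∃ c : ℚ_[p], ∀ w, ψ w = c • w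

/-- FIN. A torsion-free module over `ℤ_p` which is separated for the `p`-adic topology and finite modulo
`p` is free of finite rank. -/
def Fin1 : Prop :=
  ∀ (p : ℕ) [Fact p.Prime] (M : Type) [AddCommGroup M] [Module ℤ_[p] M] (E : Type) [Finite E]
    (κ : M → E), (∀ m m', κ m = κ m' → ∃ m'', m - m' = (p : ℤ_[p]) • m'') →
    (∀ m : M, (∀ n : ℕ, ∃ m', m = (p : ℤ_[p]) ^ n • m') → m = 0) →
    (∀ m : M, (p : ℤ_[p]) • m = 0 → m = 0) → Module.Finite ℤ_[p] M ∧ Module.Free ℤ_[p] M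

/-- FROB. The roots of an irreducible polynomial `h` of degree `N` over a finite field `k` with `q`
elements, in a separably closed extension, are `ρ i`, `i` modulo `N`, with `ρ (i + 1) = ρ i ^ q`. -/
def Frob : Prop :=
  ∀ (k k' : Type) [Field k] [Finite k] [Field k'] [Algebra k k'] [IsSepClosed k'] (h : k[X]),
    Irreducible h → ∃ ρ : ZMod h.natDegree → k', Function.Injective ρ ∧
      (∀ i, ρ (i + 1) = ρ i ^ Nat.card k) ∧ ∀ x : k', aeval x h = 0 ↔ ∃ i, x = ρ i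

/-- Even valuations: `γ` is a square. -/
def IsSqV (γ : WithZero (Multiplicative ℤ)) : Prop := ∃ δ, γ = δ ^ 2

/-- `N = k'(a, y)` is the function field of the hyperelliptic curve `y ^ 2 = h(a)`. -/
structure IsHyp (k' N : Type) [Field k'] [Field N] [Algebra k'[X] N] (h : k'[X]) (y : N) : Prop where
  inj : Function.Injective (algebraMap k'[X] N)
  sq : y ^ 2 = algebraMap k'[X] N h
  gen : ∀ z : N, ∃ A B D : k'[X], D ≠ 0 ∧
    algebraMap k'[X] N D * z = algebraMap k'[X] N A + algebraMap k'[X] N B * y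

/-- HYP1. `k'` is separably closed, of characteristic not `2`, `h` is a squarefree polynomial with roots
in `k'`, `B'` is the integral closure of `k'[a]` in `N = k'(a, y)`, `y ^ 2 = h(a)`. An element `z ≠ 0` of
`N` with even valuations at all maximal ideals of `B'` is `s ^ 2 ∏ (a - r)`, where `r` runs over some
roots of `h`. -/
def Hyp1 : Prop :=
  ∀ (k' N : Type) [Field k'] [IsSepClosed k'] [Field N] [Algebra k'[X] N] (h : k'[X]) (y : N),
    (2 : k') ≠ 0 → h.Splits → h.Separable → 0 < h.natDegree → IsHyp k' N h y →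
    ∀ (B' : Type) [CommRing B'] [IsDedekindDomain B'] [Algebra B' N] [IsFractionRing B' N]
      [Algebra k'[X] B'] [IsScalarTower k'[X] B' N] [IsIntegralClosure B' k'[X] N] (z : N), z ≠ 0 →
      (∀ 𝔓 : HeightOneSpectrum B', IsSqV (𝔓.valuation N z)) →
      ∃ (S : Finset k') (s : N), S ⊆ h.roots.toFinset ∧ s ≠ 0 ∧
        z = s ^ 2 * algebraMap k'[X] N (∏ r ∈ S, (X - C r))

/-- HYP2. The only products `∏ (a - r)` which are squares in `N` are the empty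
product and the product over all roots. -/
def Hyp2 : Prop :=
  ∀ (k' N : Type) [Field k'] [Field N] [Algebra k'[X] N] (h : k'[X]) (y : N),
    (2 : k') ≠ 0 → h.Splits → h.Separable → 0 < h.natDegree → IsHyp k' N h y →
    ∀ (S : Finset k') (s : N), S ⊆ h.roots.toFinset →
      s ^ 2 = algebraMap k'[X] N (∏ r ∈ S, (X - C r)) → S = ∅ ∨ S = h.roots.toFinset

end Pool.Agent.Q45.GM
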