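import Mathlib

/-!
# Statements of the lemma jobs of the project GM, second part (only statements)
-/

set_option autoImplicit false
set_option linter.all false

open Polynomial IsDedekindDomain
open scoped Classical TensorProduct

namespace Pool.Agent.Q45.GM

/-- LIFTS. `K = k(t)(β)`, `β ^ 2 = b(t)`, `b` separable of positive degree, and `F = k' K`. Every
automorphism `τ` of `k'` over `k` extends to an automorphism `s` of `F` over `K`. -/
def LiftS : Prop :=
  ∀ (k k' K F : Type) [Field k] [Field k'] [Algebra k k'] [Field K] [Algebra k[X] K] [Field F]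
    [Algebra k'[X] F] [Algebra K F] (b : k[X]) (β : K), (2 : k) ≠ 0 → b.Separable →
    0 < b.natDegree → Function.Injective (algebraMap k[X] K) → β ^ 2 = algebraMap k[X] K b →
    Subfield.closure (Set.range (algebraMap k[X] K) ∪ {β}) = ⊤ →
    Function.Injective (algebraMap k'[X] F) →
    (∀ p : k[X], algebraMap K F (algebraMap k[X] K p) =
      algebraMap k'[X] F (p.map (algebraMap k k'))) →
    IntermediateField.adjoin K (Set.range ((algebraMap k'[X] F).comp C)) = ⊤ →
    ∀ τ : k' ≃ₐ[k] k', ∃ s : F ≃ₐ[K] F, ∀ x : k',
      s (algebraMap k'[X] F (C x)) = algebraMap k'[X] F (C (τ x))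

/-- LIFTT. Every automorphism of `F` over `K` extends to the separable closure of `F`. -/
def LiftT : Prop :=
  ∀ (K F : Type) [Field K] [Field F] [Algebra K F] (s : F ≃ₐ[K] F),
    ∃ T : SeparableClosure F ≃ₐ[K] SeparableClosure F, ∀ x : F,
      T (algebraMap F (SeparableClosure F) x) = algebraMap F (SeparableClosure F) (s x)

end Pool.Agent.Q45.GM
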