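import Mathlib

/-!
# The Tate module of an abelian group as a module over the `p`-adic integers
-/

set_option autoImplicit false
set_option linter.all false

open scoped Classical

namespace Pool.Agent.Q45.GM

/-- The Tate module `T_p X` of an abelian group `X`: the sequences `R` in `X` with `R 0 = 0` and
`p R (n + 1) = R n` for all `n`. -/
def TM (p : ℕ) (X : Type) [AddCommGroup X] : AddSubgroup (ℕ → X) where
  carrier := {R | R 0 = 0 ∧ ∀ n, p • R (n + 1) = R n}
  add_mem' := by
    rintro R S ⟨h1, h2⟩ ⟨h3, h4⟩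
    refine ⟨?_, fun n => ?_⟩
    · rw [Pi.add_apply, h1, h3, add_zero]
    · rw [Pi.add_apply, smul_add, h2, h4, Pi.add_apply]
  zero_mem' := ⟨rfl, fun n => smul_zero _⟩
  neg_mem' := by
    rintro R ⟨h1, h2⟩
    refine ⟨?_, fun n => ?_⟩
    · rw [Pi.neg_apply, h1, neg_zero]
    · rw [Pi.neg_apply, smul_neg, h2, Pi.neg_apply]

section tm

variable {p : ℕ} {X Y : Type} [AddCommGroup X] [AddCommGroup Y]

theorem tm0 (R : TM p X) : R.1 0 = 0 := R.2.1

theorem tmS (R : TM p X) (n : ℕ) : p • R.1 (n + 1) = R.1 n := R.2.2 n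

theorem tmP (R : TM p X) (m n : ℕ) : p ^ m • R.1 (n + m) = R.1 n := by
  induction m with
  | zero => rw [pow_zero, one_smul, add_zero]
  | succ m ih => rw [pow_succ, mul_smul, ← add_assoc, tmS R, ih]

theorem tmT (R : TM p X) (n : ℕ) : p ^ n • R.1 n = 0 := by
  have h := tmP R n 0
  rwa [zero_add, tm0 R] at h

theorem nsmul_congr {x : X} {q : ℕ} (h : q • x = 0) {u v : ℕ} (huv : (u : ZMod q) = v) :
    u • x = v • x := by
  rw [ZMod.natCast_eq_natCast_iff] at huv
  rw [← Nat.mod_add_div u q, ← Nat.mod_add_div v q, add_smul, add_smul, mul_comm q, mul_comm q,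
    mul_smul, mul_smul, h, smul_zero, smul_zero, huv]

variable [Fact p.Prime]

/-- The residue of a `p`-adic integer modulo `p ^ n`, as a natural number. -/
noncomputable def res (a : ℤ_[p]) (n : ℕ) : ℕ := (PadicInt.toZModPow n a).val

theorem res_cast (a : ℤ_[p]) (n : ℕ) : ((res a n : ℕ) : ZMod (p ^ n)) = PadicInt.toZModPow n a := by
  haveI : NeZero (p ^ n) := ⟨pow_ne_zero _ (Fact.out : p.Prime).ne_zero⟩
  exact ZMod.natCast_zmod_val _

theorem res_cast' (a : ℤ_[p]) {m n : ℕ} (h : m ≤ n) :
    ((res a n : ℕ) : ZMod (p ^ m)) = PadicInt.toZModPow m a := by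
  have h1 := PadicInt.cast_toZModPow m n h a
  rw [← h1, ← res_cast a n, ZMod.cast_natCast (pow_dvd_pow p h)]

/-- Multiplication by `p`-adic integers. -/
noncomputable instance : SMul ℤ_[p] (TM p X) where
  smul a R := ⟨fun n => res a n • R.1 n, by
    refine ⟨?_, fun n => ?_⟩
    · show res a 0 • R.1 0 = 0
      rw [tm0 R, smul_zero]
    · show p • (res a (n + 1) • R.1 (n + 1)) = res a n • R.1 n
      rw [smul_comm, tmS R]
      exact nsmul_congr (tmT R n) (by rw [res_cast' a (Nat.le_succ n), res_cast])⟩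

theorem smul_apply (a : ℤ_[p]) (R : TM p X) (n : ℕ) : (a • R).1 n = res a n • R.1 n := rfl

noncomputable instance : Module ℤ_[p] (TM p X) where
  one_smul R := by
    apply Subtype.ext
    funext n
    rw [smul_apply]
    exact (nsmul_congr (tmT R n) (by rw [res_cast, map_one, Nat.cast_one])).trans (one_smul ℕ _)
  mul_smul a b R := by
    apply Subtype.ext
    funext n
    rw [smul_apply, smul_apply, smul_apply, ← mul_smul]
    exact nsmul_congr (tmT R n) (by rw [res_cast, Nat.cast_mul, res_cast, res_cast, map_mul])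
  smul_zero a := by
    apply Subtype.ext
    funext n
    rw [smul_apply]
    exact smul_zero _
  smul_add a R S := by
    apply Subtype.ext
    funext n
    rw [smul_apply]
    exact smul_add _ _ _
  add_smul a b R := by
    apply Subtype.ext
    funext n
    rw [smul_apply]
    show _ = res a n • R.1 n + res b n • R.1 n
    rw [← add_smul]
    exact nsmul_congr (tmT R n) (by rw [res_cast, Nat.cast_add, res_cast, res_cast, map_add])
  zero_smul R := by
    apply Subtype.ext
    funext n
    rw [smul_apply]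
    exact (nsmul_congr (tmT R n) (by rw [res_cast, map_zero, Nat.cast_zero])).trans (zero_smul ℕ _)

/-- The homomorphism `T_p X → T_p Y` given by a homomorphism `X → Y`. -/
noncomputable def tmMap (φ : X →+ Y) : TM p X →ₗ[ℤ_[p]] TM p Y where
  toFun R := ⟨fun n => φ (R.1 n), by
    refine ⟨?_, fun n => ?_⟩
    · show φ (R.1 0) = 0
      rw [tm0 R, map_zero]
    · show p • φ (R.1 (n + 1)) = φ (R.1 n)
      rw [← map_nsmul, tmS R]⟩
  map_add' R S := by
    apply Subtype.ext
    funext n
    exact map_add φ _ _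
  map_smul' a R := by
    apply Subtype.ext
    funext n
    exact map_nsmul φ _ _

theorem tmMap_apply (φ : X →+ Y) (R : TM p X) (n : ℕ) : (tmMap φ R).1 n = φ (R.1 n) := rfl

theorem nat_smul_apply (m : ℕ) (R : TM p X) (n : ℕ) : (m • R).1 n = m • R.1 n := rfl

theorem pow_smul_apply (m : ℕ) (R : TM p X) (n : ℕ) :
    (((p : ℤ_[p]) ^ m) • R).1 n = p ^ m • R.1 n := by
  have h : ((p : ℤ_[p]) ^ m) • R = (p ^ m) • R := by
    rw [← Nat.cast_pow, Nat.cast_smul_eq_nsmul]
  rw [h, nat_smul_apply]

/-- The shift: if `R 1 = 0` then `R = p R'`. -/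
def tmShift (R : TM p X) (h : R.1 1 = 0) : TM p X :=
  ⟨fun n => R.1 (n + 1), by rw [← h], fun n => tmS R (n + 1)⟩

theorem tmShift_apply (R : TM p X) (h : R.1 1 = 0) (n : ℕ) : (tmShift R h).1 n = R.1 (n + 1) := rfl

theorem smul_tmShift (R : TM p X) (h : R.1 1 = 0) : (p : ℤ_[p]) • tmShift R h = R := by
  apply Subtype.ext
  funext n
  have h1 := pow_smul_apply 1 (tmShift R h) n
  rw [pow_one, pow_one] at h1
  rw [h1, tmShift_apply, tmS R]

end tm

end Pool.Agent.Q45.GM
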